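import Pool.Agent.HT13.Bonami

/-! # HT13-LowMass: small sets have little Fourier mass at low levels (paper: section 0, (B')) -/

set_option linter.unusedSectionVars false

namespace HT13

open Finset

variable {ι : Type} [Fintype ι] [DecidableEq ι]

/-- Let `P x = ∑_{(spt a).card ≤ L} fh f a * chi a x` (low part).  Then `∑_{low} ‖fh f a‖² = avR ‖P‖² = |avC (conj P * f)|
≤ M * avR (1_S * ‖P‖) ≤ M * (dens S)^(3/4) * (avR ‖P‖⁴)^(1/4) ≤ M * (dens S)^(3/4) * 5^(L/2) * (avR ‖P‖²)^(1/2)`
by two applications of Cauchy-Schwarz (`avR_mul_sq_le`) and `bonami`; now square and divide. -/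
theorem low_mass {f : (ι → ZMod 3) → ℂ} {M : ℝ} (hM : ∀ x, ‖f x‖ ≤ M) {S : Finset (ι → ZMod 3)}
    (hS : ∀ x, x ∉ S → f x = 0) (L : ℕ) :
    ∑ a ∈ univ.filter (fun a : ι → ZMod 3 => (spt a).card ≤ L), ‖fh f a‖ ^ 2
      ≤ M ^ 2 * 5 ^ L * (dens S * √(dens S)) := by
  classical
  set F : (ι → ZMod 3) → ℂ := fun b => if (spt b).card ≤ L then fh f b else 0 with hF
  set P : (ι → ZMod 3) → ℂ := fun x => ∑ b, F b * chi b x with hP
  have hfhP : ∀ a, fh P a = F a := fun a => fh_of_expansion F a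
  have hM0 : 0 ≤ M := (norm_nonneg _).trans (hM (fun _ => 0))
  have hd0 : 0 ≤ dens S := dens_nonneg S
  set A : ℝ := avR (fun x => ‖P x‖ ^ 2) with hA
  have hA1 : ∑ a ∈ univ.filter (fun a : ι → ZMod 3 => (spt a).card ≤ L), ‖fh f a‖ ^ 2 = A := by
    rw [hA, ← parseval, sum_filter]
    refine sum_congr rfl fun a _ => ?_
    rw [hfhP, hF]
    dsimp only
    split_ifs
    · rfl
    · simp
  have hA2 : ((A : ℝ) : ℂ) = avC (fun x => (starRingEnd ℂ) (P x) * f x) := by
    rw [← hA1]
    have h1 : avC (fun x => (starRingEnd ℂ) (P x) * f x) =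
        ∑ b, (starRingEnd ℂ) (F b) * fh f b := by
      unfold fh avC
      simp only [hP, map_sum, map_mul, sum_mul, mul_div_assoc']
      rw [sum_comm, sum_div]
      refine sum_congr rfl fun b _ => ?_
      rw [mul_sum]
      congr 1
      refine sum_congr rfl fun x _ => ?_
      ring
    rw [h1, sum_filter]
    push_cast
    refine sum_congr rfl fun a _ => ?_
    rw [hF]
    dsimp only
    split_ifs
    · rw [mul_comm, Complex.mul_conj, Complex.normSq_eq_norm_sq]
    · simp
  have hA0 : 0 ≤ A := avR_nonneg fun x => by positivity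
  set g : (ι → ZMod 3) → ℝ := fun x => if x ∈ S then (1 : ℝ) else 0 with hg
  have hg2 : ∀ x, g x ^ 2 = g x := by
    intro x
    rw [hg]
    dsimp only
    split_ifs <;> simp
  have hdg : avR g = dens S := (dens_eq_avR S).symm
  have hA3 : A ≤ M * avR (fun x => (‖P x‖ * g x) * g x) := by
    have h1 : A = ‖avC (fun x => (starRingEnd ℂ) (P x) * f x)‖ := by
      rw [← hA2, Complex.norm_real, Real.norm_of_nonneg hA0]
    rw [h1]
    have hpos := cube_pos (ι := ι)
    unfold avC avR
    rw [norm_div, mul_div_assoc', mul_sum]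
    have h2 : ‖(3 : ℂ) ^ Fintype.card ι‖ = 3 ^ Fintype.card ι := by
      rw [norm_pow]; norm_num
    rw [h2]
    apply div_le_div_of_nonneg_right _ hpos.le
    refine (norm_sum_le _ _).trans (sum_le_sum fun x _ => ?_)
    rw [norm_mul, RCLike.norm_conj]
    by_cases hx : x ∈ S
    · have : g x = 1 := by rw [hg]; simp [hx]
      rw [this]
      nlinarith [norm_nonneg (P x), hM x]
    · rw [hS x hx]
      have : g x = 0 := by rw [hg]; simp [hx]
      rw [this]
      simp
  have hB1 : (avR fun x => (‖P x‖ * g x) * g x) ^ 2 ≤ (avR fun x => ‖P x‖ ^ 2 * g x) * dens S := by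
    have h1 := avR_mul_sq_le (fun x => ‖P x‖ * g x) g
    have h2 : (avR fun x => (‖P x‖ * g x) ^ 2) = avR fun x => ‖P x‖ ^ 2 * g x := by
      congr 1
      ext x
      rw [mul_pow, hg2]
    have h3 : (avR fun x => g x ^ 2) = dens S := by
      rw [← hdg]
      congr 1
      ext x
      exact hg2 x
    rw [h2, h3] at h1
    exact h1
  have hB2 : (avR fun x => ‖P x‖ ^ 2 * g x) ^ 2 ≤ (avR fun x => ‖P x‖ ^ 4) * dens S := by
    have h1 := avR_mul_sq_le (fun x => ‖P x‖ ^ 2) g
    have h2 : (avR fun x => (‖P x‖ ^ 2) ^ 2) = avR fun x => ‖P x‖ ^ 4 := by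
      congr 1
      ext x
      ring
    have h3 : (avR fun x => g x ^ 2) = dens S := by
      rw [← hdg]
      congr 1
      ext x
      exact hg2 x
    rw [h2, h3] at h1
    exact h1
  have hbon : avR (fun x => ‖P x‖ ^ 4) ≤ 25 ^ L * A ^ 2 := by
    refine bonami L P fun a ha => ?_
    rw [hfhP, hF] at ha
    dsimp only at ha
    by_contra hcon
    rw [if_neg hcon] at ha
    exact ha rfl
  have hB3 : (avR fun x => ‖P x‖ ^ 2 * g x) ≤ 5 ^ L * A * √(dens S) := by
    have h0 : 0 ≤ 5 ^ L * A * √(dens S) := by positivity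
    refine abs_le_of_sq_le_sq' ?_ h0 |>.2
    refine hB2.trans ?_
    rw [mul_pow, mul_pow, Real.sq_sqrt hd0, ← pow_mul, mul_comm L 2, pow_mul]
    norm_num
    exact mul_le_mul_of_nonneg_right hbon hd0
  rw [hA1]
  rcases hA0.eq_or_lt with h0 | h0
  · rw [← h0]
    positivity
  · have hC : A ^ 2 ≤ M ^ 2 * ((5 ^ L * A * √(dens S)) * dens S) := by
      have h1 : 0 ≤ avR (fun x => (‖P x‖ * g x) * g x) := by
        refine avR_nonneg fun x => ?_
        have : 0 ≤ g x := by
          rw [hg]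
          dsimp only
          split_ifs <;> norm_num
        positivity
      calc A ^ 2 ≤ (M * avR (fun x => (‖P x‖ * g x) * g x)) ^ 2 := by gcongr
        _ = M ^ 2 * (avR (fun x => (‖P x‖ * g x) * g x)) ^ 2 := by rw [mul_pow]
        _ ≤ M ^ 2 * ((avR fun x => ‖P x‖ ^ 2 * g x) * dens S) := by gcongr
        _ ≤ _ := by gcongr
    have hC' : A * A ≤ A * (M ^ 2 * 5 ^ L * (dens S * √(dens S))) := by
      calc A * A = A ^ 2 := by ring
        _ ≤ _ := hC
        _ = _ := by ring
    exact le_of_mul_le_mul_left hC' h0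

end HT13
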