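import Pool.Agent.HT13.AMatch
import Pool.Agent.HT13.LowMass

/-! # HT13-AFour: the Fourier side of Lemma A (paper: section 3) -/

set_option linter.unusedSectionVars false

namespace HT13

open Finset

variable {ι : Type} [Fintype ι] [DecidableEq ι]

/-- indicator that the line in direction `k` is not single -/
noncomputable def DD (W : Finset (ι → ZMod 3)) (k : ι) (x : ι → ZMod 3) : ℂ := if lc W k x ≠ 1 then 1 else 0

private theorem af_chi_mixp (T : Finset ι) (b x z : ι → ZMod 3) :
    chi b (mixp T x z) = chi (fun k => if k ∈ T then 0 else b k) x *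
      chi (fun k => if k ∈ T then b k else 0) z := by
  unfold chi
  rw [← ee_add, ← sum_add_distrib]
  congr 1
  refine sum_congr rfl fun k _ => ?_
  unfold mixp
  by_cases hk : k ∈ T
  · simp only [hk, if_true]
    ring
  · simp only [hk, if_false]
    ring

private theorem af_disj (T : Finset ι) (b : ι → ZMod 3) :
    (fun k => if k ∈ T then b k else 0) = 0 ↔ Disjoint (spt b) T := by
  rw [Finset.disjoint_left]
  constructor
  · intro h k hk hkT
    have h1 := congrFun h k
    simp only [hkT, if_true, Pi.zero_apply] at h1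
    exact (mem_filter.1 hk).2 h1
  · intro h
    funext k
    by_cases hk : k ∈ T
    · simp only [hk, if_true, Pi.zero_apply]
      by_contra hne
      exact h (mem_filter.2 ⟨mem_univ k, hne⟩) hk
    · simp only [hk, if_false, Pi.zero_apply]

private theorem af_mres_eq (T : Finset ι) (W : Finset (ι → ZMod 3)) (k : ι) (x : ι → ZMod 3) :
    ((mres T W k x : ℝ) : ℂ) = ∑ b, (if Disjoint (spt b) T then fh (DD W k) b else 0) * chi b x := by
  have h1 : ((mres T W k x : ℝ) : ℂ) = avC (fun z => DD W k (mixp T x z)) := by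
    unfold mres
    rw [← avC_ofReal]
    congr 1
    funext z
    unfold DD
    split_ifs <;> simp
  have h2 : (fun z => DD W k (mixp T x z)) = fun z => ∑ b, (fh (DD W k) b *
      chi (fun k => if k ∈ T then 0 else b k) x) * chi (fun k => if k ∈ T then b k else 0) z := by
    funext z
    rw [inversion (DD W k) (mixp T x z)]
    refine sum_congr rfl fun b _ => ?_
    rw [af_chi_mixp]
    ring
  rw [h1, h2, avC_sum]
  refine sum_congr rfl fun b _ => ?_
  rw [avC_const_mul, avC_chi]
  by_cases hb : Disjoint (spt b) T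
  · rw [if_pos ((af_disj T b).2 hb), if_pos hb, mul_one]
    congr 2
    funext j
    by_cases hj : j ∈ T
    · simp only [hj, if_true]
      by_contra hne
      exact (Finset.disjoint_left.1 hb) (mem_filter.2 ⟨mem_univ j, fun h => hne h.symm⟩) hj
    · simp only [hj, if_false]
  · rw [if_neg (fun h => hb ((af_disj T b).1 h)), if_neg hb, mul_zero, zero_mul]

/-- Averaging over the coordinates in `T` kills the frequencies meeting `T` and keeps the others. -/
theorem fh_mres (T : Finset ι) (W : Finset (ι → ZMod 3)) (k : ι) (a : ι → ZMod 3) :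
    fh (fun x => ((mres T W k x : ℝ) : ℂ)) a = if Disjoint (spt a) T then fh (DD W k) a else 0 := by
  have h1 : (fun x => ((mres T W k x : ℝ) : ℂ)) =
      fun x => ∑ b, (if Disjoint (spt b) T then fh (DD W k) b else 0) * chi b x :=
    funext fun x => af_mres_eq T W k x
  rw [h1, fh_of_expansion]

theorem avR_mres_sq (T : Finset ι) (W : Finset (ι → ZMod 3)) (k : ι) :
    avR (fun x => mres T W k x ^ 2) = ∑ a, ‖fh (DD W k) a‖ ^ 2 * (if Disjoint (spt a) T then (1 : ℝ) else 0) := by
  have h1 : (fun x => mres T W k x ^ 2) = fun x => ‖((mres T W k x : ℝ) : ℂ)‖ ^ 2 := by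
    funext x
    rw [Complex.norm_real, Real.norm_eq_abs, sq_abs]
  rw [h1, ← parseval]
  refine sum_congr rfl fun a _ => ?_
  rw [fh_mres]
  by_cases ha : Disjoint (spt a) T
  · rw [if_pos ha, if_pos ha, mul_one]
  · rw [if_neg ha, if_neg ha, mul_zero, norm_zero]
    norm_num

/-- `lc W k` does not depend on the coordinates outside `F` (`fh_eq_zero_of_inv`). -/
theorem DD_supp {F : Finset ι} {W : Finset (ι → ZMod 3)} (hI : Inv F W) (k : ι) (a : ι → ZMod 3)
    (h : fh (DD W k) a ≠ 0) : spt a ⊆ F := by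
  intro j hj
  by_contra hjF
  apply h
  refine fh_eq_zero_of_inv (k := j) (fun x u => ?_) (mem_filter.1 hj).2
  have hlc : lc W k (Function.update x j u) = lc W k x := by
    unfold lc
    congr 1
    ext c
    rw [mem_filter, mem_filter]
    refine and_congr_right fun _ => hI.iff fun i hi => ?_
    by_cases hik : i = k
    · subst hik
      rw [Function.update_self, Function.update_self]
    · rw [Function.update_of_ne hik, Function.update_of_ne hik, Function.update_of_ne]
      rintro rfl
      exact hjF hi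
  unfold DD
  rw [hlc]

theorem sum_DD_sq (W : Finset (ι → ZMod 3)) (k : ι) : ∑ a, ‖fh (DD W k) a‖ ^ 2 = rho W k := by
  rw [parseval]
  unfold rho
  rw [dens_filter_eq_avR]
  congr 1
  funext x
  unfold DD
  split_ifs <;> simp

/-- Split at `(spt a).card ≤ L` (`low_mass` with `M = 1`). -/
theorem A_tail (W : Finset (ι → ZMod 3)) (k : ι) (p L : ℕ) :
    ∑ a, ‖fh (DD W k) a‖ ^ 2 * ((p : ℝ) / (p + 1)) ^ (spt a).card
      ≤ 5 ^ L * (rho W k * √(rho W k)) + ((p : ℝ) / (p + 1)) ^ L * rho W k := by
  have hr0 : (0 : ℝ) ≤ (p : ℝ) / (p + 1) := by positivity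
  have hr1 : (p : ℝ) / (p + 1) ≤ 1 := by
    rw [div_le_one (by positivity)]
    linarith
  have hlow := low_mass (f := DD W k) (M := 1) (S := univ.filter fun x => lc W k x ≠ 1)
    (fun x => by unfold DD; split_ifs <;> simp)
    (fun x hx => by
      unfold DD
      rw [if_neg]
      intro h
      exact hx (mem_filter.2 ⟨mem_univ x, h⟩)) L
  have hlow' : ∑ a ∈ univ.filter (fun a : ι → ZMod 3 => (spt a).card ≤ L), ‖fh (DD W k) a‖ ^ 2 ≤
      5 ^ L * (rho W k * √(rho W k)) := by
    have h1 : (1 : ℝ) ^ 2 * 5 ^ L * (dens (univ.filter fun x => lc W k x ≠ 1) *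
        √(dens (univ.filter fun x => lc W k x ≠ 1))) = 5 ^ L * (rho W k * √(rho W k)) := by
      unfold rho
      ring
    rw [h1] at hlow
    exact hlow
  calc ∑ a, ‖fh (DD W k) a‖ ^ 2 * ((p : ℝ) / (p + 1)) ^ (spt a).card
      ≤ ∑ a, ((if (spt a).card ≤ L then ‖fh (DD W k) a‖ ^ 2 else 0) +
          ((p : ℝ) / (p + 1)) ^ L * ‖fh (DD W k) a‖ ^ 2) := by
        refine sum_le_sum fun a _ => ?_
        have h2 : 0 ≤ ‖fh (DD W k) a‖ ^ 2 := by positivity
        by_cases ha : (spt a).card ≤ L
        · rw [if_pos ha]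
          have h3 : ((p : ℝ) / (p + 1)) ^ (spt a).card ≤ 1 := pow_le_one₀ hr0 hr1
          have h4 : 0 ≤ ((p : ℝ) / (p + 1)) ^ L * ‖fh (DD W k) a‖ ^ 2 := by positivity
          nlinarith
        · rw [if_neg ha, zero_add, mul_comm]
          refine mul_le_mul_of_nonneg_right ?_ h2
          exact pow_le_pow_of_le_one hr0 hr1 (not_le.1 ha).le
    _ = ∑ a ∈ univ.filter (fun a : ι → ZMod 3 => (spt a).card ≤ L), ‖fh (DD W k) a‖ ^ 2 +
          ((p : ℝ) / (p + 1)) ^ L * rho W k := by
        rw [sum_add_distrib, ← mul_sum, sum_DD_sq, ← sum_filter]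
    _ ≤ _ := by linarith

end HT13
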