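import Pool.Agent.HT13.Hyp

/-! # HT13-HypInter: intersections of two hyperplanes -/

set_option linter.unusedSectionVars false

namespace HT13

open Finset

variable {ι : Type} [Fintype ι] [DecidableEq ι]

private theorem hypi_mem {T : Finset ι} {s : ι → ZMod 3} {c : ZMod 3} {x : ι → ZMod 3} :
    x ∈ hyp T s c ↔ ∑ k ∈ T, s k * x k = c := by
  unfold hyp
  simp

private theorem hypi_sum {T : Finset ι} (s : ι → ZMod 3) {i j : ι} (hi : i ∈ T) (hj : j ∈ T)
    (hij : i ≠ j) (x : ι → ZMod 3) (u v : ZMod 3) :
    ∑ k ∈ T, s k * Function.update (Function.update x i u) j v k =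
      ∑ k ∈ T, s k * x k + s i * (u - x i) + s j * (v - x j) := by
  have h : ∀ k, s k * Function.update (Function.update x i u) j v k =
      s k * x k + (if k = i then s i * (u - x i) else 0) + (if k = j then s j * (v - x j) else 0) := by
    intro k
    by_cases h1 : k = j
    · subst h1
      rw [Function.update_self, if_neg (fun h => hij h.symm), if_pos rfl]
      ring
    · rw [Function.update_of_ne h1, if_neg h1]
      by_cases h2 : k = i
      · subst h2
        rw [Function.update_self, if_pos rfl]
        ring
      · rw [Function.update_of_ne h2, if_neg h2]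
        ring
  rw [Finset.sum_congr rfl (fun k _ => h k), sum_add_distrib, sum_add_distrib,
    Finset.sum_ite_eq' T i, Finset.sum_ite_eq' T j, if_pos hi, if_pos hj]

/-- a solution in every plane -/
private theorem hypi_solve {T : Finset ι} {s s' : ι → ZMod 3} {c c' : ZMod 3} {i j : ι} (hi : i ∈ T)
    (hj : j ∈ T) (h : s i * s' j ≠ s j * s' i) (x : ι → ZMod 3) :
    ∃ u v : ZMod 3, Function.update (Function.update x i u) j v ∈ hyp T s c ∩ hyp T s' c' := by
  have : Fact (Nat.Prime 3) := ⟨Nat.prime_three⟩
  have hij : i ≠ j := by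
    rintro rfl
    exact h rfl
  have hD : s i * s' j - s j * s' i ≠ 0 := sub_ne_zero.2 h
  set C := c - ∑ k ∈ T, s k * x k with hC
  set C' := c' - ∑ k ∈ T, s' k * x k with hC'
  have hr : (s i * s' j - s j * s' i) * (s i * s' j - s j * s' i)⁻¹ = 1 := mul_inv_cancel₀ hD
  set r := (s i * s' j - s j * s' i)⁻¹ with hrdef
  refine ⟨x i + (C * s' j - C' * s j) * r, x j + (s i * C' - s' i * C) * r, ?_⟩
  rw [mem_inter, hypi_mem, hypi_mem, hypi_sum s hi hj hij, hypi_sum s' hi hj hij]
  constructor
  · linear_combination C * hr + hC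
  · linear_combination C' * hr + hC'

/-- proportional coefficients -/
private theorem hypi_prop {T : Finset ι} {s s' : ι → ZMod 3} {i : ι} {c' : ZMod 3}
    (hs : Sgn s) (hs' : Sgn s') (h : ∀ j ∈ T, s i * s' j = s j * s' i) :
    hyp T s' c' = hyp T s (c' * (s i / s' i)) := by
  have : Fact (Nat.Prime 3) := ⟨Nat.prime_three⟩
  ext x
  rw [hypi_mem, hypi_mem]
  have h1 : s' i ≠ 0 := hs' i
  have h2 : s i ≠ 0 := hs i
  have e : ∑ k ∈ T, s k * x k = (∑ k ∈ T, s' k * x k) * (s i / s' i) := by
    rw [Finset.sum_mul]
    refine Finset.sum_congr rfl fun k hk => ?_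
    have h3 := h k hk
    field_simp
    linear_combination -(x k) * h3
  rw [e]
  constructor
  · intro h3
    rw [h3]
  · intro h3
    exact mul_right_cancel₀ (div_ne_zero h2 h1) h3

/-- Two hyperplanes which meet do so in density at least `1/9`.
If `s' = ε s` on `T` with a sign `ε` they are equal (density `1/3`, or `1` if `T` is empty).  Otherwise there are `i, j ∈ T`
with `s i * s' j ≠ s j * s' i` and in every plane in the directions `i, j` the two equations have exactly one solution:
density `1/9`. -/
theorem dens_hyp_inter {T : Finset ι} {s s' : ι → ZMod 3} (hs : Sgn s) (hs' : Sgn s') {c c' : ZMod 3}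
    (h : (hyp T s c ∩ hyp T s' c').Nonempty) : 1 / 9 ≤ dens (hyp T s c ∩ hyp T s' c') := by
  rcases T.eq_empty_or_nonempty with hT | ⟨i, hi⟩
  · subst hT
    obtain ⟨x, hx⟩ := h
    rw [mem_inter, hypi_mem, hypi_mem] at hx
    have e : hyp ∅ s c ∩ hyp ∅ s' c' = univ := by
      ext y
      rw [mem_inter, hypi_mem, hypi_mem]
      simp only [mem_univ, iff_true]
      exact ⟨by simpa using hx.1, by simpa using hx.2⟩
    rw [e, dens_univ]
    norm_num
  by_cases hp : ∀ j ∈ T, s i * s' j = s j * s' i
  · have h1 := hypi_prop (c' := c') hs hs' hp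
    obtain ⟨x, hx⟩ := h
    rw [mem_inter, h1, hypi_mem, hypi_mem] at hx
    have h2 : c' * (s i / s' i) = c := by rw [← hx.1, ← hx.2]
    rw [h1, h2, inter_self, dens_hyp ⟨i, hi⟩ hs]
    norm_num
  · push Not at hp
    obtain ⟨j, hj, hij⟩ := hp
    have hsol := fun x : ι → ZMod 3 => hypi_solve (c := c) (c' := c') hi hj hij x
    choose u v huv using hsol
    set I := hyp T s c ∩ hyp T s' c' with hI
    have h1 : (univ : Finset (ι → ZMod 3)).card ≤ 9 * I.card := by
      have h2 : ∀ y ∈ (univ : Finset (ι → ZMod 3)).image
          (fun x => Function.update (Function.update x i (u x)) j (v x)),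
          ((univ : Finset (ι → ZMod 3)).filter
            (fun x => Function.update (Function.update x i (u x)) j (v x) = y)).card ≤ 9 := by
        intro y _
        have h3 : (univ : Finset (ι → ZMod 3)).filter
            (fun x => Function.update (Function.update x i (u x)) j (v x) = y) ⊆
            (univ : Finset (ZMod 3 × ZMod 3)).image
              (fun p => Function.update (Function.update y i p.1) j p.2) := by
          intro x hx
          rw [mem_filter] at hx
          rw [mem_image]
          refine ⟨(x i, x j), mem_univ _, ?_⟩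
          rw [← hx.2]
          funext k
          by_cases h4 : k = j
          · subst h4; simp
          · rw [Function.update_of_ne h4]
            by_cases h5 : k = i
            · subst h5; simp
            · rw [Function.update_of_ne h5, Function.update_of_ne h4, Function.update_of_ne h5]
        refine (card_le_card h3).trans (card_image_le.trans ?_)
        rw [card_univ, Fintype.card_prod, ZMod.card]
      have h3 := card_le_mul_card_image (s := (univ : Finset (ι → ZMod 3)))
        (f := fun x => Function.update (Function.update x i (u x)) j (v x)) 9 h2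
      refine h3.trans (Nat.mul_le_mul_left _ (card_le_card ?_))
      intro y hy
      obtain ⟨x, _, rfl⟩ := mem_image.1 hy
      exact huv x
    have hpos := cube_pos (ι := ι)
    unfold dens
    rw [le_div_iff₀ hpos]
    rw [card_univ, card_cube] at h1
    have h2 : ((3 ^ Fintype.card ι : ℕ) : ℝ) ≤ ((9 * I.card : ℕ) : ℝ) := by exact_mod_cast h1
    push_cast at h2
    linarith

/-- Disjoint hyperplanes are parallel. -/
theorem hyp_parallel {T : Finset ι} (hT : T.Nonempty) {s s' : ι → ZMod 3} (hs : Sgn s) (hs' : Sgn s') {c c' : ZMod 3}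
    (h : hyp T s c ∩ hyp T s' c' = ∅) : ∃ g : ZMod 3, g ≠ 0 ∧ hyp T s' c' = hyp T s (c + g) := by
  obtain ⟨i, hi⟩ := hT
  by_cases hp : ∀ j ∈ T, s i * s' j = s j * s' i
  · have h1 := hypi_prop (c' := c') hs hs' hp
    refine ⟨c' * (s i / s' i) - c, ?_, ?_⟩
    · intro h2
      have h3 : c' * (s i / s' i) = c := sub_eq_zero.1 h2
      rw [h1, h3, inter_self] at h
      obtain ⟨u, hu, _⟩ := hyp_line hs c hi (fun _ => 0)
      rw [h] at hu
      exact notMem_empty _ hu
    · rw [h1]
      congr 1
      ring
  · push Not at hp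
    obtain ⟨j, hj, hij⟩ := hp
    obtain ⟨u, v, huv⟩ := hypi_solve (c := c) (c' := c') hi hj hij (fun _ => 0)
    rw [h] at huv
    exact absurd huv (notMem_empty _)

end HT13
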