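import Pool.Agent.HT13.AMatch
import Pool.Agent.HT13.HypInter

/-! # HT13-AKey: the key step of Lemma A (paper: section 3)

For every slice `V = slc T W x` choose a hyperplane `Hs V` with `dev V := dens (symmDiff V (Hs V)) ≤ CP √(RR T V)`
(`Classical.choose`, for `V` satisfying the hypotheses of `hP`; `Hs V = hyp T 1 0` otherwise).
Let `B = {x ∈ W : x ∉ Hs (slc T W x)} ∪ {x ∈ W : 1/36 < dev (slc T W x)}`; `dens B ≤ 37 * avR dev ≤ 37 CP √(RR T W)`
(`dens_outside_le`, `markov`, `avR_sqrt_le`, `avR_RR_slc`).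
Let `k ∈ S` (so `k ∈ F`, `k ∉ T`), `x ∈ Mt W k` with partner `x' = update x k a ∈ W`, and suppose `x, x' ∉ B`.  Put
`V = slc T W x`, `V' = slc T W x'`.  Then `x ∈ Hs V`, `x' ∈ Hs V'` so also `x ∈ Hs V'` (`x = x'` on `T`): `Hs V ∩ Hs V'` is
nonempty so has density `≥ 1/9` (`dens_hyp_inter`), hence `dens (V ∩ V') ≥ 1/9 - 2/36 = 1/18`.  For `z ∈ V ∩ V'` both
`mixp T x z` and `mixp T x' z` are in `W`, they are different and on one `k`-line: `lc W k (mixp T x z) ≥ 2`.  So
`mres T W k x ≥ 1/18`.  Now sum over `k ∈ S`: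
`∑ dens (Mt W k) ≤ ∑ dens (Mt W k ∩ B) + ∑ dens {x ∈ Mt W k : partner ∈ B} + ∑ dens {x ∈ Mt W k : 1/18 ≤ mres}`. -/

set_option linter.unusedSectionVars false

namespace HT13

open Finset

variable {ι : Type} [Fintype ι] [DecidableEq ι]

/-- the other point of `W` on a double line -/
private theorem akey_partner {W : Finset (ι → ZMod 3)} {k : ι} {x : ι → ZMod 3} (hx : x ∈ Mt W k) :
    x ∈ W ∧ ∃ a : ZMod 3, a ≠ x k ∧ Function.update x k a ∈ W := by
  unfold Mt at hx
  rw [mem_filter] at hx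
  obtain ⟨_, hxW, hlc⟩ := hx
  refine ⟨hxW, ?_⟩
  unfold lc at hlc
  have h2 : 1 < (univ.filter fun a : ZMod 3 => Function.update x k a ∈ W).card := by
    rw [hlc]
    norm_num
  obtain ⟨a, ha, hne⟩ := Finset.exists_mem_ne h2 (x k)
  exact ⟨a, hne, (mem_filter.1 ha).2⟩

/-- two points of `W` on a line -/
private theorem akey_two_le {W : Finset (ι → ZMod 3)} {k : ι} {y : ι → ZMod 3} {a : ZMod 3} (hy : y ∈ W)
    (ha : a ≠ y k) (hya : Function.update y k a ∈ W) : lc W k y ≠ 1 := by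
  intro h
  unfold lc at h
  rw [card_eq_one] at h
  obtain ⟨b, hb⟩ := h
  have h1 : a ∈ (univ.filter fun a : ZMod 3 => Function.update y k a ∈ W) := by
    rw [mem_filter]
    exact ⟨mem_univ _, hya⟩
  have h2 : y k ∈ (univ.filter fun a : ZMod 3 => Function.update y k a ∈ W) := by
    rw [mem_filter, Function.update_eq_self]
    exact ⟨mem_univ _, hy⟩
  rw [hb, mem_singleton] at h1 h2
  exact ha (h1.trans h2.symm)

/-- the core of the argument: two hyperplanes near two slices -/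
private theorem akey_mres {T : Finset ι} {W : Finset (ι → ZMod 3)} {Hs : Finset (ι → ZMod 3) → Finset (ι → ZMod 3)}
    (hHI : ∀ V, Inv T (Hs V))
    (hHH : ∀ V V', (Hs V ∩ Hs V').Nonempty → 1 / 9 ≤ dens (Hs V ∩ Hs V'))
    {k : ι} (hk : k ∉ T) {x : ι → ZMod 3} {a : ZMod 3} (ha : a ≠ x k)
    (h1 : x ∈ Hs (slc T W x)) (h2 : dens (symmDiff (slc T W x) (Hs (slc T W x))) ≤ 1 / 36)
    (h3 : Function.update x k a ∈ Hs (slc T W (Function.update x k a)))
    (h4 : dens (symmDiff (slc T W (Function.update x k a)) (Hs (slc T W (Function.update x k a)))) ≤ 1 / 36) :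
    1 / 18 ≤ mres T W k x := by
  set V := slc T W x with hVdef
  set V' := slc T W (Function.update x k a) with hV'def
  have h5 : x ∈ Hs V' := by
    refine hHI V' _ _ (fun j hj => ?_) h3
    rw [Function.update_of_ne]
    rintro rfl
    exact hk hj
  have h6 : 1 / 9 ≤ dens (Hs V ∩ Hs V') := hHH V V' ⟨x, mem_inter.2 ⟨h1, h5⟩⟩
  have h7 : dens (Hs V ∩ Hs V') ≤ dens (V ∩ V') + (dens (symmDiff V (Hs V)) + dens (symmDiff V' (Hs V'))) := by
    have hsub : Hs V ∩ Hs V' ⊆ (V ∩ V') ∪ (symmDiff V (Hs V) ∪ symmDiff V' (Hs V')) := by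
      intro z hz
      rw [mem_inter] at hz
      rw [mem_union, mem_union, mem_inter, mem_symmDiff, mem_symmDiff]
      by_cases hzV : z ∈ V
      · by_cases hzV' : z ∈ V'
        · exact Or.inl ⟨hzV, hzV'⟩
        · exact Or.inr (Or.inr (Or.inr ⟨hz.2, hzV'⟩))
      · exact Or.inr (Or.inl (Or.inr ⟨hz.1, hzV⟩))
    refine (dens_mono hsub).trans ((dens_union_le _ _).trans ?_)
    have := dens_union_le (symmDiff V (Hs V)) (symmDiff V' (Hs V'))
    linarith
  have h8 : dens (V ∩ V') ≤ mres T W k x := by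
    unfold mres
    rw [dens_eq_avR]
    refine avR_mono fun z => ?_
    by_cases hz : z ∈ V ∩ V'
    · have hz' := mem_inter.1 hz
      have hm1 : mixp T x z ∈ W := mem_slc.1 hz'.1
      have hm2 : Function.update (mixp T x z) k a ∈ W := by
        rw [← mixp_update_notMem hk]
        exact mem_slc.1 hz'.2
      have hne : a ≠ mixp T x z k := by
        unfold mixp
        rw [if_neg hk]
        exact ha
      rw [if_pos hz, if_pos (akey_two_le hm1 hne hm2)]
    · rw [if_neg hz]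
      split_ifs <;> norm_num
  linarith

theorem A_key {F : Finset ι} {W : Finset (ι → ZMod 3)} (hI : Inv F W) (hV : Valid F W) {CP : ℝ} (hCP : 0 < CP)
    {T : Finset ι} (hT : T ⊆ F)
    (hP : ∀ V : Finset (ι → ZMod 3), Inv T V → (∀ k ∈ T, ∀ x, lc V k x ≤ 2) →
      ∃ s : ι → ZMod 3, Sgn s ∧ ∃ c, dens (symmDiff V (hyp T s c)) ≤ CP * √(RR T V))
    {S : Finset ι} (hS : S ⊆ F) (hST : Disjoint S T) :
    ∑ k ∈ S, dens (Mt W k) ≤ 74 * (CP * √(RR T W)) + 18 * ∑ k ∈ S, avR (fun x => mres T W k x ^ 2) := by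
  classical
  have hP' : ∀ V : Finset (ι → ZMod 3), ∃ p : (ι → ZMod 3) × ZMod 3, Sgn p.1 ∧
      (Inv T V → (∀ k ∈ T, ∀ x, lc V k x ≤ 2) → dens (symmDiff V (hyp T p.1 p.2)) ≤ CP * √(RR T V)) := by
    intro V
    by_cases h : Inv T V ∧ ∀ k ∈ T, ∀ x, lc V k x ≤ 2
    · obtain ⟨s, hs, c, hc⟩ := hP V h.1 h.2
      exact ⟨(s, c), hs, fun _ _ => hc⟩
    · exact ⟨(fun _ => 1, 0), fun _ => (one_ne_zero : (1 : ZMod 3) ≠ 0), fun h1 h2 => absurd ⟨h1, h2⟩ h⟩
  choose p hpS hpD using hP'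
  set Hs : Finset (ι → ZMod 3) → Finset (ι → ZMod 3) := fun V => hyp T (p V).1 (p V).2 with hHs
  have hHI : ∀ V, Inv T (Hs V) := fun V => hyp_inv _ _ _
  have hHH : ∀ V V', (Hs V ∩ Hs V').Nonempty → 1 / 9 ≤ dens (Hs V ∩ Hs V') :=
    fun V V' h => dens_hyp_inter (hpS V) (hpS V') h
  set dev : (ι → ZMod 3) → ℝ := fun x => dens (symmDiff (slc T W x) (Hs (slc T W x))) with hdev
  have hdev0 : ∀ x, 0 ≤ dev x := fun x => dens_nonneg _
  have hdevle : ∀ x, dev x ≤ CP * √(RR T (slc T W x)) := fun x =>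
    hpD _ (slc_inv T W x) fun k hk y => lc_le_two (slc_valid hT hV x) hk y
  have hav : avR dev ≤ CP * √(RR T W) := by
    refine (avR_mono hdevle).trans ?_
    rw [avR_const_mul]
    have h1 := avR_sqrt_le (fun x => RR T (slc T W x)) fun x => RR_nonneg T _
    rw [avR_RR_slc] at h1
    exact mul_le_mul_of_nonneg_left h1 hCP.le
  set B1 : Finset (ι → ZMod 3) := univ.filter fun x => x ∈ W ∧ x ∉ Hs (slc T W x) with hB1
  set B2 : Finset (ι → ZMod 3) := univ.filter fun x => x ∈ W ∧ 1 / 36 < dev x with hB2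
  have hB1d : dens B1 ≤ avR dev := dens_outside_le T W Hs hHI
  have hB2d : dens B2 ≤ 36 * avR dev := by
    have h1 : B2 ⊆ univ.filter fun x => 1 / 36 < dev x := by
      intro x hx
      rw [hB2, mem_filter] at hx
      rw [mem_filter]
      exact ⟨hx.1, hx.2.2⟩
    refine (dens_mono h1).trans ((markov dev hdev0 (by norm_num)).trans ?_)
    rw [div_eq_mul_inv]
    norm_num
    linarith
  set B := B1 ∪ B2 with hB
  have hBW : B ⊆ W := by
    intro x hx
    rw [hB, mem_union, hB1, hB2, mem_filter, mem_filter] at hx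
    rcases hx with hx | hx
    · exact hx.2.1
    · exact hx.2.1
  have hBd : dens B ≤ 37 * avR dev := by
    have := dens_union_le B1 B2
    rw [hB]
    linarith
  have hnB : ∀ x, x ∈ W → x ∉ B → x ∈ Hs (slc T W x) ∧ dev x ≤ 1 / 36 := by
    intro x hxW hxB
    rw [hB, mem_union, hB1, hB2, mem_filter, mem_filter] at hxB
    push Not at hxB
    have h1 := hxB.1 (mem_univ _) hxW
    have h2 := hxB.2 (mem_univ _) hxW
    exact ⟨h1, h2⟩
  have hk : ∀ k ∈ S, dens (Mt W k) ≤ 2 * dens (Mt W k ∩ B) + 18 * avR (fun x => mres T W k x ^ 2) := by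
    intro k hkS
    have hkT : k ∉ T := Finset.disjoint_left.1 hST hkS
    have hsub : Mt W k ⊆ (Mt W k ∩ B) ∪
        ((univ.filter fun x => x ∈ Mt W k ∧ ∃ a, a ≠ x k ∧ Function.update x k a ∈ B) ∪
          (univ.filter fun x => x ∈ Mt W k ∧ 1 / 18 ≤ mres T W k x)) := by
      intro x hx
      rw [mem_union, mem_union, mem_inter, mem_filter, mem_filter]
      by_cases hxB : x ∈ B
      · exact Or.inl ⟨hx, hxB⟩
      by_cases hxP : ∃ a, a ≠ x k ∧ Function.update x k a ∈ B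
      · exact Or.inr (Or.inl ⟨mem_univ _, hx, hxP⟩)
      refine Or.inr (Or.inr ⟨mem_univ _, hx, ?_⟩)
      obtain ⟨hxW, a, ha, haW⟩ := akey_partner hx
      have haB : Function.update x k a ∉ B := fun h => hxP ⟨a, ha, h⟩
      have h1 := hnB x hxW hxB
      have h2 := hnB _ haW haB
      exact akey_mres hHI hHH hkT ha h1.1 h1.2 h2.1 h2.2
    have h1 := dens_mono hsub
    have h2 := dens_union_le (Mt W k ∩ B)
      ((univ.filter fun x => x ∈ Mt W k ∧ ∃ a, a ≠ x k ∧ Function.update x k a ∈ B) ∪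
          (univ.filter fun x => x ∈ Mt W k ∧ 1 / 18 ≤ mres T W k x))
    have h3 := dens_union_le (univ.filter fun x => x ∈ Mt W k ∧ ∃ a, a ≠ x k ∧ Function.update x k a ∈ B)
          (univ.filter fun x => x ∈ Mt W k ∧ 1 / 18 ≤ mres T W k x)
    have h4 := dens_partner_le hV (hS hkS) hBW
    have h5 := dens_Mt_large_le T W k
    linarith
  have hsum := sum_le_sum hk
  rw [sum_add_distrib, ← mul_sum, ← mul_sum] at hsum
  have h6 := sum_dens_Mt_inter_le hV hS B
  linarith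

end HT13
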