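import Pool.Agent.HT13.ASlice

/-! # HT13-AMatch: matched points (paper: section 3) -/

set_option linter.unusedSectionVars false

namespace HT13

open Finset

variable {ι : Type} [Fintype ι] [DecidableEq ι]

/-- the points of `W` matched in direction `k` -/
def Mt (W : Finset (ι → ZMod 3)) (k : ι) : Finset (ι → ZMod 3) := univ.filter fun x => x ∈ W ∧ lc W k x = 2

/-- probability, when the coordinates of `x` in `T` are resampled, that the line in direction `k` is not single -/
noncomputable def mres (T : Finset ι) (W : Finset (ι → ZMod 3)) (k : ι) (x : ι → ZMod 3) : ℝ :=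
  avR fun z => if lc W k (mixp T x z) ≠ 1 then (1 : ℝ) else 0

theorem dens_Mt (W : Finset (ι → ZMod 3)) (k : ι) : dens (Mt W k) = 2 / 3 * dd W k := by
  unfold Mt
  exact dens_matched

/-- The map sending `x ∈ Mt W k` to the other point of `W` on the `k`-line is an involution of `Mt W k`. -/
theorem dens_partner_le {F : Finset ι} {W : Finset (ι → ZMod 3)} (hV : Valid F W) {k : ι} (hk : k ∈ F)
    {B : Finset (ι → ZMod 3)} (hB : B ⊆ W) :
    dens (univ.filter fun x => x ∈ Mt W k ∧ ∃ a, a ≠ x k ∧ Function.update x k a ∈ B) ≤ dens (Mt W k ∩ B) := by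
  classical
  have hex : ∀ x ∈ (univ.filter fun x => x ∈ Mt W k ∧ ∃ a, a ≠ x k ∧ Function.update x k a ∈ B),
      ∃ a, a ≠ x k ∧ Function.update x k a ∈ B := fun x hx => (mem_filter.1 hx).2.2
  choose! g hg1 hg2 using hex
  unfold dens
  apply div_le_div_of_nonneg_right _ (by positivity)
  rw [Nat.cast_le]
  refine card_le_card_of_injOn (fun x => Function.update x k (g x)) ?_ ?_
  · intro x hx
    have h1 := (mem_filter.1 (mem_coe.1 hx)).2.1
    unfold Mt at h1
    rw [mem_filter] at h1
    have h2 := hg2 x hx
    rw [mem_coe, mem_inter]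
    refine ⟨?_, h2⟩
    unfold Mt
    rw [mem_filter]
    refine ⟨mem_univ _, hB h2, ?_⟩
    rw [lc_update]
    exact h1.2.2
  · intro x hx x' hx' hxx'
    have h1 := (mem_filter.1 (mem_coe.1 hx)).2.1
    have h1' := (mem_filter.1 (mem_coe.1 hx')).2.1
    unfold Mt at h1 h1'
    rw [mem_filter] at h1 h1'
    have hga : g x = g x' := by
      have := congrFun hxx' k
      simpa using this
    have hoff : ∀ j, j ≠ k → x j = x' j := by
      intro j hj
      have := congrFun hxx' j
      simpa [Function.update_of_ne hj] using this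
    have hx'' : Function.update x k (x' k) = x' := by
      funext j
      by_cases hj : j = k
      · subst hj; simp
      · rw [Function.update_of_ne hj]; exact hoff j hj
    have hkk : x k = x' k := by
      by_contra hne
      have h3 : ({x k, g x, x' k} : Finset (ZMod 3)) ⊆
          univ.filter fun a : ZMod 3 => Function.update x k a ∈ W := by
        intro a ha
        rw [mem_filter]
        refine ⟨mem_univ _, ?_⟩
        simp only [mem_insert, mem_singleton] at ha
        rcases ha with rfl | rfl | rfl
        · rw [Function.update_eq_self]; exact h1.2.1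
        · exact hB (hg2 x hx)
        · rw [hx'']; exact h1'.2.1
      have h4 := card_le_card h3
      have h5 : (univ.filter fun a : ZMod 3 => Function.update x k a ∈ W).card = 2 := h1.2.2
      have h6 : ({x k, g x, x' k} : Finset (ZMod 3)).card = 3 := by
        rw [card_eq_three]
        refine ⟨x k, g x, x' k, (hg1 x hx).symm, hne, ?_, rfl⟩
        rw [hga]
        exact hg1 x' hx'
      omega
    rw [← hx'', ← hkk, Function.update_eq_self]

/-- the sets `Mt W k` are disjoint (`sum_matched_le`) -/
theorem sum_dens_Mt_inter_le {F : Finset ι} {W : Finset (ι → ZMod 3)} (hV : Valid F W) {S : Finset ι} (hS : S ⊆ F)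
    (B : Finset (ι → ZMod 3)) : ∑ k ∈ S, dens (Mt W k ∩ B) ≤ dens B := by
  refine sum_matched_le (hV.mono hS) B (fun k => Mt W k ∩ B) (fun k _ => inter_subset_right) ?_
  intro k _ x hx
  have h1 := (mem_inter.1 hx).1
  unfold Mt at h1
  exact (mem_filter.1 h1).2

private theorem avR_comm_m (f : (ι → ZMod 3) → (ι → ZMod 3) → ℝ) :
    avR (fun y => avR (fun x => f x y)) = avR (fun x => avR (fun y => f x y)) := by
  unfold avR
  rw [← sum_div, ← sum_div, sum_comm]

private theorem mixp_mixp_m (T : Finset ι) (x y z : ι → ZMod 3) : mixp T (mixp T x y) z = mixp T x z := by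
  funext k
  unfold mixp
  by_cases h : k ∈ T <;> simp [h]

/-- With `Δ x = 1[lc W k x ≠ 1]`: `1_{Mt} ≤ Δ`, `1[m ≥ 1/18] ≤ 18 m` and `avR (Δ * m) = avR (m ^ 2)` for `m = mres T W k`
(`m` does not depend on the coordinates in `T` and is the average of `Δ` over them: `avR_avR_mixp`). -/
theorem dens_Mt_large_le (T : Finset ι) (W : Finset (ι → ZMod 3)) (k : ι) :
    dens (univ.filter fun x => x ∈ Mt W k ∧ 1 / 18 ≤ mres T W k x) ≤ 18 * avR (fun x => mres T W k x ^ 2) := by
  classical
  have hm0 : ∀ x, 0 ≤ mres T W k x := by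
    intro x
    unfold mres
    refine avR_nonneg fun z => ?_
    split_ifs <;> norm_num
  have hmi : ∀ x y, mres T W k (mixp T x y) = mres T W k x := by
    intro x y
    unfold mres
    simp only [mixp_mixp_m]
  have key : avR (fun x => (if lc W k x ≠ 1 then (1 : ℝ) else 0) * mres T W k x) =
      avR (fun x => mres T W k x ^ 2) := by
    rw [← avR_avR_mixp T (fun x => (if lc W k x ≠ 1 then (1 : ℝ) else 0) * mres T W k x),
      avR_comm_m (fun x y => (if lc W k (mixp T x y) ≠ 1 then (1 : ℝ) else 0) * mres T W k (mixp T x y))]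
    congr 1
    funext x
    have h1 : avR (fun y => (if lc W k (mixp T x y) ≠ 1 then (1 : ℝ) else 0) * mres T W k (mixp T x y)) =
        avR (fun y => mres T W k x * (if lc W k (mixp T x y) ≠ 1 then (1 : ℝ) else 0)) := by
      congr 1
      funext y
      rw [hmi, mul_comm]
    rw [h1, avR_const_mul, pow_two]
    rfl
  rw [← key, ← avR_const_mul, dens_filter_eq_avR]
  refine avR_mono fun x => ?_
  by_cases h : x ∈ Mt W k ∧ 1 / 18 ≤ mres T W k x
  · rw [if_pos h]
    have h1 := h.1
    unfold Mt at h1
    rw [mem_filter] at h1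
    have h2 : lc W k x ≠ 1 := by
      rw [h1.2.2]; norm_num
    rw [if_pos h2]
    linarith [h.2]
  · rw [if_neg h]
    have := hm0 x
    split_ifs
    · linarith
    · linarith

end HT13
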