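import Pool.Agent.HT13.Basic

/-! # HT13-ARand: averages over a random set of coordinates (paper: section 3)

The random set is `{k : g k = 0}` with `g : ι → Fin (p + 1)` uniform. -/

set_option linter.unusedSectionVars false

namespace HT13

open Finset

variable {ι : Type} [Fintype ι] [DecidableEq ι]

/-- average of `G {k : g k = 0}` over `g : ι → Fin (p + 1)` -/
noncomputable def avT (p : ℕ) (G : Finset ι → ℝ) : ℝ :=
  (∑ g : ι → Fin (p + 1), G (univ.filter fun k => g k = 0)) / ((p : ℝ) + 1) ^ Fintype.card ι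

theorem avT_den (p : ℕ) : (0 : ℝ) < ((p : ℝ) + 1) ^ Fintype.card ι := by positivity

theorem avT_mono (p : ℕ) {G G' : Finset ι → ℝ} (h : ∀ T, G T ≤ G' T) : avT p G ≤ avT p G' := by
  unfold avT
  refine div_le_div_of_nonneg_right (sum_le_sum fun g _ => h _) (avT_den p).le

theorem avT_add (p : ℕ) (G G' : Finset ι → ℝ) : avT p (fun T => G T + G' T) = avT p G + avT p G' := by
  unfold avT
  rw [sum_add_distrib, add_div]

theorem avT_const (p : ℕ) (c : ℝ) : avT p (fun _ : Finset ι => c) = c := by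
  have h := avT_den (ι := ι) p
  unfold avT
  rw [sum_const, card_univ, Fintype.card_fun, Fintype.card_fin, nsmul_eq_mul]
  push_cast
  field_simp

theorem avT_const_mul (p : ℕ) (c : ℝ) (G : Finset ι → ℝ) : avT p (fun T => c * G T) = c * avT p G := by
  unfold avT
  rw [← mul_sum, mul_div_assoc]

theorem avT_sum (p : ℕ) {α : Type} (s : Finset α) (G : α → Finset ι → ℝ) :
    avT p (fun T => ∑ a ∈ s, G a T) = ∑ a ∈ s, avT p (G a) := by
  unfold avT
  rw [sum_comm, sum_div]

/-- Jensen -/
theorem avT_sqrt_le (p : ℕ) (G : Finset ι → ℝ) (h : ∀ T, 0 ≤ G T) : avT p (fun T => √(G T)) ≤ √(avT p G) := by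
  have hd := avT_den (ι := ι) p
  refine Real.le_sqrt_of_sq_le ?_
  have h1 := sum_mul_sq_le_sq_mul_sq (univ : Finset (ι → Fin (p + 1)))
    (fun g => √(G (univ.filter fun k => g k = 0))) (fun _ => (1 : ℝ))
  simp only [mul_one, one_pow, sum_const, card_univ, Fintype.card_fun, Fintype.card_fin,
    nsmul_eq_mul] at h1
  have h2 : ∀ g : ι → Fin (p + 1), √(G (univ.filter fun k => g k = 0)) ^ 2 =
      G (univ.filter fun k => g k = 0) := fun g => Real.sq_sqrt (h _)
  rw [sum_congr rfl fun g _ => h2 g] at h1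
  push_cast at h1
  unfold avT
  rw [div_pow, div_le_div_iff₀ (by positivity) hd]
  have h3 := mul_le_mul_of_nonneg_right h1 hd.le
  calc (∑ g : ι → Fin (p + 1), √(G (univ.filter fun k => g k = 0))) ^ 2 *
        ((p : ℝ) + 1) ^ Fintype.card ι
      ≤ (∑ g : ι → Fin (p + 1), G (univ.filter fun k => g k = 0)) *
          ((p : ℝ) + 1) ^ Fintype.card ι * ((p : ℝ) + 1) ^ Fintype.card ι := h3
    _ = _ := by ring

theorem avT_disj (p : ℕ) (A : Finset ι) :
    avT p (fun T => if Disjoint A T then (1 : ℝ) else 0) = ((p : ℝ) / (p + 1)) ^ A.card := by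
  have hd := avT_den (ι := ι) p
  have h1 : ∀ g : ι → Fin (p + 1),
      (if Disjoint A (univ.filter fun k => g k = 0) then (1 : ℝ) else 0) =
        ∏ k, (if k ∈ A then (if g k = 0 then (0 : ℝ) else 1) else 1) := by
    intro g
    by_cases hD : Disjoint A (univ.filter fun k => g k = 0)
    · rw [if_pos hD]
      refine (prod_eq_one fun k _ => ?_).symm
      by_cases hk : k ∈ A
      · rw [if_pos hk, if_neg]
        intro h2
        exact Finset.disjoint_left.1 hD hk (mem_filter.2 ⟨mem_univ _, h2⟩)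
      · rw [if_neg hk]
    · rw [if_neg hD]
      rw [Finset.not_disjoint_iff] at hD
      obtain ⟨k, hk, hk'⟩ := hD
      refine (prod_eq_zero (mem_univ k) ?_).symm
      rw [if_pos hk, if_pos (mem_filter.1 hk').2]
  have h2 : ∀ k : ι, ∑ v : Fin (p + 1), (if k ∈ A then (if v = 0 then (0 : ℝ) else 1) else 1) =
      if k ∈ A then (p : ℝ) else (p : ℝ) + 1 := by
    intro k
    by_cases hk : k ∈ A
    · simp only [if_pos hk]
      rw [Fin.sum_univ_succ, if_pos rfl]
      simp [Fin.succ_ne_zero]
    · simp only [if_neg hk]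
      rw [sum_const, card_univ, Fintype.card_fin, nsmul_eq_mul, mul_one]
      push_cast
      ring
  unfold avT
  rw [sum_congr rfl fun g _ => h1 g,
    ← Fintype.prod_sum (fun (k : ι) (v : Fin (p + 1)) =>
      (if k ∈ A then (if v = 0 then (0 : ℝ) else 1) else 1)), prod_congr rfl fun k _ => h2 k]
  have h3 : (((p : ℝ) / (p + 1)) ^ A.card) = ∏ k : ι, (if k ∈ A then (p : ℝ) / (p + 1) else 1) := by
    rw [Finset.prod_ite_mem, univ_inter, prod_const]
  have h4 : ((p : ℝ) + 1) ^ Fintype.card ι = ∏ _k : ι, ((p : ℝ) + 1) := by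
    rw [prod_const, card_univ]
  rw [h3, h4, ← Finset.prod_div_distrib]
  refine prod_congr rfl fun k _ => ?_
  have h5 : (p : ℝ) + 1 ≠ 0 := by positivity
  by_cases hk : k ∈ A
  · rw [if_pos hk, if_pos hk]
  · rw [if_neg hk, if_neg hk, div_self h5]

/-- each `k` belongs to the random set with probability `1 / (p + 1)` -/
theorem avT_mem (p : ℕ) (k : ι) :
    avT p (fun T => if k ∈ T then (1 : ℝ) else 0) = 1 / ((p : ℝ) + 1) := by
  have h1 := avT_disj p ({k} : Finset ι)
  have h2 : (fun T : Finset ι => (if k ∈ T then (1 : ℝ) else 0)) =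
      fun T => 1 + (-1) * (if Disjoint {k} T then (1 : ℝ) else 0) := by
    funext T
    by_cases hk : k ∈ T
    · rw [if_pos hk, if_neg (by rw [disjoint_singleton_left]; exact not_not.2 hk)]
      ring
    · rw [if_neg hk, if_pos (disjoint_singleton_left.2 hk)]
      ring
  rw [h2, avT_add, avT_const, avT_const_mul, h1, card_singleton, pow_one]
  have h5 : (p : ℝ) + 1 ≠ 0 := by positivity
  field_simp
  ring

theorem avT_RR (p : ℕ) (F : Finset ι) (W : Finset (ι → ZMod 3)) :
    avT p (fun T => RR (F ∩ T) W) = RR F W / (p + 1) := by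
  have h1 : (fun T => RR (F ∩ T) W) =
      fun T => ∑ k ∈ F, rho W k * (if k ∈ T then (1 : ℝ) else 0) := by
    funext T
    unfold RR
    rw [← Finset.filter_mem_eq_inter, sum_filter]
    refine sum_congr rfl fun k _ => ?_
    by_cases hk : k ∈ T
    · rw [if_pos hk, if_pos hk, mul_one]
    · rw [if_neg hk, if_neg hk, mul_zero]
  rw [h1, avT_sum]
  unfold RR
  rw [sum_div]
  refine sum_congr rfl fun k _ => ?_
  rw [avT_const_mul, avT_mem, mul_one_div]

end HT13
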