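import Pool.Agent.HT13.Basic

/-! # HT13-Hyp: hyperplanes of the `T`-cube -/

set_option linter.unusedSectionVars false

namespace HT13

open Finset

variable {ι : Type} [Fintype ι] [DecidableEq ι]

theorem hyp_inv (T : Finset ι) (s : ι → ZMod 3) (c : ZMod 3) : Inv T (hyp T s c) := by
  intro x y hxy hx
  rw [mem_hyp] at hx ⊢
  rw [← hx]
  exact sum_congr rfl fun k hk => by rw [hxy k hk]

/-- Only the coefficients on `T` matter. -/
theorem hyp_congr {T : Finset ι} {s s' : ι → ZMod 3} (h : ∀ k ∈ T, s k = s' k) (c : ZMod 3) :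
    hyp T s c = hyp T s' c := by
  ext x
  rw [mem_hyp, mem_hyp, sum_congr rfl fun k hk => by rw [h k hk]]

private theorem hyp_sum_update {T : Finset ι} (s : ι → ZMod 3) {k : ι} (hk : k ∈ T)
    (x : ι → ZMod 3) (u : ZMod 3) :
    ∑ j ∈ T, s j * Function.update x k u j = s k * u + ∑ j ∈ T.erase k, s j * x j := by
  rw [← Finset.add_sum_erase T _ hk, Function.update_self]
  congr 1
  refine sum_congr rfl fun j hj => ?_
  rw [Function.update_of_ne (mem_erase.1 hj).1]

/-- Every line in a direction `k ∈ T` meets a hyperplane in exactly one point (`ZMod 3` is a field). -/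
theorem hyp_line {T : Finset ι} {s : ι → ZMod 3} (hs : Sgn s) (c : ZMod 3) {k : ι} (hk : k ∈ T) (x : ι → ZMod 3) :
    ∃! u : ZMod 3, Function.update x k u ∈ hyp T s c := by
  have : Fact (Nat.Prime 3) := ⟨Nat.prime_three⟩
  have hs0 := hs k
  refine ⟨(s k)⁻¹ * (c - ∑ j ∈ T.erase k, s j * x j), ?_, ?_⟩
  · beta_reduce
    rw [mem_hyp, hyp_sum_update s hk, mul_inv_cancel_left₀ hs0]
    ring
  · intro u hu
    rw [mem_hyp, hyp_sum_update s hk] at hu
    rw [← hu, add_sub_cancel_right, inv_mul_cancel_left₀ hs0]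

theorem lc_hyp {T : Finset ι} {s : ι → ZMod 3} (hs : Sgn s) (c : ZMod 3) {k : ι} (hk : k ∈ T) (x : ι → ZMod 3) :
    lc (hyp T s c) k x = 1 := by
  obtain ⟨u, hu, huniq⟩ := hyp_line hs c hk x
  unfold lc
  rw [card_eq_one]
  refine ⟨u, ?_⟩
  ext a
  rw [mem_filter, mem_singleton]
  constructor
  · rintro ⟨_, ha⟩
    exact huniq a ha
  · rintro rfl
    exact ⟨mem_univ _, hu⟩

theorem hyp_disjoint {T : Finset ι} {s : ι → ZMod 3} {c c' : ZMod 3} (h : c ≠ c') :
    Disjoint (hyp T s c) (hyp T s c') := by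
  rw [Finset.disjoint_left]
  intro x hx hx'
  rw [mem_hyp] at hx hx'
  exact h (hx.symm.trans hx')

theorem dens_hyp {T : Finset ι} (hT : T.Nonempty) {s : ι → ZMod 3} (hs : Sgn s) (c : ZMod 3) :
    dens (hyp T s c) = 1 / 3 := by
  obtain ⟨k, hk⟩ := hT
  rw [dens_eq_avR, ← avR_line _ k]
  have h1 : (fun x : ι → ZMod 3 => (∑ u : ZMod 3,
      if Function.update x k u ∈ hyp T s c then (1 : ℝ) else 0) / 3) = fun _ => 1 / 3 := by
    funext x
    have h2 : (∑ u : ZMod 3, if Function.update x k u ∈ hyp T s c then (1 : ℝ) else 0)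
        = (lc (hyp T s c) k x : ℝ) := by
      unfold lc
      rw [Finset.sum_boole]
    rw [h2, lc_hyp hs c hk x]
    norm_num
  rw [h1, avR_const]

/-- Slices of hyperplanes. -/
theorem ovw_hyp (T J : Finset ι) (s y : ι → ZMod 3) (c : ZMod 3) :
    ovw J y (hyp T s c) = hyp (T \ J) s (c - ∑ k ∈ T ∩ J, s k * y k) := by
  ext x
  rw [mem_ovw, mem_hyp, mem_hyp, ← Finset.sum_inter_add_sum_sdiff T J, eq_sub_iff_add_eq']
  have h1 : ∑ k ∈ T ∩ J, s k * mixp J x y k = ∑ k ∈ T ∩ J, s k * y k := by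
    refine sum_congr rfl fun k hk => ?_
    unfold mixp
    rw [if_pos (mem_inter.1 hk).2]
  have h2 : ∑ k ∈ T \ J, s k * mixp J x y k = ∑ k ∈ T \ J, s k * x k := by
    refine sum_congr rfl fun k hk => ?_
    unfold mixp
    rw [if_neg (mem_sdiff.1 hk).2]
  rw [h1, h2]

end HT13
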