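import Pool.Agent.HT13.Lines
import Pool.Agent.HT13.Hyp

/-! # HT13-ASlice: slices in the directions of a set `T` (paper: section 3) -/

set_option linter.unusedSectionVars false

namespace HT13

open Finset

variable {ι : Type} [Fintype ι] [DecidableEq ι]

/-- the slice of `W` through `x` with free directions `T` (a set depending only on the coordinates in `T`) -/
def slc (T : Finset ι) (W : Finset (ι → ZMod 3)) (x : ι → ZMod 3) : Finset (ι → ZMod 3) := ovw (univ \ T) x W

theorem mem_slc {T : Finset ι} {W : Finset (ι → ZMod 3)} {x y : ι → ZMod 3} : y ∈ slc T W x ↔ mixp T x y ∈ W := by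
  have h : mixp (univ \ T) y x = mixp T x y := by
    funext k
    by_cases hk : k ∈ T <;> simp [mixp, hk]
  unfold slc
  rw [mem_ovw, h]

theorem slc_inv (T : Finset ι) (W : Finset (ι → ZMod 3)) (x : ι → ZMod 3) : Inv T (slc T W x) := by
  have h := ovw_inv (univ \ T) x W
  have e : (univ \ (univ \ T) : Finset ι) = T := by
    ext k
    simp
  rw [e] at h
  exact h

theorem slc_valid {F T : Finset ι} (hT : T ⊆ F) {W : Finset (ι → ZMod 3)} (hV : Valid F W) (x : ι → ZMod 3) :
    Valid T (slc T W x) := by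
  have h := ovw_valid (J := univ \ T) (hV.mono hT) x
  have e : (T \ (univ \ T) : Finset ι) = T := by
    ext k
    simp
  rw [e] at h
  exact h

theorem slc_congr {T : Finset ι} (W : Finset (ι → ZMod 3)) {x y : ι → ZMod 3} (h : ∀ k, k ∉ T → x k = y k) :
    slc T W x = slc T W y := by
  exact ovw_congr (fun k hk => h k (by simpa using hk)) W

theorem mem_slc_self {T : Finset ι} {W : Finset (ι → ZMod 3)} {x : ι → ZMod 3} : x ∈ slc T W x ↔ x ∈ W := by
  have h : mixp T x x = x := by
    funext k
    simp [mixp]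
  rw [mem_slc, h]

theorem avR_RR_slc (T : Finset ι) (W : Finset (ι → ZMod 3)) : avR (fun x => RR T (slc T W x)) = RR T W := by
  exact avR_RR_ovw (Finset.disjoint_sdiff) W

/-- Jensen -/
theorem avR_sqrt_le (f : (ι → ZMod 3) → ℝ) (hf : ∀ x, 0 ≤ f x) : avR (fun x => √(f x)) ≤ √(avR f) := by
  have h := cube_pos (ι := ι)
  apply Real.le_sqrt_of_sq_le
  have h1 := sq_sum_le_card_mul_sum_sq (s := (univ : Finset (ι → ZMod 3))) (f := fun x => √(f x))
  rw [card_univ, card_cube] at h1
  push_cast at h1
  have h2 : ∑ x : ι → ZMod 3, √(f x) ^ 2 = ∑ x, f x := sum_congr rfl fun x _ => Real.sq_sqrt (hf x)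
  rw [h2] at h1
  unfold avR
  rw [div_pow, div_le_div_iff₀ (by positivity) h]
  calc (∑ x, √(f x)) ^ 2 * 3 ^ Fintype.card ι
      ≤ (3 ^ Fintype.card ι * ∑ x, f x) * 3 ^ Fintype.card ι := by gcongr
    _ = _ := by ring

/-- Markov -/
theorem markov (f : (ι → ZMod 3) → ℝ) (hf : ∀ x, 0 ≤ f x) {t : ℝ} (ht : 0 < t) :
    dens (univ.filter fun x => t < f x) ≤ avR f / t := by
  rw [dens_filter_eq_avR]
  have h1 : avR f / t = avR (fun x => (1 / t) * f x) := by
    rw [avR_const_mul]
    ring
  rw [h1]
  apply avR_mono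
  intro x
  split_ifs with h2
  · rw [one_div, inv_mul_eq_div, le_div_iff₀ ht]
    linarith
  · have := hf x
    positivity

/-- `Hs` chooses a set (not depending on the coordinates outside `T`) for every slice.  Average over the coordinates in `T`
first (`avR_avR_mixp` with `J = univ \ T`; `slc T W (mixp J x y) = slc T W y`). -/
theorem dens_outside_le (T : Finset ι) (W : Finset (ι → ZMod 3)) (Hs : Finset (ι → ZMod 3) → Finset (ι → ZMod 3))
    (hI : ∀ V, Inv T (Hs V)) :
    dens (univ.filter fun x => x ∈ W ∧ x ∉ Hs (slc T W x))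
      ≤ avR (fun x => dens (symmDiff (slc T W x) (Hs (slc T W x)))) := by
  rw [dens_filter_eq_avR, ← avR_avR_mixp (univ \ T)]
  apply avR_mono
  intro y
  have h1 : ∀ x : ι → ZMod 3, (mixp (univ \ T) x y ∈ W ∧
      mixp (univ \ T) x y ∉ Hs (slc T W (mixp (univ \ T) x y))) ↔
      x ∈ slc T W y \ Hs (slc T W y) := by
    intro x
    have e1 : slc T W (mixp (univ \ T) x y) = slc T W y := by
      apply slc_congr
      intro k hk
      simp [mixp, hk]
    have e2 : mixp (univ \ T) x y ∈ W ↔ x ∈ slc T W y := by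
      unfold slc
      rw [mem_ovw]
    have e3 : mixp (univ \ T) x y ∈ Hs (slc T W y) ↔ x ∈ Hs (slc T W y) := by
      apply (hI _).iff
      intro k hk
      simp [mixp, hk]
    rw [e1, e2, e3, mem_sdiff]
  simp only [h1]
  rw [← dens_eq_avR]
  apply dens_mono
  intro x hx
  rw [mem_symmDiff]
  exact Or.inl (mem_sdiff.1 hx)

end HT13
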