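import Pool.Agent.HT13.Defs

/-! # Basic facts on densities, averages and overwriting (complete) -/

set_option linter.unusedSectionVars false

namespace HT13

open Finset

variable {ι : Type} [Fintype ι] [DecidableEq ι]

theorem card_cube : (Fintype.card (ι → ZMod 3)) = 3 ^ Fintype.card ι := by
  simp [ZMod.card]

theorem cube_pos : (0 : ℝ) < 3 ^ Fintype.card ι := by positivity

theorem dens_nonneg (A : Finset (ι → ZMod 3)) : 0 ≤ dens A := by
  unfold dens; positivity

theorem dens_mono {A B : Finset (ι → ZMod 3)} (h : A ⊆ B) : dens A ≤ dens B := by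
  unfold dens
  have := card_le_card h
  gcongr

theorem dens_empty : dens (∅ : Finset (ι → ZMod 3)) = 0 := by simp [dens]

theorem dens_univ : dens (univ : Finset (ι → ZMod 3)) = 1 := by
  have h := cube_pos (ι := ι)
  unfold dens
  rw [card_univ, card_cube]
  push_cast
  exact div_self h.ne'

theorem dens_le_one (A : Finset (ι → ZMod 3)) : dens A ≤ 1 := by
  rw [← dens_univ (ι := ι)]
  exact dens_mono (subset_univ _)

theorem dens_eq_zero_iff {A : Finset (ι → ZMod 3)} : dens A = 0 ↔ A = ∅ := by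
  have h := cube_pos (ι := ι)
  unfold dens
  rw [div_eq_zero_iff]
  constructor
  · rintro (h1 | h1)
    · exact card_eq_zero.mp (by exact_mod_cast h1)
    · exact absurd h1 h.ne'
  · rintro rfl; simp

theorem dens_union_le (A B : Finset (ι → ZMod 3)) : dens (A ∪ B) ≤ dens A + dens B := by
  unfold dens
  rw [← add_div]
  have : ((A ∪ B).card : ℝ) ≤ A.card + B.card := by exact_mod_cast card_union_le A B
  gcongr

theorem dens_union_disj {A B : Finset (ι → ZMod 3)} (h : Disjoint A B) : dens (A ∪ B) = dens A + dens B := by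
  unfold dens
  rw [card_union_of_disjoint h, ← add_div]
  push_cast
  rfl

theorem dens_sdiff_add_inter (A B : Finset (ι → ZMod 3)) : dens (A \ B) + dens (A ∩ B) = dens A := by
  unfold dens
  rw [← add_div, ← Nat.cast_add, card_sdiff_add_card_inter]

theorem dens_symmDiff (A B : Finset (ι → ZMod 3)) : dens (symmDiff A B) = dens (A \ B) + dens (B \ A) := by
  rw [symmDiff_def, sup_eq_union]
  apply dens_union_disj
  rw [Finset.disjoint_left]
  intro x hx hy
  simp only [mem_sdiff] at hx hy
  exact hy.2 hx.1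

theorem dens_biUnion_le {α : Type} [DecidableEq α] (s : Finset α) (A : α → Finset (ι → ZMod 3)) :
    dens (s.biUnion A) ≤ ∑ a ∈ s, dens (A a) := by
  unfold dens
  rw [← Finset.sum_div]
  have : ((s.biUnion A).card : ℝ) ≤ ∑ a ∈ s, ((A a).card : ℝ) := by exact_mod_cast card_biUnion_le
  gcongr

theorem dens_eq_avR (A : Finset (ι → ZMod 3)) : dens A = avR (fun x => if x ∈ A then (1 : ℝ) else 0) := by
  unfold dens avR
  congr 1
  simp

theorem dens_filter_eq_avR (p : (ι → ZMod 3) → Prop) [DecidablePred p] :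
    dens (univ.filter p) = avR (fun x => if p x then (1 : ℝ) else 0) := by
  rw [dens_eq_avR]
  congr 1
  ext x
  simp

theorem avR_add (f g : (ι → ZMod 3) → ℝ) : avR (fun x => f x + g x) = avR f + avR g := by
  unfold avR; rw [sum_add_distrib, add_div]

theorem avR_sub (f g : (ι → ZMod 3) → ℝ) : avR (fun x => f x - g x) = avR f - avR g := by
  unfold avR; rw [sum_sub_distrib, sub_div]

theorem avR_const_mul (c : ℝ) (f : (ι → ZMod 3) → ℝ) : avR (fun x => c * f x) = c * avR f := by
  unfold avR; rw [← mul_sum, mul_div_assoc]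

theorem avR_const (c : ℝ) : avR (fun _ : ι → ZMod 3 => c) = c := by
  have h := cube_pos (ι := ι)
  unfold avR
  rw [sum_const, card_univ, card_cube, nsmul_eq_mul]
  push_cast
  field_simp

theorem avR_mono {f g : (ι → ZMod 3) → ℝ} (h : ∀ x, f x ≤ g x) : avR f ≤ avR g := by
  unfold avR
  gcongr
  exact h _

theorem avR_nonneg {f : (ι → ZMod 3) → ℝ} (h : ∀ x, 0 ≤ f x) : 0 ≤ avR f := by
  unfold avR
  have := sum_nonneg (fun x (_ : x ∈ (univ : Finset (ι → ZMod 3))) => h x)
  positivity

theorem avR_sum {α : Type} (s : Finset α) (f : α → (ι → ZMod 3) → ℝ) :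
    avR (fun x => ∑ a ∈ s, f a x) = ∑ a ∈ s, avR (f a) := by
  unfold avR
  rw [sum_comm, sum_div]

theorem avR_equiv (e : Equiv.Perm (ι → ZMod 3)) (f : (ι → ZMod 3) → ℝ) : avR (fun x => f (e x)) = avR f := by
  unfold avR
  congr 1
  exact Equiv.sum_comp e f

theorem avC_equiv (e : Equiv.Perm (ι → ZMod 3)) (f : (ι → ZMod 3) → ℂ) : avC (fun x => f (e x)) = avC f := by
  unfold avC
  congr 1
  exact Equiv.sum_comp e f

theorem avC_add (f g : (ι → ZMod 3) → ℂ) : avC (fun x => f x + g x) = avC f + avC g := by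
  unfold avC; rw [sum_add_distrib, add_div]

theorem avC_const_mul (c : ℂ) (f : (ι → ZMod 3) → ℂ) : avC (fun x => c * f x) = c * avC f := by
  unfold avC; rw [← mul_sum, mul_div_assoc]

theorem avC_sum {α : Type} (s : Finset α) (f : α → (ι → ZMod 3) → ℂ) :
    avC (fun x => ∑ a ∈ s, f a x) = ∑ a ∈ s, avC (f a) := by
  unfold avC
  rw [sum_comm, sum_div]

theorem avC_ofReal (f : (ι → ZMod 3) → ℝ) : avC (fun x => ((f x : ℝ) : ℂ)) = ((avR f : ℝ) : ℂ) := by
  unfold avC avR
  push_cast
  rfl

theorem norm_avC_le (f : (ι → ZMod 3) → ℂ) : ‖avC f‖ ≤ avR (fun x => ‖f x‖) := by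
  unfold avC avR
  rw [norm_div, norm_pow]
  have h : ‖(3 : ℂ)‖ = 3 := by simp
  rw [h]
  gcongr
  exact norm_sum_le _ _

/-- translation of one coordinate -/
def shiftc (k : ι) (u : ZMod 3) : Equiv.Perm (ι → ZMod 3) where
  toFun x := Function.update x k (x k + u)
  invFun x := Function.update x k (x k - u)
  left_inv x := by ext j; by_cases h : j = k <;> simp [Function.update, h]
  right_inv x := by ext j; by_cases h : j = k <;> simp [Function.update, h]

theorem shiftc_apply (k : ι) (u : ZMod 3) (x : ι → ZMod 3) :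
    shiftc k u x = Function.update x k (x k + u) := rfl

theorem sum_update_eq_sum_shift {M : Type} [AddCommMonoid M] (f : (ι → ZMod 3) → M) (k : ι) (x : ι → ZMod 3) :
    (∑ u : ZMod 3, f (Function.update x k u)) = ∑ u : ZMod 3, f (shiftc k u x) := by
  rw [← Equiv.sum_comp (Equiv.addLeft (x k)) (fun u => f (Function.update x k u))]
  rfl

/-- averaging over lines first -/
theorem avR_line (f : (ι → ZMod 3) → ℝ) (k : ι) :
    avR (fun x => (∑ u : ZMod 3, f (Function.update x k u)) / 3) = avR f := by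
  have h1 : avR (fun x => (∑ u : ZMod 3, f (Function.update x k u)) / 3)
      = (1 / 3) * ∑ u : ZMod 3, avR (fun x => f (shiftc k u x)) := by
    rw [← avR_sum, ← avR_const_mul]
    congr 1
    ext x
    rw [sum_update_eq_sum_shift]
    ring
  rw [h1]
  simp only [avR_equiv]
  rw [sum_const, card_univ, ZMod.card]
  simp

theorem avC_line (f : (ι → ZMod 3) → ℂ) (k : ι) :
    avC (fun x => (∑ u : ZMod 3, f (Function.update x k u)) / 3) = avC f := by
  have h1 : avC (fun x => (∑ u : ZMod 3, f (Function.update x k u)) / 3)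
      = (1 / 3) * ∑ u : ZMod 3, avC (fun x => f (shiftc k u x)) := by
    rw [← avC_sum, ← avC_const_mul]
    congr 1
    ext x
    rw [sum_update_eq_sum_shift]
    ring
  rw [h1]
  simp only [avC_equiv]
  rw [sum_const, card_univ, ZMod.card]
  simp

theorem mem_ovw {J : Finset ι} {y x : ι → ZMod 3} {W : Finset (ι → ZMod 3)} :
    x ∈ ovw J y W ↔ mixp J x y ∈ W := by simp [ovw]

theorem mem_hyp {T : Finset ι} {s x : ι → ZMod 3} {c : ZMod 3} :
    x ∈ hyp T s c ↔ ∑ k ∈ T, s k * x k = c := by simp [hyp]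

/-- the pair (overwritten point, complementary overwritten point) is uniformly distributed -/
def mixEquiv (J : Finset ι) : Equiv.Perm ((ι → ZMod 3) × (ι → ZMod 3)) where
  toFun p := (mixp J p.1 p.2, mixp J p.2 p.1)
  invFun p := (mixp J p.1 p.2, mixp J p.2 p.1)
  left_inv p := by
    ext k <;> by_cases h : k ∈ J <;> simp [mixp, h]
  right_inv p := by
    ext k <;> by_cases h : k ∈ J <;> simp [mixp, h]

/-- double average over `x` and the overwriting values -/
theorem avR_avR_mixp (J : Finset ι) (f : (ι → ZMod 3) → ℝ) :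
    avR (fun y => avR (fun x => f (mixp J x y))) = avR f := by
  have h := cube_pos (ι := ι)
  have key : ∑ y : ι → ZMod 3, ∑ x : ι → ZMod 3, f (mixp J x y) = 3 ^ Fintype.card ι * ∑ x, f x := by
    rw [sum_comm]
    have e1 : ∑ x : ι → ZMod 3, ∑ y : ι → ZMod 3, f (mixp J x y)
        = ∑ p : (ι → ZMod 3) × (ι → ZMod 3), f (mixp J p.1 p.2) := by
      rw [← Finset.univ_product_univ, sum_product]
    rw [e1]
    have e2 : ∑ p : (ι → ZMod 3) × (ι → ZMod 3), f (mixp J p.1 p.2)
        = ∑ p : (ι → ZMod 3) × (ι → ZMod 3), f p.1 :=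
      Equiv.sum_comp (mixEquiv J) (fun p => f p.1)
    rw [e2, ← Finset.univ_product_univ, sum_product]
    simp only [sum_const, card_univ, card_cube, nsmul_eq_mul]
    rw [← mul_sum]
    push_cast
    rfl
  unfold avR
  rw [← sum_div, key]
  field_simp

theorem avR_dens_ovw (J : Finset ι) (A : Finset (ι → ZMod 3)) :
    avR (fun y => dens (ovw J y A)) = dens A := by
  have h1 : (fun y => dens (ovw J y A)) = fun y => avR (fun x => if mixp J x y ∈ A then (1 : ℝ) else 0) := by
    ext y
    rw [ovw, dens_filter_eq_avR]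
  rw [h1, avR_avR_mixp J (fun x => if x ∈ A then (1 : ℝ) else 0), dens_eq_avR]

theorem ovw_inv (J : Finset ι) (y : ι → ZMod 3) (A : Finset (ι → ZMod 3)) : Inv (univ \ J) (ovw J y A) := by
  intro x x' hx h
  rw [mem_ovw] at h ⊢
  have : mixp J x' y = mixp J x y := by
    ext k
    by_cases hk : k ∈ J
    · simp [mixp, hk]
    · simp only [mixp, hk, if_false]
      rw [hx k (by simp [hk])]
  rwa [this]

theorem ovw_congr {J : Finset ι} {y y' : ι → ZMod 3} (h : ∀ k ∈ J, y k = y' k) (A : Finset (ι → ZMod 3)) :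
    ovw J y A = ovw J y' A := by
  ext x
  rw [mem_ovw, mem_ovw]
  have : mixp J x y = mixp J x y' := by
    ext k
    by_cases hk : k ∈ J
    · simp [mixp, hk, h k hk]
    · simp [mixp, hk]
  rw [this]

theorem Inv.iff {T : Finset ι} {W : Finset (ι → ZMod 3)} (h : Inv T W) {x y : ι → ZMod 3}
    (hxy : ∀ k ∈ T, x k = y k) : x ∈ W ↔ y ∈ W :=
  ⟨h x y hxy, h y x (fun k hk => (hxy k hk).symm)⟩

theorem Inv.mono {T T' : Finset ι} {W : Finset (ι → ZMod 3)} (h : Inv T W) (hT : T ⊆ T') : Inv T' W :=
  fun x y hxy hx => h x y (fun k hk => hxy k (hT hk)) hx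

theorem inv_univ (W : Finset (ι → ZMod 3)) : Inv univ W := by
  intro x y h hx
  have : x = y := funext fun k => h k (mem_univ k)
  rwa [← this]

theorem Valid.mono {T T' : Finset ι} {W : Finset (ι → ZMod 3)} (h : Valid T' W) (hT : T ⊆ T') : Valid T W :=
  fun x hx k hk a ha k' hk' a' ha' => h x hx k (hT hk) a ha k' (hT hk') a' ha'

theorem Valid.subset {T : Finset ι} {W W' : Finset (ι → ZMod 3)} (h : Valid T W) (hW : W' ⊆ W) : Valid T W' :=
  fun x hx k hk a ha k' hk' a' ha' h1 h2 => h x (hW hx) k hk a ha k' hk' a' ha' (hW h1) (hW h2)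

theorem mixp_update_notMem {J : Finset ι} {k : ι} (hk : k ∉ J) (x y : ι → ZMod 3) (a : ZMod 3) :
    mixp J (Function.update x k a) y = Function.update (mixp J x y) k a := by
  ext j
  by_cases hj : j = k
  · subst hj
    simp [mixp, hk]
  · by_cases hJ : j ∈ J <;> simp [mixp, hJ, Function.update_of_ne hj]

/-- a slice of a valid set is valid -/
theorem ovw_valid {T J : Finset ι} {W : Finset (ι → ZMod 3)} (h : Valid T W) (y : ι → ZMod 3) :
    Valid (T \ J) (ovw J y W) := by
  intro x hx k hk a ha k' hk' a' ha' h1 h2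
  rw [mem_sdiff] at hk hk'
  rw [mem_ovw] at hx h1 h2
  rw [mixp_update_notMem hk.2] at h1
  rw [mixp_update_notMem hk'.2] at h2
  exact h _ hx k hk.1 a (by simpa [mixp, hk.2] using ha) k' hk'.1 a' (by simpa [mixp, hk'.2] using ha') h1 h2

/-- a slice of a set not depending on the coordinates outside `T` -/
theorem ovw_inv' {T J : Finset ι} {W : Finset (ι → ZMod 3)} (h : Inv T W) (y : ι → ZMod 3) :
    Inv (T \ J) (ovw J y W) := by
  intro x x' hx hm
  rw [mem_ovw] at hm ⊢
  refine h _ _ (fun k hk => ?_) hm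
  by_cases hJ : k ∈ J
  · simp [mixp, hJ]
  · simp only [mixp, hJ, if_false]
    exact hx k (by simp [hk, hJ])

theorem lc_ovw {J : Finset ι} {k : ι} (hk : k ∉ J) (x y : ι → ZMod 3) (W : Finset (ι → ZMod 3)) :
    lc (ovw J y W) k x = lc W k (mixp J x y) := by
  unfold lc
  congr 1
  ext a
  simp only [mem_filter, mem_univ, true_and, mem_ovw]
  rw [mixp_update_notMem hk]

/-- the defects of the slices average to the defects of the set -/
theorem avR_rho_ovw {J : Finset ι} {k : ι} (hk : k ∉ J) (W : Finset (ι → ZMod 3)) :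
    avR (fun y => rho (ovw J y W) k) = rho W k := by
  have h1 : (fun y => rho (ovw J y W) k)
      = fun y => avR (fun x => if lc W k (mixp J x y) ≠ 1 then (1 : ℝ) else 0) := by
    ext y
    rw [rho, dens_filter_eq_avR]
    simp only [lc_ovw hk]
  rw [h1, avR_avR_mixp J (fun x => if lc W k x ≠ 1 then (1 : ℝ) else 0), rho, dens_filter_eq_avR]

theorem avR_RR_ovw {T J : Finset ι} (hT : Disjoint T J) (W : Finset (ι → ZMod 3)) :
    avR (fun y => RR T (ovw J y W)) = RR T W := by
  unfold RR
  rw [avR_sum]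
  exact sum_congr rfl fun k hk => avR_rho_ovw (Finset.disjoint_left.mp hT hk) W

theorem rho_nonneg (W : Finset (ι → ZMod 3)) (k : ι) : 0 ≤ rho W k := dens_nonneg _

theorem rho_le_one (W : Finset (ι → ZMod 3)) (k : ι) : rho W k ≤ 1 := dens_le_one _

theorem RR_nonneg (T : Finset ι) (W : Finset (ι → ZMod 3)) : 0 ≤ RR T W :=
  sum_nonneg fun _ _ => rho_nonneg _ _

theorem dens_ovw_le (J : Finset ι) (y : ι → ZMod 3) (A : Finset (ι → ZMod 3)) :
    dens (ovw J y A) ≤ 3 ^ J.card * dens A := by
  classical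
  -- the average over `y'` of `dens (ovw J y' A)` is `dens A`, and a proportion `3^{-|J|}` of the `y'` agree with `y` on `J`
  have h := cube_pos (ι := ι)
  have hav := avR_dens_ovw J A
  have hcard : ((univ.filter fun y' : ι → ZMod 3 => ∀ k ∈ J, y' k = y k).card : ℝ) * 3 ^ J.card
      = 3 ^ Fintype.card ι := by
    have e : (univ.filter fun y' : ι → ZMod 3 => ∀ k ∈ J, y' k = y k)
        = Fintype.piFinset (fun k => if k ∈ J then ({y k} : Finset (ZMod 3)) else univ) := by
      ext y'
      simp only [mem_filter, mem_univ, true_and, Fintype.mem_piFinset]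
      constructor
      · intro hy k
        by_cases hk : k ∈ J
        · simp [hk, hy k hk]
        · simp [hk]
      · intro hy k hk
        have := hy k
        simpa [hk] using this
    rw [e, Fintype.card_piFinset]
    push_cast
    have e2 : ∀ k : ι, (((if k ∈ J then ({y k} : Finset (ZMod 3)) else univ).card : ℕ) : ℝ)
        * (if k ∈ J then 3 else 1) = 3 := by
      intro k
      by_cases hk : k ∈ J
      · simp [hk]
      · simp only [hk, if_false, card_univ, ZMod.card]; norm_num
    have e3 : (3 : ℝ) ^ J.card = ∏ k : ι, (if k ∈ J then (3 : ℝ) else 1) := by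
      rw [Finset.prod_ite_mem, univ_inter, prod_const]
    rw [e3, ← prod_mul_distrib]
    simp only [e2]
    rw [prod_const, card_univ]
  have hge : ((univ.filter fun y' : ι → ZMod 3 => ∀ k ∈ J, y' k = y k).card : ℝ) * dens (ovw J y A)
      ≤ ∑ y', dens (ovw J y' A) := by
    calc ((univ.filter fun y' : ι → ZMod 3 => ∀ k ∈ J, y' k = y k).card : ℝ) * dens (ovw J y A)
        = ∑ y' ∈ univ.filter (fun y' : ι → ZMod 3 => ∀ k ∈ J, y' k = y k), dens (ovw J y' A) := by
          rw [← nsmul_eq_mul, ← sum_const]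
          refine sum_congr rfl fun y' hy' => ?_
          rw [mem_filter] at hy'
          rw [ovw_congr hy'.2]
      _ ≤ ∑ y', dens (ovw J y' A) :=
          sum_le_sum_of_subset_of_nonneg (filter_subset _ _) (fun _ _ _ => dens_nonneg _)
  have hav' : ∑ y', dens (ovw J y' A) = 3 ^ Fintype.card ι * dens A := by
    rw [← hav]; unfold avR; field_simp
  rw [hav'] at hge
  have hJ : (0 : ℝ) < 3 ^ J.card := by positivity
  have : ((univ.filter fun y' : ι → ZMod 3 => ∀ k ∈ J, y' k = y k).card : ℝ) * (3 ^ J.card * dens A)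
      = 3 ^ Fintype.card ι * dens A := by rw [← mul_assoc, hcard]
  rw [← this] at hge
  have hc : (0 : ℝ) < ((univ.filter fun y' : ι → ZMod 3 => ∀ k ∈ J, y' k = y k).card : ℝ) := by
    have : (0 : ℝ) < ((univ.filter fun y' : ι → ZMod 3 => ∀ k ∈ J, y' k = y k).card : ℝ) * 3 ^ J.card := by
      rw [hcard]; exact h
    exact (pos_iff_pos_of_mul_pos this).mpr hJ
  exact le_of_mul_le_mul_left hge hc

end HT13
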