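import Pool.Agent.HT13.Ee

/-! # HT13-BonPt: the one-variable inequality in Bonami's lemma (paper: section 0, (B))

With `Q u = ee u * f₁ + ee (2 * u) * f₂` one has `∑ u, Q u = 0`, `∑ u ‖Q u‖² = 3 (‖f₁‖² + ‖f₂‖²)`,
`‖Q u‖⁴ ≤ (‖f₁‖ + ‖f₂‖)⁴ ≤ 8 (‖f₁‖⁴ + ‖f₂‖⁴)` and
`‖f₀ + Q‖⁴ = (‖f₀‖² + 2 Re (f₀ conj Q) + ‖Q‖²)²
  = ‖f₀‖⁴ + 4 (Re (f₀ conj Q))² + ‖Q‖⁴ + 2 ‖f₀‖² ‖Q‖² + 4 ‖f₀‖² Re (f₀ conj Q) + 4 Re (f₀ conj Q) ‖Q‖²`,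
where the fifth term averages to `0`, the second is `≤ 4 ‖f₀‖² ‖Q‖²` and the last is
`≤ 4 ‖f₀‖ ‖Q‖³ ≤ 2 ‖f₀‖² ‖Q‖² + 2 ‖Q‖⁴`. -/

namespace HT13

open Finset

/-- `∑ u, ee u = 0`, `∑ u, ee (2 u) = 0`, `∑ u, ee (-u) = 0` -/
private theorem bonPt_sum (a : ZMod 3) (ha : a ≠ 0) : ∑ u : ZMod 3, ee (a * u) = 0 := by
  rw [sum_ee_mul, if_neg ha]

private theorem bonPt_sq (z w : ℂ) :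
    ‖z + w‖ ^ 2 = ‖z‖ ^ 2 + ‖w‖ ^ 2 + 2 * (z * (starRingEnd ℂ) w).re := by
  rw [← Complex.normSq_eq_norm_sq, ← Complex.normSq_eq_norm_sq, ← Complex.normSq_eq_norm_sq,
    Complex.normSq_add]

private theorem bonPt_Q (f₁ f₂ : ℂ) (u : ZMod 3) : ‖ee u * f₁ + ee (2 * u) * f₂‖ ^ 2 =
    ‖f₁‖ ^ 2 + ‖f₂‖ ^ 2 + 2 * (ee ((-1) * u) * (f₁ * (starRingEnd ℂ) f₂)).re := by
  rw [bonPt_sq, norm_mul, norm_mul, norm_ee, norm_ee, one_mul, one_mul]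
  have h : ee u * f₁ * (starRingEnd ℂ) (ee (2 * u) * f₂) =
      ee ((-1) * u) * (f₁ * (starRingEnd ℂ) f₂) := by
    rw [map_mul, conj_ee]
    have h1 : (-1 : ZMod 3) * u = u + -(2 * u) := by ring
    rw [h1, ee_add]
    ring
  rw [h]

private theorem bonPt_sumQ (f₁ f₂ : ℂ) : ∑ u : ZMod 3, ‖ee u * f₁ + ee (2 * u) * f₂‖ ^ 2 =
    3 * (‖f₁‖ ^ 2 + ‖f₂‖ ^ 2) := by
  rw [Finset.sum_congr rfl fun u _ => bonPt_Q f₁ f₂ u, Finset.sum_add_distrib, ← Finset.mul_sum,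
    ← Complex.re_sum, ← Finset.sum_mul, bonPt_sum _ (by decide), zero_mul, Complex.zero_re,
    mul_zero, add_zero, Finset.sum_const, Finset.card_univ, ZMod.card, nsmul_eq_mul]
  norm_num

private theorem bonPt_sumR (f₀ f₁ f₂ : ℂ) :
    ∑ u : ZMod 3, (f₀ * (starRingEnd ℂ) (ee u * f₁ + ee (2 * u) * f₂)).re = 0 := by
  rw [← Complex.re_sum, ← Finset.mul_sum, ← map_sum, Finset.sum_add_distrib, ← Finset.sum_mul,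
    ← Finset.sum_mul, bonPt_sum 2 (by decide)]
  have h := bonPt_sum 1 (by decide)
  simp only [one_mul] at h
  rw [h]
  simp

theorem bonPt (f₀ f₁ f₂ : ℂ) :
    (∑ u : ZMod 3, ‖f₀ + ee u * f₁ + ee (2 * u) * f₂‖ ^ 4) / 3
      ≤ ‖f₀‖ ^ 4 + 8 * ‖f₀‖ ^ 2 * (‖f₁‖ ^ 2 + ‖f₂‖ ^ 2) + 24 * (‖f₁‖ ^ 4 + ‖f₂‖ ^ 4) := by
  have key : ∀ u : ZMod 3, ‖f₀ + ee u * f₁ + ee (2 * u) * f₂‖ ^ 4 ≤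
      ‖f₀‖ ^ 4 + 8 * ‖f₀‖ ^ 2 * ‖ee u * f₁ + ee (2 * u) * f₂‖ ^ 2 +
        24 * (‖f₁‖ ^ 4 + ‖f₂‖ ^ 4) +
        4 * ‖f₀‖ ^ 2 * (f₀ * (starRingEnd ℂ) (ee u * f₁ + ee (2 * u) * f₂)).re := by
    intro u
    obtain ⟨Q, hQ⟩ : ∃ Q, Q = ee u * f₁ + ee (2 * u) * f₂ := ⟨_, rfl⟩
    have h0 : f₀ + ee u * f₁ + ee (2 * u) * f₂ = f₀ + Q := by rw [hQ, add_assoc]
    rw [h0, ← hQ]
    have h1 : ‖f₀ + Q‖ ^ 4 = (‖f₀ + Q‖ ^ 2) ^ 2 := by ring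
    rw [h1, bonPt_sq]
    obtain ⟨R, hR⟩ : ∃ R, R = (f₀ * (starRingEnd ℂ) Q).re := ⟨_, rfl⟩
    rw [← hR]
    have hR2 : R ^ 2 ≤ ‖f₀‖ ^ 2 * ‖Q‖ ^ 2 := by
      have h2 : |R| ≤ ‖f₀‖ * ‖Q‖ := by
        rw [hR]
        refine (Complex.abs_re_le_norm _).trans (le_of_eq ?_)
        rw [norm_mul, RCLike.norm_conj]
      calc R ^ 2 = |R| ^ 2 := (sq_abs R).symm
        _ ≤ (‖f₀‖ * ‖Q‖) ^ 2 := pow_le_pow_left₀ (abs_nonneg R) h2 2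
        _ = _ := by ring
    have hQn : ‖Q‖ ≤ ‖f₁‖ + ‖f₂‖ := by
      rw [hQ]
      refine (norm_add_le _ _).trans (le_of_eq ?_)
      rw [norm_mul, norm_mul, norm_ee, norm_ee, one_mul, one_mul]
    have hQ4 : ‖Q‖ ^ 4 ≤ 8 * (‖f₁‖ ^ 4 + ‖f₂‖ ^ 4) := by
      have h3 : ‖Q‖ ^ 4 ≤ (‖f₁‖ + ‖f₂‖) ^ 4 := pow_le_pow_left₀ (norm_nonneg Q) hQn 4
      have h4 : (‖f₁‖ + ‖f₂‖) ^ 2 ≤ 2 * (‖f₁‖ ^ 2 + ‖f₂‖ ^ 2) := by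
        nlinarith [sq_nonneg (‖f₁‖ - ‖f₂‖)]
      have h5 : (‖f₁‖ + ‖f₂‖) ^ 4 ≤ (2 * (‖f₁‖ ^ 2 + ‖f₂‖ ^ 2)) ^ 2 := by
        have := pow_le_pow_left₀ (sq_nonneg (‖f₁‖ + ‖f₂‖)) h4 2
        calc (‖f₁‖ + ‖f₂‖) ^ 4 = ((‖f₁‖ + ‖f₂‖) ^ 2) ^ 2 := by ring
          _ ≤ _ := this
      nlinarith [sq_nonneg (‖f₁‖ ^ 2 - ‖f₂‖ ^ 2)]
    have h6 : 4 * R * ‖Q‖ ^ 2 ≤ 2 * R ^ 2 + 2 * (‖Q‖ ^ 2) ^ 2 := by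
      nlinarith [sq_nonneg (R - ‖Q‖ ^ 2)]
    have h7 : (‖Q‖ ^ 2) ^ 2 = ‖Q‖ ^ 4 := by ring
    have h8 : (‖f₀‖ ^ 2 + ‖Q‖ ^ 2 + 2 * R) ^ 2 = ‖f₀‖ ^ 4 + 4 * R ^ 2 + ‖Q‖ ^ 4 +
        2 * (‖f₀‖ ^ 2 * ‖Q‖ ^ 2) + 4 * ‖f₀‖ ^ 2 * R + 4 * R * ‖Q‖ ^ 2 := by ring
    rw [h8]
    rw [h7] at h6
    linarith
  rw [div_le_iff₀ (by norm_num)]
  refine (Finset.sum_le_sum fun u _ => key u).trans (le_of_eq ?_)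
  rw [Finset.sum_add_distrib, Finset.sum_add_distrib, Finset.sum_add_distrib]
  simp only [← Finset.mul_sum]
  rw [bonPt_sumR, bonPt_sumQ, Finset.sum_const, Finset.sum_const,
    Finset.card_univ, ZMod.card, nsmul_eq_mul, nsmul_eq_mul]
  push_cast
  ring

theorem bonPt_two (f₀ f₁ f₂ : ℂ) :
    (∑ u : ZMod 3, ‖f₀ + ee u * f₁ + ee (2 * u) * f₂‖ ^ 2) / 3 = ‖f₀‖ ^ 2 + ‖f₁‖ ^ 2 + ‖f₂‖ ^ 2 := by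
  have key : ∀ u : ZMod 3, ‖f₀ + ee u * f₁ + ee (2 * u) * f₂‖ ^ 2 =
      ‖f₀‖ ^ 2 + ‖ee u * f₁ + ee (2 * u) * f₂‖ ^ 2 +
        2 * (f₀ * (starRingEnd ℂ) (ee u * f₁ + ee (2 * u) * f₂)).re := by
    intro u
    rw [add_assoc, bonPt_sq]
  rw [div_eq_iff (by norm_num), Finset.sum_congr rfl fun u _ => key u, Finset.sum_add_distrib,
    Finset.sum_add_distrib, ← Finset.mul_sum, bonPt_sumR, bonPt_sumQ, Finset.sum_const,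
    Finset.card_univ, ZMod.card, nsmul_eq_mul]
  push_cast
  ring

end HT13
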