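import Pool.Agent.HT13.Four
import Pool.Agent.HT13.BonPt

/-! # HT13-Bonami: the (4,2) inequality for functions of low degree (paper: section 0, (B))

Induction on `T` (a finset of coordinates) for all `L`, `f`: if `fh f a ≠ 0` implies `spt a ⊆ T` and `(spt a).card ≤ L`, then
`avR ‖f‖⁴ ≤ 25 ^ L * (avR ‖f‖²)²`.
Step `insert k T`: write `f x = f₀ x + ee (x k) * f₁ x + ee (2 * x k) * f₂ x` where
`f_j x = ∑_{a, a k = j} fh f a * chi (Function.update a k 0) x` do not depend on the coordinate `k`, have frequencies supported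
in `T` (`fh_of_expansion`), and `f₁, f₂` have degree `≤ L - 1` (and vanish if `L = 0`).  Average over the lines in direction
`k` (`avR_line`) and use `bonPt`; with `F_j = avR ‖f_j‖²` and Cauchy-Schwarz
`avR (‖f₀‖² ‖f₁‖²) ≤ √(avR ‖f₀‖⁴ * avR ‖f₁‖⁴) ≤ √(25^L * 25^(L-1)) F₀ F₁ = 25^L / 5 * F₀ F₁`:
`avR ‖f‖⁴ ≤ 25^L (F₀² + (8/5) F₀ (F₁ + F₂) + (24/25) (F₁² + F₂²)) ≤ 25^L (F₀ + F₁ + F₂)² = 25^L (avR ‖f‖²)²` (`bonPt_two`). -/

set_option linter.unusedSectionVars false

namespace HT13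

open Finset

variable {ι : Type} [Fintype ι] [DecidableEq ι]

/-- Cauchy-Schwarz -/
theorem avR_mul_sq_le (f g : (ι → ZMod 3) → ℝ) :
    (avR fun x => f x * g x) ^ 2 ≤ (avR fun x => f x ^ 2) * (avR fun x => g x ^ 2) := by
  have h := cube_pos (ι := ι)
  unfold avR
  rw [div_pow, div_mul_div_comm, ← sq]
  gcongr
  exact sum_mul_sq_le_sq_mul_sq _ _ _

/-- the function with the given Fourier coefficients -/
noncomputable def bonX (F : (ι → ZMod 3) → ℂ) (x : ι → ZMod 3) : ℂ := ∑ a, F a * chi a x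

/-- the coefficients of the parts in direction `k` -/
noncomputable def bonP (k : ι) (F : (ι → ZMod 3) → ℂ) (j : ZMod 3) (b : ι → ZMod 3) : ℂ :=
  if b k = 0 then F (Function.update b k j) else 0

theorem bon_sum_line (G : (ι → ZMod 3) → ℂ) (k : ι) :
    ∑ a, G a = ∑ a, (∑ u : ZMod 3, G (Function.update a k u)) / 3 := by
  have h := avC_line G k
  unfold avC at h
  have h3 : ((3 : ℂ) ^ Fintype.card ι) ≠ 0 := pow_ne_zero _ (by norm_num)
  exact ((div_left_inj' h3).1 h).symm

theorem bonX_part (k : ι) (F : (ι → ZMod 3) → ℂ) (j : ZMod 3) (x : ι → ZMod 3) :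
    bonX (bonP k F j) x =
      ∑ a, F (Function.update a k j) * chi (Function.update a k 0) x / 3 := by
  unfold bonX
  rw [bon_sum_line _ k]
  refine sum_congr rfl fun a _ => ?_
  congr 1
  rw [Fintype.sum_eq_single (0 : ZMod 3)]
  · unfold bonP
    rw [Function.update_self, if_pos rfl, Function.update_idem]
  · intro u hu
    unfold bonP
    rw [Function.update_self, if_neg hu, zero_mul]

theorem bon_chi_update (a x : ι → ZMod 3) (k : ι) (u : ZMod 3) :
    chi (Function.update a k u) x = chi (Function.update a k 0) x * ee (u * x k) := by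
  unfold chi
  rw [← ee_add]
  congr 1
  rw [← Finset.add_sum_erase _ _ (mem_univ k), ← Finset.add_sum_erase _ _ (mem_univ k),
    Function.update_self, Function.update_self, zero_mul, zero_add, add_comm]
  congr 1
  refine sum_congr rfl fun i hi => ?_
  have h1 := (mem_erase.1 hi).1
  rw [Function.update_of_ne h1, Function.update_of_ne h1]

theorem bonX_split (k : ι) (F : (ι → ZMod 3) → ℂ) (x : ι → ZMod 3) :
    bonX F x = ∑ u : ZMod 3, ee (u * x k) * bonX (bonP k F u) x := by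
  have h1 : ∀ u : ZMod 3, ee (u * x k) * bonX (bonP k F u) x =
      ∑ a, F (Function.update a k u) * chi (Function.update a k u) x / 3 := by
    intro u
    rw [bonX_part, mul_sum]
    refine sum_congr rfl fun a _ => ?_
    rw [bon_chi_update a x k u]
    ring
  rw [sum_congr rfl fun u _ => h1 u, sum_comm]
  unfold bonX
  rw [bon_sum_line _ k]
  refine sum_congr rfl fun a _ => ?_
  rw [sum_div]

theorem bonX_inv (k : ι) (F : (ι → ZMod 3) → ℂ) (j : ZMod 3) (x : ι → ZMod 3) (u : ZMod 3) :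
    bonX (bonP k F j) (Function.update x k u) = bonX (bonP k F j) x := by
  unfold bonX
  refine sum_congr rfl fun b _ => ?_
  by_cases hb : b k = 0
  · rw [chi_update, hb, zero_mul, ee_zero, mul_one]
  · unfold bonP
    rw [if_neg hb, zero_mul, zero_mul]

theorem bonX_line (k : ι) (F : (ι → ZMod 3) → ℂ) (x : ι → ZMod 3) (u : ZMod 3) :
    bonX F (Function.update x k u) = bonX (bonP k F 0) x + ee u * bonX (bonP k F 1) x +
      ee (2 * u) * bonX (bonP k F 2) x := by
  rw [bonX_split k, Function.update_self]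
  simp only [bonX_inv]
  have h1 : ∀ g : ZMod 3 → ℂ, ∑ v : ZMod 3, g v = g 0 + g 1 + g 2 := by
    intro g
    exact Fin.sum_univ_three g
  rw [h1, zero_mul, ee_zero, one_mul, one_mul]

theorem bon_comb {c F0 F1 F2 A A0 A1 A2 C1 C2 : ℝ} (hc : 0 ≤ c) (h0 : 0 ≤ F0) (h1 : 0 ≤ F1)
    (h2 : 0 ≤ F2) (hA0 : A0 ≤ c * F0 ^ 2) (hA1 : A1 ≤ c / 25 * F1 ^ 2)
    (hA2 : A2 ≤ c / 25 * F2 ^ 2) (p0 : 0 ≤ A0) (p1 : 0 ≤ A1) (p2 : 0 ≤ A2)
    (hC1 : C1 ^ 2 ≤ A0 * A1) (hC2 : C2 ^ 2 ≤ A0 * A2)
    (hA : A ≤ A0 + 8 * (C1 + C2) + 24 * (A1 + A2)) : A ≤ c * (F0 + F1 + F2) ^ 2 := by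
  have e1 : C1 ≤ c / 5 * (F0 * F1) := by
    refine le_of_sq_le_sq ?_ (by positivity)
    calc C1 ^ 2 ≤ A0 * A1 := hC1
      _ ≤ (c * F0 ^ 2) * (c / 25 * F1 ^ 2) := mul_le_mul hA0 hA1 p1 (by positivity)
      _ = (c / 5 * (F0 * F1)) ^ 2 := by ring
  have e2 : C2 ≤ c / 5 * (F0 * F2) := by
    refine le_of_sq_le_sq ?_ (by positivity)
    calc C2 ^ 2 ≤ A0 * A2 := hC2
      _ ≤ (c * F0 ^ 2) * (c / 25 * F2 ^ 2) := mul_le_mul hA0 hA2 p2 (by positivity)
      _ = (c / 5 * (F0 * F2)) ^ 2 := by ring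
  have q1 : 0 ≤ c * (F0 * F1) := by positivity
  have q2 : 0 ≤ c * (F0 * F2) := by positivity
  have q3 : 0 ≤ c * (F1 * F2) := by positivity
  have q4 : 0 ≤ c * F1 ^ 2 := by positivity
  have q5 : 0 ≤ c * F2 ^ 2 := by positivity
  have e3 : c * (F0 + F1 + F2) ^ 2 = c * F0 ^ 2 + c * F1 ^ 2 + c * F2 ^ 2 + 2 * (c * (F0 * F1)) +
    2 * (c * (F0 * F2)) + 2 * (c * (F1 * F2)) := by ring
  rw [e3]
  linarith

theorem bon_aux (T : Finset ι) : ∀ (L : ℕ) (F : (ι → ZMod 3) → ℂ),
    (∀ a, F a ≠ 0 → spt a ⊆ T ∧ (spt a).card ≤ L) →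
    avR (fun x => ‖bonX F x‖ ^ 4) ≤ 25 ^ L * (avR fun x => ‖bonX F x‖ ^ 2) ^ 2 := by
  induction T using Finset.induction_on with
  | empty =>
    intro L F h
    have h1 : ∀ x, bonX F x = F 0 := by
      intro x
      unfold bonX
      rw [Fintype.sum_eq_single (0 : ι → ZMod 3)]
      · rw [chi_zero, mul_one]
      · intro a ha
        by_cases hF : F a = 0
        · rw [hF, zero_mul]
        · exfalso
          apply ha
          have h2 := (h a hF).1
          funext i
          by_contra h3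
          have h4 : i ∈ spt a := mem_filter.2 ⟨mem_univ _, h3⟩
          exact absurd (h2 h4) (notMem_empty _)
    simp only [h1, avR_const]
    have h2 : (1 : ℝ) ≤ 25 ^ L := one_le_pow₀ (by norm_num)
    calc ‖F 0‖ ^ 4 = 1 * (‖F 0‖ ^ 2) ^ 2 := by ring
      _ ≤ 25 ^ L * (‖F 0‖ ^ 2) ^ 2 := mul_le_mul_of_nonneg_right h2 (by positivity)
  | insert k T hk ih =>
    intro L F h
    -- supports of the parts
    have hs0 : ∀ b, bonP k F 0 b ≠ 0 → spt b ⊆ T ∧ (spt b).card ≤ L := by
      intro b hb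
      have hbk : b k = 0 := by
        by_contra h1
        exact hb (if_neg h1)
      have h2 : bonP k F 0 b = F b := by
        unfold bonP
        rw [if_pos hbk]
        congr 1
        rw [← hbk, Function.update_eq_self]
      rw [h2] at hb
      obtain ⟨h3, h4⟩ := h b hb
      refine ⟨fun i hi => ?_, h4⟩
      rcases mem_insert.1 (h3 hi) with rfl | h5
      · exact absurd hbk (mem_filter.1 hi).2
      · exact h5
    have hsj : ∀ j : ZMod 3, j ≠ 0 → ∀ b, bonP k F j b ≠ 0 →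
        spt b ⊆ T ∧ (spt b).card + 1 ≤ L := by
      intro j hj b hb
      have hbk : b k = 0 := by
        by_contra h1
        exact hb (if_neg h1)
      have h2 : bonP k F j b = F (Function.update b k j) := if_pos hbk
      rw [h2] at hb
      obtain ⟨h3, h4⟩ := h _ hb
      have h5 : spt (Function.update b k j) = insert k (spt b) := by
        ext i
        unfold spt
        rw [mem_insert, mem_filter, mem_filter]
        by_cases hi : i = k
        · subst hi
          simp [hj]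
        · simp [hi]
      have h6 : k ∉ spt b := fun h7 => (mem_filter.1 h7).2 hbk
      rw [h5] at h3 h4
      rw [card_insert_of_notMem h6] at h4
      refine ⟨fun i hi => ?_, h4⟩
      rcases mem_insert.1 (h3 (mem_insert_of_mem hi)) with rfl | h8
      · exact absurd hi h6
      · exact h8
    have e0 := ih L (bonP k F 0) hs0
    have ej : ∀ j : ZMod 3, j ≠ 0 → avR (fun x => ‖bonX (bonP k F j) x‖ ^ 4) ≤
        25 ^ L / 25 * (avR fun x => ‖bonX (bonP k F j) x‖ ^ 2) ^ 2 := by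
      intro j hj
      rcases L with _ | L
      · have h1 : ∀ x, bonX (bonP k F j) x = 0 := by
          intro x
          unfold bonX
          refine sum_eq_zero fun b _ => ?_
          by_cases h2 : bonP k F j b = 0
          · rw [h2, zero_mul]
          · have := (hsj j hj b h2).2
            omega
        simp [h1, avR_const]
      · have h1 := ih L (bonP k F j) fun b hb => ⟨(hsj j hj b hb).1, by
          have := (hsj j hj b hb).2
          omega⟩
        have h2 : (25 : ℝ) ^ (L + 1) / 25 = 25 ^ L := by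
          rw [pow_succ]
          field_simp
        rw [h2]
        exact h1
    -- the lines
    have hl4 : avR (fun x => ‖bonX F x‖ ^ 4) ≤
        avR (fun x => ‖bonX (bonP k F 0) x‖ ^ 4) +
          8 * (avR (fun x => ‖bonX (bonP k F 0) x‖ ^ 2 * ‖bonX (bonP k F 1) x‖ ^ 2) +
            avR (fun x => ‖bonX (bonP k F 0) x‖ ^ 2 * ‖bonX (bonP k F 2) x‖ ^ 2)) +
          24 * (avR (fun x => ‖bonX (bonP k F 1) x‖ ^ 4) +
            avR (fun x => ‖bonX (bonP k F 2) x‖ ^ 4)) := by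
      rw [← avR_line (fun x => ‖bonX F x‖ ^ 4) k]
      simp only [bonX_line]
      refine (avR_mono fun x => bonPt _ _ _).trans (le_of_eq ?_)
      rw [← avR_add, ← avR_add, ← avR_const_mul, ← avR_const_mul, ← avR_add, ← avR_add]
      congr 1
      funext x
      ring
    have hl2 : avR (fun x => ‖bonX F x‖ ^ 2) =
        avR (fun x => ‖bonX (bonP k F 0) x‖ ^ 2) + avR (fun x => ‖bonX (bonP k F 1) x‖ ^ 2) +
          avR (fun x => ‖bonX (bonP k F 2) x‖ ^ 2) := by
      rw [← avR_line (fun x => ‖bonX F x‖ ^ 2) k]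
      simp only [bonX_line, bonPt_two]
      rw [← avR_add, ← avR_add]
    have hn2 : ∀ G : (ι → ZMod 3) → ℂ, 0 ≤ avR (fun x => ‖bonX G x‖ ^ 2) := fun G =>
      avR_nonneg fun x => by positivity
    have hn4 : ∀ G : (ι → ZMod 3) → ℂ, 0 ≤ avR (fun x => ‖bonX G x‖ ^ 4) := fun G =>
      avR_nonneg fun x => by positivity
    have hcs : ∀ G G' : (ι → ZMod 3) → ℂ,
        (avR fun x => ‖bonX G x‖ ^ 2 * ‖bonX G' x‖ ^ 2) ^ 2 ≤
          avR (fun x => ‖bonX G x‖ ^ 4) * avR (fun x => ‖bonX G' x‖ ^ 4) := by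
      intro G G'
      have h1 := avR_mul_sq_le (fun x => ‖bonX G x‖ ^ 2) (fun x => ‖bonX G' x‖ ^ 2)
      have h2 : ∀ G : (ι → ZMod 3) → ℂ, (fun x => (‖bonX G x‖ ^ 2) ^ 2) =
          fun x => ‖bonX G x‖ ^ 4 := by
        intro G
        funext x
        ring
      simp only [h2] at h1
      exact h1
    rw [hl2]
    exact bon_comb (by positivity) (hn2 _) (hn2 _) (hn2 _) e0 (ej 1 (by decide)) (ej 2 (by decide))
      (hn4 _) (hn4 _) (hn4 _) (hcs _ _) (hcs _ _) hl4

theorem bonami (L : ℕ) (f : (ι → ZMod 3) → ℂ) (h : ∀ a, fh f a ≠ 0 → (spt a).card ≤ L) :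
    avR (fun x => ‖f x‖ ^ 4) ≤ 25 ^ L * (avR fun x => ‖f x‖ ^ 2) ^ 2 := by
  have h1 : f = bonX (fh f) := funext fun x => inversion f x
  have h2 := bon_aux univ L (fh f) fun a ha => ⟨subset_univ _, h a ha⟩
  rw [← h1] at h2
  exact h2

end HT13
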