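import Pool.Agent.HT13.FinE0

/-! # HT13-FinE: fact (E): the zero set of a function with the degree condition is empty or has density at least `1/27`
(paper: section 6) -/

set_option linter.unusedSectionVars false

namespace HT13

open Finset

variable {κ : Type} [Fintype κ] [DecidableEq κ]

private theorem fe_mul_self {a : ZMod 3} (h : a ≠ 0) : a * a = 1 := by
  revert h a
  decide

private theorem fe_mul_ne {a b : ZMod 3} (ha : a ≠ 0) (hb : b ≠ 0) : a * b ≠ 0 := by
  revert ha hb a b
  decide

/-- `finE0` transported (translate the zero `z0` to `0`, multiply the coordinate `j` by `s j`, restrict to the 4-dimensional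
slice through `z0`): in a set `S` of at least 4 directions there is one in which all three slices contain a zero. -/
theorem finE_dir {s : κ → ZMod 3} (hs : ∀ k, s k ≠ 0) {g : (κ → ZMod 3) → ZMod 3} (hg : DC s g)
    {z0 : κ → ZMod 3} (h0 : g z0 = 0) (h4 : 4 ≤ Fintype.card κ) : ∃ j : κ, ∀ u : ZMod 3, ∃ z, z j = u ∧ g z = 0 := by
  classical
  by_contra hcon
  push Not at hcon
  choose u hu using hcon
  obtain ⟨e⟩ : Nonempty (Fin 4 ↪ κ) := by
    apply Function.Embedding.nonempty_of_card_le
    simpa using h4
  -- the embedding of the four-dimensional cube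
  set Φ : (Fin 4 → ZMod 3) → (κ → ZMod 3) :=
    fun y k => z0 k + ∑ i : Fin 4, if e i = k then s k * y i else 0 with hΦ
  have hΦe : ∀ y i, Φ y (e i) = z0 (e i) + s (e i) * y i := by
    intro y i
    simp only [hΦ]
    congr 1
    rw [Finset.sum_eq_single i]
    · simp
    · intro b _ hb
      rw [if_neg (fun h => hb (e.injective h))]
    · intro h
      exact absurd (mem_univ i) h
  have hΦn : ∀ y k, (∀ i, e i ≠ k) → Φ y k = z0 k := by
    intro y k hk
    simp only [hΦ]
    rw [Finset.sum_eq_zero, add_zero]
    intro i _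
    rw [if_neg (hk i)]
  have hΦ0 : Φ 0 = z0 := by
    funext k
    simp [hΦ]
  have hΦu : ∀ y i t, Φ (Function.update y i (y i + t)) =
      Function.update (Φ y) (e i) (Φ y (e i) + s (e i) * t) := by
    intro y i t
    funext k
    by_cases hk : k = e i
    · subst hk
      rw [Function.update_self, hΦe, hΦe, Function.update_self]
      ring
    · rw [Function.update_of_ne hk]
      by_cases hk' : ∃ i', e i' = k
      · obtain ⟨i', rfl⟩ := hk'
        have hii : i' ≠ i := fun h => hk (by rw [h])
        rw [hΦe, hΦe, Function.update_of_ne hii]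
      · push Not at hk'
        rw [hΦn _ _ hk', hΦn _ _ hk']
  set g' : (Fin 4 → ZMod 3) → ZMod 3 := fun y => g (Φ y) with hg'
  have hdc : DC (fun _ => 1) g' := by
    intro y i t i' t' ht ht' h1 h2
    simp only [hg', hΦu, one_mul] at h1 h2
    have e1 : s (e i) * (s (e i) * t) = t := by
      rw [← mul_assoc, fe_mul_self (hs _), one_mul]
    have e2 : s (e i') * (s (e i') * t') = t' := by
      rw [← mul_assoc, fe_mul_self (hs _), one_mul]
    have h3 := hg (Φ y) (e i) (s (e i) * t) (e i') (s (e i') * t') (fe_mul_ne (hs _) ht) (fe_mul_ne (hs _) ht')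
      (by rw [e1]; exact h1) (by rw [e2]; exact h2)
    have h4 : i = i' := e.injective h3.1
    refine ⟨h4, ?_⟩
    subst h4
    rw [← e1, h3.2, e2]
  have hne : ∀ i, s (e i) * (u (e i) - z0 (e i)) ≠ 0 := by
    intro i
    refine fe_mul_ne (hs _) (fun h => ?_)
    have h5 : z0 (e i) = u (e i) := (sub_eq_zero.1 h).symm
    exact hu (e i) z0 h5 h0
  obtain ⟨j, y, hy1, hy2⟩ := finE0 g' hdc (by simp only [hg']; rw [hΦ0]; exact h0)
    (fun i => s (e i) * (u (e i) - z0 (e i))) hne
  refine hu (e j) (Φ y) ?_ hy2
  rw [hΦe, hy1, ← mul_assoc, fe_mul_self (hs _), one_mul]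
  ring

/-- extension of a point of the slice -/
private def feExt (j : κ) (u : ZMod 3) (y : {k : κ // k ≠ j} → ZMod 3) : κ → ZMod 3 :=
  fun k => if h : k = j then u else y ⟨k, h⟩

private theorem feExt_self (j : κ) (u : ZMod 3) (y : {k : κ // k ≠ j} → ZMod 3) : feExt j u y j = u := by
  unfold feExt
  rw [dif_pos rfl]

private theorem feExt_val (j : κ) (u : ZMod 3) (y : {k : κ // k ≠ j} → ZMod 3) (k : {k : κ // k ≠ j}) :
    feExt j u y k.1 = y k := by
  unfold feExt
  rw [dif_neg k.2]

private theorem feExt_update (j : κ) (u : ZMod 3) (y : {k : κ // k ≠ j} → ZMod 3) (k : {k : κ // k ≠ j})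
    (a : ZMod 3) : feExt j u (Function.update y k a) = Function.update (feExt j u y) k.1 a := by
  funext m
  by_cases hm : m = j
  · subst hm
    rw [feExt_self, Function.update_of_ne (Ne.symm k.2), feExt_self]
  · by_cases hk : m = k.1
    · subst hk
      rw [Function.update_self, feExt_val, Function.update_self]
    · rw [Function.update_of_ne hk]
      have e1 := feExt_val j u (Function.update y k a) ⟨m, hm⟩
      have e2 := feExt_val j u y ⟨m, hm⟩
      simp only at e1 e2
      rw [e1, e2, Function.update_of_ne]
      intro h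
      exact hk (congrArg Subtype.val h)

private theorem fe_aux (n : ℕ) : ∀ (κ : Type) [Fintype κ] [DecidableEq κ], Fintype.card κ = n →
    ∀ {s : κ → ZMod 3} (_ : ∀ k, s k ≠ 0) {g : (κ → ZMod 3) → ZMod 3} (_ : DC s g)
    {z0 : κ → ZMod 3} (_ : g z0 = 0), 3 ^ n ≤ 27 * (univ.filter fun z => g z = 0).card := by
  induction n with
  | zero =>
    intro κ _ _ _ s _ g _ z0 h0
    have h1 : 0 < (univ.filter fun z => g z = 0).card := card_pos.2 ⟨z0, by simp [h0]⟩
    omega
  | succ n ih =>
    intro κ _ _ hcard s hs g hg z0 h0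
    have hpos : 0 < (univ.filter fun z => g z = 0).card := card_pos.2 ⟨z0, by simp [h0]⟩
    by_cases hn : n + 1 ≤ 3
    · have h1 : 3 ^ (n + 1) ≤ 3 ^ 3 := Nat.pow_le_pow_right (by norm_num) hn
      have h2 : (3 : ℕ) ^ 3 = 27 := by norm_num
      omega
    · obtain ⟨j, hj⟩ := finE_dir hs hg h0 (by omega)
      have hslice : ∀ u : ZMod 3, 3 ^ n ≤ 27 * (univ.filter fun z => g z = 0 ∧ z j = u).card := by
        intro u
        obtain ⟨z, hz1, hz2⟩ := hj u
        have hext : feExt j u (fun k => z k.1) = z := by
          funext m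
          by_cases hm : m = j
          · subst hm
            rw [feExt_self, hz1]
          · exact feExt_val j u (fun k => z k.1) ⟨m, hm⟩
        have hc : Fintype.card {k : κ // k ≠ j} = n := by
          have h1 : Fintype.card {k : κ // k ≠ j} = Fintype.card κ - 1 := by simp
          omega
        have h1 := ih {k : κ // k ≠ j} hc (s := fun k => s k.1) (fun k => hs k.1)
          (g := fun y => g (feExt j u y)) (by
            intro y i t i' t' ht ht' h1 h2
            simp only [feExt_update] at h1 h2
            rw [← feExt_val j u y i] at h1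
            rw [← feExt_val j u y i'] at h2
            have h3 := hg (feExt j u y) i.1 t i'.1 t' ht ht' h1 h2
            exact ⟨Subtype.ext h3.1, h3.2⟩) (z0 := fun k => z k.1) (by
            show g (feExt j u fun k => z k.1) = 0
            rw [hext]
            exact hz2)
        refine h1.trans (Nat.mul_le_mul_left _ ?_)
        refine card_le_card_of_injOn (feExt j u) ?_ ?_
        · intro y hy
          simp only [coe_filter, mem_univ, true_and, Set.mem_ofPred_eq] at hy ⊢
          exact ⟨hy, feExt_self j u y⟩
        · intro y _ y' _ hyy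
          funext k
          rw [← feExt_val j u y k, ← feExt_val j u y' k, hyy]
      have hsum : (univ.filter fun z => g z = 0).card =
          ∑ u : ZMod 3, (univ.filter fun z => g z = 0 ∧ z j = u).card := by
        rw [card_eq_sum_card_fiberwise (f := fun z : κ → ZMod 3 => z j) (t := univ) (fun _ _ => mem_univ _)]
        refine sum_congr rfl fun u _ => ?_
        rw [filter_filter]
      rw [hsum, mul_sum]
      have h2 : ∑ _u : ZMod 3, 3 ^ n ≤ ∑ u : ZMod 3, 27 * (univ.filter fun z => g z = 0 ∧ z j = u).card :=
        sum_le_sum fun u _ => hslice u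
      have h3 : ∑ _u : ZMod 3, 3 ^ n = 3 ^ (n + 1) := by
        rw [sum_const, card_univ, ZMod.card, smul_eq_mul, pow_succ, mul_comm]
      rw [← h3]
      exact h2

/-- Induction on `Fintype.card κ`: if it is `≤ 3` then `27 * #A ≥ 27 ≥ 3 ^ card κ`; otherwise take a direction `j` as in
`finE_dir`; each of the three slices `{z j = u}` is a function on the cube with the coordinates `≠ j` (subtype
`{k // k ≠ j}`) satisfying `DC` and having a zero. -/
theorem finE {s : κ → ZMod 3} (hs : ∀ k, s k ≠ 0) {g : (κ → ZMod 3) → ZMod 3} (hg : DC s g)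
    {z0 : κ → ZMod 3} (h0 : g z0 = 0) :
    3 ^ Fintype.card κ ≤ 27 * (univ.filter fun z => g z = 0).card :=
  fe_aux _ κ rfl hs hg h0

end HT13
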