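import Pool.Agent.HT13.SqDich
import Pool.Agent.HT13.FinE

/-! # HT13-C1: a cylinder with 82 clean siblings is good (paper: section 7, (C1)) -/

set_option linter.unusedSectionVars false

namespace HT13

open Finset

variable {S : Sq}

/-- the base point agrees with `x` on the coordinates `≥ K` -/
private theorem bp_ge (J : Finset ℕ) (K : ℕ) (v : ℕ → ZMod 3) (m : ℕ) (x : Fin (S.n m) → ZMod 3)
    (z : ↥(range K \ J) → ZMod 3) (k : Fin (S.n m)) (hk : K ≤ (k : ℕ)) :
    bp S J K v m x z k = x k := by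
  have h : k ∉ JJ S (range K) m := by
    unfold JJ
    simp [hk]
  unfold bp mixp
  rw [if_neg h]

/-- the base point agrees with `v` on the coordinates in `J` -/
private theorem bp_mem_J {J : Finset ℕ} {K : ℕ} (hJ : J ⊆ range K) (v : ℕ → ZMod 3) (m : ℕ)
    (x : Fin (S.n m) → ZMod 3) (z : ↥(range K \ J) → ZMod 3) {k : Fin (S.n m)} (hk : (k : ℕ) ∈ J) :
    bp S J K v m x z k = v k := by
  have h : k ∈ JJ S (range K) m := by
    unfold JJ
    rw [mem_filter]
    exact ⟨mem_univ _, hJ hk⟩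
  have h2 : ¬ (k : ℕ) ∈ range K \ J := fun h3 => (mem_sdiff.1 h3).2 hk
  unfold bp mixp
  rw [if_pos h]
  unfold pt glue
  rw [dif_neg h2]

/-- For a typical `x` the zero sets of the level functions of different siblings are disjoint: at a common zero `z` the point
`pp (bp x z)` of `U m` would have two different neighbours (`gg_neighbour`, `S.val`). -/
theorem gg_zero_disj {J : Finset ℕ} {K m : ℕ} (hK : K < S.n m) (hJ : J ⊆ range K) {v : ℕ → ZMod 3}
    {s s' : (m : ℕ) → Fin (S.n m) → ZMod 3} (hs : SSg S s) (hs' : SSg S s') {c c' : ℕ → ZMod 3}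
    {p p' : ℕ × ZMod 3} (hp : p.1 ∈ J ∧ p.2 ≠ v p.1) (hp' : p'.1 ∈ J ∧ p'.2 ≠ v p'.1) (hne : p ≠ p')
    {x : Fin (S.n m) → ZMod 3} (hx : x ∈ Typ S K m)
    (h1 : ∀ z, gg S J K (Function.update v p.1 p.2) s c m x z = 0)
    (h2 : ∀ z, gg S J K (Function.update v p'.1 p'.2) s' c' m x z = 0) (z : ↥(range K \ J) → ZMod 3) :
    ¬ (gg S J K v s c m x z = 0 ∧ gg S J K v s' c' m x z = 0) := by
  rintro ⟨h3, h4⟩
  have hpK : p.1 < K := mem_range.1 (hJ hp.1)
  have hpK' : p'.1 < K := mem_range.1 (hJ hp'.1)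
  have hn : p.1 < S.n m := by omega
  have hn' : p'.1 < S.n m := by omega
  have h5 := gg_neighbour hK hJ hs c v hp.1 hn hx h3 (h1 z)
  have h6 := gg_neighbour hK hJ hs' c' v hp'.1 hn' hx h4 (h2 z)
  have hP : pp S m (bp S J K v m x z) ∈ S.U m := pp_mem hx (bp_ge J K v m x z)
  have e : pp S m (bp S J K v m x z) ⟨p.1, hn⟩ = v p.1 := by
    rw [pp_apply _ _ (by dsimp only; omega), bp_mem_J hJ v m x z hp.1]
  have e' : pp S m (bp S J K v m x z) ⟨p'.1, hn'⟩ = v p'.1 := by
    rw [pp_apply _ _ (by dsimp only; omega), bp_mem_J hJ v m x z hp'.1]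
  obtain ⟨h7, h8⟩ := S.val m _ hP ⟨p.1, hn⟩ (mem_univ _) p.2 (by rw [e]; exact hp.2) ⟨p'.1, hn'⟩
    (mem_univ _) p'.2 (by rw [e']; exact hp'.2) h5 h6
  exact hne (Prod.ext (Fin.mk.inj_iff.1 h7) h8)

open Classical in
/-- Type II siblings: if `0` is null among the values `gg x z` for every clean `z`, and fewer than `1/27` of the `z` are not
clean (set `B`), then `(J, v)` is good with `(s, c)`: for typical `x` outside a null set the zeros of `gg x` lie in `B`, so by
`finE` there are none; by `mem_WW_iff_gg` no such `x` lies in `W ∩ H`. -/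
theorem good_of_typeII {J : Finset ℕ} {K : ℕ} (hJ : J ⊆ range K) {v : ℕ → ZMod 3}
    {s : (m : ℕ) → Fin (S.n m) → ZMod 3} (hs : SSg S s) {c : ℕ → ZMod 3} (B : Finset (↥(range K \ J) → ZMod 3))
    (hB : (27 * B.card : ℝ) < 3 ^ Fintype.card ↥(range K \ J))
    (h : ∀ z, z ∉ B → ∃ γ : ZMod 3, γ ≠ 0 ∧
      Null S (fun m => (Typ S K m).filter fun x => gg S J K v s c m x z ≠ γ)) :
    GoodW S J v s c := by
  obtain ⟨γ, hγ⟩ : ∃ γ : (↥(range K \ J) → ZMod 3) → ZMod 3, ∀ z, z ∉ B → γ z ≠ 0 ∧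
      Null S (fun m => (Typ S K m).filter fun x => gg S J K v s c m x z ≠ γ z) := by
    refine ⟨fun z => if hz : z ∉ B then (h z hz).choose else 0, fun z hz => ?_⟩
    beta_reduce
    rw [dif_pos hz]
    exact (h z hz).choose_spec
  have h1 : Null S (fun m => (univ \ B).biUnion fun z =>
      (Typ S K m).filter fun x => gg S J K v s c m x z ≠ γ z) :=
    null_biUnion S (univ \ B)
      (fun z m => (Typ S K m).filter fun x => gg S J K v s c m x z ≠ γ z)
      fun z hz => (hγ z (mem_sdiff.1 hz).2).2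
  refine ((null_not_typ S K).union S h1).mono S ?_
  filter_upwards [n_large S K] with m hK
  intro y hy
  rw [mem_inter] at hy
  by_contra hcon
  rw [mem_union, not_or] at hcon
  have hyT : y ∈ Typ S K m := by
    by_contra h2
    exact hcon.1 (mem_sdiff.2 ⟨mem_univ _, h2⟩)
  have hval : ∀ z, z ∉ B → gg S J K v s c m y z = γ z := by
    intro z hz
    by_contra h2
    exact hcon.2 (mem_biUnion.2 ⟨z, mem_sdiff.2 ⟨mem_univ _, hz⟩, mem_filter.2 ⟨hyT, h2⟩⟩)
  have h0 : gg S J K v s c m y (rs S J K m y) = 0 := by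
    have h2 := (mem_WW_iff_gg hK hJ hs c v hyT).1 hy.1
    have h3 := hy.2
    unfold HH at h3
    rw [mem_hyp] at h3
    rw [h3] at h2
    exact (left_eq_add.1 h2)
  have h2 := finE (cf_ne_zero' hK hs) (gg_DC hK hJ hs c v hyT) h0
  have h3 : (univ.filter fun z => gg S J K v s c m y z = 0) ⊆ B := by
    intro z hz
    by_contra hzB
    rw [mem_filter, hval z hzB] at hz
    exact (hγ z hzB).1 hz.2
  have h4 := card_le_card h3
  have h5 : 3 ^ Fintype.card ↥(range K \ J) ≤ 27 * B.card :=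
    h2.trans (Nat.mul_le_mul_left _ h4)
  have h6 : (3 : ℝ) ^ Fintype.card ↥(range K \ J) ≤ 27 * B.card := by exact_mod_cast h5
  linarith

/-- Counting for type I siblings, at a fixed `m`: 82 subsets `X p` of the cube of density `≥ 333/1000` and an exceptional set `E`
of density `≤ 1/1000`: some `x ∉ E` lies in at least 28 of them (`82 * 0.333 - 82 * 0.001 > 27`). -/
theorem exists_28 {ι : Type} [Fintype ι] [DecidableEq ι] {α : Type} [DecidableEq α] (L : Finset α)
    (hL : 82 ≤ L.card) (X : α → Finset (ι → ZMod 3)) (hX : ∀ p ∈ L, 333 / 1000 ≤ dens (X p))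
    (E : Finset (ι → ZMod 3)) (hE : dens E ≤ 1 / 1000) :
    ∃ x, x ∉ E ∧ 28 ≤ (L.filter fun p => x ∈ X p).card := by
  by_contra hcon
  push Not at hcon
  have h1 : ∀ p ∈ L, 332 / 1000 ≤ dens (X p \ E) := by
    intro p hp
    have h2 := dens_sdiff_add_inter (X p) E
    have h3 := dens_mono (inter_subset_right (s₁ := X p) (s₂ := E))
    have h4 := hX p hp
    linarith
  have h2 : ∑ p ∈ L, dens (X p \ E) ≤ 27 := by
    have e : ∑ p ∈ L, dens (X p \ E) =
        avR (fun x => ∑ p ∈ L, if x ∈ X p \ E then (1 : ℝ) else 0) := by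
      rw [avR_sum]
      exact sum_congr rfl fun p _ => dens_eq_avR _
    rw [e, ← avR_const (ι := ι) 27]
    refine avR_mono fun x => ?_
    rw [Finset.sum_boole]
    by_cases hx : x ∈ E
    · have h3 : (L.filter fun p => x ∈ X p \ E) = ∅ := by
        rw [Finset.filter_eq_empty_iff]
        intro p _ h4
        exact (mem_sdiff.1 h4).2 hx
      rw [h3]
      simp
    · have h3 := hcon x hx
      have h4 : (L.filter fun p => x ∈ X p \ E).card ≤ 27 := by
        refine le_trans (card_le_card ?_) (Nat.lt_succ_iff.1 h3)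
        intro p hp
        rw [mem_filter] at hp ⊢
        exact ⟨hp.1, (mem_sdiff.1 hp.2).1⟩
      exact_mod_cast h4
  have h3 : (L.card : ℝ) * (332 / 1000) ≤ ∑ p ∈ L, dens (X p \ E) := by
    rw [← nsmul_eq_mul]
    exact Finset.card_nsmul_le_sum L _ _ h1
  have h4 : (82 : ℝ) ≤ L.card := by exact_mod_cast hL
  linarith

/-- (C1).  Choose `(s^p, c^p)` for the clean siblings `p ∈ L`, `K` with `J ⊆ range K` and `nonclean_rel` with `δ = 1/28`.
If for some `p` the first alternative of `gg_dich` holds for all clean `z`: `good_of_typeII`.  Otherwise for every `p` there is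
`z_p` with the second alternative; with `X p = {x typical : gg^p x z_p = 0}` and `E =` (not typical, or some sibling level
function `gg (update v p)` does not vanish identically: `gg_clean`), `exists_28` gives an `x` for which 28 of the disjoint
(`gg_zero_disj`) sets `{z : gg^p x z = 0}` are nonempty, so by `finE` each contains `≥ 3^κ / 27` points: contradiction. -/
theorem C1 {J : Finset ℕ} {v : ℕ → ZMod 3} (L : Finset (ℕ × ZMod 3))
    (hL : ∀ p ∈ L, p.1 ∈ J ∧ p.2 ≠ v p.1 ∧ Clean S J (Function.update v p.1 p.2)) (hc : 82 ≤ L.card) :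
    Good S J v := by
  classical
  -- the hyperplanes of the siblings
  have hsc : ∀ p : ℕ × ZMod 3, ∃ (s : (m : ℕ) → Fin (S.n m) → ZMod 3) (c : ℕ → ZMod 3),
      p ∈ L → SSg S s ∧ CleanW S J (Function.update v p.1 p.2) s c := by
    intro p
    by_cases hp : p ∈ L
    · obtain ⟨s, hs, c, h⟩ := (hL p hp).2.2
      exact ⟨s, c, fun _ => ⟨hs, h⟩⟩
    · exact ⟨fun _ _ => 0, fun _ => 0, fun h => absurd h hp⟩
  choose s c hsc using hsc
  -- the number `K`
  obtain ⟨K0, hK0⟩ := nonclean_rel S J (1 / 28) (by norm_num)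
  obtain ⟨K, hKdef⟩ : ∃ K, K = max K0 (J.sup id + 1) := ⟨_, rfl⟩
  have hKK : K0 ≤ K := by rw [hKdef]; exact le_max_left _ _
  have hJ : J ⊆ range K := by
    intro k hk
    rw [mem_range, hKdef]
    have h1 : k ≤ J.sup id := Finset.le_sup (f := id) hk
    exact lt_of_lt_of_le (Nat.lt_succ_of_le h1) (le_max_right _ _)
  obtain ⟨B, hB, hBc⟩ := hK0 K hKK hJ v
  by_cases hII : ∃ p ∈ L, ∀ z, z ∉ B → ∃ γ : ZMod 3, γ ≠ 0 ∧
      Null S (fun m => (Typ S K m).filter fun x => gg S J K v (s p) (c p) m x z ≠ γ)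
  · obtain ⟨p, hp, h⟩ := hII
    refine ⟨s p, (hsc p hp).1, c p, good_of_typeII hJ (hsc p hp).1 B ?_ h⟩
    have h3 : (0 : ℝ) < 3 ^ Fintype.card ↥(range K \ J) := by positivity
    linarith
  exfalso
  push Not at hII
  have hz : ∀ p : ℕ × ZMod 3, ∃ z : ↥(range K \ J) → ZMod 3, p ∈ L →
      ∀ᶠ m in (UU : Filter ℕ), 333 / 1000 ≤
        dens ((Typ S K m).filter fun x => gg S J K v (s p) (c p) m x z = 0) := by
    intro p
    by_cases hp : p ∈ L
    · obtain ⟨z, hzB, hz⟩ := hII p hp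
      refine ⟨z, fun _ => ?_⟩
      rcases gg_dich (c := c p) hJ (hsc p hp).1 z (hBc z hzB) with ⟨γ, h1, h2⟩ | h1
      · exact absurd h2 (hz γ h1)
      · exact h1
    · exact ⟨fun _ => 0, fun h => absurd h hp⟩
  choose z hz using hz
  have hE : Null S (fun m => (univ \ Typ S K m) ∪ L.biUnion fun p => (Typ S K m).filter fun x =>
      ∃ z, gg S J K (Function.update v p.1 p.2) (s p) (c p) m x z ≠ 0) :=
    (null_not_typ S K).union S (null_biUnion S L
      (fun p m => (Typ S K m).filter fun x =>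
        ∃ z, gg S J K (Function.update v p.1 p.2) (s p) (c p) m x z ≠ 0)
      fun p hp => gg_clean hJ (hsc p hp).2)
  have hall : ∀ᶠ m in (UU : Filter ℕ), ∀ p ∈ L, 333 / 1000 ≤
      dens ((Typ S K m).filter fun x => gg S J K v (s p) (c p) m x (z p) = 0) := by
    rw [Filter.eventually_all_finset]
    exact hz
  obtain ⟨m, ⟨hm1, hm2⟩, hm3⟩ := ((hall.and (n_large S K)).and
    ((null_iff S).1 hE (1 / 1000) (by norm_num))).exists
  obtain ⟨x, hxE, hx28⟩ := exists_28 L hc
    (fun p => (Typ S K m).filter fun x => gg S J K v (s p) (c p) m x (z p) = 0) hm1 _ hm3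
  rw [mem_union, not_or] at hxE
  have hxT : x ∈ Typ S K m := by
    by_contra h
    exact hxE.1 (mem_sdiff.2 ⟨mem_univ _, h⟩)
  have hx0 : ∀ p ∈ L, ∀ z, gg S J K (Function.update v p.1 p.2) (s p) (c p) m x z = 0 := by
    intro p hp z'
    by_contra h
    exact hxE.2 (mem_biUnion.2 ⟨p, hp, mem_filter.2 ⟨hxT, z', h⟩⟩)
  obtain ⟨L', hL'⟩ : ∃ L', L' = L.filter fun p => x ∈ (Typ S K m).filter fun x =>
    gg S J K v (s p) (c p) m x (z p) = 0 := ⟨_, rfl⟩
  rw [← hL'] at hx28
  have hL'm : ∀ p ∈ L', p ∈ L ∧ gg S J K v (s p) (c p) m x (z p) = 0 := by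
    intro p hp
    rw [hL', mem_filter, mem_filter] at hp
    exact ⟨hp.1, hp.2.2⟩
  have hcard : ∀ p ∈ L', 3 ^ Fintype.card ↥(range K \ J) ≤
      27 * (univ.filter fun z' => gg S J K v (s p) (c p) m x z' = 0).card := by
    intro p hp
    obtain ⟨h1, h2⟩ := hL'm p hp
    exact finE (cf_ne_zero' hm2 (hsc p h1).1) (gg_DC hm2 hJ (hsc p h1).1 (c p) v hxT) h2
  have hdisj : (L' : Set (ℕ × ZMod 3)).PairwiseDisjoint
      fun p => univ.filter fun z' => gg S J K v (s p) (c p) m x z' = 0 := by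
    intro p hp p' hp' hne
    have h1 := (hL'm p hp).1
    have h1' := (hL'm p' hp').1
    rw [Function.onFun, Finset.disjoint_left]
    intro z' h2 h3
    exact gg_zero_disj hm2 hJ (hsc p h1).1 (hsc p' h1').1 ⟨(hL p h1).1, (hL p h1).2.1⟩
      ⟨(hL p' h1').1, (hL p' h1').2.1⟩ hne hxT (hx0 p h1) (hx0 p' h1') z'
      ⟨(mem_filter.1 h2).2, (mem_filter.1 h3).2⟩
  have hsum : ∑ p ∈ L', (univ.filter fun z' => gg S J K v (s p) (c p) m x z' = 0).card ≤
      3 ^ Fintype.card ↥(range K \ J) := by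
    rw [← Finset.card_biUnion fun p hp p' hp' hne => hdisj hp hp' hne]
    refine (card_le_univ _).trans (le_of_eq ?_)
    exact card_cube
  have hmul : L'.card * 3 ^ Fintype.card ↥(range K \ J) ≤
      27 * ∑ p ∈ L', (univ.filter fun z' => gg S J K v (s p) (c p) m x z' = 0).card := by
    rw [Finset.mul_sum, ← smul_eq_mul]
    exact Finset.card_nsmul_le_sum L' _ _ hcard
  have hpos : 0 < 3 ^ Fintype.card ↥(range K \ J) := Nat.pow_pos (by norm_num)
  have h28 : 28 * 3 ^ Fintype.card ↥(range K \ J) ≤ L'.card * 3 ^ Fintype.card ↥(range K \ J) :=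
    Nat.mul_le_mul_right _ hx28
  omega

end HT13
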