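import Pool.Agent.HT13.FinC

/-! # HT13-C2Fin: uniqueness of the class of a level function (paper: section 7, (C2)) -/

set_option linter.unusedSectionVars false

namespace HT13

open Finset

variable {κ : Type} [Fintype κ] [DecidableEq κ]

private theorem card_pts : (univ : Finset (κ → ZMod 3)).card = 3 ^ Fintype.card κ := by
  rw [card_univ, Fintype.card_fun, ZMod.card]

/-- A set which contains a slice has at least `1/9` of the points. -/
private theorem pin1 {B : Finset (κ → ZMod 3)} (hB : (9 * B.card : ℝ) < 3 ^ Fintype.card κ) (l : κ)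
    (a : ZMod 3) (h : ∀ z, z l = a → z ∈ B) : False := by
  have h1 : (univ : Finset (κ → ZMod 3)).card ≤ (B ×ˢ (univ : Finset (ZMod 3))).card := by
    apply card_le_card_of_injOn (fun z => (Function.update z l a, z l))
    · intro z _
      simp only [coe_product, coe_univ, Set.mem_prod, mem_coe, Set.mem_univ, and_true]
      exact h _ (Function.update_self _ _ _)
    · intro z _ z' _ hzz
      simp only [Prod.mk.injEq] at hzz
      obtain ⟨e1, e2⟩ := hzz
      funext j
      by_cases hj : j = l
      · rw [hj, e2]
      · have := congrFun e1 j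
        rwa [Function.update_of_ne hj, Function.update_of_ne hj] at this
  rw [card_product, card_pts, card_univ, ZMod.card] at h1
  have h2 : (9 * B.card : ℝ) < (B.card * 3 : ℕ) := lt_of_lt_of_le hB (by exact_mod_cast h1)
  push_cast at h2
  have h3 : (0 : ℝ) ≤ B.card := Nat.cast_nonneg _
  linarith

/-- A set which contains a slice in two directions has at least `1/9` of the points. -/
private theorem pin2 {B : Finset (κ → ZMod 3)} (hB : (9 * B.card : ℝ) < 3 ^ Fintype.card κ)
    {l l' : κ} (hl : l ≠ l') (a b : ZMod 3) (h : ∀ z, z l = a → z l' = b → z ∈ B) : False := by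
  have h1 : (univ : Finset (κ → ZMod 3)).card ≤
      (B ×ˢ ((univ : Finset (ZMod 3)) ×ˢ (univ : Finset (ZMod 3)))).card := by
    apply card_le_card_of_injOn
      (fun z => (Function.update (Function.update z l a) l' b, z l, z l'))
    · intro z _
      simp only [coe_product, coe_univ, Set.mem_prod, mem_coe, Set.mem_univ, and_true]
      exact h _ (by rw [Function.update_of_ne hl, Function.update_self])
        (Function.update_self _ _ _)
    · intro z _ z' _ hzz
      simp only [Prod.mk.injEq] at hzz
      obtain ⟨e1, e2, e3⟩ := hzz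
      funext j
      by_cases hj : j = l
      · rw [hj, e2]
      · by_cases hj' : j = l'
        · rw [hj', e3]
        · have := congrFun e1 j
          rwa [Function.update_of_ne hj', Function.update_of_ne hj', Function.update_of_ne hj,
            Function.update_of_ne hj] at this
  rw [card_product, card_product, card_pts, card_univ, ZMod.card] at h1
  have h2 : (9 * B.card : ℝ) < (B.card * (3 * 3) : ℕ) := lt_of_lt_of_le hB (by exact_mod_cast h1)
  push_cast at h2
  linarith

private theorem z12 : (1 : ZMod 3) ≠ 2 := by decide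

private theorem tri_aux : ∀ a a' t : ZMod 3, t ≠ 0 → a' = a ∨ a' = a + t ∨ a = a' + t := by
  decide

/-- `g` and `g'` agree outside a set `B` of fewer than `1/9` of the points, `g` has the root `(l, a)`; then so has `g'`:
classify `g'` with `two_class`; a constant or another root `(l', a')` would give `g ≠ g'` on a set of density `≥ 1/9`
(`{z l = a, z l' = a' + s l'}` if `l ≠ l'`, a slice `{z l = ·}` otherwise or in the constant case). -/
theorem root_unique {s : κ → ZMod 3} (hs : ∀ k, s k ≠ 0) {g g' : (κ → ZMod 3) → ZMod 3} (hg' : DC s g')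
    (h0 : ∀ z, g' z ≠ 0) (B : Finset (κ → ZMod 3)) (hB : (9 * B.card : ℝ) < 3 ^ Fintype.card κ)
    (hgg : ∀ z, z ∉ B → g z = g' z) {l : κ} {a : ZMod 3} (h1 : ∀ z, z l = a → g z = 1)
    (h2 : ∀ z, z l = a + s l → g z = 2) :
    (∀ z, z l = a → g' z = 1) ∧ (∀ z, z l = a + s l → g' z = 2) := by
  have mem : ∀ z, g z ≠ g' z → z ∈ B := fun z hz => by
    by_contra hcon
    exact hz (hgg z hcon)
  rcases two_class hs hg' h0 with ⟨v, hv⟩ | ⟨l', a', h1', h2'⟩
  · exfalso
    by_cases hv1 : v = 1
    · refine pin1 hB l (a + s l) fun z hz => mem z ?_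
      rw [h2 z hz, hv z, hv1]
      exact z12.symm
    · refine pin1 hB l a fun z hz => mem z ?_
      rw [h1 z hz, hv z]
      exact fun hh => hv1 hh.symm
  · by_cases hl : l = l'
    · subst hl
      have trich : a' = a ∨ a' = a + s l ∨ a = a' + s l := tri_aux a a' (s l) (hs l)
      rcases trich with h | h | h
      · subst h
        exact ⟨h1', h2'⟩
      · exfalso
        refine pin1 hB l (a + s l) fun z hz => mem z ?_
        rw [h2 z hz, h1' z (by rw [h]; exact hz)]
        exact z12.symm
      · exfalso
        refine pin1 hB l a fun z hz => mem z ?_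
        rw [h1 z hz, h2' z (by rw [← h]; exact hz)]
        exact z12
    · exfalso
      refine pin2 hB hl a (a' + s l') fun z hz hz' => mem z ?_
      rw [h1 z hz, h2' z hz']
      exact z12

theorem const_unique {s : κ → ZMod 3} (hs : ∀ k, s k ≠ 0) {g g' : (κ → ZMod 3) → ZMod 3} (hg' : DC s g')
    (h0 : ∀ z, g' z ≠ 0) (B : Finset (κ → ZMod 3)) (hB : (9 * B.card : ℝ) < 3 ^ Fintype.card κ)
    (hgg : ∀ z, z ∉ B → g z = g' z) {w : ZMod 3} (h1 : ∀ z, g z = w) :
    ∀ z, g' z = w := by
  have mem : ∀ z, g z ≠ g' z → z ∈ B := fun z hz => by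
    by_contra hcon
    exact hz (hgg z hcon)
  rcases two_class hs hg' h0 with ⟨v, hv⟩ | ⟨l', a', h1', h2'⟩
  · intro z
    rw [hv z]
    by_contra hcon
    have hall : ∀ z, z ∈ B := fun z => mem z (by
      rw [h1 z, hv z]
      exact fun hh => hcon hh.symm)
    have hBu : B = univ := eq_univ_iff_forall.2 hall
    rw [hBu, card_pts] at hB
    push_cast at hB
    have h3 : (0 : ℝ) < 3 ^ Fintype.card κ := by positivity
    linarith
  · exfalso
    by_cases hw : w = 1
    · refine pin1 hB l' (a' + s l') fun z hz => mem z ?_
      rw [h1 z, h2' z hz, hw]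
      exact z12
    · refine pin1 hB l' a' fun z hz => mem z ?_
      rw [h1 z, h1' z hz]
      exact hw

end HT13
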