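import Pool.Agent.HT13.SqDich
import Pool.Agent.HT13.C2Fin

/-! # HT13-C2: the root of a good cylinder which is not clean (paper: section 7, (C2)) -/

set_option linter.unusedSectionVars false

namespace HT13

open Finset

variable {S : Sq}

/-- The root structure at `(J, v)`, with respect to `(s, c)`: the direction `l ∉ J`, the values `a`, `a + σ` (`σ` is the
coefficient of `l`) give clean children, the third value `a - σ` (the centre) a good child, all three with respect to the same
hyperplane `∑ s x = c + 1 - σ a` of the remaining coordinates. -/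
def Root (S : Sq) (J : Finset ℕ) (v : ℕ → ZMod 3) (s : (m : ℕ) → Fin (S.n m) → ZMod 3) (c : ℕ → ZMod 3)
    (l : ℕ) (a σ : ZMod 3) : Prop :=
  l ∉ J ∧ σ ≠ 0 ∧ (∀ᶠ m in (UU : Filter ℕ), cf S s l m = σ) ∧
  CleanW S (insert l J) (Function.update v l a) s (fun m => c m + 1 - σ * a) ∧
  CleanW S (insert l J) (Function.update v l (a + σ)) s (fun m => c m + 1 - σ * a) ∧
  GoodW S (insert l J) (Function.update v l (a - σ)) s (fun m => c m + 1 - σ * a)

/-- The set of the regular points `x` for `m`: typical, `gg x` never vanishes and takes the value `γ z` at each `z ∉ B`. -/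
theorem null_not_regular {J : Finset ℕ} {K : ℕ} (hJ : J ⊆ range K) {s : (m : ℕ) → Fin (S.n m) → ZMod 3}
    (hs : SSg S s) {c : ℕ → ZMod 3} {v : ℕ → ZMod 3} (hg : GoodW S J v s c) (B : Finset (↥(range K \ J) → ZMod 3))
    (hB : ∀ z, z ∉ B → Clean S (range K) (glue J K v z)) :
    ∃ (γ : (↥(range K \ J) → ZMod 3) → ZMod 3) (X : (m : ℕ) → Finset (Fin (S.n m) → ZMod 3)),
      Null S (fun m => univ \ X m) ∧
      ∀ m, ∀ x ∈ X m, x ∈ Typ S K m ∧ (∀ z, gg S J K v s c m x z ≠ 0) ∧ ∀ z, z ∉ B → gg S J K v s c m x z = γ z := by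
  classical
  have h1 : ∀ z : ↥(range K \ J) → ZMod 3, ∃ γ : ZMod 3, z ∉ B →
      Null S (fun m => (Typ S K m).filter fun x => gg S J K v s c m x z ≠ γ) := by
    intro z
    by_cases hz : z ∈ B
    · exact ⟨0, fun h => absurd hz h⟩
    · obtain ⟨γ, -, h⟩ := gg_const hJ hs hg z (hB z hz)
      exact ⟨γ, fun _ => h⟩
  choose γ hγ using h1
  refine ⟨γ, fun m => (Typ S K m).filter fun x => (∀ z, gg S J K v s c m x z ≠ 0) ∧
    ∀ z, z ∉ B → gg S J K v s c m x z = γ z, ?_, ?_⟩
  · have h2 : Null S (fun m => (univ \ B).biUnion fun z =>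
        (Typ S K m).filter fun x => gg S J K v s c m x z ≠ γ z) :=
      null_biUnion S (univ \ B) (fun z m => (Typ S K m).filter fun x => gg S J K v s c m x z ≠ γ z)
        fun z hz => hγ z (mem_sdiff.1 hz).2
    refine Null.mono S (Null.union S (Null.union S (null_not_typ S K) (gg_good hJ hg)) h2)
      (Filter.Eventually.of_forall fun m x hx => ?_)
    have hx' := (mem_sdiff.1 hx).2
    by_cases hT : x ∈ Typ S K m
    · by_cases h0 : ∃ z, gg S J K v s c m x z = 0
      · exact mem_union_left _ (mem_union_right _ (mem_filter.2 ⟨hT, h0⟩))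
      · refine mem_union_right _ ?_
        by_contra hcon
        refine hx' (mem_filter.2 ⟨hT, fun z hz => h0 ⟨z, hz⟩, fun z hz => ?_⟩)
        by_contra hne
        exact hcon (mem_biUnion.2 ⟨z, mem_sdiff.2 ⟨mem_univ z, hz⟩, mem_filter.2 ⟨hT, hne⟩⟩)
    · exact mem_union_left _ (mem_union_left _ (mem_sdiff.2 ⟨mem_univ x, hT⟩))
  · intro m x hx
    obtain ⟨h3, h4, h5⟩ := mem_filter.1 hx
    exact ⟨h3, h4, h5⟩

/-- if for most `m` some element of a finite type works then one element works for most `m` -/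
private theorem UU_exists {α : Type} [Finite α] {P : ℕ → α → Prop}
    (h : ∀ᶠ m in (UU : Filter ℕ), ∃ q, P m q) : ∃ q, ∀ᶠ m in (UU : Filter ℕ), P m q := by
  classical
  obtain ⟨m0, q0, -⟩ := h.exists
  obtain ⟨q, hq⟩ := UU_const (fun m => if h : ∃ q, P m q then h.choose else q0)
  refine ⟨q, ?_⟩
  filter_upwards [h, hq] with m h1 h2
  rw [dif_pos h1] at h2
  rw [← h2]
  exact h1.choose_spec

private theorem GoodW.congr_c {J : Finset ℕ} {v : ℕ → ZMod 3} {s : (m : ℕ) → Fin (S.n m) → ZMod 3}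
    {c c' : ℕ → ZMod 3} (h : GoodW S J v s c) (hc : ∀ᶠ m in (UU : Filter ℕ), c m = c' m) :
    GoodW S J v s c' := by
  refine Null.mono S h ?_
  filter_upwards [hc] with m hm
  rw [HH_congr S s hm]

/-- slices of regular points: a child with the value `b` at `l` where the level function is `g0` -/
private theorem clean_child {J : Finset ℕ} {K : ℕ} (hJ : J ⊆ range K) {s : (m : ℕ) → Fin (S.n m) → ZMod 3}
    (hs : SSg S s) {c : ℕ → ZMod 3} {v : ℕ → ZMod 3} {X : (m : ℕ) → Finset (Fin (S.n m) → ZMod 3)}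
    (hX : Null S (fun m => univ \ X m)) (hT : ∀ m, ∀ x ∈ X m, x ∈ Typ S K m)
    (l : ↥(range K \ J)) (b σ g0 : ZMod 3) (hσ : ∀ᶠ m in (UU : Filter ℕ), cf S s l m = σ)
    (hg : ∀ᶠ m in (UU : Filter ℕ), ∀ x ∈ X m, ∀ z : ↥(range K \ J) → ZMod 3, z l = b →
      gg S J K v s c m x z = g0) :
    CleanW S (insert (l : ℕ) J) (Function.update v l b) s (fun m => c m + g0 - σ * b) := by
  have hlJ : (l : ℕ) ∉ J := (mem_sdiff.1 l.2).2
  have hlK : (l : ℕ) < K := mem_range.1 (mem_sdiff.1 l.2).1
  refine Null.mono S (Null.ovw S hX {(l : ℕ)} (Function.update v l b)) ?_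
  filter_upwards [hσ, hg, n_large S K] with m h1 h2 h3
  have e1 : WW S (insert (l : ℕ) J) (Function.update v l b) m =
      ovw (JJ S {(l : ℕ)} m) (pt S (Function.update v l b) m) (WW S J v m) := by
    rw [WW_insert S hlJ]
    congr 1
    refine WW_congr S (fun k hk => ?_) m
    rw [Function.update_of_ne]
    rintro rfl
    exact hlJ hk
  have e2 : HH S (insert (l : ℕ) J) s (fun m => c m + g0 - σ * b) m =
      ovw (JJ S {(l : ℕ)} m) (pt S (Function.update v l b) m) (HH S J s (fun m => c m + g0) m) := by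
    rw [← HH_insert S hlJ (Function.update v l b) s (fun m => c m + g0) m]
    refine HH_congr S s ?_
    rw [Function.update_self, h1]
  rw [e1, e2]
  intro x hx
  rw [mem_ovw, mem_sdiff]
  refine ⟨mem_univ _, fun hy => ?_⟩
  set y := mixp (JJ S {(l : ℕ)} m) x (pt S (Function.update v l b) m) with hydef
  have hln : (l : ℕ) < S.n m := hlK.trans h3
  have hyl : rs S J K m y l = b := by
    unfold rs
    rw [dif_pos hln, hydef]
    unfold mixp JJ pt
    rw [if_pos (by simp)]
    exact Function.update_self _ _ _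
  have hmem := mem_WW_iff_gg h3 hJ hs c v (hT m y hy)
  rw [h2 y hy _ hyl] at hmem
  have hmem2 : y ∈ WW S J v m ↔ y ∈ HH S J s (fun m => c m + g0) m := by
    rw [hmem]
    unfold HH
    rw [mem_hyp]
  rw [mem_symmDiff, mem_ovw, mem_ovw, ← hydef, hmem2] at hx
  rcases hx with hx | hx
  · exact hx.2 hx.1
  · exact hx.2 hx.1

/-- (C2).  `nonclean_rel` with `δ = 1/10`, regular points `X m` of `null_not_regular`.  For most `m` there is `x_m ∈ X m`
(`null_nonempty`); `gg_DC`, `two_class` classify `gg x_m`; by `UU_const` the class (and the coefficient `cf S s l m = σ`) does not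
depend on `m` (for most `m`), and by `root_unique`/`const_unique` all `x ∈ X m` have the same class.
Constant `w`: by `mem_WW_iff_gg` `W` and `H + w` agree on `X m`, so `(J, v)` is clean: contradiction.
Root `(l, a)`: on `X m ∩ {x l = a}` the sets `W` and `H + 1` agree, so (slice at `l = a`, `WW_insert`, `HH_insert`, `Null.ovw`) the
child at `a` is clean with `c + 1 - σ a`; on `{x l = a + σ}` `W` and `H + 2` agree: `c + 2 - σ (a + σ) = c + 1 - σ a` as
`σ² = 1`.  The centre is good by `GoodW.ext`: `c - σ (a - σ) = c + 1 - σ a`. -/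
theorem C2 {J : Finset ℕ} {v : ℕ → ZMod 3} {s : (m : ℕ) → Fin (S.n m) → ZMod 3} (hs : SSg S s) {c : ℕ → ZMod 3}
    (hg : GoodW S J v s c) (hnc : ¬ Clean S J v) : ∃ (l : ℕ) (a σ : ZMod 3), Root S J v s c l a σ := by
  classical
  obtain ⟨K0, hK0⟩ := nonclean_rel S J (1 / 10) (by norm_num)
  set K := max K0 (J.sup id + 1) with hKdef
  have hJ : J ⊆ range K := by
    intro k hk
    have h1 : k ≤ J.sup id := le_sup (f := id) hk
    rw [mem_range]
    omega
  obtain ⟨B, hBc, hB⟩ := hK0 K (le_max_left _ _) hJ v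
  have hBc' : (9 * B.card : ℝ) < 3 ^ Fintype.card ↥(range K \ J) := by
    have h3 : (0 : ℝ) < 3 ^ Fintype.card ↥(range K \ J) := by positivity
    linarith
  obtain ⟨γ, X, hX, hXp⟩ := null_not_regular hJ hs hg B hB
  have hXT : ∀ m, ∀ x ∈ X m, x ∈ Typ S K m := fun m x hx => (hXp m x hx).1
  have key : ∀ᶠ m in (UU : Filter ℕ), ∃ q : ZMod 3 ⊕ (↥(range K \ J) × ZMod 3 × ZMod 3),
      match q with
      | Sum.inl w => ∀ x ∈ X m, ∀ z, gg S J K v s c m x z = w
      | Sum.inr (l, a, σ) => cf S s l m = σ ∧ σ ≠ 0 ∧ ∀ x ∈ X m,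
          (∀ z, z l = a → gg S J K v s c m x z = 1) ∧ (∀ z, z l = a + σ → gg S J K v s c m x z = 2) := by
    filter_upwards [null_nonempty S hX, n_large S K] with m h1 h2
    obtain ⟨x0, hx0⟩ := h1
    have hx0' : x0 ∈ X m := by
      by_contra hcon
      exact (mem_sdiff.1 hx0).2 (mem_sdiff.2 ⟨mem_univ _, hcon⟩)
    have hcf : ∀ k : ↥(range K \ J), cf S s k m ≠ 0 := cf_ne_zero' h2 hs
    obtain ⟨t1, t2, t3⟩ := hXp m x0 hx0'
    rcases two_class (s := fun k : ↥(range K \ J) => cf S s k m) hcf (gg_DC h2 hJ hs c v t1) t2 with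
      ⟨w, hw⟩ | ⟨l, a, ha1, ha2⟩
    · refine ⟨Sum.inl w, fun x hx => ?_⟩
      obtain ⟨u1, u2, u3⟩ := hXp m x hx
      exact const_unique (s := fun k : ↥(range K \ J) => cf S s k m) hcf (gg_DC h2 hJ hs c v u1) u2 B hBc'
        (fun z hz => by rw [t3 z hz, u3 z hz]) hw
    · refine ⟨Sum.inr (l, a, cf S s l m), rfl, hcf l, fun x hx => ?_⟩
      obtain ⟨u1, u2, u3⟩ := hXp m x hx
      exact root_unique (s := fun k : ↥(range K \ J) => cf S s k m) hcf (gg_DC h2 hJ hs c v u1) u2 B hBc'
        (fun z hz => by rw [t3 z hz, u3 z hz]) ha1 ha2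
  obtain ⟨q, hq⟩ := UU_exists key
  rcases q with w | ⟨l, a, σ⟩
  · exfalso
    apply hnc
    refine ⟨s, hs, fun m => c m + w, Null.mono S hX ?_⟩
    filter_upwards [hq, n_large S K] with m h1 h2
    intro y hy
    rw [mem_sdiff]
    refine ⟨mem_univ _, fun hyX => ?_⟩
    have hmem := mem_WW_iff_gg h2 hJ hs c v (hXT m y hyX)
    rw [h1 y hyX] at hmem
    have hmem2 : y ∈ WW S J v m ↔ y ∈ HH S J s (fun m => c m + w) m := by
      rw [hmem]
      unfold HH
      rw [mem_hyp]
    rw [mem_symmDiff, hmem2] at hy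
    rcases hy with hy | hy
    · exact hy.2 hy.1
    · exact hy.2 hy.1
  · have hlJ : (l : ℕ) ∉ J := (mem_sdiff.1 l.2).2
    have hcf : ∀ᶠ m in (UU : Filter ℕ), cf S s l m = σ := by
      filter_upwards [hq] with m hm using hm.1
    have hσ0 : σ ≠ 0 := by
      obtain ⟨m, hm⟩ := hq.exists
      exact hm.2.1
    have hσσ : σ * σ = 1 := by
      revert hσ0
      generalize σ = t
      revert t; decide
    have e2 : (2 : ZMod 3) = 1 + 1 := by decide
    refine ⟨l, a, σ, hlJ, hσ0, hcf, ?_, ?_, ?_⟩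
    · refine clean_child hJ hs hX hXT l a σ 1 hcf ?_
      filter_upwards [hq] with m hm x hx z hz using (hm.2.2 x hx).1 z hz
    · have h1 := clean_child (c := c) (v := v) hJ hs hX hXT l (a + σ) σ 2 hcf (by
        filter_upwards [hq] with m hm x hx z hz using (hm.2.2 x hx).2 z hz)
      have h2 : (fun m => c m + 2 - σ * (a + σ)) = fun m => c m + 1 - σ * a := by
        funext m
        rw [mul_add, hσσ, e2]
        ring
      rw [h2] at h1
      exact h1
    · have h1 : GoodW S J (Function.update v l (a - σ)) s c :=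
        hg.congr fun k hk => by
          rw [Function.update_of_ne]
          rintro rfl
          exact hlJ hk
      have h2 := h1.ext (subset_insert (l : ℕ) J)
      refine GoodW.congr_c h2 ?_
      filter_upwards [hcf] with m hm
      have h3 : insert (l : ℕ) J \ J = {(l : ℕ)} := by
        ext k
        simp only [mem_sdiff, mem_insert, mem_singleton]
        constructor
        · rintro ⟨h1 | h1, h2⟩
          · exact h1
          · exact absurd h1 h2
        · rintro rfl
          exact ⟨Or.inl rfl, hlJ⟩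
      rw [h3, Finset.sum_singleton, Function.update_self, hm, mul_sub, hσσ]
      ring

end HT13
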