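import Pool.Agent.HT13.MLem
import Pool.Agent.HT13.C1

/-! # HT13-C3: clean cylinders near a bad point (paper: section 7, (C3), (C4)) -/

set_option linter.unusedSectionVars false

namespace HT13

open Finset

variable {S : Sq}

theorem c3_congrc {J : Finset ℕ} {v : ℕ → ZMod 3} {s : (m : ℕ) → Fin (S.n m) → ZMod 3} {c c' : ℕ → ZMod 3}
    (h : CleanW S J v s c) (hc : ∀ᶠ m in (UU : Filter ℕ), c m = c' m) : CleanW S J v s c' := by
  unfold CleanW at h ⊢
  refine Null.mono S h ?_
  filter_upwards [hc] with m hm
  rw [HH_congr S s hm]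

theorem c3_slice {J J₂ : Finset ℕ} (hJ : J ⊆ J₂) {u u' : ℕ → ZMod 3} (hag : ∀ k ∈ J₂ \ J, u k = u' k)
    (hn : Null S fun m => WW S J u m ∩ WW S J u' m) : Null S fun m => WW S J₂ u m ∩ WW S J₂ u' m := by
  refine Null.mono S (Null.ovw S hn (J₂ \ J) u) (Filter.Eventually.of_forall fun m => ?_)
  have h1 := WW_ext S hJ u m
  have h2 : WW S J₂ u' m = ovw (JJ S (J₂ \ J) m) (pt S u m) (WW S J u' m) := by
    rw [WW_ext S hJ u' m]
    refine ovw_congr (fun k hk => ?_) _
    unfold JJ at hk
    exact (hag _ (mem_filter.mp hk).2).symm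
  rw [h1, h2]
  intro x hx
  rw [mem_inter, mem_ovw, mem_ovw] at hx
  rw [mem_ovw, mem_inter]
  exact hx

theorem c3_pair {J J₂ : Finset ℕ} (hJ : J ⊆ J₂) {u u' : ℕ → ZMod 3} {s : (m : ℕ) → Fin (S.n m) → ZMod 3}
    (hs : SSg S s) {c : ℕ → ZMod 3} (hu : CleanW S J₂ u s c) (hu' : CleanW S J₂ u' s c)
    (hag : ∀ k ∈ J₂ \ J, u k = u' k) (hn : Null S fun m => WW S J u m ∩ WW S J u' m) : False := by
  have h1 : Null S fun m => HH S J₂ s c m := by
    refine Null.mono S (Null.union S (Null.union S (c3_slice hJ hag hn) hu) hu')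
      (Filter.Eventually.of_forall fun m => ?_)
    intro x hx
    rw [mem_union, mem_union, mem_inter, mem_symmDiff, mem_symmDiff]
    by_cases h1 : x ∈ WW S J₂ u m
    · by_cases h2 : x ∈ WW S J₂ u' m
      · exact Or.inl (Or.inl ⟨h1, h2⟩)
      · exact Or.inr (Or.inr ⟨hx, h2⟩)
    · exact Or.inl (Or.inr (Or.inr ⟨hx, h1⟩))
  have h2 := (null_iff S).1 h1 (1 / 4) (by norm_num)
  obtain ⟨m, h3, h4⟩ := (h2.and (TT_nonempty S J₂)).exists
  have h5 : dens (HH S J₂ s c m) = 1 / 3 := by
    unfold HH
    exact dens_hyp h4 (hs m) (c m)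
  rw [h5] at h3
  norm_num at h3

theorem c3_ext {J : Finset ℕ} {v : ℕ → ZMod 3} {s : (m : ℕ) → Fin (S.n m) → ZMod 3} {c : ℕ → ZMod 3}
    (h : CleanW S J v s c) {l : ℕ} (hl : l ∉ J) {a σ : ZMod 3} (hσ : ∀ᶠ m in (UU : Filter ℕ), cf S s l m = σ) :
    CleanW S (insert l J) (Function.update v l a) s (fun m => c m - σ * a) := by
  have h1 : CleanW S J (Function.update v l a) s c := h.congr (fun k hk => by
    rw [Function.update_of_ne]
    rintro rfl
    exact hl hk)
  refine c3_congrc (h1.ext (subset_insert l J)) ?_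
  filter_upwards [hσ] with m hm
  have h2 : insert l J \ J = {l} := by
    ext k
    simp only [mem_sdiff, mem_insert, mem_singleton]
    constructor
    · rintro ⟨h1 | h1, h2⟩
      · exact h1
      · exact absurd h1 h2
    · rintro rfl
      exact ⟨Or.inl rfl, hl⟩
  rw [h2, sum_singleton, hm, Function.update_self]

/-- The contradiction used in `C3_step`: two siblings `(J, v)`, `(J, v')`, `v' = update v k b`, both good with respect to the same
`(s, c)` and both with a root whose centre is at `v` (resp. `v'`, i.e. also at `v l₂`), cannot have a null intersection: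
put `u = update (update v l₁ a₁) l₂ a₂`, `u' = update (update v' l₁ a₁) l₂ a₂`, `J₂ = insert l₂ (insert l₁ J)`.  (If `l₁ = l₂` then
`σ₁ = σ₂` and `a₁ = v l₁ + σ₁ = a₂`.)  By `CleanW.ext` both `(J₂, u)` and `(J₂, u')` are clean with the same hyperplanes
`c + 1 - σ₁ a₁ - σ₂ a₂` (`c + 1 - σ₁ a₁` if `l₁ = l₂`), but `WW J₂ u ∩ WW J₂ u'` is null (a slice of the null
`WW J v ∩ WW J v'`, `Null.ovw`), so the hyperplanes, of density `1/3`, would be null. -/
theorem no_two_roots {J : Finset ℕ} {v : ℕ → ZMod 3} {s : (m : ℕ) → Fin (S.n m) → ZMod 3} (hs : SSg S s)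
    {c : ℕ → ZMod 3} {k : ℕ} (hk : k ∈ J) {b : ZMod 3} {l₁ l₂ : ℕ} {a₁ σ₁ a₂ σ₂ : ZMod 3}
    (h1 : Root S J v s c l₁ a₁ σ₁) (h1' : v l₁ = a₁ - σ₁)
    (h2 : Root S J (Function.update v k b) s c l₂ a₂ σ₂) (h2' : v l₂ = a₂ - σ₂)
    (hn : Null S fun m => WW S J v m ∩ WW S J (Function.update v k b) m) : False := by
  obtain ⟨hl1, hσ1, hc1, hA1, -, -⟩ := h1
  obtain ⟨hl2, hσ2, hc2, hA2, -, -⟩ := h2
  have hk1 : k ≠ l₁ := by rintro rfl; exact hl1 hk
  have hk2 : k ≠ l₂ := by rintro rfl; exact hl2 hk
  by_cases hl : l₁ = l₂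
  · subst hl
    have hσ : σ₁ = σ₂ := by
      obtain ⟨m, h3, h4⟩ := (hc1.and hc2).exists
      rw [← h3, ← h4]
    subst hσ
    have ha : a₁ = a₂ := by
      have h3 := h1'.symm.trans h2'
      exact sub_left_injective h3
    subst ha
    refine c3_pair (subset_insert l₁ J) hs hA1 hA2 ?_ ?_
    · intro j hj
      rw [mem_sdiff, mem_insert] at hj
      have hj1 : j = l₁ := hj.1.resolve_right hj.2
      subst hj1
      rw [Function.update_self, Function.update_self]
    · refine Null.mono S hn (Filter.Eventually.of_forall fun m => ?_)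
      have e1 : WW S J (Function.update v l₁ a₁) m = WW S J v m := WW_congr S (fun j hj => by
        rw [Function.update_of_ne]
        rintro rfl
        exact hl1 hj) m
      have e2 : WW S J (Function.update (Function.update v k b) l₁ a₁) m = WW S J (Function.update v k b) m :=
        WW_congr S (fun j hj => by
          rw [Function.update_of_ne]
          rintro rfl
          exact hl1 hj) m
      rw [e1, e2]
  · have hl1' : l₁ ∉ insert l₂ J := by
      rw [mem_insert, not_or]
      exact ⟨hl, hl1⟩
    have hl2' : l₂ ∉ insert l₁ J := by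
      rw [mem_insert, not_or]
      exact ⟨fun h => hl h.symm, hl2⟩
    have hB1 := c3_ext hA1 hl2' (a := a₂) hc2
    have hB2 := c3_ext hA2 hl1' (a := a₁) hc1
    have hcomm : Function.update (Function.update (Function.update v k b) l₂ a₂) l₁ a₁
        = Function.update (Function.update (Function.update v k b) l₁ a₁) l₂ a₂ :=
      (Function.update_comm hl a₁ a₂ (Function.update v k b)).symm
    rw [hcomm, Finset.insert_comm] at hB2
    have hB2' : CleanW S (insert l₂ (insert l₁ J))
        (Function.update (Function.update (Function.update v k b) l₁ a₁) l₂ a₂) s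
        (fun m => c m + 1 - σ₁ * a₁ - σ₂ * a₂) :=
      c3_congrc hB2 (Filter.Eventually.of_forall fun m => by ring)
    refine c3_pair (J := J) ((subset_insert l₁ J).trans (subset_insert l₂ _)) hs hB1 hB2' ?_ ?_
    · intro j hj
      rw [mem_sdiff, mem_insert, mem_insert] at hj
      by_cases hj2 : j = l₂
      · subst hj2
        rw [Function.update_self, Function.update_self]
      · have hj1 : j = l₁ := (hj.1.resolve_left hj2).resolve_right hj.2
        subst hj1
        rw [Function.update_of_ne hj2, Function.update_of_ne hj2, Function.update_self, Function.update_self]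
    · refine Null.mono S hn (Filter.Eventually.of_forall fun m => ?_)
      have e1 : WW S J (Function.update (Function.update v l₁ a₁) l₂ a₂) m = WW S J v m :=
        WW_congr S (fun j hj => by
          rw [Function.update_of_ne, Function.update_of_ne]
          · rintro rfl; exact hl1 hj
          · rintro rfl; exact hl2 hj) m
      have e2 : WW S J (Function.update (Function.update (Function.update v k b) l₁ a₁) l₂ a₂) m
          = WW S J (Function.update v k b) m :=
        WW_congr S (fun j hj => by
          rw [Function.update_of_ne, Function.update_of_ne]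
          · rintro rfl; exact hl1 hj
          · rintro rfl; exact hl2 hj) m
      rw [e1, e2]

/-- One step of (C3).  `w = update v k b` has no clean cylinder and `(J, w)` is good, `k ∈ J`.  `root_of_noclean`: root
`(l, a, σ)`, `v l = w l = a - σ`; the centre child `(insert l J, w)` is good.  By `M_null` (sibling `v = update w k (v k)`)
`WW J w ∩ WW J v` is null, so for `e = a, a + σ`
`WW (insert l J) (update v l e) ∩ H* ⊆ (WW (insert l J) (update v l e) ∩ WW (insert l J) (update w l e)) ∪
(H* \ WW (insert l J) (update w l e))` is null: both cylinders `(insert l J, update v l e)` are good for `(s, c + 1 - σ a)`.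
If neither `update v l a` nor `update v l (a + σ)` contained a clean cylinder, then `root_of_noclean` for both, `M_null` for
`update v l a` and its sibling `update v l (a + σ)`, and `no_two_roots` give a contradiction. -/
theorem C3_step {v : ℕ → ZMod 3} {k : ℕ} {b : ZMod 3} (hb : b ≠ v k)
    (hw : ∀ J, ¬ Clean S J (Function.update v k b)) {J : Finset ℕ} (hk : k ∈ J)
    {s : (m : ℕ) → Fin (S.n m) → ZMod 3} (hs : SSg S s) {c : ℕ → ZMod 3}
    (hg : GoodW S J (Function.update v k b) s c) :
    ∃ l, l ∉ J ∧ (∃ c' : ℕ → ZMod 3, GoodW S (insert l J) (Function.update v k b) s c') ∧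
      ∃ e, e ≠ v l ∧ ∃ J', Clean S J' (Function.update v l e) := by
  obtain ⟨l, a, σ, hroot, hwl⟩ := root_of_noclean hw hs hg
  obtain ⟨hl, hσ0, hσ, hA, hA', hC⟩ := hroot
  have hkl : l ≠ k := by rintro rfl; exact hl hk
  have hvl : v l = a - σ := by
    rw [← hwl, Function.update_of_ne hkl]
  have hself : Function.update (Function.update v k b) l (a - σ) = Function.update v k b := by
    rw [← hwl, Function.update_eq_self]
  rw [hself] at hC
  refine ⟨l, hl, ⟨_, hC⟩, ?_⟩
  by_contra hcon
  push Not at hcon
  have hae : a ≠ v l := by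
    rw [hvl]
    intro h
    exact hσ0 (by linear_combination h)
  have hae' : a + σ ≠ v l := by
    rw [hvl]
    intro h
    have h3 : (3 : ZMod 3) = 0 := by decide
    exact hσ0 (by linear_combination (-1 : ZMod 3) * h + σ * h3)
  have hN0 : Null S fun m => WW S J v m ∩ WW S J (Function.update v k b) m := by
    have h1 := M_null hw hs hg hk (b := v k) (by rw [Function.update_self]; exact hb.symm)
    rw [Function.update_idem, Function.update_eq_self] at h1
    refine Null.mono S h1 (Filter.Eventually.of_forall fun m => ?_)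
    rw [inter_comm]
  have key : ∀ e, CleanW S (insert l J) (Function.update (Function.update v k b) l e) s
      (fun m => c m + 1 - σ * a) → GoodW S (insert l J) (Function.update v l e) s
      (fun m => c m + 1 - σ * a) := by
    intro e he
    have h1 : Null S fun m => WW S (insert l J) (Function.update v l e) m ∩
        WW S (insert l J) (Function.update (Function.update v k b) l e) m := by
      refine c3_slice (subset_insert l J) ?_ ?_
      · intro j hj
        rw [mem_sdiff, mem_insert] at hj
        have hj1 : j = l := hj.1.resolve_right hj.2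
        subst hj1
        rw [Function.update_self, Function.update_self]
      · refine Null.mono S hN0 (Filter.Eventually.of_forall fun m => ?_)
        have e1 : WW S J (Function.update v l e) m = WW S J v m := WW_congr S (fun j hj => by
          rw [Function.update_of_ne]
          rintro rfl
          exact hl hj) m
        have e2 : WW S J (Function.update (Function.update v k b) l e) m = WW S J (Function.update v k b) m :=
          WW_congr S (fun j hj => by
            rw [Function.update_of_ne]
            rintro rfl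
            exact hl hj) m
        rw [e1, e2]
    refine Null.mono S (Null.union S h1 he) (Filter.Eventually.of_forall fun m => ?_)
    intro x hx
    rw [mem_inter] at hx
    rw [mem_union, mem_inter, mem_symmDiff]
    by_cases h2 : x ∈ WW S (insert l J) (Function.update (Function.update v k b) l e) m
    · exact Or.inl ⟨hx.1, h2⟩
    · exact Or.inr (Or.inr ⟨hx.2, h2⟩)
  have g1 := key a hA
  have g2 := key (a + σ) hA'
  obtain ⟨l₁, a₁, σ₁, hR1, hR1'⟩ := root_of_noclean (fun J' => hcon a hae J') hs g1
  obtain ⟨l₂, a₂, σ₂, hR2, hR2'⟩ := root_of_noclean (fun J' => hcon (a + σ) hae' J') hs g2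
  have hne : a + σ ≠ Function.update v l a l := by
    rw [Function.update_self]
    intro h
    exact hσ0 (by linear_combination h)
  have hM := M_null (fun J' => hcon a hae J') hs g1 (mem_insert_self l J) hne
  have hl2 : l₂ ≠ l := by
    rintro rfl
    exact hR2.1 (mem_insert_self _ _)
  have hid : Function.update (Function.update v l a) l (a + σ) = Function.update v l (a + σ) :=
    Function.update_idem _ _ _
  refine no_two_roots (b := a + σ) hs (mem_insert_self l J) hR1 hR1' (l₂ := l₂) (a₂ := a₂) (σ₂ := σ₂) ?_ ?_ hM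
  · rw [hid]
    exact hR2
  · rw [← hR2', Function.update_of_ne hl2, Function.update_of_ne hl2]

/-- `C1` after extending all the clean cylinders to a common domain (`Clean.ext`). -/
theorem good_of_82 {v : ℕ → ZMod 3} (L : Finset (ℕ × ZMod 3))
    (hL : ∀ p ∈ L, p.2 ≠ v p.1 ∧ ∃ J, Clean S J (Function.update v p.1 p.2)) (hc : 82 ≤ L.card) :
    ∃ J, Good S J v := by
  classical
  have h1 : ∀ p : ℕ × ZMod 3, ∃ J : Finset ℕ, p ∈ L → Clean S J (Function.update v p.1 p.2) := by
    intro p
    by_cases hp : p ∈ L
    · obtain ⟨J, hJ⟩ := (hL p hp).2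
      exact ⟨J, fun _ => hJ⟩
    · exact ⟨∅, fun h => absurd h hp⟩
  choose f hf using h1
  refine ⟨L.biUnion f ∪ L.image Prod.fst, C1 L (fun p hp => ⟨?_, (hL p hp).1, ?_⟩) hc⟩
  · exact mem_union_right _ (mem_image_of_mem _ hp)
  · exact (hf p hp).ext ((subset_biUnion_of_mem f hp).trans subset_union_left)

/-- (C3).  Otherwise iterate `C3_step` 82 times (the directions `l` are distinct) and use `good_of_82`. -/
theorem C3 {v : ℕ → ZMod 3} (hv : ∀ J, ¬ Good S J v) {k : ℕ} {b : ZMod 3} (hb : b ≠ v k)
    (hg : ∃ J, Good S J (Function.update v k b)) : ∃ J, Clean S J (Function.update v k b) := by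
  classical
  by_contra hw
  push Not at hw
  obtain ⟨J0, s, hs, c0, hg0⟩ := hg
  have key : ∀ n : ℕ, ∃ J : Finset ℕ, k ∈ J ∧ (∃ c, GoodW S J (Function.update v k b) s c) ∧
      ∃ L : Finset (ℕ × ZMod 3), L.card = n ∧
        ∀ p ∈ L, p.1 ∈ J ∧ p.2 ≠ v p.1 ∧ ∃ J', Clean S J' (Function.update v p.1 p.2) := by
    intro n
    induction n with
    | zero =>
      exact ⟨insert k J0, mem_insert_self _ _, ⟨_, hg0.ext (subset_insert k J0)⟩, ∅, rfl,
        fun p hp => absurd hp (notMem_empty p)⟩
    | succ n ih =>
      obtain ⟨J, hk, ⟨c, hc⟩, L, hLc, hL⟩ := ih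
      obtain ⟨l, hl, hg', e, he, hcl⟩ := C3_step hb hw hk hs hc
      refine ⟨insert l J, mem_insert_of_mem hk, hg', insert (l, e) L, ?_, ?_⟩
      · rw [card_insert_of_notMem, hLc]
        intro h
        exact hl (hL _ h).1
      · intro p hp
        rw [mem_insert] at hp
        rcases hp with rfl | hp
        · exact ⟨mem_insert_self _ _, he, hcl⟩
        · exact ⟨mem_insert_of_mem (hL p hp).1, (hL p hp).2⟩
  obtain ⟨J, -, -, L, hLc, hL⟩ := key 82
  obtain ⟨J', hJ'⟩ := good_of_82 L (fun p hp => (hL p hp).2) hLc.ge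
  exact hv J' hJ'

/-- (C4) -/
theorem C4 {v : ℕ → ZMod 3} (hv : ∀ J, ¬ Good S J v) (L : Finset (ℕ × ZMod 3))
    (hL : ∀ p ∈ L, p.2 ≠ v p.1 ∧ ∃ J, Good S J (Function.update v p.1 p.2)) : L.card ≤ 81 := by
  by_contra h
  push Not at h
  obtain ⟨J, hJ⟩ := good_of_82 L (fun p hp => ⟨(hL p hp).1, C3 hv (hL p hp).1 (hL p hp).2⟩) h
  exact hv J hJ

end HT13
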