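import Pool.Agent.HT13.Defs

/-! # HT13-Iso: the isoperimetric lemma (ISO) (paper: section 7, (C5)) -/

set_option linter.unusedSectionVars false

namespace HT13

open Finset

variable {κ : Type} [Fintype κ] [DecidableEq κ]

theorem iso_aux (S : Finset κ) : ∀ (A : Finset (κ → ZMod 3)) (t : ℕ), A.Nonempty →
    (∀ z ∈ A, (univ.filter fun p : κ × ZMod 3 => p.1 ∈ S ∧ p.2 ≠ z p.1 ∧
      Function.update z p.1 p.2 ∉ A).card ≤ t) → 3 ^ S.card ≤ 3 ^ t * A.card := by
  induction S using Finset.induction_on with
  | empty =>
    intro A t hA _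
    rw [card_empty, pow_zero]
    have h1 : 0 < A.card := hA.card_pos
    have h2 : 0 < 3 ^ t := by positivity
    exact Nat.mul_pos h2 h1
  | insert k S hk ih =>
    intro A t hA h
    rw [card_insert_of_notMem hk]
    -- siblings of a slice
    have hsl : ∀ (s : ZMod 3) (z : κ → ZMod 3), z ∈ A.filter (fun z => z k = s) →
        ∀ p : κ × ZMod 3, p.1 ∈ S → Function.update z p.1 p.2 ∉ A.filter (fun z => z k = s) →
          Function.update z p.1 p.2 ∉ A := by
      intro s z hz p hp h1 h2
      apply h1
      rw [mem_filter]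
      refine ⟨h2, ?_⟩
      have h3 : k ≠ p.1 := fun h4 => hk (h4 ▸ hp)
      rw [Function.update_of_ne h3]
      exact (mem_filter.1 hz).2
    by_cases hs : ∃ s, A.filter (fun z => z k = s) = ∅
    · obtain ⟨s, hs⟩ := hs
      obtain ⟨z0, hz0⟩ := hA
      have hne : (A.filter (fun z => z k = z0 k)).Nonempty := ⟨z0, mem_filter.2 ⟨hz0, rfl⟩⟩
      -- the missing sibling
      have hmiss : ∀ z ∈ A, s ≠ z k ∧ Function.update z k s ∉ A := by
        intro z hz
        constructor
        · intro h1
          have h2 : z ∈ A.filter (fun z => z k = s) := mem_filter.2 ⟨hz, h1.symm⟩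
          rw [hs] at h2
          exact absurd h2 (notMem_empty _)
        · intro h1
          have h2 : Function.update z k s ∈ A.filter (fun z => z k = s) :=
            mem_filter.2 ⟨h1, Function.update_self _ _ _⟩
          rw [hs] at h2
          exact absurd h2 (notMem_empty _)
      have hcard : ∀ z ∈ A.filter (fun z => z k = z0 k),
          (univ.filter fun p : κ × ZMod 3 => p.1 ∈ S ∧ p.2 ≠ z p.1 ∧
            Function.update z p.1 p.2 ∉ A.filter (fun z => z k = z0 k)).card + 1 ≤ t := by
        intro z hz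
        have hzA := (mem_filter.1 hz).1
        refine le_trans ?_ (h z hzA)
        have hnot : (k, s) ∉ (univ.filter fun p : κ × ZMod 3 => p.1 ∈ S ∧ p.2 ≠ z p.1 ∧
            Function.update z p.1 p.2 ∉ A.filter (fun z => z k = z0 k)) := by
          intro h1
          exact hk (mem_filter.1 h1).2.1
        rw [← card_insert_of_notMem hnot]
        refine card_le_card fun p hp => ?_
        rw [mem_insert] at hp
        rw [mem_filter]
        rcases hp with rfl | hp
        · exact ⟨mem_univ _, mem_insert_self _ _, hmiss z hzA⟩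
        · obtain ⟨-, h1, h2, h3⟩ := mem_filter.1 hp
          exact ⟨mem_univ _, mem_insert_of_mem h1, h2, hsl _ z hz p h1 h3⟩
      have ht : 1 ≤ t := by
        have := hcard z0 (mem_filter.2 ⟨hz0, rfl⟩)
        omega
      obtain ⟨t', rfl⟩ : ∃ t', t = t' + 1 := ⟨t - 1, by omega⟩
      have h1 := ih (A.filter (fun z => z k = z0 k)) t' hne (fun z hz => by
        have := hcard z hz
        omega)
      have h2 : (A.filter (fun z => z k = z0 k)).card ≤ A.card := card_le_card (filter_subset _ _)
      calc 3 ^ (S.card + 1) = 3 * 3 ^ S.card := by ring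
        _ ≤ 3 * (3 ^ t' * (A.filter (fun z => z k = z0 k)).card) := Nat.mul_le_mul_left _ h1
        _ ≤ 3 * (3 ^ t' * A.card) := Nat.mul_le_mul_left _ (Nat.mul_le_mul_left _ h2)
        _ = 3 ^ (t' + 1) * A.card := by ring
    · have hs' : ∀ s, (A.filter (fun z => z k = s)).Nonempty := fun s =>
        nonempty_iff_ne_empty.2 fun h1 => hs ⟨s, h1⟩
      have h1 : ∀ s : ZMod 3, 3 ^ S.card ≤ 3 ^ t * (A.filter (fun z => z k = s)).card := by
        intro s
        refine ih _ t (hs' s) fun z hz => ?_
        refine le_trans (card_le_card fun p hp => ?_) (h z (mem_filter.1 hz).1)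
        obtain ⟨-, h2, h3, h4⟩ := mem_filter.1 hp
        exact mem_filter.2 ⟨mem_univ _, mem_insert_of_mem h2, h3, hsl _ z hz p h2 h4⟩
      have h2 : A.card = ∑ s : ZMod 3, (A.filter (fun z => z k = s)).card :=
        card_eq_sum_card_fiberwise fun z _ => mem_univ (z k)
      have h3 : ∑ _s : ZMod 3, 3 ^ S.card = 3 * 3 ^ S.card := by
        rw [sum_const, card_univ, ZMod.card, smul_eq_mul]
      calc 3 ^ (S.card + 1) = 3 * 3 ^ S.card := by ring
        _ = ∑ _s : ZMod 3, 3 ^ S.card := h3.symm
        _ ≤ ∑ s : ZMod 3, 3 ^ t * (A.filter (fun z => z k = s)).card :=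
            sum_le_sum fun s _ => h1 s
        _ = 3 ^ t * A.card := by rw [← mul_sum, ← h2]

/-- A nonempty set `A` all of whose points have at most `t` siblings outside `A` has at least `3 ^ (|κ| - t)` points.
Induction on `Fintype.card κ` (for all `t`): pick a direction; if some slice of `A` is empty, then every point of `A` has a
sibling outside `A` in this direction, so `1 ≤ t` and the other slices satisfy the hypothesis with `t - 1` (apply it to a nonempty
one); otherwise add up three slices. -/
theorem iso (A : Finset (κ → ZMod 3)) (hA : A.Nonempty) (t : ℕ)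
    (h : ∀ z ∈ A, (univ.filter fun p : κ × ZMod 3 => p.2 ≠ z p.1 ∧ Function.update z p.1 p.2 ∉ A).card ≤ t) :
    3 ^ Fintype.card κ ≤ 3 ^ t * A.card := by
  rw [← card_univ (α := κ)]
  refine iso_aux univ A t hA fun z hz => le_trans (card_le_card fun p hp => ?_) (h z hz)
  obtain ⟨-, -, h3, h4⟩ := mem_filter.1 hp
  exact mem_filter.2 ⟨mem_univ _, h3, h4⟩

end HT13
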