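import Pool.Agent.HT13.C3
import Pool.Agent.HT13.Iso

/-! # HT13-C5: every point contains a good cylinder, compactness (paper: section 7, (C5), (C6)) -/

set_option linter.unusedSectionVars false

namespace HT13

open Finset

variable (S : Sq)

/-- (C5).  Suppose `v` is bad (no cylinder in `v` is good).  Let `A ⊆ Z_3^K` be the set of the restrictions of bad points.  By
`C4` each element of `A` has at most 81 siblings outside `A` (the sibling `(k, b)` of `z = v|K` is the restriction of
`update v k b`), so `3^K ≤ 3^81 * A.card` (`iso`).  No element of `A` is clean (`Clean.good`, `Clean.congr`), contradicting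
`nonclean_small` with `δ = 3^(-82)`. -/
theorem C5 (v : ℕ → ZMod 3) : ∃ J, Good S J v := by
  by_contra hcon
  push Not at hcon
  classical
  obtain ⟨K0, hK0⟩ := nonclean_small S (1 / 3 ^ 82) (by positivity)
  obtain ⟨B, hB, hB'⟩ := hK0 K0 le_rfl
  -- the restrictions of the bad points
  set A : Finset (Fin K0 → ZMod 3) := univ.filter fun z =>
    ∃ w : ℕ → ZMod 3, (∀ J, ¬ Good S J w) ∧ ∀ k : Fin K0, w k = z k with hA
  have hAne : A.Nonempty := ⟨fun k => v k, mem_filter.2 ⟨mem_univ _, v, hcon, fun _ => rfl⟩⟩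
  have hAB : A ⊆ B := by
    intro z hz
    obtain ⟨-, w, hw, hwz⟩ := mem_filter.1 hz
    by_contra hzB
    have h1 := (hB' z hzB).good
    refine hw (range K0) (h1.congr fun k hk => ?_)
    rw [mem_range] at hk
    unfold ofFin
    rw [dif_pos hk]
    exact (hwz ⟨k, hk⟩).symm
  have h1 : 3 ^ Fintype.card (Fin K0) ≤ 3 ^ 81 * A.card := by
    refine iso A hAne 81 fun z hz => ?_
    obtain ⟨-, w, hw, hwz⟩ := mem_filter.1 hz
    have h2 := C4 hw ((univ.filter fun p : Fin K0 × ZMod 3 => p.2 ≠ z p.1 ∧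
      Function.update z p.1 p.2 ∉ A).image fun p => ((p.1 : ℕ), p.2)) (by
        intro p hp
        obtain ⟨q, hq, rfl⟩ := mem_image.1 hp
        obtain ⟨-, hq1, hq2⟩ := mem_filter.1 hq
        refine ⟨by rw [show w (q.1 : ℕ) = z q.1 from hwz q.1]; exact hq1, ?_⟩
        by_contra hcon2
        push Not at hcon2
        refine hq2 (mem_filter.2 ⟨mem_univ _, Function.update w (q.1 : ℕ) q.2, hcon2, fun k => ?_⟩)
        by_cases hk : k = q.1
        · subst hk
          simp
        · rw [Function.update_of_ne (fun h => hk (Fin.ext h)), Function.update_of_ne hk]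
          exact hwz k)
    rw [card_image_of_injective _ (by
      rintro ⟨a, b⟩ ⟨a', b'⟩ h
      simp only [Prod.mk.injEq] at h
      exact Prod.ext (Fin.ext h.1) h.2)] at h2
    exact h2
  rw [Fintype.card_fin] at h1
  have h2 : (A.card : ℝ) ≤ 1 / 3 ^ 82 * 3 ^ K0 := (by exact_mod_cast card_le_card hAB :
    (A.card : ℝ) ≤ B.card).trans hB
  have h3 : ((3 ^ K0 : ℕ) : ℝ) ≤ ((3 ^ 81 * A.card : ℕ) : ℝ) := by exact_mod_cast h1
  simp only [Nat.cast_pow, Nat.cast_mul, Nat.cast_ofNat] at h3
  have h4 : (0 : ℝ) < 3 ^ K0 := by positivity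
  have h5 : (3 : ℝ) ^ K0 ≤ 3 ^ 81 * (1 / 3 ^ 82 * 3 ^ K0) :=
    h3.trans (mul_le_mul_of_nonneg_left h2 (pow_nonneg (by norm_num) _))
  have h6 : (3 : ℝ) ^ 81 * (1 / 3 ^ 82 * 3 ^ K0) = 3 ^ K0 / 3 := by
    rw [pow_succ (3 : ℝ) 81]
    field_simp
  rw [h6] at h5
  linarith

private theorem isOpen_singleton_iff_ht {f : (ℕ → ZMod 3) → ZMod 3} (hf : Continuous f) (a : ZMod 3) :
    IsOpen {u : ℕ → ZMod 3 | f u = a} :=
  IsOpen.preimage hf (isOpen_discrete ({a} : Set (ZMod 3)))

/-- (C6).  The sets `{v : ¬ Good S (range K) v}` are clopen (they depend on finitely many coordinates), decreasing in `K`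
(`Good.ext`) and have empty intersection (`C5`, a finite `J` is contained in some `range K`); `ℕ → ZMod 3` is compact. -/
theorem C6 : ∃ K : ℕ, ∀ v : ℕ → ZMod 3, Good S (range K) v := by
  by_contra hcon
  push Not at hcon
  -- bad points for each `K`
  choose v hv using hcon
  have hcomp : IsCompact (Set.univ : Set (ℕ → ZMod 3)) := isCompact_univ
  have hclosed : ∀ K, IsClosed {v : ℕ → ZMod 3 | ¬ Good S (range K) v} := by
    intro K
    have hopen : IsOpen {v : ℕ → ZMod 3 | Good S (range K) v} := by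
      rw [isOpen_iff_mem_nhds]
      intro w hw
      have h1 : (⋂ k ∈ (range K : Finset ℕ), {u : ℕ → ZMod 3 | u k = w k}) ∈ nhds w := by
        rw [Filter.biInter_finset_mem]
        intro k _
        have h2 : IsOpen {u : ℕ → ZMod 3 | u k = w k} :=
          isOpen_singleton_iff_ht (continuous_apply k) (w k)
        exact h2.mem_nhds rfl
      refine Filter.mem_of_superset h1 fun u hu => ?_
      have h3 : Good S (range K) w := hw
      refine h3.congr fun k hk => ?_
      have h4 := Set.mem_iInter₂.1 hu k hk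
      exact h4.symm
    exact isClosed_compl_iff.2 hopen
  have h1 : (⋂ K, {v : ℕ → ZMod 3 | ¬ Good S (range K) v}).Nonempty := by
    refine IsCompact.nonempty_iInter_of_sequence_nonempty_isCompact_isClosed _ ?_ ?_ ?_ hclosed
    · intro K w hw h2
      exact hw (h2.ext (range_subset_range.2 (Nat.le_succ K)))
    · exact fun K => ⟨v K, hv K⟩
    · exact (hclosed 0).isCompact
  obtain ⟨w, hw⟩ := h1
  obtain ⟨J, hJ⟩ := C5 S w
  have h2 : J ⊆ range (J.sup id + 1) := by
    intro k hk
    rw [mem_range]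
    exact Nat.lt_succ_of_le (le_sup (f := id) hk)
  exact Set.mem_iInter.1 hw (J.sup id + 1) (hJ.ext h2)

end HT13
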