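import Mathlib

/-!
# HT13: degree-one induced subsets of the ternary Hamming graph (MP_669823_co)

Overview of the proof: `/team-store/MP_669823_co_proof_helper13.md`.
Everything is done inside a fixed cube `ι → ZMod 3`; a subset of a subcube is a set which does not depend on the
coordinates outside a finset `T` of free directions (`Inv T W`).
-/

namespace HT13

open Finset

section Cube

variable {ι : Type} [Fintype ι] [DecidableEq ι]

/-- density of `A` in the cube -/
noncomputable def dens (A : Finset (ι → ZMod 3)) : ℝ := (A.card : ℝ) / 3 ^ Fintype.card ι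

/-- average of a real function over the cube -/
noncomputable def avR (f : (ι → ZMod 3) → ℝ) : ℝ := (∑ x, f x) / 3 ^ Fintype.card ι

/-- average of a complex function over the cube -/
noncomputable def avC (f : (ι → ZMod 3) → ℂ) : ℂ := (∑ x, f x) / 3 ^ Fintype.card ι

/-- `W` does not depend on the coordinates outside `T` -/
def Inv (T : Finset ι) (W : Finset (ι → ZMod 3)) : Prop :=
  ∀ x y : ι → ZMod 3, (∀ k ∈ T, x k = y k) → x ∈ W → y ∈ W

/-- every point of `W` has at most one neighbour in `W` among the points obtained by changing one coordinate in `T` -/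
def Valid (T : Finset ι) (W : Finset (ι → ZMod 3)) : Prop :=
  ∀ x ∈ W, ∀ k ∈ T, ∀ a : ZMod 3, a ≠ x k → ∀ k' ∈ T, ∀ a' : ZMod 3, a' ≠ x k' →
    Function.update x k a ∈ W → Function.update x k' a' ∈ W → k = k' ∧ a = a'

/-- number of points of `W` on the line through `x` in direction `k` -/
def lc (W : Finset (ι → ZMod 3)) (k : ι) (x : ι → ZMod 3) : ℕ :=
  (univ.filter fun a : ZMod 3 => Function.update x k a ∈ W).card

/-- probability that the line in direction `k` is double -/
noncomputable def dd (W : Finset (ι → ZMod 3)) (k : ι) : ℝ := dens (univ.filter fun x => lc W k x = 2)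

/-- probability that the line in direction `k` is empty -/
noncomputable def zz (W : Finset (ι → ZMod 3)) (k : ι) : ℝ := dens (univ.filter fun x => lc W k x = 0)

/-- probability that the line in direction `k` is not single -/
noncomputable def rho (W : Finset (ι → ZMod 3)) (k : ι) : ℝ := dens (univ.filter fun x => lc W k x ≠ 1)

/-- sum of the defects over the directions in `T` -/
noncomputable def RR (T : Finset ι) (W : Finset (ι → ZMod 3)) : ℝ := ∑ k ∈ T, rho W k

/-- the excess of a subset of the `T`-cube -/
noncomputable def exc (T : Finset ι) (W : Finset (ι → ZMod 3)) : ℝ := (dens W - 1 / 3) * 3 ^ T.card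

/-- all coefficients are nonzero -/
def Sgn (s : ι → ZMod 3) : Prop := ∀ k, s k ≠ 0

/-- the hyperplane `∑_{k ∈ T} s k * x k = c` -/
def hyp (T : Finset ι) (s : ι → ZMod 3) (c : ZMod 3) : Finset (ι → ZMod 3) :=
  univ.filter fun x => ∑ k ∈ T, s k * x k = c

/-- `x` overwritten by `z` on the coordinates in `J` -/
def mixp (J : Finset ι) (x z : ι → ZMod 3) : ι → ZMod 3 := fun k => if k ∈ J then z k else x k

/-- the points whose overwriting by `y` on `J` lies in `W` (the slice of `W` at `y` on `J`, as a set not depending on `J`) -/
def ovw (J : Finset ι) (y : ι → ZMod 3) (W : Finset (ι → ZMod 3)) : Finset (ι → ZMod 3) :=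
  univ.filter fun x => mixp J x y ∈ W

/-- additive character of `ZMod 3`: `ee j = exp (2 π i j / 3)` -/
noncomputable def ee (j : ZMod 3) : ℂ := ZMod.stdAddChar j

/-- characters of the cube -/
noncomputable def chi (a x : ι → ZMod 3) : ℂ := ee (∑ k, a k * x k)

/-- Fourier coefficients -/
noncomputable def fh (f : (ι → ZMod 3) → ℂ) (a : ι → ZMod 3) : ℂ := avC fun x => f x * (starRingEnd ℂ) (chi a x)

/-- support of a frequency -/
def spt (a : ι → ZMod 3) : Finset ι := univ.filter fun k => a k ≠ 0

/-- indicator function of a set, complex valued -/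
noncomputable def ind (A : Finset (ι → ZMod 3)) (x : ι → ZMod 3) : ℂ := if x ∈ A then 1 else 0

end Cube

section Col

variable {κ : Type} [Fintype κ] [DecidableEq κ]

/-- degree condition for the level function of an exact colouring: at most one matched neighbour -/
def DC (s : κ → ZMod 3) (g : (κ → ZMod 3) → ZMod 3) : Prop :=
  ∀ (z : κ → ZMod 3) (j : κ) (t : ZMod 3) (j' : κ) (t' : ZMod 3), t ≠ 0 → t' ≠ 0 →
    g (Function.update z j (z j + t)) - g z = s j * t →
    g (Function.update z j' (z j' + t')) - g z = s j' * t' → j = j' ∧ t = t'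

end Col

end HT13
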