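import Pool.Agent.HT13.Basic

/-! # HT13-Ee: the additive character `ee` of `ZMod 3`

`ee j = ZMod.stdAddChar j` (see `Mathlib/Analysis/SpecialFunctions/Complex/CircleAddChar.lean`), i.e. `exp (2 π i j / 3)`.
`ω = ee 1` satisfies `ω ^ 3 = 1`, `ω ≠ 1`, so `1 + ω + ω ^ 2 = 0`; `Re ω = Re ω ^ 2 = -1/2`. -/

namespace HT13

open Finset

theorem ee_zero : ee 0 = 1 := by
  unfold ee
  exact AddChar.map_zero_eq_one _

theorem ee_add (a b : ZMod 3) : ee (a + b) = ee a * ee b := by
  unfold ee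
  exact AddChar.map_add_eq_mul _ _ _

theorem norm_ee (a : ZMod 3) : ‖ee a‖ = 1 := by
  have h : ee a ^ 3 = 1 := by
    unfold ee
    rw [← AddChar.map_nsmul_eq_pow]
    have h3 : (3 : ℕ) • a = 0 := by
      rw [nsmul_eq_mul]
      have : ((3 : ℕ) : ZMod 3) = 0 := by decide
      rw [this, zero_mul]
    rw [h3, AddChar.map_zero_eq_one]
  exact Complex.norm_eq_one_of_pow_eq_one h (by norm_num)

theorem conj_ee (a : ZMod 3) : (starRingEnd ℂ) (ee a) = ee (-a) := by
  have h1 : ee a * ee (-a) = 1 := by rw [← ee_add, add_neg_cancel, ee_zero]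
  have h2 : ee a * (starRingEnd ℂ) (ee a) = 1 := by
    rw [Complex.mul_conj, Complex.normSq_eq_norm_sq, norm_ee]
    norm_num
  have h3 : ee a ≠ 0 := fun h => by rw [h, zero_mul] at h1; exact zero_ne_one h1
  exact mul_left_cancel₀ h3 (h2.trans h1.symm)

/-- `1 + ω + ω² = 0`. -/
theorem sum_ee_mul (a : ZMod 3) : ∑ u : ZMod 3, ee (a * u) = if a = 0 then 3 else 0 := by
  have h := AddChar.sum_mulShift (ψ := ZMod.stdAddChar (N := 3)) a (ZMod.isPrimitive_stdAddChar 3)
  have h2 : ∑ u : ZMod 3, ee (a * u) = ∑ u : ZMod 3, ZMod.stdAddChar (u * a) := by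
    refine Finset.sum_congr rfl fun u _ => ?_
    unfold ee
    rw [mul_comm]
  rw [h2, h]
  simp

/-- real parts: `Re ω = Re ω² = -1/2` -/
theorem ee_re (a : ZMod 3) : (ee a).re = if a = 0 then 1 else -1 / 2 := by
  by_cases h : a = 0
  · rw [if_pos h, h, ee_zero, Complex.one_re]
  · rw [if_neg h]
    have h1 := sum_ee_mul a
    rw [if_neg h] at h1
    have h2 : (∑ u : ZMod 3, ee (a * u)) = ee (a * 0) + ee (a * 1) + ee (a * 2) := by
      exact Fin.sum_univ_three (fun u : ZMod 3 => ee (a * u))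
    rw [h2, mul_zero, mul_one, ee_zero] at h1
    have h3 : a * 2 = -a := by
      have h5 : ∀ b : ZMod 3, b * 2 = -b := by decide
      exact h5 a
    rw [h3, ← conj_ee] at h1
    have h4 := congrArg Complex.re h1
    simp only [Complex.add_re, Complex.one_re, Complex.conj_re, Complex.zero_re] at h4
    linarith

end HT13
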