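import Pool.Agent.HT13.Defs

/-! # HT13-FinC: fact (2C): classification of the functions with the degree condition which never vanish
(paper: section 6)

Take `s = 1` for the explanation (general `s`: rescale coordinates).  `g : Z_3^κ → {1, 2}`.
A *matched pair* is `g z = 1`, `g (z + e_k) = 2`; every nonconstant line contains exactly one matched pair (it is
`(1,2,·)`, cyclically: a nonconstant `{1,2}`-valued function on `Z_3` has exactly one place where `1` is followed by `2`); every
point is in at most one matched pair (this is `DC`: `g (z + t e_j) - g z = t`, `t = 1`: `1 → 2`; `t = 2`: `2 → 1` backwards).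
Induction on the number of directions; take a direction `k` and the slices `g_0, g_1, g_2` (`z k = u`).
* All three constant: clear.  Exactly two constant, with values `α, β`: if `α = 1` at `u` and `β = 2` at `u + 1` then `g` is the
  root `(k, u)`: for the third slice (position `u + 2`), each point is in position of the line `(1 at u, 2 at u+1, ? at u+2)`:
  the pair `(u, u+1)` is matched; this is the root shape whatever the third slice is.  Otherwise each point of the third slice
  with a suitable value is matched in direction `k` (value `2` if the two are `1,1`; value `1` if they are `2,2`; any value if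
  they are `2` at `u`, `1` at `u + 1`), but the third slice is nonconstant so it contains a matched pair inside the slice, which
  uses both values: contradiction.
* At most one constant slice: take two nonconstant slices `u ≠ u'`, by induction with roots `(l, a)`, `(l', a')`.  If these are
  different there is a point `z'` where slice `u` has value `2` matched in direction `l` and slice `u'` has value `1` matched in
  direction `l'` (`z'_l = a + 1`, `z'_l' = a'`; if `l = l'` exchange the slices if necessary so that `a' = a + 1`); the `k`-line
  of `z'` is nonconstant, so its matched pair contains position `u` or `u'`: contradiction.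
  So all nonconstant slices have the same root `(l, a)`.  If one slice (position `u`) is constant with value `1`: on
  `z_l = a + 1` the `k`-line is `(1 at u, 2, 2)`: position `u + 1` is matched in direction `k` and in direction `l`,
  contradiction; value `2`: on `z_l = a` the line is `(2 at u, 1, 1)`: position `u + 2` is matched in `k` and `l`,
  contradiction.  So the root is global. -/

set_option linter.unusedSectionVars false

namespace HT13

open Finset

variable {κ : Type} [Fintype κ] [DecidableEq κ]

theorem two_class {s : κ → ZMod 3} (hs : ∀ k, s k ≠ 0) {g : (κ → ZMod 3) → ZMod 3} (hg : DC s g)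
    (h0 : ∀ z, g z ≠ 0) :
    (∃ v : ZMod 3, ∀ z, g z = v) ∨
    ∃ (l : κ) (a : ZMod 3), (∀ z, z l = a → g z = 1) ∧ (∀ z, z l = a + s l → g z = 2) := by
  have hss : ∀ k, s k * s k = 1 := by
    intro k
    have := hs k
    revert this
    generalize s k = t
    revert t; decide
  have V : ∀ z, g z = 1 ∨ g z = 2 := by
    intro z
    have := h0 z
    revert this
    generalize g z = t
    revert t; decide
  have M1 : ∀ (z : κ → ZMod 3) (k k' : κ), g z = 1 → g (Function.update z k (z k + s k)) = 2 →
      g (Function.update z k' (z k' + s k')) = 2 → k = k' := by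
    intro z k k' h1 h2 h3
    exact (hg z k (s k) k' (s k') (hs k) (hs k') (by rw [h1, h2, hss]; decide)
      (by rw [h1, h3, hss]; decide)).1
  have M2 : ∀ (z : κ → ZMod 3) (k k' : κ), g z = 2 → g (Function.update z k (z k - s k)) = 1 →
      g (Function.update z k' (z k' - s k')) = 1 → k = k' := by
    intro z k k' h1 h2 h3
    exact (hg z k (- s k) k' (- s k') (neg_ne_zero.mpr (hs k)) (neg_ne_zero.mpr (hs k'))
      (by rw [h1, ← sub_eq_add_neg, h2, mul_neg, hss]; decide)
      (by rw [h1, ← sub_eq_add_neg, h3, mul_neg, hss]; decide)).1
  have trich : ∀ (k : κ) (u w : ZMod 3), w = u ∨ w = u + s k ∨ w = u - s k := by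
    intro k u w
    have := hs k
    revert this
    generalize s k = t
    revert t u w; decide
  have tri2 : ∀ (k : κ) (u : ZMod 3), u + s k + s k = u - s k := by
    intro k u
    generalize s k = t
    revert t u; decide
  have tri3 : ∀ (k : κ) (u : ZMod 3), u - s k - s k = u + s k := by
    intro k u
    generalize s k = t
    revert t u; decide
  have key : ∀ K : Finset κ, ∀ z0 : κ → ZMod 3,
      (∃ v : ZMod 3, ∀ z, (∀ j, j ∉ K → z j = z0 j) → g z = v) ∨
      ∃ (l : κ) (a : ZMod 3), l ∈ K ∧ (∀ z, (∀ j, j ∉ K → z j = z0 j) → z l = a → g z = 1) ∧
        (∀ z, (∀ j, j ∉ K → z j = z0 j) → z l = a + s l → g z = 2) := by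
    intro K
    induction K using Finset.induction_on with
    | empty =>
      intro z0
      left
      refine ⟨g z0, fun z hz => ?_⟩
      have : z = z0 := funext fun j => hz j (by simp)
      rw [this]
    | insert k K' hk ih =>
      intro z0
      have ih' : ∀ u : ZMod 3,
          (∃ v : ZMod 3, ∀ z, (∀ j, j ∉ insert k K' → z j = z0 j) → z k = u → g z = v) ∨
          ∃ (l : κ) (a : ZMod 3), l ∈ K' ∧
            (∀ z, (∀ j, j ∉ insert k K' → z j = z0 j) → z k = u → z l = a → g z = 1) ∧
            (∀ z, (∀ j, j ∉ insert k K' → z j = z0 j) → z k = u → z l = a + s l → g z = 2) := by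
        intro u
        have conv : ∀ z : κ → ZMod 3, (∀ j, j ∉ insert k K' → z j = z0 j) → z k = u →
            ∀ j, j ∉ K' → z j = Function.update z0 k u j := by
          intro z hz hu j hj
          by_cases hjk : j = k
          · subst hjk; rw [Function.update_self]; exact hu
          · rw [Function.update_of_ne hjk]
            exact hz j (by rw [mem_insert]; push Not; exact ⟨hjk, hj⟩)
        rcases ih (Function.update z0 k u) with ⟨v, hv⟩ | ⟨l, a, hl, h1, h2⟩
        · exact Or.inl ⟨v, fun z hz hu => hv z (conv z hz hu)⟩
        · exact Or.inr ⟨l, a, hl, fun z hz hu => h1 z (conv z hz hu), fun z hz hu => h2 z (conv z hz hu)⟩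
      have up : ∀ (z : κ → ZMod 3) (l : κ) (a : ZMod 3), l ∈ insert k K' →
          (∀ j, j ∉ insert k K' → z j = z0 j) → ∀ j, j ∉ insert k K' → Function.update z l a j = z0 j := by
        intro z l a hl hz j hj
        have : j ≠ l := fun h => hj (h ▸ hl)
        rw [Function.update_of_ne this]
        exact hz j hj
      have hkK : k ∈ insert k K' := mem_insert_self _ _
      have F1 : ∀ (u : ZMod 3) (l : κ) (a : ZMod 3), l ∈ K' →
          (∀ z, (∀ j, j ∉ insert k K' → z j = z0 j) → z k = u → z l = a → g z = 1) →
          (∀ z, (∀ j, j ∉ insert k K' → z j = z0 j) → z k = u → z l = a + s l → g z = 2) →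
          ∀ z, (∀ j, j ∉ insert k K' → z j = z0 j) → z k = u → z l = a →
            g (Function.update z k (u + s k)) = 1 := by
        intro u l a hl h1 h2 z hz hu ha
        have hne : k ≠ l := fun h => hk (h ▸ hl)
        rcases V (Function.update z k (u + s k)) with h | h
        · exact h
        · exfalso
          apply hne
          apply M1 z k l (h1 z hz hu ha)
          · rw [hu]; exact h
          · apply h2 _ (up z l _ (mem_insert_of_mem hl) hz)
            · rw [Function.update_of_ne hne]; exact hu
            · rw [Function.update_self, ha]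
      have F2 : ∀ (u : ZMod 3) (l : κ) (a : ZMod 3), l ∈ K' →
          (∀ z, (∀ j, j ∉ insert k K' → z j = z0 j) → z k = u → z l = a → g z = 1) →
          (∀ z, (∀ j, j ∉ insert k K' → z j = z0 j) → z k = u → z l = a + s l → g z = 2) →
          ∀ z, (∀ j, j ∉ insert k K' → z j = z0 j) → z k = u → z l = a + s l →
            g (Function.update z k (u - s k)) = 2 := by
        intro u l a hl h1 h2 z hz hu ha
        have hne : k ≠ l := fun h => hk (h ▸ hl)
        rcases V (Function.update z k (u - s k)) with h | h
        · exfalso
          apply hne
          apply M2 z k l (h2 z hz hu ha)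
          · rw [hu]; exact h
          · apply h1 _ (up z l _ (mem_insert_of_mem hl) hz)
            · rw [Function.update_of_ne hne]; exact hu
            · rw [Function.update_self, ha]; ring
        · exact h
      have ptl : ∀ (u : ZMod 3) (l : κ) (a : ZMod 3), l ∈ K' →
          ∃ z : κ → ZMod 3, (∀ j, j ∉ insert k K' → z j = z0 j) ∧ z k = u ∧ z l = a := by
        intro u l a hl
        have hne : k ≠ l := fun h => hk (h ▸ hl)
        refine ⟨Function.update (Function.update z0 k u) l a, ?_, ?_, ?_⟩
        · exact up _ _ _ (mem_insert_of_mem hl) (up _ _ _ hkK (fun j _ => rfl))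
        · rw [Function.update_of_ne hne, Function.update_self]
        · rw [Function.update_self]
      have FC1 : ∀ (u : ZMod 3) (l : κ) (a : ZMod 3), l ∈ K' →
          (∀ z, (∀ j, j ∉ insert k K' → z j = z0 j) → z k = u → z l = a → g z = 1) →
          (∀ z, (∀ j, j ∉ insert k K' → z j = z0 j) → z k = u → z l = a + s l → g z = 2) →
          ∀ v, (∀ z, (∀ j, j ∉ insert k K' → z j = z0 j) → z k = u + s k → g z = v) → v = 1 := by
        intro u l a hl h1 h2 v hv
        obtain ⟨z, hz, hzk, hzl⟩ := ptl u l a hl
        rw [← hv _ (up z k (u + s k) hkK hz) (Function.update_self _ _ _)]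
        exact F1 u l a hl h1 h2 z hz hzk hzl
      have FC2 : ∀ (u : ZMod 3) (l : κ) (a : ZMod 3), l ∈ K' →
          (∀ z, (∀ j, j ∉ insert k K' → z j = z0 j) → z k = u → z l = a → g z = 1) →
          (∀ z, (∀ j, j ∉ insert k K' → z j = z0 j) → z k = u → z l = a + s l → g z = 2) →
          ∀ v, (∀ z, (∀ j, j ∉ insert k K' → z j = z0 j) → z k = u - s k → g z = v) → v = 2 := by
        intro u l a hl h1 h2 v hv
        obtain ⟨z, hz, hzk, hzl⟩ := ptl u l (a + s l) hl
        rw [← hv _ (up z k (u - s k) hkK hz) (Function.update_self _ _ _)]
        exact F2 u l a hl h1 h2 z hz hzk hzl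
      have FR : ∀ (u : ZMod 3) (l : κ) (a : ZMod 3) (l' : κ) (a' : ZMod 3), l ∈ K' → l' ∈ K' →
          (∀ z, (∀ j, j ∉ insert k K' → z j = z0 j) → z k = u → z l = a → g z = 1) →
          (∀ z, (∀ j, j ∉ insert k K' → z j = z0 j) → z k = u → z l = a + s l → g z = 2) →
          (∀ z, (∀ j, j ∉ insert k K' → z j = z0 j) → z k = u + s k → z l' = a' → g z = 1) →
          (∀ z, (∀ j, j ∉ insert k K' → z j = z0 j) → z k = u + s k → z l' = a' + s l' → g z = 2) →
          l = l' ∧ a = a' := by
        intro u l a l' a' hl hl' h1 h2 h1' h2'
        have hne : k ≠ l := fun h => hk (h ▸ hl)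
        have hne' : k ≠ l' := fun h => hk (h ▸ hl')
        have hll : l = l' := by
          by_contra hcon
          obtain ⟨z, hz, hzk, hzl⟩ := ptl u l a hl
          have e1 := F1 u l a hl h1 h2 (Function.update z l' (a' + s l'))
            (up _ _ _ (mem_insert_of_mem hl') hz)
            (by rw [Function.update_of_ne hne']; exact hzk)
            (by rw [Function.update_of_ne hcon]; exact hzl)
          have e2 := h2' (Function.update (Function.update z l' (a' + s l')) k (u + s k))
            (up _ _ _ hkK (up _ _ _ (mem_insert_of_mem hl') hz))
            (Function.update_self _ _ _)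
            (by rw [Function.update_of_ne hne'.symm, Function.update_self])
          rw [e1] at e2
          exact absurd e2 (by decide)
        subst hll
        refine ⟨rfl, ?_⟩
        rcases trich l a a' with h | h | h
        · exact h.symm
        · exfalso
          obtain ⟨z, hz, hzk, hzl⟩ := ptl u l (a + s l) hl
          have e1 := F2 u l a hl h1 h2 z hz hzk hzl
          have e2 := F1 (u + s k) l a' hl h1' h2' (Function.update z k (u + s k))
            (up _ _ _ hkK hz) (Function.update_self _ _ _)
            (by rw [Function.update_of_ne hne.symm, hzl, h])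
          rw [Function.update_idem, tri2, e1] at e2
          exact absurd e2 (by decide)
        · exfalso
          obtain ⟨z, hz, hzk, hzl⟩ := ptl u l a hl
          have e1 := F1 u l a hl h1 h2 z hz hzk hzl
          have e2 := h2' (Function.update z k (u + s k))
            (up _ _ _ hkK hz) (Function.update_self _ _ _)
            (by rw [Function.update_of_ne hne.symm, hzl, h]; ring)
          rw [e1] at e2
          exact absurd e2 (by decide)
      by_cases hall : ∀ u : ZMod 3, ∃ v : ZMod 3, ∀ z, (∀ j, j ∉ insert k K' → z j = z0 j) → z k = u → g z = v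
      · choose v hv using hall
        have hv12 : ∀ u, v u = 1 ∨ v u = 2 := by
          intro u
          rw [← hv u (Function.update z0 k u) (up _ _ _ hkK (fun j _ => rfl)) (Function.update_self _ _ _)]
          exact V _
        by_cases hex : ∃ u, v u = 1 ∧ v (u + s k) = 2
        · obtain ⟨u, hu1, hu2⟩ := hex
          right
          exact ⟨k, u, hkK, fun z hz hzk => by rw [hv u z hz hzk, hu1],
            fun z hz hzk => by rw [hv _ z hz hzk, hu2]⟩
        · push Not at hex
          have hstep : ∀ u, v u = 1 → v (u + s k) = 1 := fun u hu =>
            (hv12 (u + s k)).resolve_right (hex u hu)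
          left
          by_cases h1 : ∃ u, v u = 1
          · obtain ⟨u, hu⟩ := h1
            refine ⟨1, fun z hz => ?_⟩
            rcases trich k u (z k) with h | h | h
            · rw [hv u z hz h, hu]
            · rw [hv _ z hz h, hstep u hu]
            · rw [hv _ z hz h, ← tri2 k u, hstep _ (hstep u hu)]
          · push Not at h1
            exact ⟨2, fun z hz => by rw [hv (z k) z hz rfl]; exact (hv12 _).resolve_left (h1 _)⟩
      · push Not at hall
        obtain ⟨u, hu⟩ := hall
        rcases ih' u with ⟨v, hv⟩ | ⟨l, a, hl, h1, h2⟩
        · obtain ⟨z, hz, hzk, hzv⟩ := hu v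
          exact absurd (hv z hz hzk) hzv
        · rcases ih' (u + s k) with ⟨v1, hv1⟩ | ⟨l1, a1, hl1, h11, h12⟩
          · have e1 := FC1 u l a hl h1 h2 v1 hv1
            rcases ih' (u - s k) with ⟨v2, hv2⟩ | ⟨l2, a2, hl2, h21, h22⟩
            · have e2 := FC2 u l a hl h1 h2 v2 hv2
              right
              refine ⟨k, u + s k, hkK, fun z hz hzk => by rw [hv1 z hz hzk, e1], fun z hz hzk => ?_⟩
              rw [tri2] at hzk
              rw [hv2 z hz hzk, e2]
            · exfalso
              have e2 := FC2 (u - s k) l2 a2 hl2 h21 h22 v1 (by rw [tri3]; exact hv1)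
              rw [e1] at e2
              exact absurd e2 (by decide)
          · rcases ih' (u - s k) with ⟨v2, hv2⟩ | ⟨l2, a2, hl2, h21, h22⟩
            · exfalso
              have e2 := FC2 u l a hl h1 h2 v2 hv2
              have e3 := FC1 (u + s k) l1 a1 hl1 h11 h12 v2 (by rw [tri2]; exact hv2)
              rw [e2] at e3
              exact absurd e3 (by decide)
            · obtain ⟨el, ea⟩ := FR u l a l1 a1 hl hl1 h1 h2 h11 h12
              subst el ea
              obtain ⟨el, ea⟩ := FR (u - s k) l2 a2 l a hl2 hl h21 h22
                (by rw [sub_add_cancel]; exact h1) (by rw [sub_add_cancel]; exact h2)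
              subst el ea
              right
              refine ⟨l2, a2, mem_insert_of_mem hl2, fun z hz hzl => ?_, fun z hz hzl => ?_⟩
              · rcases trich k u (z k) with h | h | h
                · exact h1 z hz h hzl
                · exact h11 z hz h hzl
                · exact h21 z hz h hzl
              · rcases trich k u (z k) with h | h | h
                · exact h2 z hz h hzl
                · exact h12 z hz h hzl
                · exact h22 z hz h hzl
  rcases key univ 0 with ⟨v, hv⟩ | ⟨l, a, -, h1, h2⟩
  · exact Or.inl ⟨v, fun z => hv z (fun j hj => absurd (mem_univ j) hj)⟩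
  · exact Or.inr ⟨l, a, fun z => h1 z (fun j hj => absurd (mem_univ j) hj),
      fun z => h2 z (fun j hj => absurd (mem_univ j) hj)⟩

end HT13
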