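import Pool.Agent.HT13.Ee

/-! # HT13-Four: Fourier analysis on `ZMod 3 ^ ι`

The character facts are in `Ee.lean` (`ee_add`, `norm_ee`, `conj_ee`, `sum_ee_mul`).  `avC (chi a) = [a = 0]`: if `a k ≠ 0`
average over the lines in direction `k` first (`avC_line`).  Inversion: `∑_a chi a x * conj (chi a y) = 3 ^ |ι| [x = y]`
(product over the coordinates, or the same argument with the roles of `a` and `x` exchanged).
Parseval and `avC_mul`: insert `inversion` and use `avC_chi`. -/

set_option linter.unusedSectionVars false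

namespace HT13

open Finset

variable {ι : Type} [Fintype ι] [DecidableEq ι]

theorem chi_zero (x : ι → ZMod 3) : chi 0 x = 1 := by
  simp [chi, ee_zero]

theorem chi_add_left (a b x : ι → ZMod 3) : chi (a + b) x = chi a x * chi b x := by
  simp only [chi, Pi.add_apply, add_mul, sum_add_distrib, ee_add]

theorem conj_chi (a x : ι → ZMod 3) : (starRingEnd ℂ) (chi a x) = chi (-a) x := by
  unfold chi
  rw [conj_ee]
  congr 1
  simp [sum_neg_distrib]

theorem norm_chi (a x : ι → ZMod 3) : ‖chi a x‖ = 1 := norm_ee _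

theorem chi_update (a x : ι → ZMod 3) (k : ι) (u : ZMod 3) :
    chi a (Function.update x k u) = chi a x * ee (a k * (u - x k)) := by
  unfold chi
  rw [← ee_add]
  congr 1
  rw [← Finset.add_sum_erase univ (fun j => a j * Function.update x k u j) (mem_univ k),
    ← Finset.add_sum_erase univ (fun j => a j * x j) (mem_univ k)]
  have h : ∑ j ∈ univ.erase k, a j * Function.update x k u j = ∑ j ∈ univ.erase k, a j * x j := by
    refine sum_congr rfl fun j hj => ?_
    rw [Function.update_of_ne (ne_of_mem_erase hj)]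
  rw [h]
  simp only [Function.update_self]
  ring

theorem sum_ee_shift {c : ZMod 3} (hc : c ≠ 0) (v : ZMod 3) : ∑ u : ZMod 3, ee (c * (u - v)) = 0 := by
  have h := Equiv.sum_comp (Equiv.subRight v) (fun u : ZMod 3 => ee (c * u))
  simp only [Equiv.subRight_apply] at h
  rw [h, sum_ee_mul, if_neg hc]

theorem avC_chi (a : ι → ZMod 3) : avC (chi a) = if a = 0 then 1 else 0 := by
  by_cases ha : a = 0
  · subst ha
    rw [if_pos rfl]
    have h : (chi (0 : ι → ZMod 3)) = fun _ => (((1 : ℝ)) : ℂ) := by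
      ext x
      rw [chi_zero]
      simp
    rw [h, avC_ofReal, avR_const]
    simp
  · rw [if_neg ha]
    obtain ⟨k, hk⟩ : ∃ k, a k ≠ 0 := by
      by_contra hcon
      push Not at hcon
      exact ha (funext hcon)
    rw [← avC_line (chi a) k]
    have h : (fun x : ι → ZMod 3 => (∑ u : ZMod 3, chi a (Function.update x k u)) / 3) = fun _ => 0 := by
      ext x
      simp only [chi_update]
      rw [← mul_sum, sum_ee_shift hk]
      simp
    rw [h]
    simp [avC]

theorem fh_add (f g : (ι → ZMod 3) → ℂ) (a : ι → ZMod 3) : fh (fun x => f x + g x) a = fh f a + fh g a := by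
  unfold fh
  rw [← avC_add]
  congr 1
  ext x
  ring

theorem fh_sub (f g : (ι → ZMod 3) → ℂ) (a : ι → ZMod 3) : fh (fun x => f x - g x) a = fh f a - fh g a := by
  unfold fh avC
  rw [← sub_div, ← sum_sub_distrib]
  congr 1
  refine sum_congr rfl fun x _ => ?_
  ring

theorem fh_const_mul (c : ℂ) (f : (ι → ZMod 3) → ℂ) (a : ι → ZMod 3) : fh (fun x => c * f x) a = c * fh f a := by
  unfold fh
  rw [← avC_const_mul]
  congr 1
  ext x
  ring

theorem fh_const (c : ℂ) (a : ι → ZMod 3) : fh (fun _ => c) a = if a = 0 then c else 0 := by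
  unfold fh
  rw [avC_const_mul]
  have h : (fun x => (starRingEnd ℂ) (chi a x)) = chi (-a) := by
    ext x
    rw [conj_chi]
  rw [h, avC_chi]
  by_cases ha : a = 0
  · simp [ha]
  · simp [ha]

theorem chi_comm (a x : ι → ZMod 3) : chi a x = chi x a := by
  unfold chi
  congr 1
  exact sum_congr rfl fun k _ => mul_comm _ _

theorem sum_chi (x : ι → ZMod 3) : ∑ a : ι → ZMod 3, chi a x = if x = 0 then 3 ^ Fintype.card ι else 0 := by
  have h := avC_chi x
  have hpos : (3 : ℂ) ^ Fintype.card ι ≠ 0 := pow_ne_zero _ (by norm_num)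
  unfold avC at h
  rw [div_eq_iff hpos] at h
  have h2 : ∑ a : ι → ZMod 3, chi a x = ∑ a : ι → ZMod 3, chi x a := sum_congr rfl fun a _ => chi_comm _ _
  rw [h2, h]
  split_ifs <;> simp

theorem sum_chi_conj (x y : ι → ZMod 3) :
    ∑ a : ι → ZMod 3, (starRingEnd ℂ) (chi a y) * chi a x = if x = y then 3 ^ Fintype.card ι else 0 := by
  have h : ∀ a : ι → ZMod 3, (starRingEnd ℂ) (chi a y) * chi a x = chi a (x - y) := by
    intro a
    rw [chi_comm a y, chi_comm a x, chi_comm a (x - y), conj_chi, ← chi_add_left]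
    congr 1
    ring
  simp only [h]
  rw [sum_chi]
  simp only [sub_eq_zero]

theorem inversion (f : (ι → ZMod 3) → ℂ) (x : ι → ZMod 3) : f x = ∑ a, fh f a * chi a x := by
  have hpos : (3 : ℂ) ^ Fintype.card ι ≠ 0 := pow_ne_zero _ (by norm_num)
  have h1 : ∀ a : ι → ZMod 3, fh f a * chi a x
      = ∑ y : ι → ZMod 3, f y / 3 ^ Fintype.card ι * ((starRingEnd ℂ) (chi a y) * chi a x) := by
    intro a
    unfold fh avC
    rw [sum_div, sum_mul]
    refine sum_congr rfl fun y _ => ?_
    ring
  simp only [h1]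
  rw [sum_comm]
  simp only [← mul_sum, sum_chi_conj]
  rw [Finset.sum_eq_single x]
  · rw [if_pos rfl]
    field_simp
  · intro y _ hy
    rw [if_neg (Ne.symm hy)]
    simp
  · intro h
    exact absurd (mem_univ x) h

theorem conj_avC (f : (ι → ZMod 3) → ℂ) : (starRingEnd ℂ) (avC f) = avC (fun x => (starRingEnd ℂ) (f x)) := by
  unfold avC
  rw [map_div₀, map_sum, map_pow]
  have h3 : (starRingEnd ℂ) 3 = 3 := map_ofNat _ 3
  rw [h3]

theorem avC_mul_aux (f g : (ι → ZMod 3) → ℂ) : avC (fun x => f x * g x) = ∑ a, fh f a * fh g (-a) := by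
  have h1 : (fun x => f x * g x) = fun x => ∑ a, fh f a * (g x * (starRingEnd ℂ) (chi (-a) x)) := by
    ext x
    conv_lhs => rw [inversion f x]
    rw [sum_mul]
    refine sum_congr rfl fun a _ => ?_
    rw [conj_chi, neg_neg]
    ring
  rw [h1, avC_sum univ (fun a x => fh f a * (g x * (starRingEnd ℂ) (chi (-a) x)))]
  refine sum_congr rfl fun a _ => ?_
  rw [avC_const_mul]
  rfl

theorem parseval (f : (ι → ZMod 3) → ℂ) : ∑ a, ‖fh f a‖ ^ 2 = avR (fun x => ‖f x‖ ^ 2) := by
  have h1 := avC_mul_aux f (fun x => (starRingEnd ℂ) (f x))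
  have h2 : ∀ a, fh (fun x => (starRingEnd ℂ) (f x)) (-a) = (starRingEnd ℂ) (fh f a) := by
    intro a
    unfold fh
    rw [conj_avC]
    congr 1
    ext x
    rw [map_mul, conj_chi, neg_neg, Complex.conj_conj]
  simp only [h2] at h1
  have h3 : (fun x => f x * (starRingEnd ℂ) (f x)) = fun x => (((‖f x‖ ^ 2 : ℝ)) : ℂ) := by
    ext x
    rw [Complex.mul_conj, Complex.normSq_eq_norm_sq]
  rw [h3, avC_ofReal] at h1
  have h4 : ∑ a, fh f a * (starRingEnd ℂ) (fh f a) = ((∑ a, ‖fh f a‖ ^ 2 : ℝ) : ℂ) := by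
    rw [Complex.ofReal_sum]
    refine sum_congr rfl fun a _ => ?_
    rw [Complex.mul_conj, Complex.normSq_eq_norm_sq]
  rw [h4] at h1
  exact (Complex.ofReal_injective h1).symm

theorem avC_mul (f g : (ι → ZMod 3) → ℂ) : avC (fun x => f x * g x) = ∑ a, fh f a * fh g (-a) :=
  avC_mul_aux f g

theorem fh_mul_chi (f : (ι → ZMod 3) → ℂ) (b a : ι → ZMod 3) :
    fh (fun x => f x * chi b x) a = fh f (a - b) := by
  unfold fh
  congr 1
  ext x
  rw [conj_chi, conj_chi, mul_assoc, ← chi_add_left]
  congr 2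
  ring

/-- a function given by its Fourier expansion -/
theorem fh_of_expansion (F : (ι → ZMod 3) → ℂ) (a : ι → ZMod 3) :
    fh (fun x => ∑ b, F b * chi b x) a = F a := by
  have h1 : fh (fun x => ∑ b, F b * chi b x) a
      = avC (fun x => ∑ b, F b * chi (b - a) x) := by
    unfold fh
    congr 1
    ext x
    rw [sum_mul]
    refine sum_congr rfl fun b _ => ?_
    rw [conj_chi, mul_assoc, ← chi_add_left, sub_eq_add_neg]
  rw [h1, avC_sum univ (fun b x => F b * chi (b - a) x), Finset.sum_eq_single a]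
  · rw [avC_const_mul]
    have : avC (fun x => chi (a - a) x) = 1 := by
      have := avC_chi (a - a)
      rw [if_pos (sub_self a)] at this
      exact this
    rw [this, mul_one]
  · intro b _ hb
    rw [avC_const_mul]
    have : avC (fun x => chi (b - a) x) = 0 := by
      have := avC_chi (b - a)
      rw [if_neg (sub_ne_zero.mpr hb)] at this
      exact this
    rw [this, mul_zero]
  · intro h
    exact absurd (mem_univ a) h

/-- real valued functions -/
theorem fh_neg_of_real (f : (ι → ZMod 3) → ℂ) (hf : ∀ x, (starRingEnd ℂ) (f x) = f x) (a : ι → ZMod 3) :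
    fh f (-a) = (starRingEnd ℂ) (fh f a) := by
  unfold fh
  rw [conj_avC]
  congr 1
  ext x
  rw [map_mul, hf, Complex.conj_conj, conj_chi, neg_neg]

/-- If `f` does not depend on the coordinate `k`, the coefficients with `a k ≠ 0` vanish. -/
theorem fh_eq_zero_of_inv {f : (ι → ZMod 3) → ℂ} {k : ι} (h : ∀ x u, f (Function.update x k u) = f x)
    {a : ι → ZMod 3} (ha : a k ≠ 0) : fh f a = 0 := by
  unfold fh
  rw [← avC_line _ k]
  have hz : (fun x : ι → ZMod 3 => (∑ u : ZMod 3, f (Function.update x k u)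
      * (starRingEnd ℂ) (chi a (Function.update x k u))) / 3) = fun _ => 0 := by
    ext x
    simp only [h, chi_update, map_mul]
    rw [← mul_sum, ← mul_sum, ← map_sum, sum_ee_shift ha]
    simp
  rw [hz]
  simp [avC]

theorem norm_fh_le {f : (ι → ZMod 3) → ℂ} {M : ℝ} (h : ∀ x, ‖f x‖ ≤ M) (a : ι → ZMod 3) : ‖fh f a‖ ≤ M := by
  unfold fh
  refine (norm_avC_le _).trans ?_
  rw [← avR_const (ι := ι) M]
  refine avR_mono fun x => ?_
  rw [norm_mul, RCLike.norm_conj, norm_chi, mul_one]
  exact h x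

end HT13
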