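import Pool.Agent.HT13.Basic

/-! # HT13-Lines: counting on lines (paper: section 0)

`lc W k x` is the number of points of `W` on the line through `x` in direction `k`; it does not change when `x` moves
on this line.  Averages over lines: `avR_line`. -/

set_option linter.unusedSectionVars false

namespace HT13

open Finset

variable {ι : Type} [Fintype ι] [DecidableEq ι]

/-- Three points on a line cannot all lie in a valid set: if all three values `a` give points of `W`, then the point
`Function.update x k 0 ∈ W` has the two neighbours with values `1` and `2`. -/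
theorem lc_le_two {T : Finset ι} {W : Finset (ι → ZMod 3)} (h : Valid T W) {k : ι} (hk : k ∈ T) (x : ι → ZMod 3) :
    lc W k x ≤ 2 := by
  by_contra hcon
  rw [not_le] at hcon
  have h1 : (univ.filter fun a : ZMod 3 => Function.update x k a ∈ W) = univ := by
    apply Finset.eq_univ_of_card
    have h2 := Finset.card_le_univ (univ.filter fun a : ZMod 3 => Function.update x k a ∈ W)
    rw [ZMod.card] at h2
    rw [ZMod.card]
    unfold lc at hcon
    omega
  have h2 : ∀ a : ZMod 3, Function.update x k a ∈ W := by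
    intro a
    have h3 : a ∈ (univ.filter fun a : ZMod 3 => Function.update x k a ∈ W) := by
      rw [h1]
      exact mem_univ a
    exact (mem_filter.1 h3).2
  have h3 := h (Function.update x k 0) (h2 0) k hk 1 (by rw [Function.update_self]; decide) k hk 2
    (by rw [Function.update_self]; decide) (by rw [Function.update_idem]; exact h2 1)
    (by rw [Function.update_idem]; exact h2 2)
  exact absurd h3.2 (by decide)

theorem rho_eq {W : Finset (ι → ZMod 3)} {k : ι} (h : ∀ x, lc W k x ≤ 2) : rho W k = dd W k + zz W k := by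
  unfold rho dd zz
  rw [← dens_union_disj]
  · congr 1
    ext x
    rw [mem_union, mem_filter, mem_filter, mem_filter]
    have h1 := h x
    simp only [mem_univ, true_and]
    omega
  · rw [Finset.disjoint_left]
    intro x hx hy
    rw [mem_filter] at hx hy
    omega

/-- average of the number of points on the lines -/
private theorem avR_lc_ht13 (W : Finset (ι → ZMod 3)) (k : ι) :
    avR (fun x => (lc W k x : ℝ)) = 3 * dens W := by
  have h1 : (fun x : ι → ZMod 3 => (lc W k x : ℝ)) = fun x =>
      3 * ((∑ u : ZMod 3, (if Function.update x k u ∈ W then (1 : ℝ) else 0)) / 3) := by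
    funext x
    unfold lc
    rw [Finset.sum_boole]
    ring
  rw [h1, avR_const_mul, avR_line (fun x => if x ∈ W then (1 : ℝ) else 0) k, ← dens_eq_avR]

/-- `avR (lc W k) = 3 * dens W` by `avR_line`; and `lc - 1 = 1[lc = 2] - 1[lc = 0]`. -/
theorem three_dens {W : Finset (ι → ZMod 3)} {k : ι} (h : ∀ x, lc W k x ≤ 2) :
    3 * dens W - 1 = dd W k - zz W k := by
  have h1 : avR (fun _ : ι → ZMod 3 => (1 : ℝ)) = 1 := avR_const 1
  have h0 : 3 * dens W - 1 = avR (fun x => (lc W k x : ℝ) - 1) := by
    rw [avR_sub, avR_lc_ht13 W k, h1]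
  rw [h0]
  unfold dd zz
  rw [dens_filter_eq_avR, dens_filter_eq_avR, ← avR_sub]
  congr 1
  funext x
  have h2 := h x
  have h3 : lc W k x = 0 ∨ lc W k x = 1 ∨ lc W k x = 2 := by omega
  rcases h3 with h3 | h3 | h3 <;> rw [h3] <;> norm_num

/-- The matched points: `dens {x ∈ W | lc W k x = 2} = (2/3) * dd W k` (average over the line first). -/
theorem dens_matched {W : Finset (ι → ZMod 3)} {k : ι} :
    dens (univ.filter fun x => x ∈ W ∧ lc W k x = 2) = 2 / 3 * dd W k := by
  unfold dd
  rw [dens_filter_eq_avR, dens_filter_eq_avR, ← avR_const_mul,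
    ← avR_line (fun x => if x ∈ W ∧ lc W k x = 2 then (1 : ℝ) else 0) k]
  congr 1
  funext x
  have h1 : ∀ u : ZMod 3, lc W k (Function.update x k u) = lc W k x := by
    intro u
    unfold lc
    simp only [Function.update_idem]
  simp only [h1]
  by_cases h2 : lc W k x = 2
  · have h3 : (∑ u : ZMod 3, (if Function.update x k u ∈ W ∧ lc W k x = 2 then (1 : ℝ) else 0)) = 2 := by
      have h4 : (∑ u : ZMod 3, (if Function.update x k u ∈ W ∧ lc W k x = 2 then (1 : ℝ) else 0))
          = (lc W k x : ℝ) := by
        unfold lc at h2 ⊢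
        rw [← Finset.sum_boole]
        simp only [h2, and_true]
      rw [h4, h2]
      norm_num
    rw [h3, if_pos h2]
    norm_num
  · simp [h2]

/-- For a valid `W` the sets `{x ∈ W | lc W k x = 2}`, `k ∈ T`, are pairwise disjoint (a point in two of them has two
neighbours), so their densities add up to at most the density of any set containing them all. -/
theorem sum_matched_le {T : Finset ι} {W : Finset (ι → ZMod 3)} (h : Valid T W) (A : Finset (ι → ZMod 3))
    (B : ι → Finset (ι → ZMod 3)) (hB : ∀ k ∈ T, B k ⊆ A) (hB' : ∀ k ∈ T, ∀ x ∈ B k, x ∈ W ∧ lc W k x = 2) :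
    ∑ k ∈ T, dens (B k) ≤ dens A := by
  have hnb : ∀ k ∈ T, ∀ x ∈ B k, ∃ a : ZMod 3, a ≠ x k ∧ Function.update x k a ∈ W := by
    intro k hk x hx
    obtain ⟨hxW, hlc⟩ := hB' k hk x hx
    unfold lc at hlc
    have h1 : x k ∈ (univ.filter fun a : ZMod 3 => Function.update x k a ∈ W) := by
      rw [mem_filter, Function.update_eq_self]
      exact ⟨mem_univ _, hxW⟩
    have h2 : 1 < (univ.filter fun a : ZMod 3 => Function.update x k a ∈ W).card := by
      rw [hlc]
      norm_num
    obtain ⟨a, ha, hne⟩ := Finset.exists_mem_ne h2 (x k)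
    exact ⟨a, hne, (mem_filter.1 ha).2⟩
  have hdisj : ∀ k ∈ T, ∀ k' ∈ T, k ≠ k' → Disjoint (B k) (B k') := by
    intro k hk k' hk' hne
    rw [Finset.disjoint_left]
    intro x hx hx'
    obtain ⟨a, ha, haW⟩ := hnb k hk x hx
    obtain ⟨a', ha', haW'⟩ := hnb k' hk' x hx'
    exact hne (h x (hB' k hk x hx).1 k hk a ha k' hk' a' ha' haW haW').1
  have h1 : ∑ k ∈ T, dens (B k) = dens (T.biUnion B) := by
    unfold dens
    rw [← Finset.sum_div, Finset.card_biUnion hdisj]
    push_cast
    rfl
  rw [h1]
  exact dens_mono (Finset.biUnion_subset.2 hB)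

theorem sum_dd_le {T : Finset ι} {W : Finset (ι → ZMod 3)} (h : Valid T W) :
    ∑ k ∈ T, dd W k ≤ 3 / 2 * dens W := by
  have h1 := sum_matched_le h W (fun k => univ.filter fun x => x ∈ W ∧ lc W k x = 2)
    (fun k _ x hx => (mem_filter.1 hx).2.1) (fun k _ x hx => (mem_filter.1 hx).2)
  simp only [dens_matched] at h1
  rw [← Finset.mul_sum] at h1
  linarith

/-- Sum of the defects of a valid set of density at least `1/3`: `ρ_k = dd_k + zz_k = 2 dd_k - (3 dens - 1) ≤ 2 dd_k`. -/
theorem RR_le {T : Finset ι} {W : Finset (ι → ZMod 3)} (h : Valid T W) (hd : 1 / 3 ≤ dens W) :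
    RR T W ≤ 3 * dens W := by
  have h1 : RR T W ≤ ∑ k ∈ T, 2 * dd W k := by
    unfold RR
    refine sum_le_sum fun k hk => ?_
    have h2 := rho_eq (fun x => lc_le_two h hk x)
    have h3 := three_dens (fun x => lc_le_two h hk x)
    linarith
  rw [← Finset.mul_sum] at h1
  have h2 := sum_dd_le h
  linarith

theorem RR_eq {T : Finset ι} {W : Finset (ι → ZMod 3)} (h : ∀ k ∈ T, ∀ x, lc W k x ≤ 2) :
    RR T W = 2 * ∑ k ∈ T, dd W k + T.card * (1 - 3 * dens W) := by
  unfold RR
  rw [Finset.mul_sum, ← nsmul_eq_mul, ← Finset.sum_const, ← Finset.sum_add_distrib]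
  refine sum_congr rfl fun k hk => ?_
  have h2 := rho_eq (h k hk)
  have h3 := three_dens (h k hk)
  linarith

/-- `rho ≤ 2 dd` when the density is at least `1/3`. -/
theorem rho_le_two_dd {W : Finset (ι → ZMod 3)} {k : ι} (h : ∀ x, lc W k x ≤ 2) (hd : 1 / 3 ≤ dens W) :
    rho W k ≤ 2 * dd W k := by
  have h2 := rho_eq h
  have h3 := three_dens h
  linarith

/-- the line through `x` in direction `k` only depends on the other coordinates -/
theorem lc_update (W : Finset (ι → ZMod 3)) (k : ι) (x : ι → ZMod 3) (a : ZMod 3) :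
    lc W k (Function.update x k a) = lc W k x := by
  unfold lc
  simp only [Function.update_idem]

end HT13
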