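import Pool.Agent.HT13.Four
import Pool.Agent.HT13.Lines
import Pool.Agent.HT13.Hyp

/-! # HT13-FourLine: line averages and the energy -/

set_option linter.unusedSectionVars false

namespace HT13

open Finset

variable {ι : Type} [Fintype ι] [DecidableEq ι]

/-- average over the line in direction `k` -/
noncomputable def lineAv (k : ι) (f : (ι → ZMod 3) → ℂ) (x : ι → ZMod 3) : ℂ :=
  (∑ u : ZMod 3, f (Function.update x k u)) / 3

/-- the energy: Fourier mass weighted by the number of zero frequencies in `T` -/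
noncomputable def energy (T : Finset ι) (f : (ι → ZMod 3) → ℂ) : ℝ :=
  ∑ a, ‖fh f a‖ ^ 2 * ((T.filter fun k => a k = 0).card : ℝ)

private theorem fl_shift_term (k : ι) (f : (ι → ZMod 3) → ℂ) (a : ι → ZMod 3) (u : ZMod 3) :
    avC (fun x => f (shiftc k u x) * (starRingEnd ℂ) (chi a x)) =
      ee (a k * u) * fh f a := by
  have h1 : (fun x => f (shiftc k u x) * (starRingEnd ℂ) (chi a x)) =
      fun x => (fun y => f y * (starRingEnd ℂ) (chi a ((shiftc k u).symm y))) (shiftc k u x) := by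
    ext x
    simp
  rw [h1, avC_equiv (shiftc k u) (fun y => f y * (starRingEnd ℂ) (chi a ((shiftc k u).symm y)))]
  unfold fh
  rw [← avC_const_mul]
  congr 1
  ext y
  have h2 : (shiftc k u).symm y = Function.update y k (y k - u) := rfl
  rw [h2, chi_update, map_mul, conj_ee]
  have h3 : -(a k * (y k - u - y k)) = a k * u := by ring
  rw [h3]
  ring

theorem fh_lineAv (k : ι) (f : (ι → ZMod 3) → ℂ) (a : ι → ZMod 3) :
    fh (lineAv k f) a = if a k = 0 then fh f a else 0 := by
  have h1 : fh (lineAv k f) a = (1 / 3) * ∑ u : ZMod 3, ee (a k * u) * fh f a := by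
    simp only [← fl_shift_term k f a]
    rw [← avC_sum, ← avC_const_mul]
    unfold fh
    congr 1
    ext x
    unfold lineAv
    rw [sum_update_eq_sum_shift, ← Finset.sum_mul]
    ring
  rw [h1, ← Finset.sum_mul]
  by_cases h : a k = 0
  · rw [if_pos h, h]
    have h0 : ∀ u : ZMod 3, ee (0 * u) = 1 := by
      intro u
      rw [zero_mul]
      simp [ee]
    simp only [h0]
    rw [sum_const, card_univ, ZMod.card]
    simp
  · rw [if_neg h]
    have := sum_ee_mul (a k)
    rw [this]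
    simp [h]

/-- `∑_{a k = 0} |f^(a)|² = E |P_k f|²`; sum over `k ∈ T` and exchange the sums. -/
theorem energy_eq (T : Finset ι) (f : (ι → ZMod 3) → ℂ) :
    energy T f = ∑ k ∈ T, avR (fun x => ‖lineAv k f x‖ ^ 2) := by
  unfold energy
  simp only [← parseval]
  rw [Finset.sum_comm]
  apply Finset.sum_congr rfl
  intro a _
  have h1 : ∀ k ∈ T, ‖fh (lineAv k f) a‖ ^ 2 = if a k = 0 then ‖fh f a‖ ^ 2 else 0 := by
    intro k _
    rw [fh_lineAv]
    split_ifs <;> simp
  rw [Finset.sum_congr rfl h1, ← Finset.sum_filter, Finset.sum_const, nsmul_eq_mul]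
  ring

private theorem fl_lineAv_ind (W : Finset (ι → ZMod 3)) (k : ι) (x : ι → ZMod 3) :
    lineAv k (ind W) x = (lc W k x : ℂ) / 3 := by
  unfold lineAv ind lc
  rw [Finset.sum_boole]

private theorem fl_sq (n : ℕ) (hn : n ≤ 2) :
    ‖((n : ℂ) / 3 - 1 / 3)‖ ^ 2 = (1 / 9) * (if n ≠ 1 then (1 : ℝ) else 0) := by
  interval_cases n
  · have : (((0 : ℕ) : ℂ) / 3 - 1 / 3) = ((-(1 / 3) : ℝ) : ℂ) := by push_cast; ring
    rw [this, Complex.norm_real, Real.norm_eq_abs, sq_abs]; norm_num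
  · norm_num
  · have : (((2 : ℕ) : ℂ) / 3 - 1 / 3) = (((1 / 3) : ℝ) : ℂ) := by push_cast; ring
    rw [this, Complex.norm_real, Real.norm_eq_abs, sq_abs]; norm_num

private theorem fl_final {T : Finset ι} {W : Finset (ι → ZMod 3)} (h : ∀ k ∈ T, ∀ x, lc W k x ≤ 2)
    (f : (ι → ZMod 3) → ℂ) (hf : ∀ k ∈ T, ∀ x, lineAv k f x = (lc W k x : ℂ) / 3 - 1 / 3) :
    energy T f = RR T W / 9 := by
  rw [energy_eq]
  unfold RR
  rw [Finset.sum_div]
  apply Finset.sum_congr rfl
  intro k hk
  have h1 : (fun x => ‖lineAv k f x‖ ^ 2) = fun x => (1 / 9) * (if lc W k x ≠ 1 then (1 : ℝ) else 0) := by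
    ext x
    rw [hf k hk x, fl_sq _ (h k hk x)]
  rw [h1, avR_const_mul, rho, dens_filter_eq_avR]
  ring

/-- The line averages of `1_W - 1/3` are `(lc - 1)/3 ∈ {-1/3, 0, 1/3}`. -/
theorem energy_ind {T : Finset ι} {W : Finset (ι → ZMod 3)} (h : ∀ k ∈ T, ∀ x, lc W k x ≤ 2) :
    energy T (fun x => ind W x - 1 / 3) = RR T W / 9 := by
  apply fl_final h
  intro k _ x
  rw [← fl_lineAv_ind]
  unfold lineAv
  rw [Finset.sum_sub_distrib, Finset.sum_const, card_univ, ZMod.card]
  simp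
  ring

/-- The line averages of `1_W - 1_H` are also `(lc - 1)/3`. -/
theorem energy_delta {T : Finset ι} {W : Finset (ι → ZMod 3)} (h : ∀ k ∈ T, ∀ x, lc W k x ≤ 2)
    {s : ι → ZMod 3} (hs : Sgn s) (c : ZMod 3) :
    energy T (fun x => ind W x - ind (hyp T s c) x) = RR T W / 9 := by
  apply fl_final h
  intro k hk x
  have h1 : lineAv k (ind (hyp T s c)) x = 1 / 3 := by
    rw [fl_lineAv_ind, lc_hyp hs c hk x]
    norm_num
  rw [← fl_lineAv_ind, ← h1]
  unfold lineAv
  rw [Finset.sum_sub_distrib, sub_div]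

end HT13
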