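import Pool.Agent.HT13.PConc

/-! # HT13-LemP: Lemma P, few defects imply closeness to a hyperplane (paper: section 2) -/

set_option linter.unusedSectionVars false

namespace HT13

open Finset

/-- `T = ∅`: `W` is empty or everything, i.e. `hyp ∅ 1 1` or `hyp ∅ 1 0`.  `RR T W > lam0`: trivial with `CP ≥ 1/√lam0`. -/
theorem lemmaP : ∃ CP : ℝ, 0 < CP ∧
    ∀ {ι : Type} [Fintype ι] [DecidableEq ι] (T : Finset ι) (W : Finset (ι → ZMod 3)), Inv T W →
    (∀ k ∈ T, ∀ x, lc W k x ≤ 2) →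
    ∃ s : ι → ZMod 3, Sgn s ∧ ∃ c, dens (symmDiff W (hyp T s c)) ≤ CP * √(RR T W) := by
  obtain ⟨lam0, h0, h1, hE⟩ := P_exists
  obtain ⟨C, hC, hconc⟩ := P_conc
  have hs : 0 < √lam0 := Real.sqrt_pos.2 h0
  refine ⟨max C (1 / √lam0), lt_max_of_lt_left hC, ?_⟩
  intro ι _ _ T W hI h
  have hone : Sgn (1 : ι → ZMod 3) := fun k => by
    simp only [Pi.one_apply]
    decide
  have hR := Real.sqrt_nonneg (RR T W)
  rcases T.eq_empty_or_nonempty with hT | hT
  · subst hT
    refine ⟨1, hone, ?_⟩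
    have hnn : 0 ≤ max C (1 / √lam0) * √(RR (∅ : Finset ι) W) :=
      mul_nonneg (le_max_of_le_left hC.le) hR
    rcases W.eq_empty_or_nonempty with hW | hW
    · refine ⟨1, ?_⟩
      have e : hyp (∅ : Finset ι) (1 : ι → ZMod 3) 1 = ∅ := by
        ext x
        simp only [mem_hyp, Finset.sum_empty, Finset.notMem_empty, iff_false]
        decide
      rw [e, hW, symmDiff_self, Finset.bot_eq_empty, dens_empty]
      rw [hW] at hnn
      exact hnn
    · refine ⟨0, ?_⟩
      obtain ⟨x0, hx0⟩ := hW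
      have e : W = hyp (∅ : Finset ι) (1 : ι → ZMod 3) 0 := by
        ext x
        simp only [mem_hyp, Finset.sum_empty, iff_true]
        exact hI x0 x (fun k hk => absurd hk (Finset.notMem_empty k)) hx0
      rw [← e, symmDiff_self, Finset.bot_eq_empty, dens_empty]
      exact hnn
  · by_cases hle : RR T W ≤ lam0
    · obtain ⟨a, ha, hb⟩ := hE T W hT hI h hle
      obtain ⟨s, hs1, c, hc⟩ := hconc T W hT hI h (hle.trans h1) a ha hb
      exact ⟨s, hs1, c, hc.trans (mul_le_mul_of_nonneg_right (le_max_left _ _) hR)⟩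
    · push Not at hle
      refine ⟨1, hone, 0, (dens_le_one _).trans ?_⟩
      have h3 : √lam0 ≤ √(RR T W) := Real.sqrt_le_sqrt hle.le
      calc (1 : ℝ) = 1 / √lam0 * √lam0 := by field_simp
        _ ≤ 1 / √lam0 * √(RR T W) := mul_le_mul_of_nonneg_left h3 (by positivity)
        _ ≤ max C (1 / √lam0) * √(RR T W) := mul_le_mul_of_nonneg_right (le_max_right _ _) hR

end HT13
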