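import Pool.Agent.HT13.LemA
import Pool.Agent.HT13.LemP

/-! # HT13-LemAFin: Lemma A, final form (paper: section 3) -/

set_option linter.unusedSectionVars false

namespace HT13

open Finset

/-- the numerical choice of the parameters -/
private theorem choose_par {CP eps : ℝ} (hCP : 0 < CP) (he : 0 < eps) :
    ∃ (p L : ℕ) (tau : ℝ), 0 < tau ∧
      3 / ((p : ℝ) + 1) + 74 * (CP * √(3 / ((p : ℝ) + 1))) ≤ eps / 6 ∧
      ((p : ℝ) / (p + 1)) ^ L ≤ eps / 648 ∧ 5 ^ L * √tau ≤ eps / 648 := by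
  obtain ⟨del, hd0, hd1, hd⟩ : ∃ del : ℝ, 0 < del ∧ del ≤ 1 ∧ del * (1 + 74 * CP) ≤ eps / 6 := by
    refine ⟨min 1 (eps / 6 / (1 + 74 * CP)), by positivity, min_le_left _ _, ?_⟩
    have h1 : (0 : ℝ) < 1 + 74 * CP := by positivity
    calc min 1 (eps / 6 / (1 + 74 * CP)) * (1 + 74 * CP)
        ≤ eps / 6 / (1 + 74 * CP) * (1 + 74 * CP) :=
          mul_le_mul_of_nonneg_right (min_le_right _ _) h1.le
      _ = eps / 6 := by field_simp
  obtain ⟨p, hp⟩ := exists_nat_gt (3 / del ^ 2)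
  have hp1 : (0 : ℝ) < (p : ℝ) + 1 := by positivity
  have hq : 3 / ((p : ℝ) + 1) ≤ del ^ 2 := by
    rw [div_le_iff₀ hp1]
    have h2 : (0 : ℝ) < del ^ 2 := by positivity
    rw [div_lt_iff₀ h2] at hp
    nlinarith
  have hlt : (p : ℝ) / (p + 1) < 1 := by
    rw [div_lt_one hp1]
    linarith
  obtain ⟨L, hL⟩ := exists_pow_lt_of_lt_one (show (0 : ℝ) < eps / 648 by positivity) hlt
  refine ⟨p, L, (eps / 648 / 5 ^ L) ^ 2, by positivity, ?_, hL.le, ?_⟩
  · have h3 : √(3 / ((p : ℝ) + 1)) ≤ del := by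
      calc √(3 / ((p : ℝ) + 1)) ≤ √(del ^ 2) := Real.sqrt_le_sqrt hq
        _ = del := Real.sqrt_sq hd0.le
    have h4 : del ^ 2 ≤ del := by nlinarith
    have h5 : CP * √(3 / ((p : ℝ) + 1)) ≤ CP * del := mul_le_mul_of_nonneg_left h3 hCP.le
    nlinarith
  · rw [Real.sqrt_sq (by positivity)]
    have : (5 : ℝ) ^ L * (eps / 648 / 5 ^ L) = eps / 648 := by field_simp
    rw [this]

/-- `S = {k ∈ F : rho W k ≤ tau}`: by `rho_le_two_dd`, `dens_Mt`, `A_sum`, `A_tail`, `RR F W ≤ 3` (`RR_le`)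
`(1/3) ∑_S rho ≤ 3/(p+1) + 74 CP √(3/(p+1)) + 54 (5^L √tau + (p/(p+1))^L)`; choose `p`, then `L`, then `tau`. -/
theorem lemmaA : ∀ eps : ℝ, 0 < eps → ∃ tau : ℝ, 0 < tau ∧
    ∀ {ι : Type} [Fintype ι] [DecidableEq ι] (F : Finset ι) (W : Finset (ι → ZMod 3)), Inv F W → Valid F W →
    1 / 3 ≤ dens W → ∑ k ∈ F.filter (fun k => rho W k ≤ tau), rho W k ≤ eps := by
  intro eps he
  obtain ⟨CP, hCP, hP⟩ := lemmaP
  obtain ⟨p, L, tau, ht, h1, h2, h3⟩ := choose_par hCP he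
  refine ⟨tau, ht, ?_⟩
  intro ι _ _ F W hI hV hd
  set S := F.filter (fun k => rho W k ≤ tau) with hSdef
  have hSF : S ⊆ F := filter_subset _ _
  have hR3 : RR F W ≤ 3 := by
    have := RR_le hV hd
    have h := dens_le_one W
    linarith
  have hR0 := RR_nonneg F W
  have hSR : ∑ k ∈ S, rho W k ≤ RR F W :=
    sum_le_sum_of_subset_of_nonneg hSF fun k _ _ => rho_nonneg W k
  have hS3 : ∑ k ∈ S, rho W k ≤ 3 * ∑ k ∈ S, dens (Mt W k) := by
    rw [Finset.mul_sum]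
    refine sum_le_sum fun k hk => ?_
    have h4 := rho_le_two_dd (fun x => lc_le_two hV (hSF hk) x) hd
    rw [dens_Mt]
    linarith
  have hA := A_sum hI hV hCP (fun T V h h' => hP T V h h') p hSF
  have hp1 : (0 : ℝ) < (p : ℝ) + 1 := by positivity
  have h5 : RR F W / ((p : ℝ) + 1) ≤ 3 / ((p : ℝ) + 1) := by gcongr
  have h6 : CP * √(RR F W / ((p : ℝ) + 1)) ≤ CP * √(3 / ((p : ℝ) + 1)) :=
    mul_le_mul_of_nonneg_left (Real.sqrt_le_sqrt h5) hCP.le
  have h7 : ∑ k ∈ S, ∑ a, ‖fh (DD W k) a‖ ^ 2 * ((p : ℝ) / (p + 1)) ^ (spt a).card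
      ≤ (eps / 648 + eps / 648) * ∑ k ∈ S, rho W k := by
    rw [Finset.mul_sum]
    refine sum_le_sum fun k hk => ?_
    have h8 := A_tail W k p L
    have h9 : √(rho W k) ≤ √tau := Real.sqrt_le_sqrt (mem_filter.1 hk).2
    have h10 := rho_nonneg W k
    have h11 : (5 : ℝ) ^ L * (rho W k * √(rho W k)) ≤ eps / 648 * rho W k := by
      calc (5 : ℝ) ^ L * (rho W k * √(rho W k)) ≤ 5 ^ L * (rho W k * √tau) := by gcongr
        _ = (5 ^ L * √tau) * rho W k := by ring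
        _ ≤ eps / 648 * rho W k := mul_le_mul_of_nonneg_right h3 h10
    have h12 : ((p : ℝ) / (p + 1)) ^ L * rho W k ≤ eps / 648 * rho W k :=
      mul_le_mul_of_nonneg_right h2 h10
    linarith
  have h13 : (eps / 648 + eps / 648) * ∑ k ∈ S, rho W k ≤ (eps / 648 + eps / 648) * 3 :=
    mul_le_mul_of_nonneg_left (hSR.trans hR3) (by positivity)
  linarith

/-- `J` consists of `≥ K > 3/tau` coordinates with the largest `rho`: then `rho W k ≤ tau` outside `J`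
(otherwise all of `J` has `rho > tau` and `RR F W > 3`). -/
theorem lemmaA_tail : ∀ eps : ℝ, 0 < eps → ∃ K : ℕ,
    ∀ {ι : Type} [Fintype ι] [DecidableEq ι] (F : Finset ι) (W : Finset (ι → ZMod 3)), Inv F W → Valid F W →
    1 / 3 ≤ dens W → ∀ J : Finset ι, J ⊆ F → K ≤ J.card → (∀ j ∈ J, ∀ k ∈ F \ J, rho W k ≤ rho W j) →
    ∑ k ∈ F \ J, rho W k ≤ eps := by
  intro eps he
  obtain ⟨tau, ht, hA⟩ := lemmaA eps he
  obtain ⟨K, hK⟩ := exists_nat_gt (3 / tau)
  refine ⟨K, ?_⟩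
  intro ι _ _ F W hI hV hd J hJF hJK htop
  have hR3 : RR F W ≤ 3 := by
    have := RR_le hV hd
    have h := dens_le_one W
    linarith
  have hsmall : ∀ k ∈ F \ J, rho W k ≤ tau := by
    intro k hk
    by_contra hcon
    push Not at hcon
    have h1 : (J.card : ℝ) * tau ≤ ∑ j ∈ J, rho W j := by
      rw [← nsmul_eq_mul]
      exact Finset.card_nsmul_le_sum J _ _ fun j hj => hcon.le.trans (htop j hj k hk)
    have h2 : ∑ j ∈ J, rho W j ≤ RR F W :=
      sum_le_sum_of_subset_of_nonneg hJF fun k _ _ => rho_nonneg W k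
    have h3 : (K : ℝ) ≤ J.card := by exact_mod_cast hJK
    rw [div_lt_iff₀ ht] at hK
    nlinarith
  refine le_trans ?_ (hA F W hI hV hd)
  refine sum_le_sum_of_subset_of_nonneg ?_ fun k _ _ => rho_nonneg W k
  intro k hk
  exact mem_filter.2 ⟨(mem_sdiff.1 hk).1, hsmall k hk⟩

/-- choose the `K` coordinates of `F` with the largest values of `r` -/
theorem exists_top {ι : Type} [DecidableEq ι] (F : Finset ι) (r : ι → ℝ) (K : ℕ) (hK : K ≤ F.card) :
    ∃ J : Finset ι, J ⊆ F ∧ J.card = K ∧ ∀ j ∈ J, ∀ k ∈ F \ J, r k ≤ r j := by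
  obtain ⟨J, hJ, hmax⟩ := Finset.exists_max_image (F.powersetCard K) (fun J => ∑ j ∈ J, r j)
    (Finset.powersetCard_nonempty.2 hK)
  rw [mem_powersetCard] at hJ
  refine ⟨J, hJ.1, hJ.2, ?_⟩
  intro j hj k hk
  by_contra hcon
  push Not at hcon
  have hkF := (mem_sdiff.1 hk).1
  have hkJ := (mem_sdiff.1 hk).2
  have hkE : k ∉ J.erase j := fun h => hkJ (mem_of_mem_erase h)
  have h1 : insert k (J.erase j) ∈ F.powersetCard K := by
    rw [mem_powersetCard]
    constructor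
    · intro x hx
      rcases mem_insert.1 hx with rfl | hx
      · exact hkF
      · exact hJ.1 (mem_of_mem_erase hx)
    · rw [card_insert_of_notMem hkE, card_erase_of_mem hj]
      have : 0 < J.card := card_pos.2 ⟨j, hj⟩
      omega
  have h2 := hmax _ h1
  rw [sum_insert hkE] at h2
  have h3 := Finset.add_sum_erase J r hj
  linarith

end HT13
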