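import Pool.Agent.HT13.LemT
import Pool.Agent.HT13.LemAFin

/-! # HT13-Growth: the growth gap (paper: section 4) -/

set_option linter.unusedSectionVars false

namespace HT13

open Finset

/-- If there are few defects then `W` is close to a hyperplane (Lemma P), so (Lemma T) `dens W ≤ 1/3`. -/
theorem dens_le_third : ∃ lam1 : ℝ, 0 < lam1 ∧
    ∀ {ι : Type} [Fintype ι] [DecidableEq ι] (T : Finset ι) (W : Finset (ι → ZMod 3)), T.Nonempty → Inv T W →
    Valid T W → RR T W ≤ lam1 → dens W ≤ 1 / 3 := by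
  obtain ⟨CP, hCP, hP⟩ := lemmaP
  obtain ⟨eps0, he0, c0, hc0, hT⟩ := lemmaT
  refine ⟨(eps0 / CP) ^ 2, by positivity, ?_⟩
  intro ι _ _ T W hne hI hV hR
  obtain ⟨s, hs, c, hd⟩ := hP T W hI (fun k hk x => lc_le_two hV hk x)
  have h1 : √(RR T W) ≤ eps0 / CP := by
    rw [Real.sqrt_le_left (by positivity)]
    exact hR
  have h2 : dens (symmDiff W (hyp T s c)) ≤ eps0 := by
    refine hd.trans ?_
    calc CP * √(RR T W) ≤ CP * (eps0 / CP) := by gcongr
      _ = eps0 := by field_simp
  rw [dens_symmDiff] at h2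
  have h3 := (hT T W hI hV s hs c h2).1
  have h4 := dens_sdiff_add_inter W (hyp T s c)
  have h5 := dens_sdiff_add_inter (hyp T s c) W
  rw [inter_comm] at h5
  have h6 := dens_hyp hne hs c
  linarith

/-- One step: `K < T.card`, `b` bounds the density excess in dimension `T.card - K`.  Take `J` with `exists_top`; average over
the slices `ovw J y W` (`avR_dens_ovw`, `avR_RR_ovw`, `markov`). -/
theorem growth_step : ∃ K : ℕ, 1 ≤ K ∧
    ∀ {ι : Type} [Fintype ι] [DecidableEq ι] (T : Finset ι) (b : ℝ), K < T.card → 0 ≤ b →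
    (∀ (T' : Finset ι) (W' : Finset (ι → ZMod 3)), T'.card + K = T.card → Inv T' W' → Valid T' W' →
      dens W' - 1 / 3 ≤ b) →
    ∀ W : Finset (ι → ZMod 3), Inv T W → Valid T W → dens W - 1 / 3 ≤ b / 2 := by
  obtain ⟨lam1, hlam, hthird⟩ := dens_le_third
  obtain ⟨K0, hK0⟩ := lemmaA_tail (lam1 / 2) (by positivity)
  refine ⟨max K0 1, le_max_right _ _, ?_⟩
  intro ι _ _ T b hKT hb hyp' W hI hV
  by_cases hd : dens W < 1 / 3
  · linarith
  · push Not at hd
    obtain ⟨J, hJT, hJc, hJtop⟩ := exists_top T (rho W) (max K0 1) hKT.le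
    have hsum := hK0 T W hI hV hd J hJT (by rw [hJc]; exact le_max_left _ _) hJtop
    have hRR : RR (T \ J) W ≤ lam1 / 2 := hsum
    have hcard : (T \ J).card + max K0 1 = T.card := by
      rw [← hJc, card_sdiff_add_card_eq_card hJT]
    have hne : (T \ J).Nonempty := by
      rw [← card_pos]; omega
    have hpt : ∀ y : ι → ZMod 3, dens (ovw J y W) - 1 / 3 ≤ (b / lam1) * RR (T \ J) (ovw J y W) := by
      intro y
      have hIy := ovw_inv' (J := J) hI y
      have hVy := ovw_valid (J := J) hV y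
      have hR0 := RR_nonneg (T \ J) (ovw J y W)
      by_cases hle : RR (T \ J) (ovw J y W) ≤ lam1
      · have h1 := hthird (T \ J) (ovw J y W) hne hIy hVy hle
        have h2 : 0 ≤ (b / lam1) * RR (T \ J) (ovw J y W) := by positivity
        linarith
      · push Not at hle
        have h1 := hyp' (T \ J) (ovw J y W) hcard hIy hVy
        have h2 : b ≤ (b / lam1) * RR (T \ J) (ovw J y W) := by
          calc b = (b / lam1) * lam1 := by field_simp
            _ ≤ (b / lam1) * RR (T \ J) (ovw J y W) := by gcongr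
        linarith
    have hav := avR_mono hpt
    rw [avR_sub, avR_const, avR_const_mul, avR_dens_ovw, avR_RR_ovw Finset.sdiff_disjoint] at hav
    calc dens W - 1 / 3 ≤ b / lam1 * RR (T \ J) W := hav
      _ ≤ b / lam1 * (lam1 / 2) := by gcongr
      _ = b / 2 := by field_simp

/-- `θ = (1/2) ^ (1/K)`, `A = 4/3`; strong induction on `T.card`. -/
theorem growth : ∃ A : ℝ, 0 < A ∧ ∃ θ : ℝ, 0 < θ ∧ θ < 1 ∧
    ∀ {ι : Type} [Fintype ι] [DecidableEq ι] (T : Finset ι) (W : Finset (ι → ZMod 3)), Inv T W → Valid T W →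
    dens W - 1 / 3 ≤ A * θ ^ T.card := by
  obtain ⟨K, hK1, hK⟩ := growth_step
  have hK0 : K ≠ 0 := by omega
  have hKr : (0 : ℝ) < (K : ℝ) := by exact_mod_cast hK1
  set θ : ℝ := (1 / 2 : ℝ) ^ ((K : ℝ)⁻¹) with hθ
  have hθ0 : 0 < θ := Real.rpow_pos_of_pos (by norm_num) _
  have hθ1 : θ < 1 := Real.rpow_lt_one (by norm_num) (by norm_num) (by positivity)
  have hθK : θ ^ K = 1 / 2 := Real.rpow_inv_natCast_pow (by norm_num) hK0
  refine ⟨4 / 3, by norm_num, θ, hθ0, hθ1, ?_⟩
  intro ι _ _
  have main : ∀ n : ℕ, ∀ (T : Finset ι) (W : Finset (ι → ZMod 3)), T.card = n → Inv T W → Valid T W →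
      dens W - 1 / 3 ≤ 4 / 3 * θ ^ n := by
    intro n
    induction n using Nat.strong_induction_on with
    | _ n ih =>
      intro T W hcard hI hV
      by_cases hn : n ≤ K
      · have h1 : θ ^ K ≤ θ ^ n := pow_le_pow_of_le_one hθ0.le hθ1.le hn
        have h2 := dens_le_one W
        rw [hθK] at h1
        linarith
      · push Not at hn
        have h1 := hK T (4 / 3 * θ ^ (n - K)) (by omega) (by positivity) (by
          intro T' W' hc' hI' hV'
          have hc : T'.card = n - K := by omega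
          exact ih (n - K) (by omega) T' W' hc hI' hV') W hI hV
        have h2 : θ ^ n = θ ^ (n - K) * (1 / 2) := by
          rw [← hθK, ← pow_add]; congr 1; omega
        rw [h2]
        linarith
  intro T W hI hV
  exact main T.card T W rfl hI hV

end HT13
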