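import Pool.Agent.HT13.MergeExc

/-! # HT13-MergeMain: a valid set avoiding a hyperplane has excess at most one (paper: section 8) -/

set_option linter.unusedSectionVars false

namespace HT13

open Finset

variable {ι : Type} [Fintype ι] [DecidableEq ι]

private theorem merge_aux (n : ℕ) : ∀ {T : Finset ι} {W : Finset (ι → ZMod 3)}, T.card = n → Inv T W → Valid T W →
    ∀ {s : ι → ZMod 3}, Sgn s → ∀ {c : ZMod 3}, W ∩ hyp T s c = ∅ → exc T W ≤ 1 := by
  induction n with
  | zero =>
    intro T W hT _ _ s _ c _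
    have h1 := dens_le_one W
    unfold exc
    rw [hT, pow_zero, mul_one]
    linarith
  | succ n ih =>
    intro T W hT hI hV s hs c h
    rcases Nat.eq_zero_or_pos n with hn | hn
    · subst hn
      obtain ⟨k, rfl⟩ := card_eq_one.1 hT
      have hk : k ∈ ({k} : Finset ι) := mem_singleton_self k
      have h3 := three_dens (fun x => lc_le_two hV hk x)
      have h4 : dd W k ≤ 1 := dens_le_one _
      have h5 : 0 ≤ zz W k := dens_nonneg _
      unfold exc
      rw [hT]
      norm_num
      linarith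
    · obtain ⟨i, hi, j, hj, hij⟩ := one_lt_card.1 (show 1 < T.card by omega)
      refine (exc_le_mergeSet hi hj hij hI hV hs h).trans ?_
      refine ih ?_ (mergeSet_inv hi hj hij hI s) (mergeSet_valid hi hj hij hI hV hs h) hs
        (mergeSet_avoid hi hj hij h)
      rw [card_sdiff_of_subset (singleton_subset_iff.2 hj), card_singleton]
      omega

/-- Induction on `T.card` with `mergeSet` (`exc_le_mergeSet`, `mergeSet_inv`, `mergeSet_avoid`, `mergeSet_valid`).
`T = ∅`: `dens W ≤ 1`, `exc ≤ 2/3`.  `T = {k}`: `lc W k x ≤ 2`, so `dens W ≤ 2/3` (average over the line), `exc ≤ 1`. -/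
theorem merge {T : Finset ι} {W : Finset (ι → ZMod 3)} (hI : Inv T W) (hV : Valid T W) {s : ι → ZMod 3} (hs : Sgn s)
    {c : ZMod 3} (h : W ∩ hyp T s c = ∅) : exc T W ≤ 1 :=
  merge_aux T.card rfl hI hV hs h

/-- Remove `W ∩ H` from `W` (`Valid.subset`) and use `merge`. -/
theorem exc_le_inter {T : Finset ι} {W : Finset (ι → ZMod 3)} (hI : Inv T W) (hV : Valid T W) {s : ι → ZMod 3}
    (hs : Sgn s) (c : ZMod 3) : exc T W ≤ 1 + dens (W ∩ hyp T s c) * 3 ^ T.card := by
  have hI' : Inv T (W \ hyp T s c) := by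
    intro x y hxy hx
    rw [mem_sdiff] at hx ⊢
    refine ⟨(hI.iff hxy).1 hx.1, fun hy => hx.2 ?_⟩
    exact ((hyp_inv T s c).iff hxy).2 hy
  have h1 : exc T (W \ hyp T s c) ≤ 1 :=
    merge hI' (hV.subset sdiff_subset) hs (c := c) (by
      ext x
      simp only [mem_inter, mem_sdiff, notMem_empty, iff_false]
      tauto)
  have h2 := dens_sdiff_add_inter W (hyp T s c)
  unfold exc at h1 ⊢
  rw [← h2]
  linarith

end HT13
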