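import Pool.Agent.HT13.C2
import Pool.Agent.HT13.MergeMain

/-! # HT13-Holes: counting holes, good cylinders have excess at most one (paper: section 8, (F)) -/

set_option linter.unusedSectionVars false

namespace HT13

open Finset

variable (S : Sq)

/-- number of points of `H` missing from `W` (in the cube of the free coordinates) -/
noncomputable def hol (J : Finset ℕ) (v : ℕ → ZMod 3) (s : (m : ℕ) → Fin (S.n m) → ZMod 3) (c : ℕ → ZMod 3)
    (m : ℕ) : ℝ := dens (HH S J s c m \ WW S J v m) * 3 ^ (TT S J m).card

/-- holes of a child are holes (`dens_ovw_le`, `WW_insert`, `HH_insert`, `card_TT_insert`) -/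
theorem hol_insert_le {l : ℕ} {J : Finset ℕ} (hl : l ∉ J) (v : ℕ → ZMod 3)
    (s : (m : ℕ) → Fin (S.n m) → ZMod 3) (c : ℕ → ZMod 3) : ∀ᶠ m in (UU : Filter ℕ),
    hol S (insert l J) v s (fun m => c m - cf S s l m * v l) m ≤ hol S J v s c m := by
  filter_upwards [card_TT_insert S hl, card_JJ S {l}] with m h1 h2
  unfold hol
  rw [HH_insert S hl v s c m, WW_insert S hl v m]
  have h3 : ovw (JJ S {l} m) (pt S v m) (HH S J s c m) \ ovw (JJ S {l} m) (pt S v m) (WW S J v m)
      = ovw (JJ S {l} m) (pt S v m) (HH S J s c m \ WW S J v m) := by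
    ext x
    simp only [mem_sdiff, mem_ovw]
  rw [h3, h1]
  have h4 := dens_ovw_le (JJ S {l} m) (pt S v m) (HH S J s c m \ WW S J v m)
  rw [h2, card_singleton, pow_one] at h4
  have h5 : (0 : ℝ) < 3 ^ (TT S (insert l J) m).card := by positivity
  rw [pow_succ]
  nlinarith

/-- A point of `W ∩ H` (of the cylinder `(J, v)`) lies in at most one of the sets `WW S J (update v p.1 p.2)`, `p ∈ L`
(validity), so it is a hole of at least `L.card - 1` of these siblings. -/
theorem holes_ge {J : Finset ℕ} {v : ℕ → ZMod 3} (s : (m : ℕ) → Fin (S.n m) → ZMod 3) (c : ℕ → ZMod 3)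
    (L : Finset (ℕ × ZMod 3)) (hL : ∀ p ∈ L, p.1 ∈ J ∧ p.2 ≠ v p.1) : ∀ᶠ m in (UU : Filter ℕ),
    ((L.card : ℝ) - 1) * (dens (WW S J v m ∩ HH S J s c m) * 3 ^ (TT S J m).card)
      ≤ ∑ p ∈ L, hol S J (Function.update v p.1 p.2) s c m := by
  filter_upwards [n_large S (L.sup fun p => p.1)] with m hm
  have hN : (0 : ℝ) < 3 ^ (TT S J m).card := by positivity
  unfold hol
  rw [← Finset.sum_mul, ← mul_assoc]
  refine mul_le_mul_of_nonneg_right ?_ hN.le
  rw [dens_eq_avR, ← avR_const_mul]
  have h1 : ∑ p ∈ L, dens (HH S J s c m \ WW S J (Function.update v p.1 p.2) m)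
      = avR fun x => ∑ p ∈ L, if x ∈ HH S J s c m \ WW S J (Function.update v p.1 p.2) m
        then (1 : ℝ) else 0 := by
    rw [avR_sum]
    exact sum_congr rfl fun p _ => dens_eq_avR _
  rw [h1]
  refine avR_mono fun x => ?_
  by_cases hx : x ∈ WW S J v m ∩ HH S J s c m
  · rw [if_pos hx, mul_one]
    rw [mem_inter] at hx
    have h2 : (L.filter fun p => x ∈ WW S J (Function.update v p.1 p.2) m).card ≤ 1 := by
      rw [Finset.card_le_one]
      intro p hp q hq
      rw [mem_filter] at hp hq
      have key : ∀ r : ℕ × ZMod 3, r ∈ L → x ∈ WW S J (Function.update v r.1 r.2) m →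
          ∃ k : Fin (S.n m), (k : ℕ) = r.1 ∧ r.2 ≠ mixp (JJ S J m) x (pt S v m) k ∧
            Function.update (mixp (JJ S J m) x (pt S v m)) k r.2 ∈ S.U m := by
        intro r hr hxr
        have hrn : r.1 < S.n m := lt_of_le_of_lt (Finset.le_sup (f := fun p : ℕ × ZMod 3 => p.1) hr) hm
        have hrJ : (⟨r.1, hrn⟩ : Fin (S.n m)) ∈ JJ S J m := by
          unfold JJ
          rw [mem_filter]
          exact ⟨mem_univ _, (hL r hr).1⟩
        refine ⟨⟨r.1, hrn⟩, rfl, ?_, ?_⟩
        · unfold mixp
          rw [if_pos hrJ]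
          exact (hL r hr).2
        · unfold WW at hxr
          rw [mem_ovw] at hxr
          have h3 : Function.update (mixp (JJ S J m) x (pt S v m)) (⟨r.1, hrn⟩ : Fin (S.n m)) r.2
              = mixp (JJ S J m) x (pt S (Function.update v r.1 r.2) m) := by
            funext k
            by_cases hk : k = ⟨r.1, hrn⟩
            · subst hk
              rw [Function.update_self]
              unfold mixp pt
              rw [if_pos hrJ, Function.update_self]
            · rw [Function.update_of_ne hk]
              unfold mixp pt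
              have hk' : (k : ℕ) ≠ r.1 := fun h => hk (Fin.ext h)
              rw [Function.update_of_ne hk']
          rw [h3]
          exact hxr
      have hxU : mixp (JJ S J m) x (pt S v m) ∈ S.U m := by
        have := hx.1
        unfold WW at this
        rwa [mem_ovw] at this
      obtain ⟨k, hk1, hk2, hk3⟩ := key p hp.1 hp.2
      obtain ⟨k', hk1', hk2', hk3'⟩ := key q hq.1 hq.2
      have h4 := S.val m _ hxU k (mem_univ _) p.2 hk2 k' (mem_univ _) q.2 hk2' hk3 hk3'
      refine Prod.ext ?_ h4.2
      rw [← hk1, ← hk1', h4.1]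
    have h3 : (L.filter fun p => x ∈ WW S J (Function.update v p.1 p.2) m).card
        + (L.filter fun p => ¬ x ∈ WW S J (Function.update v p.1 p.2) m).card = L.card :=
      Finset.card_filter_add_card_filter_not _
    have h4 : (∑ p ∈ L, if x ∈ HH S J s c m \ WW S J (Function.update v p.1 p.2) m
        then (1 : ℝ) else 0)
        = ((L.filter fun p => ¬ x ∈ WW S J (Function.update v p.1 p.2) m).card : ℝ) := by
      rw [Finset.card_filter]
      push_cast
      refine sum_congr rfl fun p _ => ?_
      by_cases hp : x ∈ WW S J (Function.update v p.1 p.2) m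
      · rw [if_neg (fun h => (mem_sdiff.1 h).2 hp), if_neg (not_not.2 hp)]
      · rw [if_pos (mem_sdiff.2 ⟨hx.2, hp⟩), if_pos hp]
    rw [h4]
    have h5 : (L.card : ℝ) ≤ 1 + ((L.filter fun p => ¬ x ∈ WW S J (Function.update v p.1 p.2) m).card : ℝ) := by
      rw [← h3]
      push_cast
      have : ((L.filter fun p => x ∈ WW S J (Function.update v p.1 p.2) m).card : ℝ) ≤ 1 := by
        exact_mod_cast h2
      linarith
    linarith
  · rw [if_neg hx, mul_zero]
    refine Finset.sum_nonneg fun p _ => ?_
    split_ifs <;> norm_num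

theorem hol_nonneg (J : Finset ℕ) (v : ℕ → ZMod 3) (s : (m : ℕ) → Fin (S.n m) → ZMod 3) (c : ℕ → ZMod 3)
    (m : ℕ) : 0 ≤ hol S J v s c m := by
  unfold hol
  have h1 := dens_nonneg (HH S J s c m \ WW S J v m)
  positivity

private theorem three_ne : ∀ (a σ : ZMod 3), σ ≠ 0 → a ≠ a + σ ∧ a ≠ a - σ ∧ a + σ ≠ a - σ := by
  decide

private theorem sq_one : ∀ (σ : ZMod 3), σ ≠ 0 → σ * σ = 1 := by
  decide

private theorem sum_three (a σ : ZMod 3) (hσ : σ ≠ 0) (f : ZMod 3 → ℝ) :
    ∑ b : ZMod 3, f b = f a + f (a + σ) + f (a - σ) := by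
  have h1 : (univ : Finset (ZMod 3)) = {a, a + σ, a - σ} := by
    revert a σ
    decide
  have h2 := three_ne a σ hσ
  rw [h1, Finset.sum_insert (by simp [h2.1, h2.2.1]), Finset.sum_insert (by simp [h2.2.2]),
    Finset.sum_singleton]
  ring

/-- Iteration of (C2).  `L` collects the clean siblings `(l, a), (l, a + σ)` of the successive cores.  Step: if the core
`(J', v')` is clean then (cost) its excess is `≤ 0` for most `m` and so is that of `(J, v)` (`hol ≥ 0`).  Otherwise `C2`:
`Root S J' v' s d l a σ`, new core `(insert l J', update v' l (a - σ))`, `d' = d + 1 - σ a`; `exc_children` and the cost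
inequality for the two clean children; old siblings: `hol_insert_le` at the value `a - σ` (`d - σ (a - σ) = d'`, and
`update (update v' p.1 p.2) l _ = update (update v' l _) p.1 p.2`). -/
theorem F_chain {c' : ℝ} (hc' : 0 < c')
    (hcost : ∀ (J : Finset ℕ) (v : ℕ → ZMod 3) (s : (m : ℕ) → Fin (S.n m) → ZMod 3) (c : ℕ → ZMod 3), SSg S s →
      CleanW S J v s c → ∀ᶠ m in (UU : Filter ℕ), exc (TT S J m) (WW S J v m) ≤ - (c' * hol S J v s c m))
    {J : Finset ℕ} {v : ℕ → ZMod 3} {s : (m : ℕ) → Fin (S.n m) → ZMod 3} {c : ℕ → ZMod 3} (hs : SSg S s)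
    (hg : GoodW S J v s c) (r : ℕ) :
    (∀ᶠ m in (UU : Filter ℕ), exc (TT S J m) (WW S J v m) ≤ 0) ∨
    ∃ (J' : Finset ℕ) (v' : ℕ → ZMod 3) (d : ℕ → ZMod 3) (L : Finset (ℕ × ZMod 3)), L.card = 2 * r ∧
      (∀ p ∈ L, p.1 ∈ J' ∧ p.2 ≠ v' p.1) ∧ GoodW S J' v' s d ∧
      ∀ᶠ m in (UU : Filter ℕ), exc (TT S J m) (WW S J v m) ≤ exc (TT S J' m) (WW S J' v' m)
        - c' * ∑ p ∈ L, hol S J' (Function.update v' p.1 p.2) s d m := by
  induction r with
  | zero =>
    refine Or.inr ⟨J, v, c, ∅, by simp, fun p hp => absurd hp (Finset.notMem_empty _), hg, ?_⟩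
    refine Filter.Eventually.of_forall fun m => ?_
    simp
  | succ r ih =>
    rcases ih with ih | ⟨J', v', d, L, hcard, hL, hg', hle⟩
    · exact Or.inl ih
    by_cases hcl : Clean S J' v'
    · left
      obtain ⟨s1, hs1, c1, hc1⟩ := hcl
      filter_upwards [hle, hcost J' v' s1 c1 hs1 hc1] with m h1 h2
      have h3 := hol_nonneg S J' v' s1 c1 m
      have h4 : 0 ≤ ∑ p ∈ L, hol S J' (Function.update v' p.1 p.2) s d m :=
        Finset.sum_nonneg fun p _ => hol_nonneg S _ _ _ _ _
      have h5 := mul_nonneg hc'.le h3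
      have h6 := mul_nonneg hc'.le h4
      linarith
    · right
      obtain ⟨l, a, σ, hl, hσ, hcf, hA, hB, hC⟩ := C2 hs hg' hcl
      have hne := three_ne a σ hσ
      have hlL : ∀ b : ZMod 3, (l, b) ∉ L := fun b hb => hl (hL _ hb).1
      have hpl : ∀ p ∈ L, p.1 ≠ l := fun p hp h => hl (h ▸ (hL p hp).1)
      refine ⟨insert l J', Function.update v' l (a - σ), fun m => d m + 1 - σ * a,
        insert (l, a) (insert (l, a + σ) L), ?_, ?_, hC, ?_⟩
      · rw [card_insert_of_notMem, card_insert_of_notMem (hlL _), hcard]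
        · ring
        · rw [mem_insert, not_or]
          exact ⟨fun h => hne.1 (Prod.ext_iff.1 h).2, hlL _⟩
      · intro p hp
        rw [mem_insert, mem_insert] at hp
        rcases hp with rfl | rfl | hp
        · refine ⟨mem_insert_self _ _, ?_⟩
          rw [Function.update_self]
          exact hne.2.1
        · refine ⟨mem_insert_self _ _, ?_⟩
          rw [Function.update_self]
          exact hne.2.2
        · refine ⟨mem_insert_of_mem (hL p hp).1, ?_⟩
          rw [Function.update_of_ne (hpl p hp)]
          exact (hL p hp).2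
      · have hold : ∀ p ∈ L, ∀ᶠ m in (UU : Filter ℕ),
            hol S (insert l J') (Function.update (Function.update v' l (a - σ)) p.1 p.2) s
              (fun m => d m + 1 - σ * a) m ≤ hol S J' (Function.update v' p.1 p.2) s d m := by
          intro p hp
          have h1 := hol_insert_le S hl
            (Function.update (Function.update v' l (a - σ)) p.1 p.2) s d
          filter_upwards [h1, hcf] with m h2 h3
          have h4 : WW S J' (Function.update (Function.update v' l (a - σ)) p.1 p.2) m
              = WW S J' (Function.update v' p.1 p.2) m := by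
            refine WW_congr S (fun k hk => ?_) m
            have hkl : k ≠ l := fun h => hl (h ▸ hk)
            by_cases hkp : k = p.1
            · rw [hkp, Function.update_self, Function.update_self]
            · rw [Function.update_of_ne hkp, Function.update_of_ne hkl, Function.update_of_ne hkp]
          have h5 : (Function.update (Function.update v' l (a - σ)) p.1 p.2) l = a - σ := by
            rw [Function.update_of_ne (hpl p hp).symm, Function.update_self]
          have h6 : HH S (insert l J') s (fun m => d m + 1 - σ * a) m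
              = HH S (insert l J') s (fun m => d m - cf S s l m *
                (Function.update (Function.update v' l (a - σ)) p.1 p.2) l) m := by
            refine HH_congr S s ?_
            beta_reduce
            rw [h3, h5]
            have h7 := sq_one σ hσ
            rw [mul_sub, h7]
            ring
          calc hol S (insert l J') (Function.update (Function.update v' l (a - σ)) p.1 p.2) s
                (fun m => d m + 1 - σ * a) m
              = hol S (insert l J') (Function.update (Function.update v' l (a - σ)) p.1 p.2) s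
                (fun m => d m - cf S s l m *
                  (Function.update (Function.update v' l (a - σ)) p.1 p.2) l) m := by
                unfold hol
                rw [h6]
            _ ≤ hol S J' (Function.update (Function.update v' l (a - σ)) p.1 p.2) s d m := h2
            _ = hol S J' (Function.update v' p.1 p.2) s d m := by
                unfold hol
                rw [h4]
        filter_upwards [hle, exc_children S hl v', hcost _ _ s _ hs hA, hcost _ _ s _ hs hB,
          (Filter.eventually_all_finset L).2 hold] with m h1 h2 h3 h4 h5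
        rw [sum_three a σ hσ] at h2
        have h6 : (l, a) ∉ insert (l, a + σ) L := by
          rw [mem_insert, not_or]
          exact ⟨fun h => hne.1 (Prod.ext_iff.1 h).2, hlL _⟩
        rw [Finset.sum_insert h6, Finset.sum_insert (hlL _)]
        simp only [Function.update_idem]
        have h7 := Finset.sum_le_sum h5
        have h8 := mul_le_mul_of_nonneg_left h7 hc'.le
        rw [mul_add, mul_add]
        linarith

/-- (F).  `c'` from `clean_cost`, `r` with `c' (2 r - 1) ≥ 1`; `F_chain`; then `exc_le_inter` (`exc ≤ 1 + dens (W ∩ H) 3^N`)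
for the core and `holes_ge`. -/
theorem good_exc_le {J : Finset ℕ} {v : ℕ → ZMod 3} (h : Good S J v) :
    ∀ᶠ m in (UU : Filter ℕ), exc (TT S J m) (WW S J v m) ≤ 1 := by
  obtain ⟨s, hs, c, hg⟩ := h
  obtain ⟨c', hc', hcost⟩ := clean_cost
  obtain ⟨r, hr⟩ := exists_nat_ge ((1 / c' + 1) / 2)
  have hr' : 1 ≤ c' * (2 * (r : ℝ) - 1) := by
    have h1 : 1 / c' ≤ 2 * (r : ℝ) - 1 := by linarith
    have h2 := mul_le_mul_of_nonneg_left h1 hc'.le
    rwa [mul_one_div_cancel hc'.ne'] at h2
  rcases F_chain S hc' (fun J v s c h1 h2 => hcost S J v s c h1 h2) hs hg r with h | ⟨J', v', d, L, hcard, hL, _, hle⟩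
  · filter_upwards [h] with m hm
    linarith
  · filter_upwards [hle, holes_ge S s d L hL] with m h1 h2
    have h3 := exc_le_inter (WW_inv S J' v' m) (WW_valid S J' v' m) (hs m) (d m)
    have h4 : WW S J' v' m ∩ hyp (TT S J' m) (s m) (d m) = WW S J' v' m ∩ HH S J' s d m := rfl
    rw [h4] at h3
    set X := dens (WW S J' v' m ∩ HH S J' s d m) * 3 ^ (TT S J' m).card with hX
    have hX0 : 0 ≤ X := by
      have := dens_nonneg (WW S J' v' m ∩ HH S J' s d m)
      positivity
    have h5 := mul_le_mul_of_nonneg_left h2 hc'.le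
    rw [hcard] at h5
    push_cast at h5
    nlinarith

end HT13
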