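import Pool.Agent.HT13.Hyp
import Pool.Agent.HT13.Lines

/-! # HT13-HypDefect: a valid set compared with a hyperplane -/

set_option linter.unusedSectionVars false

namespace HT13

open Finset

variable {ι : Type} [Fintype ι] [DecidableEq ι]

theorem dens_sdiff_sub {T : Finset ι} (hT : T.Nonempty) {s : ι → ZMod 3} (hs : Sgn s) (c : ZMod 3)
    (W : Finset (ι → ZMod 3)) :
    dens (hyp T s c \ W) - dens (W \ hyp T s c) = 1 / 3 - dens W := by
  have h1 := dens_sdiff_add_inter (hyp T s c) W
  have h2 := dens_sdiff_add_inter W (hyp T s c)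
  have h3 := dens_hyp hT hs c
  rw [inter_comm] at h2
  linarith

/-- a double line has a point outside the hyperplane -/
private theorem dd_le_sdiff {W : Finset (ι → ZMod 3)} {T : Finset ι} {s : ι → ZMod 3} (hs : Sgn s)
    (c : ZMod 3) {k : ι} (hk : k ∈ T) :
    1 / 3 * dd W k ≤ dens (univ.filter fun x => (x ∈ W ∧ x ∉ hyp T s c) ∧ lc W k x = 2) := by
  unfold dd
  rw [dens_filter_eq_avR, dens_filter_eq_avR, ← avR_const_mul,
    ← avR_line (fun x => if (x ∈ W ∧ x ∉ hyp T s c) ∧ lc W k x = 2 then (1 : ℝ) else 0) k]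
  refine avR_mono fun x => ?_
  simp only [lc_update]
  by_cases h2 : lc W k x = 2
  · rw [if_pos h2]
    have h3 : (1 : ℝ) ≤ ∑ u : ZMod 3, (if (Function.update x k u ∈ W ∧
        Function.update x k u ∉ hyp T s c) ∧ lc W k x = 2 then (1 : ℝ) else 0) := by
      obtain ⟨v, _, hv⟩ := hyp_line hs c hk x
      have h4 : 1 < (univ.filter fun a : ZMod 3 => Function.update x k a ∈ W).card := by
        unfold lc at h2
        rw [h2]
        norm_num
      obtain ⟨a, ha, hne⟩ := Finset.exists_mem_ne h4 v
      have haW := (mem_filter.1 ha).2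
      have haH : Function.update x k a ∉ hyp T s c := fun h => hne (hv a h)
      calc (1 : ℝ) = (if (Function.update x k a ∈ W ∧
            Function.update x k a ∉ hyp T s c) ∧ lc W k x = 2 then (1 : ℝ) else 0) := by
              rw [if_pos ⟨⟨haW, haH⟩, h2⟩]
        _ ≤ _ := Finset.single_le_sum (f := fun u : ZMod 3 => if (Function.update x k u ∈ W ∧
            Function.update x k u ∉ hyp T s c) ∧ lc W k x = 2 then (1 : ℝ) else 0)
            (fun u _ => by split_ifs <;> norm_num) (mem_univ a)
    linarith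
  · rw [if_neg h2, mul_zero]
    have : 0 ≤ ∑ u : ZMod 3, (if (Function.update x k u ∈ W ∧
        Function.update x k u ∉ hyp T s c) ∧ lc W k x = 2 then (1 : ℝ) else 0) :=
      Finset.sum_nonneg fun u _ => by split_ifs <;> norm_num
    linarith

/-- Each double line of `W` in a direction `k ∈ T` has a point outside the hyperplane (which meets the line once),
and by validity each point of `W \ H` is on at most one double line: `sum_matched_le` with
`B k = {x ∈ W \ H | lc W k x = 2}`, whose density is at least `dd W k / 3`. -/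
theorem sum_dd_le_sdiff {T : Finset ι} {W : Finset (ι → ZMod 3)} (h : Valid T W) {s : ι → ZMod 3} (hs : Sgn s)
    (c : ZMod 3) : ∑ k ∈ T, dd W k ≤ 3 * dens (W \ hyp T s c) := by
  have h1 := sum_matched_le h (W \ hyp T s c)
    (fun k => univ.filter fun x => (x ∈ W ∧ x ∉ hyp T s c) ∧ lc W k x = 2)
    (fun k _ x hx => mem_sdiff.2 (mem_filter.1 hx).2.1)
    (fun k _ x hx => ⟨(mem_filter.1 hx).2.1.1, (mem_filter.1 hx).2.2⟩)
  have h2 : ∑ k ∈ T, 1 / 3 * dd W k ≤ _ := Finset.sum_le_sum fun k hk => dd_le_sdiff hs c hk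
  rw [← Finset.mul_sum] at h2
  linarith

end HT13
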