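import Pool.Agent.HT13.AKey
import Pool.Agent.HT13.AFour
import Pool.Agent.HT13.ARand

/-! # HT13-LemA: Lemma A, no diffuse defects (paper: section 3) -/

set_option linter.unusedSectionVars false

namespace HT13

open Finset

variable {ι : Type} [Fintype ι] [DecidableEq ι]

/-- For every `T'`, with `T = F ∩ T'`: `∑_{k ∈ S} dens (Mt W k) ≤ ∑_{k ∈ S ∩ T} + ∑_{k ∈ S \ T} ≤ RR T W + A_key`
(`dens (Mt W k) = (2/3) dd ≤ rho`), and by `avR_mres_sq`, `DD_supp` the last sum is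
`≤ 18 ∑_{k ∈ S} ∑_a ‖fh (DD W k) a‖² [Disjoint (spt a) T']`.  Average over `T'`: `avT_RR`, `avT_sqrt_le`, `avT_disj`. -/
theorem A_sum {F : Finset ι} {W : Finset (ι → ZMod 3)} (hI : Inv F W) (hV : Valid F W) {CP : ℝ} (hCP : 0 < CP)
    (hP : ∀ (T : Finset ι) (V : Finset (ι → ZMod 3)), Inv T V → (∀ k ∈ T, ∀ x, lc V k x ≤ 2) →
      ∃ s : ι → ZMod 3, Sgn s ∧ ∃ c, dens (symmDiff V (hyp T s c)) ≤ CP * √(RR T V))
    (p : ℕ) {S : Finset ι} (hS : S ⊆ F) :
    ∑ k ∈ S, dens (Mt W k) ≤ RR F W / (p + 1) + 74 * (CP * √(RR F W / (p + 1)))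
      + 18 * ∑ k ∈ S, ∑ a, ‖fh (DD W k) a‖ ^ 2 * ((p : ℝ) / (p + 1)) ^ (spt a).card := by
  have hrho : ∀ k, 0 ≤ rho W k := fun k => dens_nonneg _
  have hMt : ∀ k, dens (Mt W k) ≤ rho W k := by
    intro k
    rw [dens_Mt]
    have h1 : dd W k ≤ rho W k := by
      unfold dd rho
      refine dens_mono fun x hx => ?_
      rw [mem_filter] at hx ⊢
      refine ⟨hx.1, ?_⟩
      rw [hx.2]
      decide
    have h2 : 0 ≤ dd W k := dens_nonneg _
    linarith
  have key : ∀ T' : Finset ι, ∑ k ∈ S, dens (Mt W k) ≤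
      (RR (F ∩ T') W + 74 * (CP * √(RR (F ∩ T') W))) +
        18 * ∑ k ∈ S, ∑ a, ‖fh (DD W k) a‖ ^ 2 * (if Disjoint (spt a) T' then (1 : ℝ) else 0) := by
    intro T'
    have hTF : F ∩ T' ⊆ F := inter_subset_left
    have h1 := A_key hI hV hCP hTF (fun V => hP (F ∩ T') V) (S := S \ (F ∩ T'))
      (sdiff_subset.trans hS) sdiff_disjoint
    have h2 : ∑ k ∈ S, dens (Mt W k) = ∑ k ∈ S \ (F ∩ T'), dens (Mt W k) +
        ∑ k ∈ S ∩ (F ∩ T'), dens (Mt W k) := by
      rw [← sum_union]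
      · rw [sdiff_union_inter]
      · exact disjoint_sdiff_inter _ _
    have h3 : ∑ k ∈ S ∩ (F ∩ T'), dens (Mt W k) ≤ RR (F ∩ T') W := by
      unfold RR
      refine (sum_le_sum fun k _ => hMt k).trans ?_
      exact sum_le_sum_of_subset_of_nonneg inter_subset_right fun k _ _ => hrho k
    have h4 : ∑ k ∈ S \ (F ∩ T'), avR (fun x => mres (F ∩ T') W k x ^ 2) ≤
        ∑ k ∈ S, ∑ a, ‖fh (DD W k) a‖ ^ 2 * (if Disjoint (spt a) T' then (1 : ℝ) else 0) := by
      have h5 : ∀ k, avR (fun x => mres (F ∩ T') W k x ^ 2) =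
          ∑ a, ‖fh (DD W k) a‖ ^ 2 * (if Disjoint (spt a) T' then (1 : ℝ) else 0) := by
        intro k
        rw [avR_mres_sq]
        refine sum_congr rfl fun a _ => ?_
        by_cases h0 : fh (DD W k) a = 0
        · rw [h0]
          simp
        · have h6 := DD_supp hI k a h0
          have h7 : Disjoint (spt a) (F ∩ T') ↔ Disjoint (spt a) T' := by
            rw [Finset.disjoint_left, Finset.disjoint_left]
            constructor
            · intro h8 x hx hx'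
              exact h8 hx (mem_inter.2 ⟨h6 hx, hx'⟩)
            · intro h8 x hx hx'
              exact h8 hx (mem_inter.1 hx').2
          by_cases h8 : Disjoint (spt a) T'
          · rw [if_pos h8, if_pos (h7.2 h8)]
          · rw [if_neg h8, if_neg fun h9 => h8 (h7.1 h9)]
      rw [sum_congr rfl fun k _ => h5 k]
      refine sum_le_sum_of_subset_of_nonneg sdiff_subset fun k _ _ => ?_
      refine sum_nonneg fun a _ => ?_
      split_ifs <;> positivity
    rw [h2]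
    linarith
  have h := avT_mono p (G := fun _ => ∑ k ∈ S, dens (Mt W k)) key
  rw [avT_const, avT_add p (fun T' => RR (F ∩ T') W + 74 * (CP * √(RR (F ∩ T') W)))
      (fun T' => 18 * ∑ k ∈ S, ∑ a,
        ‖fh (DD W k) a‖ ^ 2 * (if Disjoint (spt a) T' then (1 : ℝ) else 0)),
    avT_add p (fun T' => RR (F ∩ T') W) (fun T' => 74 * (CP * √(RR (F ∩ T') W))), avT_RR,
    avT_const_mul p 74 (fun T' => CP * √(RR (F ∩ T') W)),
    avT_const_mul p CP (fun T' => √(RR (F ∩ T') W)),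
    avT_const_mul p 18 (fun T' => ∑ k ∈ S, ∑ a,
        ‖fh (DD W k) a‖ ^ 2 * (if Disjoint (spt a) T' then (1 : ℝ) else 0)),
    avT_sum p S (fun k T' => ∑ a,
        ‖fh (DD W k) a‖ ^ 2 * (if Disjoint (spt a) T' then (1 : ℝ) else 0))] at h
  have h9 : ∀ k ∈ S, avT p (fun T' => ∑ a,
        ‖fh (DD W k) a‖ ^ 2 * (if Disjoint (spt a) T' then (1 : ℝ) else 0)) =
      ∑ a, ‖fh (DD W k) a‖ ^ 2 * ((p : ℝ) / (p + 1)) ^ (spt a).card := by
    intro k _
    rw [avT_sum p univ (fun a T' =>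
        ‖fh (DD W k) a‖ ^ 2 * (if Disjoint (spt a) T' then (1 : ℝ) else 0))]
    refine sum_congr rfl fun a _ => ?_
    rw [avT_const_mul p (‖fh (DD W k) a‖ ^ 2)
      (fun T' => if Disjoint (spt a) T' then (1 : ℝ) else 0), avT_disj]
  rw [sum_congr rfl h9] at h
  have h10 : avT p (fun T' => √(RR (F ∩ T') W)) ≤ √(RR F W / (p + 1)) := by
    have h11 := avT_sqrt_le p (fun T' => RR (F ∩ T') W) fun T' =>
      sum_nonneg fun k _ => hrho k
    rw [avT_RR] at h11
    exact h11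
  have h12 := mul_le_mul_of_nonneg_left h10 hCP.le
  linarith

end HT13
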