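import Pool.Agent.HT13.LowMass

/-! # HT13-Split: the bound for `|E q²|` in Lemma T (paper: section 1) -/

set_option linter.unusedSectionVars false

namespace HT13

open Finset

variable {ι : Type} [Fintype ι] [DecidableEq ι]

private theorem split_sum_neg {M : Type} [AddCommMonoid M] (g : (ι → ZMod 3) → M) :
    ∑ t : ι → ZMod 3, g (-t) = ∑ t, g t :=
  Equiv.sum_comp (Equiv.neg (ι → ZMod 3)) g

private theorem split_spt_neg (t : ι → ZMod 3) : spt (-t) = spt t := by
  unfold spt
  ext k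
  simp

private theorem split_zmod {a b : ZMod 3} (ha : a ≠ 0) (hb : b ≠ 0) : a = -b ∨ -a = -b := by
  revert a b
  decide

/-- the large frequencies -/
private theorem split_card {T : Finset ι} {s : ι → ZMod 3} (hs : Sgn s) {t : ι → ZMod 3} (ht : spt t ⊆ T) {L : ℕ}
    (hL : L < (spt t).card) :
    L ≤ 2 * (T.filter fun k => t k = - s k).card ∨ L ≤ 2 * (T.filter fun k => (-t) k = - s k).card := by
  have h1 : spt t ⊆ (T.filter fun k => t k = - s k) ∪ (T.filter fun k => (-t) k = - s k) := by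
    intro k hk
    have hk2 : t k ≠ 0 := by
      unfold spt at hk
      simpa using hk
    rw [mem_union, mem_filter, mem_filter, Pi.neg_apply]
    rcases split_zmod hk2 (hs k) with h | h
    · exact Or.inl ⟨ht hk, h⟩
    · exact Or.inr ⟨ht hk, h⟩
  have h2 := (card_le_card h1).trans (card_union_le _ _)
  omega

/-- `avC (q²) = ∑_t fh q t * fh q (-t)` (`avC_mul`).
The `t` with `(spt t).card ≤ L` contribute at most `∑_{low} ‖fh q t‖²` (`|ab| ≤ (|a|² + |b|²)/2` and `spt (-t) = spt t`),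
which is `≤ 5^L (dens S)^(3/2)` by `low_mass`.
If `(spt t).card > L` and `fh q t ≠ 0` then `spt t ⊆ T`, each `k ∈ spt t` has `t k = - s k` or `(-t) k = - s k`, so `t` or
`-t` lies in `B = {t : L ≤ 2 * #{k ∈ T : t k = - s k}}`; by Cauchy-Schwarz
`∑_{t ∈ B} ‖fh q t‖ ‖fh q (-t)‖ ≤ √(∑_B ‖fh q t‖²) √(∑ ‖fh q t‖²) ≤ √(2 En / L) * √(dens S)` (Parseval and `‖q‖ ≤ 1`). -/
theorem split_bound {T : Finset ι} {s : ι → ZMod 3} (hs : Sgn s) {q : (ι → ZMod 3) → ℂ} (hq : ∀ x, ‖q x‖ ≤ 1)
    {S : Finset (ι → ZMod 3)} (hS : ∀ x, x ∉ S → q x = 0) (hT : ∀ a, fh q a ≠ 0 → spt a ⊆ T)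
    {En : ℝ} (hEn : ∑ a, ‖fh q a‖ ^ 2 * ((T.filter fun k => a k = - s k).card : ℝ) ≤ En) (L : ℕ) (hL : 1 ≤ L) :
    ‖avC (fun x => q x ^ 2)‖ ≤ 5 ^ L * (dens S * √(dens S)) + 2 * √(2 * En / L) * √(dens S) := by
  classical
  set n : (ι → ZMod 3) → ℕ := fun t => (T.filter fun k => t k = - s k).card with hn
  set A : (ι → ZMod 3) → ℝ := fun t => ‖fh q t‖ with hA
  have hA0 : ∀ t, 0 ≤ A t := fun t => norm_nonneg _
  have hL0 : (0 : ℝ) < L := by exact_mod_cast hL
  -- the total mass
  have hpar : ∑ t, A t ^ 2 ≤ dens S := by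
    rw [hA]
    dsimp only
    rw [parseval, dens_eq_avR]
    refine avR_mono fun x => ?_
    by_cases hx : x ∈ S
    · rw [if_pos hx]
      have := hq x
      have h0 := norm_nonneg (q x)
      nlinarith
    · rw [if_neg hx, hS x hx]
      simp
  -- the mass of `B`
  have hB : ∑ t, (if L ≤ 2 * n t then A t ^ 2 else 0) ≤ 2 * En / L := by
    rw [le_div_iff₀ hL0, sum_mul]
    have h1 : ∑ t, (if L ≤ 2 * n t then A t ^ 2 else 0) * (L : ℝ) ≤ ∑ t, 2 * (A t ^ 2 * (n t : ℝ)) := by
      refine sum_le_sum fun t _ => ?_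
      have h0 : 0 ≤ A t ^ 2 := sq_nonneg _
      split_ifs with h
      · have h2 : (L : ℝ) ≤ 2 * (n t : ℝ) := by exact_mod_cast h
        nlinarith
      · rw [zero_mul]
        positivity
    refine h1.trans ?_
    rw [← mul_sum]
    linarith
  -- the low part
  have hlow : ∑ t, (if (spt t).card ≤ L then A t ^ 2 else 0) ≤ 5 ^ L * (dens S * √(dens S)) := by
    have h := low_mass (f := q) (M := 1) hq hS L
    rw [sum_filter] at h
    simpa using h
  -- Cauchy-Schwarz on `B`
  have hCS : ∑ t, (if L ≤ 2 * n t then A t * A (-t) else 0) ≤ √(2 * En / L) * √(dens S) := by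
    have h1 : ∑ t, (if L ≤ 2 * n t then A t * A (-t) else 0) =
        ∑ t, (if L ≤ 2 * n t then A t else 0) * A (-t) := by
      refine sum_congr rfl fun t _ => ?_
      split_ifs
      · rfl
      · rw [zero_mul]
    rw [h1]
    have h2 := Real.sum_mul_le_sqrt_mul_sqrt univ (fun t => if L ≤ 2 * n t then A t else 0) (fun t => A (-t))
    refine h2.trans ?_
    have h3 : ∑ t, (if L ≤ 2 * n t then A t else 0) ^ 2 = ∑ t, (if L ≤ 2 * n t then A t ^ 2 else 0) := by
      refine sum_congr rfl fun t _ => ?_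
      split_ifs
      · rfl
      · simp
    have h4 : ∑ t, A (-t) ^ 2 = ∑ t, A t ^ 2 := split_sum_neg fun t => A t ^ 2
    rw [h3, h4]
    gcongr
  have hmain : ‖avC (fun x => q x ^ 2)‖ ≤ ∑ t, A t * A (-t) := by
    have h1 : (fun x => q x ^ 2) = fun x => q x * q x := by
      funext x
      ring
    rw [h1, avC_mul]
    refine (norm_sum_le _ _).trans (le_of_eq ?_)
    refine sum_congr rfl fun t _ => ?_
    rw [norm_mul]
  refine hmain.trans ?_
  have hpt : ∀ t, A t * A (-t) ≤
      (((if (spt t).card ≤ L then A t ^ 2 else 0) / 2 + (if (spt (-t)).card ≤ L then A (-t) ^ 2 else 0) / 2) +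
      (if L ≤ 2 * n t then A t * A (-t) else 0)) + (if L ≤ 2 * n (-t) then A (-t) * A (- -t) else 0) := by
    intro t
    have h0 : 0 ≤ A t * A (-t) := mul_nonneg (hA0 _) (hA0 _)
    rw [split_spt_neg, neg_neg]
    have h3 : 0 ≤ (if L ≤ 2 * n t then A t * A (-t) else 0) := by
      split_ifs
      · exact h0
      · exact le_rfl
    have h4 : 0 ≤ (if L ≤ 2 * n (-t) then A (-t) * A t else 0) := by
      split_ifs
      · rw [mul_comm]; exact h0
      · exact le_rfl
    by_cases hc : (spt t).card ≤ L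
    · rw [if_pos hc, if_pos hc]
      nlinarith [sq_nonneg (A t - A (-t))]
    · rw [if_neg hc, if_neg hc]
      by_cases hz : fh q t = 0
      · have h5 : A t = 0 := by
          rw [hA]
          dsimp only
          rw [hz, norm_zero]
        rw [h5] at h3 h4 ⊢
        linarith
      · rcases split_card hs (hT t hz) (not_le.1 hc) with h | h
        · have h5 : L ≤ 2 * n t := h
          rw [if_pos h5] at h3 ⊢
          linarith
        · have h5 : L ≤ 2 * n (-t) := h
          rw [if_pos h5] at h4 ⊢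
          linarith [mul_comm (A t) (A (-t))]
  refine (sum_le_sum fun t _ => hpt t).trans ?_
  rw [sum_add_distrib, sum_add_distrib, sum_add_distrib]
  have e1 : ∑ t, (if (spt (-t)).card ≤ L then A (-t) ^ 2 else 0) / 2 =
      ∑ t, (if (spt t).card ≤ L then A t ^ 2 else 0) / 2 :=
    split_sum_neg fun t => (if (spt t).card ≤ L then A t ^ 2 else 0) / 2
  have e2 : ∑ t, (if L ≤ 2 * n (-t) then A (-t) * A (- -t) else 0) =
      ∑ t, (if L ≤ 2 * n t then A t * A (-t) else 0) :=
    split_sum_neg fun t => (if L ≤ 2 * n t then A t * A (-t) else 0)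
  rw [e1, e2, ← sum_div]
  linarith

end HT13
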