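import Mathlib

/-! # HT13-TReal: the real-number part of Lemma T (paper: section 1)

Here `m = D + X`.  Case `D > X`: `N (D - X) ≤ D` and `4 ≤ N` give `D - X ≤ D/4`, so `X - D/2 ≥ D/4 ≥ m/8` (`m ≤ 2 D`), and
`En := (6 D + 3 N (X - D)) / 9 ≤ 2 D / 3 ≤ 2 m / 3`; so `1/8 ≤ 5^L √m + 2 √(4/(3 L))` for every `L ≥ 1`; `L = 2048` gives
`5^2048 √m ≥ 1/16`, impossible if `eps0` is small.
Case `D ≤ X`: if `X = 0` everything is `0` (`Real.log (1/0) = 0`).  Otherwise `X - D/2 ≥ X/2 ≥ m/4` and with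
`θ = En / m ≥ 0` (`√` of a negative number is `0`, so `θ < 0` is easy too)
`1/8 ≤ 5^L √m + 2 √(2 θ / L)`.  Take `L = ⌈2048 θ⌉ + 1`: `2 √(2 θ / L) ≤ 1/16`, so `1/16 ≤ 5^L √m`, i.e.
`L log 5 ≥ (1/2) log (1/m) - log 16`, so `θ ≥ c₁ log (1/m) - c₂`; for `m ≤ eps0` this gives `θ ≥ (c₁/2) log (1/m) ≥ 2`.
Then `N (X - D) = 3 En - 2 D ≥ 3 m θ - 2 m ≥ 2 m θ ≥ c₁ m log (1/m) ≥ c₁ X log (1/X) / 2`
(as `X ≤ m ≤ 2 X` and `log (1/m) ≥ log (1/(2X)) ≥ (1/2) log (1/X)`). -/

namespace HT13

theorem T_real : ∃ eps0 : ℝ, 0 < eps0 ∧ eps0 < 1 / 81 ∧ ∃ c0 : ℝ, 0 < c0 ∧ ∀ N D X : ℝ, 4 ≤ N → 0 ≤ D → 0 ≤ X →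
    D + X ≤ eps0 → N * (D - X) ≤ D →
    (∀ L : ℕ, 1 ≤ L → X - D / 2 ≤ 5 ^ L * ((D + X) * √(D + X))
      + 2 * √(2 * ((6 * D + 3 * N * (X - D)) / 9) / L) * √(D + X)) →
    D ≤ X ∧ c0 * (X * Real.log (1 / X)) ≤ N * (X - D) := by
  obtain ⟨K, hK1, hK⟩ : ∃ K : ℝ, 1 ≤ K ∧ ∀ x : ℝ, (5 : ℝ) ^ 2048 * x = K * x :=
    ⟨_, one_le_pow₀ (by norm_num), fun _ => rfl⟩
  obtain ⟨E, hEdef⟩ : ∃ E : ℝ, E = Real.exp (-32768) := ⟨_, rfl⟩
  have hE : 0 < E := by rw [hEdef]; exact Real.exp_pos _
  have hElog : Real.log E = -32768 := by rw [hEdef, Real.log_exp]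
  have hE81 : E < 1 / 81 := by
    have h1 : (32768 : ℝ) + 1 ≤ Real.exp 32768 := Real.add_one_le_exp _
    have h2 : E * Real.exp 32768 = 1 := by
      rw [hEdef, ← Real.exp_add]; simp
    by_contra hcon
    push Not at hcon
    have h3 : 1 / 81 * 32769 ≤ E * Real.exp 32768 := mul_le_mul hcon (by linarith) (by norm_num) hE.le
    linarith
  have hKpos : 0 < K := by linarith
  have hq1 : (1 / (17 * K)) ^ 2 ≤ 1 := by
    have : 1 / (17 * K) ≤ 1 := by
      rw [div_le_one (by positivity)]; linarith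
    exact pow_le_one₀ (by positivity) this
  refine ⟨E * (1 / (17 * K)) ^ 2, by positivity, ?_, 1 / 16384, by norm_num, ?_⟩
  · exact lt_of_le_of_lt (mul_le_of_le_one_right hE.le hq1) hE81
  intro N D X hN hD hX hm hND hL
  obtain ⟨m, hmdef⟩ : ∃ m : ℝ, m = D + X := ⟨_, rfl⟩
  rw [← hmdef] at hm hL
  have hm0 : 0 ≤ m := by rw [hmdef]; linarith
  obtain ⟨r, hrdef⟩ : ∃ r : ℝ, r = √m := ⟨_, rfl⟩
  rw [← hrdef] at hL
  have hr0 : 0 ≤ r := by rw [hrdef]; exact Real.sqrt_nonneg _
  have hrr : r * r = m := by rw [hrdef]; exact Real.mul_self_sqrt hm0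
  have hmE : m ≤ E := by
    exact hm.trans (mul_le_of_le_one_right hE.le hq1)
  have hmq : m ≤ (1 / (17 * K)) ^ 2 := by
    have : 0 ≤ (1 / (17 * K)) ^ 2 := by positivity
    exact hm.trans (mul_le_of_le_one_left this (by linarith))
  rcases lt_or_ge X D with hXD | hXD
  · exfalso
    have hmpos : 0 < m := by rw [hmdef]; linarith
    have h := hL 2048 (by norm_num)
    rw [hK] at h
    have h4 : 4 * (D - X) ≤ D := by
      have : 4 * (D - X) ≤ N * (D - X) := mul_le_mul_of_nonneg_right hN (by linarith)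
      linarith
    have hs : √(2 * ((6 * D + 3 * N * (X - D)) / 9) / ((2048 : ℕ) : ℝ)) ≤ r / 39 := by
      apply Real.sqrt_le_iff.mpr
      refine ⟨by positivity, ?_⟩
      have e1 : (r / 39) ^ 2 = m / 1521 := by rw [div_pow, sq, hrr]; norm_num
      rw [e1]
      have e2 : N * (X - D) ≤ 0 := mul_nonpos_of_nonneg_of_nonpos (by linarith) (by linarith)
      push_cast
      have e3 : 2 * ((6 * D + 3 * N * (X - D)) / 9) / 2048 ≤ D / 1536 := by
        have : 2 * ((6 * D + 3 * N * (X - D)) / 9) / 2048 = D / 1536 + N * (X - D) / 3072 := by ring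
        rw [this]; linarith
      refine e3.trans ?_
      rw [hmdef]
      linarith
    have h2 : m / 8 ≤ X - D / 2 := by rw [hmdef]; linarith
    have hrK : K * r ≤ 1 / 17 := by
      have e1 : r ≤ 1 / (17 * K) := by
        rw [hrdef]
        refine (Real.sqrt_le_sqrt hmq).trans ?_
        rw [Real.sqrt_sq (by positivity)]
      calc K * r ≤ K * (1 / (17 * K)) := by gcongr
        _ = 1 / 17 := by field_simp
    have h5 : 2 * √(2 * ((6 * D + 3 * N * (X - D)) / 9) / ((2048 : ℕ) : ℝ)) * r ≤ 2 * (r / 39) * r := by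
      gcongr
    have h6 : K * (m * r) ≤ m / 17 := by
      have : K * (m * r) = m * (K * r) := by ring
      rw [this]
      have h8 := mul_le_mul_of_nonneg_left hrK hm0
      linarith
    have h7 : 2 * (r / 39) * r = 2 * m / 39 := by rw [← hrr]; ring
    rw [h7] at h5
    linarith
  · refine ⟨hXD, ?_⟩
    rcases eq_or_lt_of_le hX with hX0 | hXpos
    · have hD0 : D = 0 := by rw [← hX0] at hXD; linarith
      rw [← hX0, hD0]; simp
    have hmpos : 0 < m := by rw [hmdef]; linarith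
    have hrpos : 0 < r := by rw [hrdef]; exact Real.sqrt_pos.mpr hmpos
    obtain ⟨En, hEn⟩ : ∃ En : ℝ, En = (6 * D + 3 * N * (X - D)) / 9 := ⟨_, rfl⟩
    rw [← hEn] at hL
    have hNXD : 0 ≤ N * (X - D) := mul_nonneg (by linarith) (by linarith)
    have hEn0 : 0 ≤ En := by
      rw [hEn]
      have : 6 * D + 3 * N * (X - D) = 6 * D + 3 * (N * (X - D)) := by ring
      rw [this]; positivity
    obtain ⟨θ, hθdef⟩ : ∃ θ : ℝ, θ = En / m := ⟨_, rfl⟩
    have hθ0 : 0 ≤ θ := by rw [hθdef]; positivity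
    have hEnθ : En = θ * m := by rw [hθdef]; field_simp
    obtain ⟨L, hLdef⟩ : ∃ L : ℕ, L = ⌈2048 * θ⌉₊ + 1 := ⟨_, rfl⟩
    have hL1 : 1 ≤ L := by omega
    have hLge : 2048 * θ ≤ L := by
      rw [hLdef]; push_cast
      have := Nat.le_ceil (2048 * θ)
      linarith
    have hLle : (L : ℝ) ≤ 2048 * θ + 2 := by
      rw [hLdef]; push_cast
      have := Nat.ceil_lt_add_one (show 0 ≤ 2048 * θ by positivity)
      linarith
    have hLpos : (0 : ℝ) < L := by exact_mod_cast hL1
    have h := hL L hL1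
    have hs : √(2 * En / L) ≤ r / 32 := by
      apply Real.sqrt_le_iff.mpr
      refine ⟨by positivity, ?_⟩
      have e1 : (r / 32) ^ 2 = m / 1024 := by rw [div_pow, sq, hrr]; norm_num
      rw [e1, hEnθ, div_le_iff₀ hLpos]
      have h8 := mul_le_mul_of_nonneg_left hLge hm0
      linarith
    have h5 : 2 * √(2 * En / L) * r ≤ 2 * (r / 32) * r := by gcongr
    have h7 : 2 * (r / 32) * r = m / 16 := by rw [← hrr]; ring
    rw [h7] at h5
    have h2 : m / 4 ≤ X - D / 2 := by rw [hmdef]; linarith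
    have h8 : 3 / 16 * m ≤ 5 ^ L * r * m := by
      have : (5 : ℝ) ^ L * (m * r) = 5 ^ L * r * m := by ring
      rw [this] at h
      linarith
    have h9 : 3 / 16 ≤ 5 ^ L * r := le_of_mul_le_mul_right h8 hmpos
    have h10 : Real.log (3 / 16) ≤ L * Real.log 5 + Real.log m / 2 := by
      have e1 := Real.log_le_log (by norm_num) h9
      rw [Real.log_mul (by positivity) hrpos.ne', Real.log_pow, hrdef, Real.log_sqrt hm0] at e1
      exact e1
    have hlog5 : Real.log 5 ≤ 2 := by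
      have : Real.log 5 = 2 * Real.log (√5) := by
        rw [Real.log_sqrt (by norm_num)]; ring
      rw [this]
      have h1 := Real.log_le_sub_one_of_pos (show 0 < √5 by positivity)
      have h2 : √5 ≤ 5 / 2 := by
        rw [Real.sqrt_le_iff]; norm_num
      have h3 : Real.log (5 / 4) ≤ 1 / 4 := by
        have := Real.log_le_sub_one_of_pos (show (0 : ℝ) < 5 / 4 by norm_num)
        linarith
      have h4 : Real.log (√5) ≤ Real.log 2 + Real.log (5 / 4) := by
        rw [← Real.log_mul (by norm_num) (by norm_num)]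
        apply Real.log_le_log (by positivity)
        linarith
      have h5 := Real.log_two_lt_d9
      linarith
    have hlog316 : -2 ≤ Real.log (3 / 16) := by
      have e1 : Real.log (3 / 16) = - Real.log (16 / 3) := by
        rw [← Real.log_inv]; norm_num
      have e2 : Real.log (16 / 3) ≤ 2 := by
        have e3 : Real.log (16 / 3) = Real.log 2 + Real.log 2 + Real.log (4 / 3) := by
          rw [← Real.log_mul (by norm_num) (by norm_num), ← Real.log_mul (by norm_num) (by norm_num)]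
          norm_num
        have e4 := Real.log_le_sub_one_of_pos (show (0 : ℝ) < 4 / 3 by norm_num)
        have e5 := Real.log_two_lt_d9
        linarith
      linarith
    have hlogm : Real.log m ≤ -32768 := by
      rw [← hElog]; exact Real.log_le_log hmpos hmE
    have hLlog : (L : ℝ) * Real.log 5 ≤ (2048 * θ + 2) * 2 := by
      have : 0 ≤ Real.log 5 := Real.log_nonneg (by norm_num)
      calc (L : ℝ) * Real.log 5 ≤ L * 2 := by gcongr
        _ ≤ (2048 * θ + 2) * 2 := by gcongr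
    have hθ1 : - Real.log m / 16384 ≤ θ := by linarith
    have hθ2 : 2 ≤ θ := by linarith
    have hXm : X ≤ m := by rw [hmdef]; linarith
    have hm2X : m ≤ 2 * X := by rw [hmdef]; linarith
    have hlogX : Real.log m ≤ Real.log 2 + Real.log X := by
      rw [← Real.log_mul (by norm_num) hXpos.ne']
      exact Real.log_le_log hmpos hm2X
    have hlogX2 : Real.log X ≤ Real.log m := Real.log_le_log hXpos hXm
    have hlog2 := Real.log_two_lt_d9
    have h11 : - Real.log X / 2 ≤ - Real.log m := by linarith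
    have h12 : N * (X - D) = 3 * (θ * m) - 2 * D := by
      rw [← hEnθ, hEn]; ring
    have h13 : 2 * (θ * m) ≤ N * (X - D) := by
      rw [h12]
      have : D ≤ m := by rw [hmdef]; linarith
      have h8 := mul_le_mul_of_nonneg_right hθ2 hm0
      linarith
    rw [one_div X, Real.log_inv]
    have h14 : X * (- Real.log X / 2 / 16384) ≤ θ * m := by
      have e1 : - Real.log X / 2 / 16384 ≤ θ := by linarith
      have e2 : 0 ≤ - Real.log X / 2 / 16384 := by
        have : Real.log X ≤ 0 := by linarith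
        have : 0 ≤ - Real.log X := by linarith
        positivity
      calc X * (- Real.log X / 2 / 16384) ≤ m * θ := by gcongr
        _ = θ * m := by ring
    have h15 : 1 / 16384 * (X * -Real.log X) = 2 * (X * (- Real.log X / 2 / 16384)) := by ring
    rw [h15]
    linarith

end HT13
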