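import Pool.Agent.HT13.QT
import Pool.Agent.HT13.Split
import Pool.Agent.HT13.TReal

/-! # HT13-LemT: Lemma T, rigidity near hyperplanes (paper: section 1) -/

set_option linter.unusedSectionVars false

namespace HT13

open Finset

/-- A set not depending on the coordinates outside `T`, `|T| ≤ 3`, of density `≤ 1/81`, is empty
(its density is an integer multiple of `3 ^ (-|T|)`). -/
theorem small_inv_empty {ι : Type} [Fintype ι] [DecidableEq ι] {T : Finset ι} {A : Finset (ι → ZMod 3)}
    (hI : Inv T A) (hT : T.card ≤ 3) (hA : dens A < 1 / 27) : A = ∅ := by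
  by_contra hne
  obtain ⟨x, hx⟩ := nonempty_iff_ne_empty.mpr hne
  have h1 : ovw T x A = univ := by
    ext y
    simp only [mem_univ, iff_true, mem_ovw]
    refine hI x _ (fun k hk => ?_) hx
    simp [mixp, hk]
  have h2 := dens_ovw_le T x A
  rw [h1, dens_univ] at h2
  have h3 : (3 : ℝ) ^ T.card ≤ 3 ^ 3 := pow_le_pow_right₀ (by norm_num) hT
  have h4 := dens_nonneg A
  nlinarith

/-- Assembly of `T_real`, `split_bound`, `qT_*`, `RR_eq`, `sum_dd_le_sdiff`, `three_dens`, `dens_sdiff_sub`. -/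
theorem lemmaT : ∃ eps0 : ℝ, 0 < eps0 ∧ ∃ c0 : ℝ, 0 < c0 ∧
    ∀ {ι : Type} [Fintype ι] [DecidableEq ι] (T : Finset ι) (W : Finset (ι → ZMod 3)), Inv T W → Valid T W →
    ∀ s : ι → ZMod 3, Sgn s → ∀ c : ZMod 3, dens (W \ hyp T s c) + dens (hyp T s c \ W) ≤ eps0 →
    dens (W \ hyp T s c) ≤ dens (hyp T s c \ W) ∧
    c0 * (dens (hyp T s c \ W) * Real.log (1 / dens (hyp T s c \ W)))
      ≤ T.card * (dens (hyp T s c \ W) - dens (W \ hyp T s c)) := by
  obtain ⟨eps0, h0, h1, c0, hc0, hT⟩ := T_real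
  refine ⟨eps0, h0, c0, hc0, ?_⟩
  intro ι _ _ T W hI hV s hs c hm
  have hIH := hyp_inv T s c
  have hD0 := dens_nonneg (W \ hyp T s c)
  have hX0 := dens_nonneg (hyp T s c \ W)
  rcases Nat.lt_or_ge T.card 4 with h4 | h4
  · have e1 : W \ hyp T s c = ∅ := by
      refine small_inv_empty (T := T) ?_ (by omega) (by linarith)
      intro x y hxy hx
      rw [mem_sdiff] at hx ⊢
      exact ⟨hI x y hxy hx.1, fun hy => hx.2 ((hIH.iff hxy).mpr hy)⟩
    have e2 : hyp T s c \ W = ∅ := by
      refine small_inv_empty (T := T) ?_ (by omega) (by linarith)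
      intro x y hxy hx
      rw [mem_sdiff] at hx ⊢
      exact ⟨hIH x y hxy hx.1, fun hy => hx.2 ((hI.iff hxy).mpr hy)⟩
    rw [e1, e2, dens_empty]
    simp
  · have hne : T.Nonempty := by
      rw [← card_pos]; omega
    have hlc : ∀ k ∈ T, ∀ x, lc W k x ≤ 2 := fun k hk x => lc_le_two hV hk x
    have hsub := dens_sdiff_sub hne hs c W
    have hdd := sum_dd_le_sdiff hV hs c
    have hRR := RR_eq (W := W) hlc
    have h3d : (T.card : ℝ) * (3 * dens W - 1) ≤ ∑ k ∈ T, dd W k := by
      rw [← nsmul_eq_mul, ← sum_const]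
      refine sum_le_sum fun k hk => ?_
      rw [three_dens (hlc k hk)]
      have := dens_nonneg (univ.filter fun x => lc W k x = 0)
      have hz : 0 ≤ zz W k := this
      linarith
    refine hT T.card (dens (W \ hyp T s c)) (dens (hyp T s c \ W)) (by exact_mod_cast h4) hD0 hX0 hm ?_ ?_
    · have e : dens (W \ hyp T s c) - dens (hyp T s c \ W) = dens W - 1 / 3 := by linarith
      rw [e]
      linarith
    · intro L hL
      have hS : dens (symmDiff W (hyp T s c)) = dens (W \ hyp T s c) + dens (hyp T s c \ W) := dens_symmDiff _ _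
      have hEn : ∑ a, ‖fh (qT T s c W) a‖ ^ 2 * ((T.filter fun k => a k = - s k).card : ℝ)
          ≤ (6 * dens (W \ hyp T s c) + 3 * T.card * (dens (hyp T s c \ W) - dens (W \ hyp T s c))) / 9 := by
        rw [qT_energy hlc hs c, hRR]
        have : 1 - 3 * dens W = 3 * (dens (hyp T s c \ W) - dens (W \ hyp T s c)) := by linarith
        rw [this]
        nlinarith
      have hb := split_bound hs (qT_norm T s c W) (qT_zero T s c W) (qT_supp hI s c) hEn L hL
      rw [hS] at hb
      have hre := qT_re T s c W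
      have h5 : (avC fun x => qT T s c W x ^ 2).re ≤ ‖avC fun x => qT T s c W x ^ 2‖ := Complex.re_le_norm _
      rw [hre] at h5
      linarith

end HT13
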