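import Pool.Agent.HT13.C2

/-! # HT13-MLem: lemma (M) (paper: section 7) -/

set_option linter.unusedSectionVars false

namespace HT13

open Finset

variable {S : Sq}

namespace ML

/-- the three elements of `ZMod 3` -/
theorem three_cases : ∀ x a σ : ZMod 3, σ ≠ 0 → x = a ∨ x = a + σ ∨ x = a - σ := by decide

theorem sum_three (f : ZMod 3 → ℝ) : ∀ a σ : ZMod 3, σ ≠ 0 →
    ∑ b : ZMod 3, f b = f a + f (a + σ) + f (a - σ) := by
  have h4 : ∑ b : ZMod 3, f b = f 0 + f 1 + f 2 := Fin.sum_univ_three f
  have h5 : ∀ a σ : ZMod 3, σ ≠ 0 →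
      (a = 0 ∧ a + σ = 1 ∧ a - σ = 2) ∨ (a = 0 ∧ a + σ = 2 ∧ a - σ = 1) ∨
      (a = 1 ∧ a + σ = 0 ∧ a - σ = 2) ∨ (a = 1 ∧ a + σ = 2 ∧ a - σ = 0) ∨
      (a = 2 ∧ a + σ = 0 ∧ a - σ = 1) ∨ (a = 2 ∧ a + σ = 1 ∧ a - σ = 0) := by decide
  intro a σ hσ
  rw [h4]
  rcases h5 a σ hσ with ⟨e1, e2, e3⟩ | ⟨e1, e2, e3⟩ | ⟨e1, e2, e3⟩ | ⟨e1, e2, e3⟩ | ⟨e1, e2, e3⟩ | ⟨e1, e2, e3⟩ <;>
    rw [e2, e3, e1] <;> ring

theorem ovw_inter {ι : Type} [Fintype ι] [DecidableEq ι] (J : Finset ι) (y : ι → ZMod 3)
    (A B : Finset (ι → ZMod 3)) : ovw J y (A ∩ B) = ovw J y A ∩ ovw J y B := by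
  ext x
  rw [mem_inter, mem_ovw, mem_ovw, mem_ovw, mem_inter]

/-- the slice of `WW J u` in direction `l` at the value `v' l` -/
theorem sliceW {J : Finset ℕ} {l : ℕ} (hl : l ∉ J) {u v' y : ℕ → ZMod 3} (h1 : ∀ k ∈ J, v' k = u k)
    (h2 : v' l = y l) (m : ℕ) :
    ovw (JJ S {l} m) (pt S y m) (WW S J u m) = WW S (insert l J) v' m := by
  rw [WW_insert S hl]
  rw [WW_congr S h1 m]
  refine ovw_congr (fun k hk => ?_) _
  unfold JJ at hk
  have h3 := (mem_filter.1 hk).2
  rw [mem_singleton] at h3
  unfold pt
  rw [h3, h2]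

/-- change of the overwriting at one coordinate of the cylinder -/
theorem mixp_upd {J : Finset ℕ} {m l : ℕ} (hl : l ∈ J) (hln : l < S.n m) (x : Fin (S.n m) → ZMod 3) {v v' : ℕ → ZMod 3}
    (h : ∀ k ∈ J, k ≠ l → v' k = v k) :
    Function.update (mixp (JJ S J m) x (pt S v m)) ⟨l, hln⟩ (v' l) = mixp (JJ S J m) x (pt S v' m) := by
  funext k
  by_cases hk : k = ⟨l, hln⟩
  · subst hk
    rw [Function.update_self]
    have h1 : (⟨l, hln⟩ : Fin (S.n m)) ∈ JJ S J m := by
      unfold JJ
      rw [mem_filter]
      exact ⟨mem_univ _, hl⟩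
    unfold mixp
    rw [if_pos h1]
    rfl
  · rw [Function.update_of_ne hk]
    unfold mixp
    by_cases hkJ : k ∈ JJ S J m
    · rw [if_pos hkJ, if_pos hkJ]
      unfold pt
      have h2 : (k : ℕ) ∈ J := by
        unfold JJ at hkJ
        exact (mem_filter.1 hkJ).2
      refine (h k h2 fun h3 => hk (Fin.ext h3)).symm
    · rw [if_neg hkJ, if_neg hkJ]

end ML

open ML

/-- If no cylinder in `w` is clean, the root of a good cylinder in `w` has its centre at `w`: otherwise `w l ∈ {a, a + σ}` and
`(insert l J, w)` is clean. -/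
theorem root_of_noclean {w : ℕ → ZMod 3} (hw : ∀ J, ¬ Clean S J w) {J : Finset ℕ}
    {s : (m : ℕ) → Fin (S.n m) → ZMod 3} (hs : SSg S s) {c : ℕ → ZMod 3} (hg : GoodW S J w s c) :
    ∃ (l : ℕ) (a σ : ZMod 3), Root S J w s c l a σ ∧ w l = a - σ := by
  obtain ⟨l, a, σ, hr⟩ := C2 hs hg (hw J)
  refine ⟨l, a, σ, hr, ?_⟩
  rcases three_cases (w l) a σ hr.2.1 with h | h | h
  · exfalso
    refine hw (insert l J) ⟨s, hs, fun m => c m + 1 - σ * a, ?_⟩
    have h1 := hr.2.2.2.1
    have e : Function.update w l a = w := by rw [← h, Function.update_eq_self]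
    rw [e] at h1
    exact h1
  · exfalso
    refine hw (insert l J) ⟨s, hs, fun m => c m + 1 - σ * a, ?_⟩
    have h1 := hr.2.2.2.2.1
    have e : Function.update w l (a + σ) = w := by rw [← h, Function.update_eq_self]
    rw [e] at h1
    exact h1
  · exact h

/-- Let `e, e'` be the two values `a, a + σ`; the children at `e` and `e'` both agree with `H*` up to a null set.  A point of the
child at `e` outside these null sets is in both children, so its point of `U m` is matched in direction `l`; by validity it is not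
matched in direction `k`. -/
theorem root_sib_null {J : Finset ℕ} {v : ℕ → ZMod 3} {s : (m : ℕ) → Fin (S.n m) → ZMod 3} {c : ℕ → ZMod 3} {l : ℕ}
    {a σ : ZMod 3} (h : Root S J v s c l a σ) {k : ℕ} (hk : k ∈ J) {b : ZMod 3} (hb : b ≠ v k) {e : ZMod 3}
    (he : e = a ∨ e = a + σ) :
    Null S fun m => WW S (insert l J) (Function.update v l e) m ∩
      WW S (insert l J) (Function.update (Function.update v l e) k b) m := by
  obtain ⟨hl, hσ, -, hc1, hc2, -⟩ := h
  have hkl : k ≠ l := fun h => hl (h ▸ hk)
  have hnull := Null.union S hc1 hc2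
  refine Null.mono S hnull ?_
  filter_upwards [n_large S (max k l)] with m hm
  have hkn : k < S.n m := lt_of_le_of_lt (le_max_left _ _) hm
  have hln : l < S.n m := lt_of_le_of_lt (le_max_right _ _) hm
  intro x hx
  rw [mem_inter] at hx
  obtain ⟨hx1, hx2⟩ := hx
  by_contra hcon
  rw [mem_union, not_or, mem_symmDiff, mem_symmDiff] at hcon
  -- the other value
  obtain ⟨e', he', hx3⟩ : ∃ e' : ZMod 3, e' ≠ e ∧ x ∈ WW S (insert l J) (Function.update v l e') m := by
    rcases he with rfl | rfl
    · refine ⟨e + σ, fun h => hσ (by simpa using h), ?_⟩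
      tauto
    · refine ⟨a, fun h => hσ (by simpa using h.symm), ?_⟩
      tauto
  have hlJ : l ∈ insert l J := mem_insert_self _ _
  have hkJ : k ∈ insert l J := mem_insert_of_mem hk
  have hV := S.val m
  have hy : mixp (JJ S (insert l J) m) x (pt S (Function.update v l e) m) ∈ S.U m := by
    have h1 := hx1
    unfold WW at h1
    rwa [mem_ovw] at h1
  have hy2 : Function.update (mixp (JJ S (insert l J) m) x (pt S (Function.update v l e) m)) ⟨l, hln⟩ e' ∈ S.U m := by
    have h1 := hx3
    unfold WW at h1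
    rw [mem_ovw] at h1
    have h2 := mixp_upd (S := S) hlJ hln x (v := Function.update v l e) (v' := Function.update v l e')
      (fun j _ hj => by rw [Function.update_of_ne hj, Function.update_of_ne hj])
    rw [Function.update_self] at h2
    rw [h2]
    exact h1
  have hy3 : Function.update (mixp (JJ S (insert l J) m) x (pt S (Function.update v l e) m)) ⟨k, hkn⟩ b ∈ S.U m := by
    have h1 := hx2
    unfold WW at h1
    rw [mem_ovw] at h1
    have h2 := mixp_upd (S := S) hkJ hkn x (v := Function.update v l e)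
      (v' := Function.update (Function.update v l e) k b)
      (fun j _ hj => by rw [Function.update_of_ne hj])
    rw [Function.update_self] at h2
    rw [h2]
    exact h1
  have hval : ∀ j : ℕ, ∀ hj : j < S.n m, j ∈ insert l J →
      mixp (JJ S (insert l J) m) x (pt S (Function.update v l e) m) ⟨j, hj⟩ = Function.update v l e j := by
    intro j hj hjJ
    have h1 : (⟨j, hj⟩ : Fin (S.n m)) ∈ JJ S (insert l J) m := by
      unfold JJ
      rw [mem_filter]
      exact ⟨mem_univ _, hjJ⟩
    unfold mixp
    rw [if_pos h1]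
    rfl
  have hfin := hV _ hy ⟨l, hln⟩ (mem_univ _) e' (by rw [hval l hln hlJ, Function.update_self]; exact he')
    ⟨k, hkn⟩ (mem_univ _) b (by rw [hval k hkn hkJ, Function.update_of_ne hkl]; exact hb) hy2 hy3
  have h6 := congrArg Fin.val hfin.1
  exact hkl h6.symm

/-- (M).  For all `r`, all `J` (with `k ∈ J`) and `c`: `dens (W ∩ W') ≤ (1/3) ^ r + eps` for most `m`.  Step: root of `(J, w)`
(`root_of_noclean`); the slices at `a`, `a + σ` are null (`root_sib_null`), the slice at `w l` is
`WW (insert l J) w ∩ WW (insert l J) (update w k b)` (`dens_eq_three`, `WW_insert`). -/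
theorem M_null {w : ℕ → ZMod 3} (hw : ∀ J, ¬ Clean S J w) {J : Finset ℕ}
    {s : (m : ℕ) → Fin (S.n m) → ZMod 3} (hs : SSg S s) {c : ℕ → ZMod 3} (hg : GoodW S J w s c) {k : ℕ} (hk : k ∈ J)
    {b : ZMod 3} (hb : b ≠ w k) : Null S fun m => WW S J w m ∩ WW S J (Function.update w k b) m := by
  have main : ∀ r : ℕ, ∀ (J : Finset ℕ) (c : ℕ → ZMod 3), GoodW S J w s c → k ∈ J → ∀ eps : ℝ, 0 < eps →
      ∀ᶠ m in (UU : Filter ℕ), dens (WW S J w m ∩ WW S J (Function.update w k b) m) ≤ (1 / 3) ^ r + eps := by
    intro r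
    induction r with
    | zero =>
      intro J c _ _ eps heps
      refine Filter.Eventually.of_forall fun m => ?_
      have h1 := dens_le_one (WW S J w m ∩ WW S J (Function.update w k b) m)
      rw [pow_zero]
      linarith
    | succ r ih =>
      intro J c hg hk eps heps
      obtain ⟨l, a, σ, hr, hwl⟩ := root_of_noclean hw hs hg
      have hl := hr.1
      have hkl : k ≠ l := fun h => hl (h ▸ hk)
      have hne : ∀ j ∈ J, j ≠ l := by
        rintro j hj rfl
        exact hl hj
      have hwe : Function.update w l (a - σ) = w := by rw [← hwl, Function.update_eq_self]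
      have hgood : GoodW S (insert l J) w s (fun m => c m + 1 - σ * a) := by
        have h1 := hr.2.2.2.2.2
        rw [hwe] at h1
        exact h1
      have hih := ih (insert l J) _ hgood (mem_insert_of_mem hk) eps heps
      have hn1 := (null_iff S).1 (root_sib_null hr hk hb (Or.inl rfl)) eps heps
      have hn2 := (null_iff S).1 (root_sib_null hr hk hb (Or.inr rfl)) eps heps
      filter_upwards [hih, hn1, hn2, n_large S l] with m h1 h2 h3 h4
      rw [dens_eq_three S h4 w]
      have h5 : ∀ b' : ZMod 3, ovw (JJ S {l} m) (pt S (Function.update w l b') m)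
          (WW S J w m ∩ WW S J (Function.update w k b) m)
          = WW S (insert l J) (Function.update w l b') m ∩
            WW S (insert l J) (Function.update (Function.update w l b') k b) m := by
        intro b'
        have e1 : ovw (JJ S {l} m) (pt S (Function.update w l b') m) (WW S J w m)
            = WW S (insert l J) (Function.update w l b') m := by
          refine sliceW hl (fun j hj => ?_) rfl m
          rw [Function.update_of_ne (hne j hj)]
        have e2 : ovw (JJ S {l} m) (pt S (Function.update w l b') m) (WW S J (Function.update w k b) m)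
            = WW S (insert l J) (Function.update (Function.update w l b') k b) m := by
          refine sliceW hl (fun j hj => ?_) ?_ m
          · by_cases hjk : j = k
            · rw [hjk, Function.update_self, Function.update_self]
            · rw [Function.update_of_ne hjk, Function.update_of_ne hjk, Function.update_of_ne (hne j hj)]
          · rw [Function.update_of_ne hkl.symm]
        rw [ovw_inter, e1, e2]
      rw [sum_three _ a σ hr.2.1]
      rw [h5 a, h5 (a + σ), h5 (a - σ), hwe]
      have h6 : ((1 : ℝ) / 3) ^ (r + 1) = (1 / 3) ^ r / 3 := by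
        rw [pow_succ]
        ring
      rw [h6]
      linarith
  rw [null_iff]
  intro eps heps
  obtain ⟨r, hr⟩ := exists_pow_lt_of_lt_one (show (0 : ℝ) < eps / 2 by positivity) (show (1 / 3 : ℝ) < 1 by norm_num)
  filter_upwards [main r J c hg hk (eps / 2) (by positivity)] with m hm
  linarith

end HT13
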