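import Pool.Agent.HT13.SqDefs
import Pool.Agent.HT13.LemAFin

/-! # HT13-SqMk: a sequence of counterexamples (paper: section 5) -/

set_option linter.unusedSectionVars false

namespace HT13

open Finset

/-- the permutation of the cube induced by a permutation of the coordinates -/
private def pE {n : ℕ} (σ : Equiv.Perm (Fin n)) : Equiv.Perm (Fin n → ZMod 3) where
  toFun x := x ∘ σ.symm
  invFun x := x ∘ σ
  left_inv x := by ext k; simp
  right_inv x := by ext k; simp

private theorem pE_update {n : ℕ} (σ : Equiv.Perm (Fin n)) (x : Fin n → ZMod 3) (k : Fin n) (a : ZMod 3) :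
    pE σ (Function.update x k a) = Function.update (pE σ x) (σ k) a := by
  ext j
  change Function.update x k a (σ.symm j) = Function.update (x ∘ σ.symm) (σ k) a j
  by_cases h : j = σ k
  · subst h; simp
  · have h' : σ.symm j ≠ k := by
      intro e
      apply h
      rw [← e]
      simp
    rw [Function.update_of_ne h', Function.update_of_ne h]
    rfl

/-- the permuted set -/
private def pU {n : ℕ} (σ : Equiv.Perm (Fin n)) (U : Finset (Fin n → ZMod 3)) : Finset (Fin n → ZMod 3) :=
  univ.filter fun x => pE σ x ∈ U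

private theorem mem_pU {n : ℕ} (σ : Equiv.Perm (Fin n)) (U : Finset (Fin n → ZMod 3)) (x : Fin n → ZMod 3) :
    x ∈ pU σ U ↔ pE σ x ∈ U := by simp [pU]

private theorem dens_pU {n : ℕ} (σ : Equiv.Perm (Fin n)) (U : Finset (Fin n → ZMod 3)) :
    dens (pU σ U) = dens U := by
  unfold pU
  rw [dens_filter_eq_avR, avR_equiv (pE σ) (fun x => if x ∈ U then (1 : ℝ) else 0), dens_eq_avR]

private theorem lc_pU {n : ℕ} (σ : Equiv.Perm (Fin n)) (U : Finset (Fin n → ZMod 3)) (k : Fin n)
    (x : Fin n → ZMod 3) : lc (pU σ U) k x = lc U (σ k) (pE σ x) := by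
  unfold lc
  congr 1
  ext a
  simp only [mem_filter, mem_univ, true_and, mem_pU]
  rw [pE_update]

private theorem rho_pU {n : ℕ} (σ : Equiv.Perm (Fin n)) (U : Finset (Fin n → ZMod 3)) (k : Fin n) :
    rho (pU σ U) k = rho U (σ k) := by
  unfold rho
  rw [dens_filter_eq_avR, dens_filter_eq_avR]
  simp only [lc_pU]
  exact avR_equiv (pE σ) (fun x => if lc U (σ k) x ≠ 1 then (1 : ℝ) else 0)

private theorem valid_pU {n : ℕ} (σ : Equiv.Perm (Fin n)) (U : Finset (Fin n → ZMod 3)) (hV : Valid univ U) :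
    Valid univ (pU σ U) := by
  intro x hx k _ a ha k' _ a' ha' h1 h2
  rw [mem_pU] at hx h1 h2
  rw [pE_update] at h1 h2
  have e : ∀ k : Fin n, pE σ x (σ k) = x k := by
    intro k
    change x (σ.symm (σ k)) = x k
    simp
  have := hV _ hx (σ k) (mem_univ _) a (by rw [e]; exact ha) (σ k') (mem_univ _) a' (by rw [e]; exact ha') h1 h2
  exact ⟨σ.injective this.1, this.2⟩

/-- Permuting the coordinates of a valid set so that the defects are non-increasing (`Tuple.sort`). -/
theorem exists_sorted {n : ℕ} (U : Finset (Fin n → ZMod 3)) (hV : Valid univ U) :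
    ∃ U' : Finset (Fin n → ZMod 3), Valid univ U' ∧ dens U' = dens U ∧ ∀ j k : Fin n, j ≤ k → rho U' k ≤ rho U' j := by
  refine ⟨pU (Tuple.sort fun k => -rho U k) U, valid_pU _ U hV, dens_pU _ U, ?_⟩
  intro j k hjk
  rw [rho_pU, rho_pU]
  have h := Tuple.monotone_sort (fun k => -rho U k) hjk
  simp only [Function.comp] at h
  linarith

/-- Take `U m` with excess `> m` (so `dens ≥ 1/3`), sorted.  `tail`: `lemmaA_tail` with `J = {k : k < K}` (if `n m ≤ K` the sum
is empty). -/
theorem exists_Sq (h : ∀ C : ℕ, ∃ (n : ℕ) (U : Finset (Fin n → ZMod 3)), Valid univ U ∧ (C : ℝ) < exc univ U) :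
    Nonempty Sq := by
  have h2 : ∀ C : ℕ, ∃ (n : ℕ) (U : Finset (Fin n → ZMod 3)), Valid univ U ∧ (C : ℝ) < exc univ U ∧
      ∀ j k : Fin n, j ≤ k → rho U k ≤ rho U j := by
    intro C
    obtain ⟨n, U, hV, hU⟩ := h C
    obtain ⟨U', hV', hd, hs⟩ := exists_sorted U hV
    refine ⟨n, U', hV', ?_, hs⟩
    unfold exc at hU ⊢
    rw [hd]
    exact hU
  choose n U hV hU hs using h2
  have hpos : ∀ m, 1 / 3 ≤ dens (U m) := by
    intro m
    have h3 : (0 : ℝ) < exc univ (U m) := lt_of_le_of_lt (Nat.cast_nonneg m) (hU m)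
    unfold exc at h3
    have h4 : (0 : ℝ) < 3 ^ (univ : Finset (Fin (n m))).card := by positivity
    have h5 : 0 < dens (U m) - 1 / 3 := (pos_iff_pos_of_mul_pos h3).mpr h4
    linarith
  refine ⟨⟨n, U, hV, hpos, fun m => (hU m).le, ?_⟩⟩
  intro eps he
  obtain ⟨K, hK⟩ := lemmaA_tail eps he
  refine ⟨K, fun m => ?_⟩
  by_cases hn : n m ≤ K
  · have : (univ.filter fun k : Fin (n m) => K ≤ (k : ℕ)) = ∅ := by
      rw [Finset.filter_eq_empty_iff]
      intro k _ hk
      have := k.2
      omega
    rw [this, sum_empty]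
    exact he.le
  · push Not at hn
    have h6 := hK (univ : Finset (Fin (n m))) (U m) (inv_univ _) (hV m) (hpos m)
      (univ.filter fun k : Fin (n m) => (k : ℕ) < K) (filter_subset _ _) (by
        have : (univ.filter fun k : Fin (n m) => (k : ℕ) < K).card = min (n m) K := by
          rw [Fin.card_filter_val_lt]
        rw [this]
        omega) (by
        intro j hj k hk
        rw [mem_filter] at hj
        rw [mem_sdiff, mem_filter] at hk
        apply hs m
        rw [Fin.le_def]
        have hk2 : ¬ ((k : ℕ) < K) := fun h => hk.2 ⟨mem_univ _, h⟩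
        omega)
    have h7 : (univ.filter fun k : Fin (n m) => K ≤ (k : ℕ))
        = univ \ (univ.filter fun k : Fin (n m) => (k : ℕ) < K) := by
      ext k
      simp
    rw [h7]
    exact h6

end HT13
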