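import Pool.Agent.HT13.C5
import Pool.Agent.HT13.Holes
import Pool.Agent.HT13.SqMk

/-! # HT13-Main: the excess is bounded -/

set_option linter.unusedSectionVars false

namespace HT13

open Finset

/-- The excess is the sum of the excesses over the `3 ^ K` cylinders with domain `range K` (`avR_dens_ovw`, `avR_first`, or
iterate `exc_children`). -/
theorem exc_sum_cyl (S : Sq) (K : ℕ) : ∀ᶠ m in (UU : Filter ℕ), exc univ (S.U m)
    = ∑ z : Fin K → ZMod 3, exc (TT S (range K) m) (WW S (range K) (ofFin K z) m) := by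
  induction K with
  | zero =>
    refine Filter.Eventually.of_forall (fun m => ?_)
    rw [Finset.range_zero]
    have h1 : TT S ∅ m = univ := by unfold TT JJ; simp
    have h2 : ∀ v, WW S ∅ v m = S.U m := by
      intro v
      unfold WW
      ext x
      rw [mem_ovw]
      have h3 : mixp (JJ S ∅ m) x (pt S v m) = x := by
        funext k
        unfold mixp JJ
        simp
      rw [h3]
    simp [h1, h2]
  | succ K ih =>
    have hK : K ∉ range K := by simp
    have h1 : ∀ᶠ m in (UU : Filter ℕ), ∀ z : Fin K → ZMod 3,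
        exc (TT S (range K) m) (WW S (range K) (ofFin K z) m)
          = ∑ b : ZMod 3, exc (TT S (insert K (range K)) m)
              (WW S (insert K (range K)) (Function.update (ofFin K z) K b) m) := by
      rw [Filter.eventually_all]
      intro z
      exact exc_children S hK _
    filter_upwards [ih, h1] with m h2 h3
    rw [h2, Finset.sum_congr rfl (fun z _ => h3 z), ← Finset.range_add_one,
      ← (Fin.snocEquiv (fun _ => ZMod 3)).sum_comp, Fintype.sum_prod_type, Finset.sum_comm]
    refine Finset.sum_congr rfl (fun b _ => Finset.sum_congr rfl (fun z _ => ?_))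
    congr 1
    refine WW_congr S (fun k hk => ?_) m
    rw [mem_range] at hk
    unfold ofFin
    rw [dif_pos hk]
    rcases Nat.lt_succ_iff_lt_or_eq.mp hk with h | h
    · rw [Function.update_of_ne h.ne, dif_pos h]
      exact (Fin.snoc_castSucc (α := fun _ => ZMod 3) b z ⟨k, h⟩).symm
    · subst h
      rw [Function.update_self]
      exact (Fin.snoc_last (α := fun _ => ZMod 3) b z).symm

theorem no_Sq (S : Sq) : False := by
  obtain ⟨K, hK⟩ := C6 S
  have h1 : ∀ᶠ m in (UU : Filter ℕ), ∀ z : Fin K → ZMod 3,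
      exc (TT S (range K) m) (WW S (range K) (ofFin K z) m) ≤ 1 := by
    rw [Filter.eventually_all]
    intro z
    exact good_exc_le S (hK _)
  have h2 := exc_sum_cyl S K
  have h3 : ∀ᶠ m : ℕ in (UU : Filter ℕ), (3 : ℝ) ^ K < (m : ℝ) :=
    UU_of_large (⌈(3 : ℝ) ^ K⌉₊ + 1) (fun m hm => by
      have h4 : (3 : ℝ) ^ K ≤ ⌈(3 : ℝ) ^ K⌉₊ := Nat.le_ceil _
      have h5 : ((⌈(3 : ℝ) ^ K⌉₊ + 1 : ℕ) : ℝ) ≤ m := by exact_mod_cast hm
      push_cast at h5
      linarith)
  have h4 : ∀ᶠ m in (UU : Filter ℕ), False := by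
    filter_upwards [h1, h2, h3] with m h1 h2 h3
    have h5 := S.large m
    rw [h2] at h5
    have h6 : ∑ z : Fin K → ZMod 3, exc (TT S (range K) m) (WW S (range K) (ofFin K z) m)
        ≤ ∑ _z : Fin K → ZMod 3, (1 : ℝ) := sum_le_sum fun z _ => h1 z
    simp only [sum_const, card_univ, nsmul_eq_mul, mul_one] at h6
    have h7 : ((Fintype.card (Fin K → ZMod 3) : ℕ) : ℝ) = 3 ^ K := by
      rw [card_cube, Fintype.card_fin]; push_cast; rfl
    rw [h7] at h6
    linarith
  exact h4.exists.elim (fun _ h => h)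

/-- the excess of a valid set is bounded by an absolute constant -/
theorem main_bound : ∃ C : ℕ, ∀ (n : ℕ) (U : Finset (Fin n → ZMod 3)), Valid univ U → exc univ U ≤ C := by
  by_contra hcon
  push Not at hcon
  obtain ⟨S⟩ := exists_Sq hcon
  exact no_Sq S

end HT13
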