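import Pool.Agent.HT13.Hyp
import Pool.Agent.HT13.Lines

/-! # HT13-Merge: merging two coordinates (paper: section 8, (Mg)) -/

set_option linter.unusedSectionVars false

namespace HT13

open Finset

variable {ι : Type} [Fintype ι] [DecidableEq ι]

/-- The merged set.  `P(x)` is the plane of the points `x^{i → u, j → v}`; its classes are `s i * u + s j * v = const`.
`W'` is the set of the `x` such that `W` has at least 3 points in `P(x)` and at least two points in the class
`s i * u + s j * v = s i * x i` of `P(x)`. -/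
def mergeSet (s : ι → ZMod 3) (i j : ι) (W : Finset (ι → ZMod 3)) : Finset (ι → ZMod 3) :=
  univ.filter fun x =>
    3 ≤ (univ.filter fun p : ZMod 3 × ZMod 3 => Function.update (Function.update x i p.1) j p.2 ∈ W).card ∧
    2 ≤ (univ.filter fun p : ZMod 3 × ZMod 3 => s i * p.1 + s j * p.2 = s i * x i ∧
      Function.update (Function.update x i p.1) j p.2 ∈ W).card

private theorem sum_pair_ht13 {T : Finset ι} {i j : ι} (hi : i ∈ T) (hj : j ∈ T) (hij : i ≠ j)
    {f : ι → ZMod 3} : f i + f j + ∑ k ∈ T \ {i, j}, f k = ∑ k ∈ T, f k := by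
  have hsub : ({i, j} : Finset ι) ⊆ T := by
    intro k hk
    rw [mem_insert, mem_singleton] at hk
    rcases hk with rfl | rfl
    · exact hi
    · exact hj
  rw [← Finset.sum_sdiff hsub, Finset.sum_pair hij]
  ring

private theorem sum_single_ht13 {T : Finset ι} {i j : ι} (hi : i ∈ T) (hij : i ≠ j)
    {f : ι → ZMod 3} : f i + ∑ k ∈ T \ {i, j}, f k = ∑ k ∈ T \ {j}, f k := by
  have hi' : i ∈ T \ {j} := mem_sdiff.mpr ⟨hi, by rw [mem_singleton]; exact hij⟩
  rw [← Finset.add_sum_erase _ _ hi']
  congr 2
  ext k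
  simp only [mem_sdiff, mem_insert, mem_singleton, mem_erase]
  tauto

private theorem adj_ht13 (a b t : ZMod 3) (ha : a ≠ 0) (hb : b ≠ 0) (p q q' : ZMod 3 × ZMod 3)
    (hq : q ≠ q') (hp : a * p.1 + b * p.2 ≠ t) (h : a * q.1 + b * q.2 = t)
    (h' : a * q'.1 + b * q'.2 = t) :
    ((p.1 = q.1 ∧ p.2 ≠ q.2) ∨ (p.1 ≠ q.1 ∧ p.2 = q.2)) ∨
      ((p.1 = q'.1 ∧ p.2 ≠ q'.2) ∨ (p.1 ≠ q'.1 ∧ p.2 = q'.2)) := by
  have sum3 : ∀ u v w : ZMod 3, u ≠ v → u ≠ w → v ≠ w → u = -(v + w) := by decide
  have t3 : ∀ t : ZMod 3, -(t + t) = t := by decide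
  have : Fact (Nat.Prime 3) := ⟨Nat.prime_three⟩
  have n1 : q.1 ≠ q'.1 := by
    intro e
    apply hq
    have h1 := h.trans h'.symm
    rw [e] at h1
    exact Prod.ext e (mul_left_cancel₀ hb (add_left_cancel h1))
  have n2 : q.2 ≠ q'.2 := by
    intro e
    apply hq
    have h1 := h.trans h'.symm
    rw [e] at h1
    exact Prod.ext (mul_left_cancel₀ ha (add_right_cancel h1)) e
  by_contra hcon
  push Not at hcon
  obtain ⟨⟨c1, c2⟩, c3, c4⟩ := hcon
  have m1 : p.1 ≠ q.1 := fun e => hp (by rw [e, c1 e]; exact h)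
  have m2 := c2 m1
  have m3 : p.1 ≠ q'.1 := fun e => hp (by rw [e, c3 e]; exact h')
  have m4 := c4 m3
  apply hp
  rw [sum3 _ _ _ m1 m3 n1, sum3 _ _ _ m2 m4 n2, ← t3 t]
  nth_rewrite 2 [← h']
  rw [← h]
  ring

private theorem inter_ht13 {C A B : Finset (ZMod 3 × ZMod 3)} (hC : C.card = 3) (hA : A ⊆ C) (hB : B ⊆ C)
    (h1 : 2 ≤ A.card) (h2 : 2 ≤ B.card) : ∃ p, p ∈ A ∧ p ∈ B := by
  have h3 := Finset.card_union_add_card_inter A B
  have h4 := card_le_card (union_subset hA hB)
  have h5 : 0 < (A ∩ B).card := by omega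
  obtain ⟨p, hp⟩ := Finset.card_pos.mp h5
  exact ⟨p, mem_inter.mp hp⟩

private theorem cover_ht13 {C A B B' : Finset (ZMod 3 × ZMod 3)} (hC : C.card = 3) (hA : A ⊆ C)
    (hB : B ⊆ C) (hB' : B' ⊆ C) (h0 : 2 ≤ A.card) (h1 : 2 ≤ B.card) (h2 : 2 ≤ B'.card)
    (h : ∀ p, p ∈ A → p ∈ B → p ∈ B' → False) : A.card ≤ 2 ∧ ∀ p ∈ A, p ∈ B ∨ p ∈ B' := by
  have u1 := Finset.card_union_add_card_inter A B
  have v1 := card_le_card (union_subset hA hB)
  have u2 := Finset.card_union_add_card_inter A B'
  have v2 := card_le_card (union_subset hA hB')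
  have hd : Disjoint (A ∩ B) (A ∩ B') := by
    rw [Finset.disjoint_left]
    intro p hp hp'
    rw [mem_inter] at hp hp'
    exact h p hp.1 hp.2 hp'.2
  have hu := Finset.card_union_of_disjoint hd
  have hsub : (A ∩ B) ∪ (A ∩ B') ⊆ A := union_subset inter_subset_left inter_subset_left
  have hle := card_le_card hsub
  refine ⟨by omega, ?_⟩
  have heq : (A ∩ B) ∪ (A ∩ B') = A := Finset.eq_of_subset_of_card_le hsub (by omega)
  intro p hp
  rw [← heq, mem_union, mem_inter, mem_inter] at hp
  tauto

theorem mergeSet_inv {T : Finset ι} {i j : ι} (hi : i ∈ T) (hj : j ∈ T) (hij : i ≠ j) {W : Finset (ι → ZMod 3)}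
    (hI : Inv T W) (s : ι → ZMod 3) : Inv (T \ {j}) (mergeSet s i j W) := by
  intro x y hxy hx
  have key : ∀ p : ZMod 3 × ZMod 3,
      (Function.update (Function.update x i p.1) j p.2 ∈ W ↔
        Function.update (Function.update y i p.1) j p.2 ∈ W) := by
    intro p
    apply hI.iff
    intro k hk
    by_cases hkj : k = j
    · subst hkj; rw [Function.update_self, Function.update_self]
    · rw [Function.update_of_ne hkj, Function.update_of_ne hkj]
      by_cases hki : k = i
      · subst hki; rw [Function.update_self, Function.update_self]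
      · rw [Function.update_of_ne hki, Function.update_of_ne hki]
        exact hxy k (mem_sdiff.mpr ⟨hk, by rw [mem_singleton]; exact hkj⟩)
  have hxi : x i = y i := hxy i (mem_sdiff.mpr ⟨hi, by rw [mem_singleton]; exact hij⟩)
  unfold mergeSet at hx ⊢
  rw [mem_filter] at hx ⊢
  simp only [key, hxi] at hx
  exact ⟨mem_univ _, hx.2⟩

/-- If `W` avoids `{∑_{k ∈ T} s k * x k = c}` then `W'` avoids `{∑_{k ∈ T \ j} s k * x k = c}`. -/
theorem mergeSet_avoid {T : Finset ι} {i j : ι} (hi : i ∈ T) (hj : j ∈ T) (hij : i ≠ j) {W : Finset (ι → ZMod 3)}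
    {s : ι → ZMod 3} {c : ZMod 3} (h : W ∩ hyp T s c = ∅) : mergeSet s i j W ∩ hyp (T \ {j}) s c = ∅ := by
  rw [Finset.eq_empty_iff_forall_notMem]
  intro x hx
  rw [mem_inter, mem_hyp] at hx
  obtain ⟨hx1, hx2⟩ := hx
  unfold mergeSet at hx1
  rw [mem_filter] at hx1
  obtain ⟨-, -, h2⟩ := hx1
  obtain ⟨p, hp⟩ := Finset.card_pos.mp (lt_of_lt_of_le (by norm_num) h2)
  rw [mem_filter] at hp
  obtain ⟨-, hp1, hp2⟩ := hp
  have hmem : Function.update (Function.update x i p.1) j p.2 ∈ W ∩ hyp T s c := by
    rw [mem_inter, mem_hyp]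
    refine ⟨hp2, ?_⟩
    rw [← hx2, ← sum_pair_ht13 hi hj hij, ← sum_single_ht13 hi hij, Function.update_self,
      Function.update_of_ne hij, Function.update_self, hp1]
    congr 1
    refine sum_congr rfl fun k hk => ?_
    rw [mem_sdiff, mem_insert, mem_singleton] at hk
    push Not at hk
    rw [Function.update_of_ne hk.2.2, Function.update_of_ne hk.2.1]
  rw [h] at hmem
  exact absurd hmem (by simp)

/-- Let `x ∈ W'` have two neighbours `y ≠ y'` in `W'` in the directions of `T \ {j}` (the plane `P` of `x`, its class `A`).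
`W` avoids one of the three classes of each plane (the class in `H`), the other two classes form a hexagon (each point is
adjacent, within the plane, to exactly two points of the other class, namely all but its antipode), `|W ∩ P| ≤ 4`, and if
`|W ∩ P| = 4` the two classes contain `2 + 2` points, if it is `3` they contain `3 + 0` or `2 + 1`.
A neighbour `y` in a direction `k ≠ i, j` lies in an adjacent plane `P'`, same class; `W ∩ A ∩ P` and `W ∩ A ∩ P'` are both of
size `≥ 2` in a class of 3 positions, so they share a position: a point of `W ∩ P ∩ A` is matched in direction `k`.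
Two such neighbours use two different points of `W ∩ P ∩ A` matched outside `P` (a point has at most one `W`-neighbour), and
if `|W ∩ P ∩ A| = 3` then `|W ∩ P ∩ A|` shares at least 2 positions with each of the two adjacent planes: `2 + 2 > 3`,
contradiction; if it is `2` then (since `|W ∩ P| ≥ 3`) there is a point of `W` in the other class of `P`, which is adjacent to
at least one of the two points of `W ∩ P ∩ A`: contradiction.
A neighbour in direction `i` is the other class of the same plane: then `|W ∩ P| = 4` with `2 + 2` and all four points are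
matched inside `P`, so a neighbour in another direction `k` is impossible; and at most one other class of `P` is in `W'`. -/
theorem mergeSet_valid {T : Finset ι} {i j : ι} (hi : i ∈ T) (hj : j ∈ T) (hij : i ≠ j) {W : Finset (ι → ZMod 3)}
    (hI : Inv T W) (hV : Valid T W) {s : ι → ZMod 3} (hs : Sgn s) {c : ZMod 3} (h : W ∩ hyp T s c = ∅) :
    Valid (T \ {j}) (mergeSet s i j W) := by
  have hav := mergeSet_avoid hi hj hij h
  -- points of the plane of `x`
  have hcl : ∀ (a b t : ZMod 3), a ≠ 0 → b ≠ 0 →
      (univ.filter fun p : ZMod 3 × ZMod 3 => a * p.1 + b * p.2 = t).card = 3 := by decide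
  have hadj := adj_ht13
  have comm : ∀ (x : ι → ZMod 3) (k : ι) (a : ZMod 3) (p : ZMod 3 × ZMod 3), k ≠ i → k ≠ j →
      Function.update (Function.update (Function.update x k a) i p.1) j p.2
        = Function.update (Function.update (Function.update x i p.1) j p.2) k a := by
    intro x k a p hki hkj
    rw [Function.update_comm hki, Function.update_comm hkj]
  have noTwo : ∀ (x : ι → ZMod 3) (p : ZMod 3 × ZMod 3) (k k' : ι) (a a' : ZMod 3), k ∈ T → k' ∈ T →
      k ≠ i → k ≠ j → k' ≠ i → k' ≠ j → a ≠ x k → a' ≠ x k' →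
      Function.update (Function.update x i p.1) j p.2 ∈ W →
      Function.update (Function.update (Function.update x k a) i p.1) j p.2 ∈ W →
      Function.update (Function.update (Function.update x k' a') i p.1) j p.2 ∈ W → k = k' ∧ a = a' := by
    intro x p k k' a a' hk hk' hki hkj hki' hkj' ha ha' h0 h1 h2
    rw [comm x k a p hki hkj] at h1
    rw [comm x k' a' p hki' hkj'] at h2
    exact hV _ h0 k hk a (by rw [Function.update_of_ne hkj, Function.update_of_ne hki]; exact ha)
      k' hk' a' (by rw [Function.update_of_ne hkj', Function.update_of_ne hki']; exact ha') h1 h2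
  have noBoth : ∀ (x : ι → ZMod 3) (p q : ZMod 3 × ZMod 3) (k : ι) (a : ZMod 3), k ∈ T →
      k ≠ i → k ≠ j → a ≠ x k →
      ((p.1 = q.1 ∧ p.2 ≠ q.2) ∨ (p.1 ≠ q.1 ∧ p.2 = q.2)) →
      Function.update (Function.update x i p.1) j p.2 ∈ W →
      Function.update (Function.update x i q.1) j q.2 ∈ W →
      Function.update (Function.update (Function.update x k a) i p.1) j p.2 ∈ W → False := by
    intro x p q k a hk hki hkj ha hpq h0 h1 h2
    rw [comm x k a p hki hkj] at h2
    rcases hpq with ⟨e1, e2⟩ | ⟨e1, e2⟩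
    · have e3 : Function.update (Function.update x i q.1) j q.2
          = Function.update (Function.update (Function.update x i p.1) j p.2) j q.2 := by
        rw [Function.update_idem, e1]
      rw [e3] at h1
      have := hV _ h0 k hk a (by rw [Function.update_of_ne hkj, Function.update_of_ne hki]; exact ha)
        j hj q.2 (by rw [Function.update_self]; exact e2.symm) h2 h1
      exact hkj this.1
    · have e3 : Function.update (Function.update x i q.1) j q.2
          = Function.update (Function.update (Function.update x i p.1) j p.2) i q.1 := by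
        rw [Function.update_comm hij.symm, Function.update_idem, e2]
      rw [e3] at h1
      have := hV _ h0 k hk a (by rw [Function.update_of_ne hkj, Function.update_of_ne hki]; exact ha)
        i hi q.1 (by rw [Function.update_of_ne hij, Function.update_self]; exact e1.symm) h2 h1
      exact hki this.1
  -- a neighbour in direction `i` and one in another direction
  have caseMix : ∀ (x : ι → ZMod 3), x ∈ mergeSet s i j W → ∀ a, a ≠ x i → ∀ k ∈ T, k ≠ i → k ≠ j →
      ∀ a', a' ≠ x k → Function.update x i a ∈ mergeSet s i j W →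
      Function.update x k a' ∈ mergeSet s i j W → False := by
    intro x hx a ha k hk hki hkj a' ha' h1 h2
    unfold mergeSet at hx h1 h2
    rw [mem_filter] at hx h1 h2
    obtain ⟨-, -, hx2⟩ := hx
    obtain ⟨-, -, h12⟩ := h1
    obtain ⟨-, -, h22⟩ := h2
    rw [Function.update_self] at h12
    simp only [Function.update_idem] at h12
    rw [Function.update_of_ne hki.symm] at h22
    obtain ⟨p, hp, hp'⟩ := inter_ht13 (hcl (s i) (s j) (s i * x i) (hs i) (hs j))
      (fun p hp => by rw [mem_filter] at hp ⊢; exact ⟨mem_univ _, hp.2.1⟩)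
      (fun p hp => by rw [mem_filter] at hp ⊢; exact ⟨mem_univ _, hp.2.1⟩) hx2 h22
    rw [mem_filter] at hp hp'
    obtain ⟨q, hq, q', hq', hqq⟩ := Finset.one_lt_card.mp (lt_of_lt_of_le (by norm_num) h12)
    rw [mem_filter] at hq hq'
    have hne : s i * p.1 + s j * p.2 ≠ s i * a := by
      rw [hp.2.1]
      intro hcon
      have : Fact (Nat.Prime 3) := ⟨Nat.prime_three⟩
      exact ha (mul_left_cancel₀ (hs i) hcon).symm
    rcases hadj (s i) (s j) (s i * a) (hs i) (hs j) p q q' hqq hne hq.2.1 hq'.2.1 with h | h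
    · exact noBoth x p q k a' hk hki hkj ha' h hp.2.2 hq.2.2 hp'.2.2
    · exact noBoth x p q' k a' hk hki hkj ha' h hp.2.2 hq'.2.2 hp'.2.2
  -- two neighbours in directions different from `i`
  have caseOut : ∀ (x : ι → ZMod 3), x ∈ mergeSet s i j W → ∀ k ∈ T, k ≠ i → k ≠ j → ∀ a, a ≠ x k →
      ∀ k' ∈ T, k' ≠ i → k' ≠ j → ∀ a', a' ≠ x k' → Function.update x k a ∈ mergeSet s i j W →
      Function.update x k' a' ∈ mergeSet s i j W → k = k' ∧ a = a' := by
    intro x hx k hk hki hkj a ha k' hk' hki' hkj' a' ha' h1 h2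
    by_contra hcon
    unfold mergeSet at hx h1 h2
    rw [mem_filter] at hx h1 h2
    obtain ⟨-, hx1, hx2⟩ := hx
    obtain ⟨-, -, h12⟩ := h1
    obtain ⟨-, -, h22⟩ := h2
    rw [Function.update_of_ne hki.symm] at h12
    rw [Function.update_of_ne hki'.symm] at h22
    have hC := hcl (s i) (s j) (s i * x i) (hs i) (hs j)
    have s0 : (univ.filter fun p : ZMod 3 × ZMod 3 => s i * p.1 + s j * p.2 = s i * x i ∧
        Function.update (Function.update x i p.1) j p.2 ∈ W) ⊆
        (univ.filter fun p : ZMod 3 × ZMod 3 => s i * p.1 + s j * p.2 = s i * x i) :=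
      fun p hp => by rw [mem_filter] at hp ⊢; exact ⟨mem_univ _, hp.2.1⟩
    have s1 : (univ.filter fun p : ZMod 3 × ZMod 3 => s i * p.1 + s j * p.2 = s i * x i ∧
        Function.update (Function.update (Function.update x k a) i p.1) j p.2 ∈ W) ⊆
        (univ.filter fun p : ZMod 3 × ZMod 3 => s i * p.1 + s j * p.2 = s i * x i) :=
      fun p hp => by rw [mem_filter] at hp ⊢; exact ⟨mem_univ _, hp.2.1⟩
    have s2 : (univ.filter fun p : ZMod 3 × ZMod 3 => s i * p.1 + s j * p.2 = s i * x i ∧
        Function.update (Function.update (Function.update x k' a') i p.1) j p.2 ∈ W) ⊆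
        (univ.filter fun p : ZMod 3 × ZMod 3 => s i * p.1 + s j * p.2 = s i * x i) :=
      fun p hp => by rw [mem_filter] at hp ⊢; exact ⟨mem_univ _, hp.2.1⟩
    have htr : ∀ p : ZMod 3 × ZMod 3,
        p ∈ (univ.filter fun p : ZMod 3 × ZMod 3 => s i * p.1 + s j * p.2 = s i * x i ∧
          Function.update (Function.update x i p.1) j p.2 ∈ W) →
        p ∈ (univ.filter fun p : ZMod 3 × ZMod 3 => s i * p.1 + s j * p.2 = s i * x i ∧
          Function.update (Function.update (Function.update x k a) i p.1) j p.2 ∈ W) →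
        p ∈ (univ.filter fun p : ZMod 3 × ZMod 3 => s i * p.1 + s j * p.2 = s i * x i ∧
          Function.update (Function.update (Function.update x k' a') i p.1) j p.2 ∈ W) → False := by
      intro p hp hp1 hp2
      rw [mem_filter] at hp hp1 hp2
      exact hcon (noTwo x p k k' a a' hk hk' hki hkj hki' hkj' ha ha' hp.2.2 hp1.2.2 hp2.2.2)
    -- the class of `x` contains exactly two points of `W`, each of them matched outside of the plane
    obtain ⟨hA2, hcov⟩ := cover_ht13 hC s0 s1 s2 hx2 h12 h22 htr
    obtain ⟨q, hq, hqn⟩ : ∃ q ∈ (univ.filter fun p : ZMod 3 × ZMod 3 =>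
        Function.update (Function.update x i p.1) j p.2 ∈ W), ¬ (s i * q.1 + s j * q.2 = s i * x i) := by
      by_contra hcon2
      push Not at hcon2
      have : (univ.filter fun p : ZMod 3 × ZMod 3 =>
          Function.update (Function.update x i p.1) j p.2 ∈ W) ⊆
          (univ.filter fun p : ZMod 3 × ZMod 3 => s i * p.1 + s j * p.2 = s i * x i ∧
            Function.update (Function.update x i p.1) j p.2 ∈ W) := by
        intro p hp
        have := hcon2 p hp
        rw [mem_filter] at hp ⊢
        exact ⟨mem_univ _, this, hp.2⟩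
      have := card_le_card this
      omega
    rw [mem_filter] at hq
    obtain ⟨p, hp, p', hp', hpp⟩ := Finset.one_lt_card.mp (lt_of_lt_of_le (by norm_num) hx2)
    have fin : ∀ p : ZMod 3 × ZMod 3,
        p ∈ (univ.filter fun p : ZMod 3 × ZMod 3 => s i * p.1 + s j * p.2 = s i * x i ∧
          Function.update (Function.update x i p.1) j p.2 ∈ W) →
        ((q.1 = p.1 ∧ q.2 ≠ p.2) ∨ (q.1 ≠ p.1 ∧ q.2 = p.2)) → False := by
      intro p hp hqp
      have hpq : (p.1 = q.1 ∧ p.2 ≠ q.2) ∨ (p.1 ≠ q.1 ∧ p.2 = q.2) := by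
        rcases hqp with ⟨e1, e2⟩ | ⟨e1, e2⟩
        · exact Or.inl ⟨e1.symm, e2.symm⟩
        · exact Or.inr ⟨e1.symm, e2.symm⟩
      have hc := hcov p hp
      rw [mem_filter] at hp
      rcases hc with hc | hc
      · rw [mem_filter] at hc
        exact noBoth x p q k a hk hki hkj ha hpq hp.2.2 hq.2 hc.2.2
      · rw [mem_filter] at hc
        exact noBoth x p q k' a' hk' hki' hkj' ha' hpq hp.2.2 hq.2 hc.2.2
    rcases hadj (s i) (s j) (s i * x i) (hs i) (hs j) q p p' hpp hqn
      (mem_filter.mp hp).2.1 (mem_filter.mp hp').2.1 with h | h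
    · exact fin p hp h
    · exact fin p' hp' h
  intro x hx k hk a ha k' hk' a' ha' h1 h2
  rw [mem_sdiff, mem_singleton] at hk hk'
  by_cases hki : k = i
  · subst hki
    by_cases hki' : k' = k
    · subst hki'
      refine ⟨rfl, ?_⟩
      by_contra hne
      obtain ⟨u, hu, -⟩ := hyp_line (T := T \ {j}) hs c (k := k')
        (mem_sdiff.mpr ⟨hi, by rw [mem_singleton]; exact hij⟩) x
      have hu3 : u = x k' ∨ u = a ∨ u = a' := by
        revert ha ha' hne
        generalize x k' = b
        clear hu h1 h2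
        revert u a a' b; decide
      have hin : Function.update x k' u ∈ mergeSet s k' j W := by
        rcases hu3 with h | h | h
        · rw [h, Function.update_eq_self]; exact hx
        · rw [h]; exact h1
        · rw [h]; exact h2
      have : Function.update x k' u ∈ mergeSet s k' j W ∩ hyp (T \ {j}) s c := mem_inter.mpr ⟨hin, hu⟩
      rw [hav] at this
      exact absurd this (by simp)
    · exact (caseMix x hx a ha k' hk'.1 hki' hk'.2 a' ha' h1 h2).elim
  · by_cases hki' : k' = i
    · subst hki'
      exact (caseMix x hx a' ha' k hk.1 hki hk.2 a ha h2 h1).elim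
    · exact caseOut x hx k hk.1 hki hk.2 a ha k' hk'.1 hki' hk'.2 a' ha' h1 h2

end HT13
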