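import Pool.Agent.HT13.Merge

/-! # HT13-MergeExc: the excess does not decrease under merging (paper: section 8, (Mg)) -/

set_option linter.unusedSectionVars false

namespace HT13

open Finset

variable {ι : Type} [Fintype ι] [DecidableEq ι]

private lemma mul_self_one : ∀ a : ZMod 3, a ≠ 0 → a * a = 1 := by decide

/-- number of points of `W` in the class `β` of the plane of `x` -/
private def cn (s : ι → ZMod 3) (i j : ι) (W : Finset (ι → ZMod 3)) (x : ι → ZMod 3) (β : ZMod 3) : ℕ :=
  (univ.filter fun u : ZMod 3 =>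
    Function.update (Function.update x i u) j (s j * (β - s i * u)) ∈ W).card

/-- number of points of `W` in the plane of `x` -/
private def wn (i j : ι) (W : Finset (ι → ZMod 3)) (x : ι → ZMod 3) : ℕ :=
  (univ.filter fun p : ZMod 3 × ZMod 3 => Function.update (Function.update x i p.1) j p.2 ∈ W).card

private lemma cn_le (s : ι → ZMod 3) (i j : ι) (W : Finset (ι → ZMod 3)) (x : ι → ZMod 3) (β : ZMod 3) :
    cn s i j W x β ≤ 3 := by
  unfold cn
  exact (card_filter_le _ _).trans (by rw [card_univ, ZMod.card])

private lemma cn_three {s : ι → ZMod 3} {i j : ι} {W : Finset (ι → ZMod 3)} {x : ι → ZMod 3} {β : ZMod 3}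
    (h : cn s i j W x β = 3) (u : ZMod 3) :
    Function.update (Function.update x i u) j (s j * (β - s i * u)) ∈ W := by
  unfold cn at h
  have h1 : (univ.filter fun u : ZMod 3 =>
    Function.update (Function.update x i u) j (s j * (β - s i * u)) ∈ W) = univ := by
    apply eq_univ_of_card
    rw [h, ZMod.card]
  have h2 : u ∈ (univ.filter fun u : ZMod 3 =>
    Function.update (Function.update x i u) j (s j * (β - s i * u)) ∈ W) := by rw [h1]; exact mem_univ u
  exact (mem_filter.1 h2).2

private lemma sol_bij {a b : ZMod 3} (hb : b ≠ 0) (u : ZMod 3) :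
    Function.Bijective (fun β : ZMod 3 => b * (β - a * u)) := by
  have hb1 := mul_self_one b hb
  refine ⟨fun β β' h => ?_, fun v => ⟨b * v + a * u, ?_⟩⟩
  · have h' : b * (b * (β - a * u)) = b * (b * (β' - a * u)) := congrArg (b * ·) h
    rw [← mul_assoc, ← mul_assoc, hb1, one_mul, one_mul] at h'
    exact sub_left_injective h'
  · show b * (b * v + a * u - a * u) = v
    rw [add_sub_cancel_right, ← mul_assoc, hb1, one_mul]

private lemma wn_eq {s : ι → ZMod 3} (hs : Sgn s) (i j : ι) (W : Finset (ι → ZMod 3)) (x : ι → ZMod 3) :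
    wn i j W x = cn s i j W x 0 + cn s i j W x 1 + cn s i j W x 2 := by
  have h1 : wn i j W x = ∑ β : ZMod 3, cn s i j W x β := by
    unfold wn cn
    simp only [card_filter]
    rw [sum_comm, ← univ_product_univ, sum_product]
    refine sum_congr rfl fun u _ => ?_
    exact ((sol_bij (a := s i) (hs j) u).sum_comp
      (fun v => if Function.update (Function.update x i u) j v ∈ W then 1 else 0)).symm
  rw [h1]
  exact Fin.sum_univ_three _

private lemma cls_eq {s : ι → ZMod 3} (hs : Sgn s) (i j : ι) (W : Finset (ι → ZMod 3)) (x : ι → ZMod 3)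
    (β : ZMod 3) :
    (univ.filter fun p : ZMod 3 × ZMod 3 => s i * p.1 + s j * p.2 = β ∧
      Function.update (Function.update x i p.1) j p.2 ∈ W).card = cn s i j W x β := by
  have hb1 := mul_self_one (s j) (hs j)
  unfold cn
  refine card_bij (fun p _ => p.1) ?_ ?_ ?_
  · rintro ⟨u, v⟩ hp
    simp only [mem_filter, mem_univ, true_and] at hp ⊢
    obtain ⟨h1, h2⟩ := hp
    have : s j * (β - s i * u) = v := by
      rw [← h1, add_sub_cancel_left, ← mul_assoc, hb1, one_mul]
    rw [this]
    exact h2
  · rintro ⟨u, v⟩ hp ⟨u', v'⟩ hp' h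
    simp only [mem_filter, mem_univ, true_and] at hp hp' h
    subst h
    have h1 : s j * (s j * v) = s j * (s j * v') := by
      have : s i * u + s j * v = s i * u + s j * v' := by rw [hp.1, hp'.1]
      rw [add_left_cancel this]
    rw [← mul_assoc, ← mul_assoc, hb1, one_mul, one_mul] at h1
    rw [h1]
  · intro u hu
    simp only [mem_filter, mem_univ, true_and] at hu
    refine ⟨(u, s j * (β - s i * u)), ?_, rfl⟩
    simp only [mem_filter, mem_univ, true_and]
    refine ⟨?_, hu⟩
    rw [← mul_assoc, hb1, one_mul]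
    ring

private lemma mem_merge {s : ι → ZMod 3} (hs : Sgn s) {i j : ι} (_hij : i ≠ j) (W : Finset (ι → ZMod 3))
    (x : ι → ZMod 3) (a : ZMod 3) :
    Function.update x i a ∈ mergeSet s i j W ↔ 3 ≤ wn i j W x ∧ 2 ≤ cn s i j W x (s i * a) := by
  unfold mergeSet
  rw [← cls_eq hs i j W x (s i * a)]
  simp only [mem_filter, mem_univ, true_and, Function.update_idem, Function.update_self, wn]

private lemma no_adj {T : Finset ι} {i j : ι} (hi : i ∈ T) (hj : j ∈ T) (hij : i ≠ j)
    {W : Finset (ι → ZMod 3)} (hV : Valid T W) {s : ι → ZMod 3} (hs : Sgn s) (x : ι → ZMod 3)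
    {α β : ZMod 3} (hαβ : α ≠ β) (hα : 1 ≤ cn s i j W x α) : cn s i j W x β ≠ 3 := by
  intro hβ
  have hi1 := mul_self_one (s i) (hs i)
  have hj1 := mul_self_one (s j) (hs j)
  unfold cn at hα
  obtain ⟨u, hu⟩ := card_pos.1 hα
  simp only [mem_filter, mem_univ, true_and] at hu
  set v := s j * (α - s i * u) with hv
  have hsv : s j * v = α - s i * u := by rw [hv, ← mul_assoc, hj1, one_mul]
  -- the neighbour in direction j
  have n1 : Function.update (Function.update (Function.update x i u) j v) j (s j * (β - s i * u)) ∈ W := by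
    rw [Function.update_idem]
    exact cn_three hβ u
  -- the neighbour in direction i
  have n2 : Function.update (Function.update (Function.update x i u) j v) i (s i * (β - s j * v)) ∈ W := by
    have h1 := cn_three hβ (s i * (β - s j * v))
    have h2 : s j * (β - s i * (s i * (β - s j * v))) = v := by
      rw [← mul_assoc (s i), hi1, one_mul, sub_sub_cancel, ← mul_assoc, hj1, one_mul]
    rw [h2] at h1
    rw [Function.update_comm hij.symm, Function.update_idem]
    exact h1
  have hvj : (Function.update (Function.update x i u) j v) j = v := Function.update_self _ _ _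
  have hvi : (Function.update (Function.update x i u) j v) i = u := by
    rw [Function.update_of_ne hij, Function.update_self]
  refine hij (hV _ hu i hi (s i * (β - s j * v)) ?_ j hj (s j * (β - s i * u)) ?_ n2 n1).1
  · rw [hvi]
    intro h
    apply hαβ
    have h3 : s i * (s i * (β - s j * v)) = s i * u := by rw [h]
    rw [← mul_assoc, hi1, one_mul, hsv] at h3
    have h4 : β - α = 0 := by linear_combination h3
    exact (sub_eq_zero.1 h4).symm
  · rw [hvj]
    intro h
    apply hαβ
    have h3 : s j * (s j * (β - s i * u)) = s j * v := by rw [h]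
    rw [← mul_assoc, hj1, one_mul, hsv] at h3
    exact (sub_left_injective h3).symm

private lemma exists_avoid {T : Finset ι} {i j : ι} (hi : i ∈ T) (hj : j ∈ T) (hij : i ≠ j)
    {W : Finset (ι → ZMod 3)} {s : ι → ZMod 3} (hs : Sgn s) {c : ZMod 3} (h : W ∩ hyp T s c = ∅)
    (x : ι → ZMod 3) : ∃ γ, cn s i j W x γ = 0 := by
  have hj1 := mul_self_one (s j) (hs j)
  refine ⟨c - ∑ k ∈ (T.erase i).erase j, s k * x k, ?_⟩
  unfold cn
  rw [card_eq_zero, filter_eq_empty_iff]
  intro u _ hu
  have hj' : j ∈ T.erase i := mem_erase.2 ⟨hij.symm, hj⟩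
  have : Function.update (Function.update x i u) j
      (s j * (c - ∑ k ∈ (T.erase i).erase j, s k * x k - s i * u)) ∈ W ∩ hyp T s c := by
    rw [mem_inter, mem_hyp]
    refine ⟨hu, ?_⟩
    rw [← add_sum_erase T _ hi, ← add_sum_erase (T.erase i) _ hj']
    rw [Function.update_of_ne hij, Function.update_self, Function.update_self, ← mul_assoc, hj1, one_mul]
    have e : ∑ k ∈ (T.erase i).erase j, s k * (Function.update (Function.update x i u) j
        (s j * (c - ∑ k ∈ (T.erase i).erase j, s k * x k - s i * u))) k =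
        ∑ k ∈ (T.erase i).erase j, s k * x k := by
      refine sum_congr rfl fun k hk => ?_
      have hk1 : k ≠ j := (mem_erase.1 hk).1
      have hk2 : k ≠ i := (mem_erase.1 (mem_erase.1 hk).2).1
      rw [Function.update_of_ne hk1, Function.update_of_ne hk2]
    rw [e]
    ring
  rw [h] at this
  exact notMem_empty _ this

private lemma plane_le {T : Finset ι} {i j : ι} (hi : i ∈ T) (hj : j ∈ T) (hij : i ≠ j)
    {W : Finset (ι → ZMod 3)} (hV : Valid T W) {s : ι → ZMod 3} (hs : Sgn s) {c : ZMod 3}
    (h : W ∩ hyp T s c = ∅) (x : ι → ZMod 3) :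
    wn i j W x ≤ (univ.filter fun a : ZMod 3 => Function.update x i a ∈ mergeSet s i j W).card + 2 := by
  by_cases hw : wn i j W x ≤ 2
  · omega
  have hi1 := mul_self_one (s i) (hs i)
  have e1 : (univ.filter fun a : ZMod 3 => Function.update x i a ∈ mergeSet s i j W).card =
      (univ.filter fun β : ZMod 3 => 2 ≤ cn s i j W x β).card := by
    refine card_bij (fun a _ => s i * a) ?_ ?_ ?_
    · intro a ha
      simp only [mem_filter, mem_univ, true_and] at ha ⊢
      exact ((mem_merge hs hij W x a).1 ha).2
    · intro a _ b _ hab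
      have : s i * (s i * a) = s i * (s i * b) := by rw [hab]
      rw [← mul_assoc, ← mul_assoc, hi1, one_mul, one_mul] at this
      exact this
    · intro β hβ
      simp only [mem_filter, mem_univ, true_and] at hβ
      refine ⟨s i * β, ?_, by rw [← mul_assoc, hi1, one_mul]⟩
      simp only [mem_filter, mem_univ, true_and]
      rw [mem_merge hs hij W x]
      refine ⟨by omega, ?_⟩
      rw [← mul_assoc, hi1, one_mul]
      exact hβ
  have e2 : (univ.filter fun β : ZMod 3 => 2 ≤ cn s i j W x β).card =
      (if 2 ≤ cn s i j W x 0 then 1 else 0) + (if 2 ≤ cn s i j W x 1 then 1 else 0) +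
      (if 2 ≤ cn s i j W x 2 then 1 else 0) := by
    rw [card_filter]
    exact Fin.sum_univ_three _
  rw [e1, e2]
  have e3 := wn_eq hs i j W x
  have l0 := cn_le s i j W x 0
  have l1 := cn_le s i j W x 1
  have l2 := cn_le s i j W x 2
  have a01 := no_adj hi hj hij hV hs x (show (0 : ZMod 3) ≠ 1 by decide)
  have a10 := no_adj hi hj hij hV hs x (show (1 : ZMod 3) ≠ 0 by decide)
  have a02 := no_adj hi hj hij hV hs x (show (0 : ZMod 3) ≠ 2 by decide)
  have a20 := no_adj hi hj hij hV hs x (show (2 : ZMod 3) ≠ 0 by decide)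
  have a12 := no_adj hi hj hij hV hs x (show (1 : ZMod 3) ≠ 2 by decide)
  have a21 := no_adj hi hj hij hV hs x (show (2 : ZMod 3) ≠ 1 by decide)
  have av : cn s i j W x 0 = 0 ∨ cn s i j W x 1 = 0 ∨ cn s i j W x 2 = 0 := by
    obtain ⟨γ, hγ⟩ := exists_avoid hi hj hij hs h x
    have h3 : ∀ γ : ZMod 3, γ = 0 ∨ γ = 1 ∨ γ = 2 := by decide
    rcases h3 γ with rfl | rfl | rfl
    · exact Or.inl hγ
    · exact Or.inr (Or.inl hγ)
    · exact Or.inr (Or.inr hγ)
  generalize cn s i j W x 0 = n0 at *
  generalize cn s i j W x 1 = n1 at *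
  generalize cn s i j W x 2 = n2 at *
  rw [e3]
  split_ifs <;> omega

/-- In every plane `|W ∩ P| - 3 ≤ (number of classes of P in W') - 1`; average over the planes and multiply by
`3 ^ (|T| - 2)`. -/
theorem exc_le_mergeSet {T : Finset ι} {i j : ι} (hi : i ∈ T) (hj : j ∈ T) (hij : i ≠ j) {W : Finset (ι → ZMod 3)}
    (hI : Inv T W) (hV : Valid T W) {s : ι → ZMod 3} (hs : Sgn s) {c : ZMod 3} (h : W ∩ hyp T s c = ∅) :
    exc T W ≤ exc (T \ {j}) (mergeSet s i j W) := by
  have hcard : T.card = (T \ {j}).card + 1 := by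
    rw [sdiff_singleton_eq_erase, card_erase_add_one hj]
  have hW : dens W = avR (fun x => (wn i j W x : ℝ) / 9) := by
    rw [dens_eq_avR, ← avR_line _ j, ← avR_line _ i]
    congr 1
    ext x
    have : (wn i j W x : ℝ) = ∑ u : ZMod 3, ∑ v : ZMod 3,
        if Function.update (Function.update x i u) j v ∈ W then (1 : ℝ) else 0 := by
      unfold wn
      rw [card_filter, ← univ_product_univ, sum_product]
      push_cast
      rfl
    rw [this, ← sum_div, div_div]
    norm_num
  have hW' : dens (mergeSet s i j W) = avR (fun x => ((univ.filter fun a : ZMod 3 =>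
      Function.update x i a ∈ mergeSet s i j W).card : ℝ) / 3) := by
    rw [dens_eq_avR, ← avR_line _ i]
    congr 1
    ext x
    rw [card_filter]
    push_cast
    rfl
  have key : 3 * dens W ≤ dens (mergeSet s i j W) + 2 / 3 := by
    rw [hW, hW', ← avR_const_mul, ← avR_const (ι := ι) (2 / 3), ← avR_add]
    refine avR_mono fun x => ?_
    have h1 := plane_le hi hj hij hV hs h x
    have h2 : (wn i j W x : ℝ) ≤ ((univ.filter fun a : ZMod 3 =>
      Function.update x i a ∈ mergeSet s i j W).card : ℝ) + 2 := by exact_mod_cast h1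
    linarith
  unfold exc
  rw [hcard, pow_succ]
  have h3 : (0 : ℝ) < 3 ^ (T \ {j}).card := by positivity
  nlinarith

end HT13
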