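import Pool.Agent.HT13.PExists
import Pool.Agent.HT13.HypDefect

/-! # HT13-PConc: a large full coefficient gives a hyperplane (paper: section 2) -/

set_option linter.unusedSectionVars false

namespace HT13

open Finset

private theorem pc_sum3 {M : Type} [AddCommMonoid M] (f : ZMod 3 → M) : ∑ c, f c = f 0 + f 1 + f 2 :=
  Fin.sum_univ_three f

/-- maximum at the first variable -/
private theorem pc_core {x y z r : ℝ} (hx : 0 ≤ x) (hy : 0 ≤ y) (hz : 0 ≤ z) (h0 : 0 ≤ r) (h1 : r ≤ 1 / 1000)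
    (hyx : y ≤ x) (hzx : z ≤ x) (hP : x + y + z ≤ 1 / 3 + r ^ 2 / 3)
    (hQ : (1 / 3 - 6 * (4 / 9 * r)) ^ 2 ≤ (x + y + z) ^ 2 - 3 * (x * y + y * z + z * x)) :
    y + z ≤ 10 * r ∧ 1 / 3 - x ≤ 13 * r := by
  have hyz : 0 ≤ y * z := mul_nonneg hy hz
  have hxy : 0 ≤ x * (y + z) := mul_nonneg hx (add_nonneg hy hz)
  have hr2 : r ^ 2 ≤ r / 1000 := by nlinarith
  -- lower bound for the total
  have hlow : 1 / 3 - 8 / 3 * r ≤ x + y + z := by
    have hs : (1 / 3 - 6 * (4 / 9 * r)) ^ 2 ≤ (x + y + z) ^ 2 := by nlinarith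
    have := abs_le_of_sq_le_sq' hs (by positivity)
    linarith [this.2]
  have hxl : 1 / 10 ≤ x := by nlinarith
  have hsum : 3 * (x * (y + z)) ≤ 2 * r := by
    have h3 : (x + y + z) ^ 2 ≤ (1 / 3 + r ^ 2 / 3) ^ 2 := by
      apply pow_le_pow_left₀ (by positivity) hP
    nlinarith
  have h5 : y + z ≤ 10 * r := by nlinarith
  exact ⟨h5, by linarith⟩

/-- Real-number part.  `p_c ≥ 0`, `∑ p = P ≤ 1/3 + R/3`, `P² - 3 (p0 p1 + p1 p2 + p2 p0) ≥ (1/3 - 6 * (4/9) r)²`, `r² = R`: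
then for some `c` the other two have sum `≤ C r`, and `1/3 - p_c ≤ C r`. -/
theorem conc_real : ∃ C : ℝ, 0 < C ∧ ∀ (p : ZMod 3 → ℝ) (r : ℝ), (∀ c, 0 ≤ p c) → 0 ≤ r → r ≤ 1 / 1000 →
    ∑ c, p c ≤ 1 / 3 + r ^ 2 / 3 →
    (1 / 3 - 6 * (4 / 9 * r)) ^ 2 ≤ (∑ c, p c) ^ 2 - 3 * (p 0 * p 1 + p 1 * p 2 + p 2 * p 0) →
    ∃ c, (∑ c, p c) - p c ≤ C * r ∧ 1 / 3 - p c ≤ C * r := by
  refine ⟨13, by norm_num, ?_⟩
  intro p r hp h0 h1 hP hQ
  rw [pc_sum3] at hP hQ ⊢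
  by_cases h01 : p 1 ≤ p 0
  · by_cases h02 : p 2 ≤ p 0
    · obtain ⟨ha, hb⟩ := pc_core (hp 0) (hp 1) (hp 2) h0 h1 h01 h02 hP hQ
      exact ⟨0, by linarith, hb⟩
    · have h20 : p 0 ≤ p 2 := (not_le.1 h02).le
      obtain ⟨ha, hb⟩ := pc_core (hp 2) (hp 0) (hp 1) h0 h1 h20 (h01.trans h20) (by linarith)
        (by linarith [hQ, show (p 2 + p 0 + p 1) ^ 2 - 3 * (p 2 * p 0 + p 0 * p 1 + p 1 * p 2)
          = (p 0 + p 1 + p 2) ^ 2 - 3 * (p 0 * p 1 + p 1 * p 2 + p 2 * p 0) by ring])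
      exact ⟨2, by linarith, hb⟩
  · have h10 : p 0 ≤ p 1 := (not_le.1 h01).le
    by_cases h12 : p 2 ≤ p 1
    · obtain ⟨ha, hb⟩ := pc_core (hp 1) (hp 2) (hp 0) h0 h1 h12 h10 (by linarith)
        (by linarith [hQ, show (p 1 + p 2 + p 0) ^ 2 - 3 * (p 1 * p 2 + p 2 * p 0 + p 0 * p 1)
          = (p 0 + p 1 + p 2) ^ 2 - 3 * (p 0 * p 1 + p 1 * p 2 + p 2 * p 0) by ring])
      exact ⟨1, by linarith, hb⟩
    · have h21 : p 1 ≤ p 2 := (not_le.1 h12).le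
      obtain ⟨ha, hb⟩ := pc_core (hp 2) (hp 0) (hp 1) h0 h1 (h10.trans h21) h21 (by linarith)
        (by linarith [hQ, show (p 2 + p 0 + p 1) ^ 2 - 3 * (p 2 * p 0 + p 0 * p 1 + p 1 * p 2)
          = (p 0 + p 1 + p 2) ^ 2 - 3 * (p 0 * p 1 + p 1 * p 2 + p 2 * p 0) by ring])
      exact ⟨2, by linarith, hb⟩

/-- the squared norm of `∑ p_c ω^(-c)` -/
private theorem pc_norm (p : ZMod 3 → ℝ) :
    ‖∑ c : ZMod 3, (p c : ℂ) * ee (-c)‖ ^ 2 = (∑ c, p c) ^ 2 - 3 * (p 0 * p 1 + p 1 * p 2 + p 2 * p 0) := by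
  have e1 : (-1 : ZMod 3) = 2 := by decide
  have e2 : (-2 : ZMod 3) = 1 := by decide
  rw [pc_sum3, pc_sum3, neg_zero, e1, e2, ee_zero, mul_one]
  have hr1 : (ee 1).re = -1 / 2 := by rw [ee_re, if_neg (by decide)]
  have hr2 : (ee 2).re = -1 / 2 := by rw [ee_re, if_neg (by decide)]
  have hi : (ee 2).im = -(ee 1).im := by
    have := conj_ee 1
    rw [e1] at this
    rw [← this, Complex.conj_im]
  have hn : (ee 1).im ^ 2 = 3 / 4 := by
    have h := norm_ee 1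
    have h2 : ‖ee 1‖ ^ 2 = 1 := by rw [h]; norm_num
    rw [← Complex.normSq_eq_norm_sq, Complex.normSq_apply, hr1] at h2
    nlinarith
  rw [← Complex.normSq_eq_norm_sq, Complex.normSq_apply]
  simp only [Complex.add_re, Complex.add_im, Complex.mul_re, Complex.mul_im, Complex.ofReal_re,
    Complex.ofReal_im, hr1, hr2, hi]
  ring_nf
  rw [hn]
  ring

variable {ι : Type} [Fintype ι] [DecidableEq ι]

private theorem pc_ind_sum {T : Finset ι} (W : Finset (ι → ZMod 3)) {a s : ι → ZMod 3} (ha : Full T a)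
    (hsa : ∀ k ∈ T, s k = a k) (x : ι → ZMod 3) :
    ind W x * (starRingEnd ℂ) (chi a x) = ∑ c : ZMod 3, ee (-c) * (((if x ∈ W ∩ hyp T s c then (1 : ℝ) else 0) : ℝ) : ℂ) := by
  have h1 : (∑ k, a k * x k) = ∑ k ∈ T, s k * x k := by
    rw [← Finset.sum_subset (subset_univ T) (fun k _ hk => by rw [ha.2 k hk, zero_mul])]
    exact Finset.sum_congr rfl fun k hk => by rw [hsa k hk]
  rw [Finset.sum_eq_single (∑ k ∈ T, s k * x k)]
  · unfold chi ind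
    rw [conj_ee, h1]
    by_cases hx : x ∈ W
    · rw [if_pos hx, if_pos (mem_inter.2 ⟨hx, mem_hyp.2 rfl⟩)]
      push_cast
      ring
    · rw [if_neg hx, if_neg (fun h => hx (mem_inter.1 h).1)]
      push_cast
      ring
  · intro c _ hc
    rw [if_neg (fun h => hc (mem_hyp.1 (mem_inter.1 h).2).symm)]
    push_cast
    ring
  · intro h
    exact absurd (mem_univ _) h

/-- `p_c = dens (W ∩ hyp T s c)` with `s = a` on `T` (and `1` outside, so that `Sgn s`).  For `T ≠ ∅`, `a` full: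
`fh (fW W) a = ∑_c p_c * ee (-c)` (the constant contributes `0`), and
`‖∑ p_c ee (-c)‖² = (∑ p)² - 3 (p0 p1 + p1 p2 + p2 p0)`. -/
theorem norm_fh_full {T : Finset ι} (hT : T.Nonempty) (W : Finset (ι → ZMod 3)) {a s : ι → ZMod 3} (ha : Full T a)
    (hsa : ∀ k ∈ T, s k = a k) :
    ‖fh (fW W) a‖ ^ 2 = (∑ c, dens (W ∩ hyp T s c)) ^ 2
      - 3 * (dens (W ∩ hyp T s 0) * dens (W ∩ hyp T s 1) + dens (W ∩ hyp T s 1) * dens (W ∩ hyp T s 2)
        + dens (W ∩ hyp T s 2) * dens (W ∩ hyp T s 0)) := by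
  rw [← pc_norm (fun c => dens (W ∩ hyp T s c))]
  congr 2
  have ha0 : a ≠ 0 := by
    intro h
    obtain ⟨k, hk⟩ := hT
    exact ha.1 k hk (by rw [h]; rfl)
  have h1 : fh (fW W) a = fh (ind W) a - fh (fun _ => (1 / 3 : ℂ)) a := by
    rw [← fh_sub]
    rfl
  rw [h1, fh_const, if_neg ha0, sub_zero]
  have h2 : fh (ind W) a = avC (fun x => ∑ c : ZMod 3,
      ee (-c) * (((if x ∈ W ∩ hyp T s c then (1 : ℝ) else 0) : ℝ) : ℂ)) := by
    unfold fh
    congr 1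
    funext x
    exact pc_ind_sum W ha hsa x
  rw [h2, avC_sum]
  refine Finset.sum_congr rfl fun c _ => ?_
  rw [avC_const_mul, avC_ofReal, ← dens_eq_avR]
  ring

private theorem pc_sum_dens (T : Finset ι) (s : ι → ZMod 3) (W : Finset (ι → ZMod 3)) :
    ∑ c, dens (W ∩ hyp T s c) = dens W := by
  have h : (fun c : ZMod 3 => dens (W ∩ hyp T s c)) =
      fun c => avR (fun x => if x ∈ W ∩ hyp T s c then (1 : ℝ) else 0) := by
    funext c
    exact dens_eq_avR _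
  rw [h, ← avR_sum, dens_eq_avR]
  congr 1
  funext x
  rw [Finset.sum_eq_single (∑ k ∈ T, s k * x k)]
  · by_cases hx : x ∈ W
    · rw [if_pos hx, if_pos (mem_inter.2 ⟨hx, mem_hyp.2 rfl⟩)]
    · rw [if_neg hx, if_neg (fun h => hx (mem_inter.1 h).1)]
  · intro c _ hc
    rw [if_neg (fun h => hc (mem_hyp.1 (mem_inter.1 h).2).symm)]
  · intro h
    exact absurd (mem_univ _) h

theorem P_conc : ∃ C : ℝ, 0 < C ∧
    ∀ {ι : Type} [Fintype ι] [DecidableEq ι] (T : Finset ι) (W : Finset (ι → ZMod 3)), T.Nonempty → Inv T W →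
    (∀ k ∈ T, ∀ x, lc W k x ≤ 2) → RR T W ≤ 1 / 1000000 →
    ∀ a, Full T a → 1 / 3 - 6 * (4 / 9 * √(RR T W)) ≤ ‖fh (fW W) a‖ →
    ∃ s : ι → ZMod 3, Sgn s ∧ ∃ c, dens (symmDiff W (hyp T s c)) ≤ C * √(RR T W) := by
  obtain ⟨C, hC, hreal⟩ := conc_real
  refine ⟨2 * C, by positivity, ?_⟩
  intro ι _ _ T W hT hI h hR a ha hbig
  set s : ι → ZMod 3 := fun k => if k ∈ T then a k else 1 with hs
  have hsg : Sgn s := by
    intro k
    rw [hs]
    beta_reduce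
    split_ifs with hk
    · exact ha.1 k hk
    · decide
  have hsa : ∀ k ∈ T, s k = a k := fun k hk => by rw [hs]; beta_reduce; rw [if_pos hk]
  set r := √(RR T W) with hr
  have hr0 : 0 ≤ r := Real.sqrt_nonneg _
  have hr2 : r ^ 2 = RR T W := Real.sq_sqrt (RR_nonneg T W)
  have hr1 : r ≤ 1 / 1000 := by
    rw [hr]
    apply Real.sqrt_le_iff.2
    constructor
    · norm_num
    · refine hR.trans ?_
      norm_num
  have hdens : dens W ≤ 1 / 3 + r ^ 2 / 3 := by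
    obtain ⟨k, hk⟩ := hT
    have h3 := three_dens (h k hk)
    have h4 := rho_eq (h k hk)
    have h5 : 0 ≤ zz W k := dens_nonneg _
    have h6 : rho W k ≤ RR T W := by
      unfold RR
      exact Finset.single_le_sum (f := fun k => rho W k) (fun k _ => rho_nonneg W k) hk
    rw [hr2]
    linarith
  have hnorm := norm_fh_full hT W ha hsa
  have hsq : (1 / 3 - 6 * (4 / 9 * r)) ^ 2 ≤ ‖fh (fW W) a‖ ^ 2 := by
    apply pow_le_pow_left₀ _ hbig
    linarith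
  rw [hnorm] at hsq
  obtain ⟨c, hc1, hc2⟩ := hreal (fun c => dens (W ∩ hyp T s c)) r (fun c => dens_nonneg _) hr0 hr1
    (by rw [pc_sum_dens]; exact hdens) hsq
  rw [pc_sum_dens] at hc1
  refine ⟨s, hsg, c, ?_⟩
  rw [dens_symmDiff]
  have h7 := dens_sdiff_add_inter W (hyp T s c)
  have h8 := dens_sdiff_add_inter (hyp T s c) W
  rw [dens_hyp hT hsg c, inter_comm] at h8
  linarith

end HT13
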