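import Pool.Agent.HT13.FourLine

/-! # HT13-PDich: the dichotomy in Lemma P (paper: section 2) -/

set_option linter.unusedSectionVars false

namespace HT13

open Finset

variable {ι : Type} [Fintype ι] [DecidableEq ι]

/-- `f = 1_W - 1/3` -/
noncomputable def fW (W : Finset (ι → ZMod 3)) (x : ι → ZMod 3) : ℂ := ind W x - 1 / 3

/-- `a` is a full frequency for `T` -/
def Full (T : Finset ι) (a : ι → ZMod 3) : Prop := (∀ k ∈ T, a k ≠ 0) ∧ ∀ k, k ∉ T → a k = 0

/-- The frequencies having a zero in `T` carry little mass: `≤ energy = R/9` (`energy_ind`). -/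
theorem mass_zero_le {T : Finset ι} {W : Finset (ι → ZMod 3)} (h : ∀ k ∈ T, ∀ x, lc W k x ≤ 2) :
    ∑ a ∈ univ.filter (fun a : ι → ZMod 3 => ∃ k ∈ T, a k = 0), ‖fh (fW W) a‖ ^ 2 ≤ RR T W / 9 := by
  rw [← energy_ind h]
  unfold energy
  refine (sum_le_sum (g := fun a => ‖fh (fun x => ind W x - 1 / 3) a‖ ^ 2 *
    ((T.filter fun k => a k = 0).card : ℝ)) ?_).trans ?_
  · intro a ha
    rw [mem_filter] at ha
    obtain ⟨_, k, hk, hak⟩ := ha
    have h1 : 1 ≤ (T.filter fun k => a k = 0).card :=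
      card_pos.2 ⟨k, mem_filter.2 ⟨hk, hak⟩⟩
    have h2 : (1 : ℝ) ≤ ((T.filter fun k => a k = 0).card : ℝ) := by exact_mod_cast h1
    exact le_mul_of_one_le_right (sq_nonneg _) h2
  · exact sum_le_sum_of_subset_of_nonneg (filter_subset _ _)
      (fun _ _ _ => mul_nonneg (sq_nonneg _) (Nat.cast_nonneg _))

private theorem pd_fW_cases (W : Finset (ι → ZMod 3)) (x : ι → ZMod 3) : fW W x = 2 / 3 ∨ fW W x = -1 / 3 := by
  unfold fW ind
  split_ifs
  · left; norm_num
  · right; norm_num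

private theorem pd_sq (W : Finset (ι → ZMod 3)) (x : ι → ZMod 3) :
    fW W x * fW W x = 1 / 3 * fW W x + 2 / 9 := by
  rcases pd_fW_cases W x with h | h <;> rw [h] <;> norm_num

private theorem pd_norm (W : Finset (ι → ZMod 3)) (x : ι → ZMod 3) : ‖fW W x‖ ^ 2 ≤ 4 / 9 := by
  rcases pd_fW_cases W x with h | h
  · rw [h]
    have : (2 / 3 : ℂ) = ((2 / 3 : ℝ) : ℂ) := by push_cast; ring
    rw [this, Complex.norm_real, Real.norm_eq_abs, sq_abs]
    norm_num
  · rw [h]
    have : (-1 / 3 : ℂ) = ((-1 / 3 : ℝ) : ℂ) := by push_cast; ring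
    rw [this, Complex.norm_real, Real.norm_eq_abs, sq_abs]
    norm_num

private theorem pd_real (W : Finset (ι → ZMod 3)) (x : ι → ZMod 3) :
    (starRingEnd ℂ) (fW W x) = fW W x := by
  have h3 : (starRingEnd ℂ) 3 = 3 := map_ofNat _ 3
  unfold fW ind
  split_ifs <;> simp [h3]

private theorem pd_mass (W : Finset (ι → ZMod 3)) : ∑ a, ‖fh (fW W) a‖ ^ 2 ≤ 4 / 9 := by
  rw [parseval, ← avR_const (ι := ι) (4 / 9)]
  exact avR_mono (pd_norm W)

/-- the coefficient of the square, by the linear relation -/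
private theorem pd_lin (W : Finset (ι → ZMod 3)) {a : ι → ZMod 3} (ha : a ≠ 0) :
    fh (fun x => fW W x * fW W x) a = fh (fW W) a / 3 := by
  have h1 : (fun x => fW W x * fW W x) = fun x => 1 / 3 * fW W x + 2 / 9 := by
    funext x
    exact pd_sq W x
  rw [h1, fh_add (fun x => 1 / 3 * fW W x) (fun _ => 2 / 9), fh_const_mul, fh_const, if_neg ha]
  ring

/-- the coefficient of the square, as a convolution -/
private theorem pd_conv (f : (ι → ZMod 3) → ℂ) (a : ι → ZMod 3) :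
    fh (fun x => f x * f x) a = ∑ t, fh f (t - a) * fh f (-t - a) := by
  have h1 : fh (fun x => f x * f x) a = avC (fun x => (f x * chi a x) * (f x * chi a x)) := by
    unfold fh
    congr 1
    funext x
    have h2 : (starRingEnd ℂ) (chi a x) = chi a x * chi a x := by
      rw [conj_chi, ← chi_add_left]
      congr 1
      funext k
      have h3 : ∀ b : ZMod 3, -b = b + b := by decide
      exact h3 (a k)
    rw [h2]
    ring
  rw [h1, avC_mul (fun x => f x * chi a x) (fun x => f x * chi a x)]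
  apply sum_congr rfl
  intro t _
  rw [fh_mul_chi, fh_mul_chi]

/-- Cauchy-Schwarz for one of the two sums -/
private theorem pd_cs {T : Finset ι} {W : Finset (ι → ZMod 3)} (h : ∀ k ∈ T, ∀ x, lc W k x ≤ 2)
    (e e' : Equiv.Perm (ι → ZMod 3)) :
    ∑ t, (if ∃ k ∈ T, e t k = 0 then ‖fh (fW W) (e t)‖ else 0) * ‖fh (fW W) (e' t)‖ ≤ 2 / 9 * √(RR T W) := by
  have h0 := RR_nonneg T W
  refine (Real.sum_mul_le_sqrt_mul_sqrt _ _ _).trans ?_
  have h1 : ∑ t, (if ∃ k ∈ T, e t k = 0 then ‖fh (fW W) (e t)‖ else 0) ^ 2 ≤ RR T W / 9 := by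
    rw [Equiv.sum_comp e (fun b => (if ∃ k ∈ T, b k = 0 then ‖fh (fW W) b‖ else 0) ^ 2)]
    refine le_trans (le_of_eq ?_) (mass_zero_le h)
    rw [sum_filter]
    apply sum_congr rfl
    intro b _
    split_ifs
    · rfl
    · simp
  have h2 : ∑ t, ‖fh (fW W) (e' t)‖ ^ 2 ≤ 4 / 9 := by
    rw [Equiv.sum_comp e' (fun b => ‖fh (fW W) b‖ ^ 2)]
    exact pd_mass W
  have h3 : √(∑ t, (if ∃ k ∈ T, e t k = 0 then ‖fh (fW W) (e t)‖ else 0) ^ 2) ≤ √(RR T W) / 3 := by
    rw [Real.sqrt_le_left (by positivity), div_pow, Real.sq_sqrt h0]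
    linarith
  have h4 : √(∑ t, ‖fh (fW W) (e' t)‖ ^ 2) ≤ 2 / 3 := by
    rw [Real.sqrt_le_left (by norm_num)]
    linarith
  calc _ ≤ √(RR T W) / 3 * (2 / 3) := mul_le_mul h3 h4 (Real.sqrt_nonneg _) (by positivity)
    _ = 2 / 9 * √(RR T W) := by ring

/-- `f² = f / 3 + 2 / 9`, so `fh (f²) a = fh f a / 3` for `a ≠ 0`.  On the other hand `fh (f²) a = avC ((f * chi a)²)`
(as `chi (-a) = chi (2 a)`) `= ∑_t fh f (t - a) * fh f (- t - a)`.  The term `t = 0` is `(conj (fh f a))²`.  For `t ≠ 0`: if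
`t k ≠ 0` for some `k ∉ T` then `fh f (t - a) = 0` (`fh_eq_zero_of_inv`); otherwise `t k = a k` or `t k = - a k` for some
`k ∈ T`, so `t - a` or `- t - a` has a zero in `T`, and by Cauchy-Schwarz these terms contribute at most
`2 √(R/9) √(avR ‖f‖²) ≤ 2 * (√R / 3) * (2 / 3)` (`mass_zero_le`, `‖f‖ ≤ 2/3`). -/
theorem P_dich {T : Finset ι} (hT : T.Nonempty) {W : Finset (ι → ZMod 3)} (hI : Inv T W)
    (h : ∀ k ∈ T, ∀ x, lc W k x ≤ 2) {a : ι → ZMod 3} (ha : Full T a) :
    |‖fh (fW W) a‖ / 3 - ‖fh (fW W) a‖ ^ 2| ≤ 4 / 9 * √(RR T W) := by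
  classical
  have ha0 : a ≠ 0 := by
    obtain ⟨k, hk⟩ := hT
    intro hc
    apply ha.1 k hk
    rw [hc]
    rfl
  have h1 := pd_conv (fW W) a
  rw [pd_lin W ha0, ← Finset.add_sum_erase univ _ (mem_univ (0 : ι → ZMod 3))] at h1
  have h2 : fh (fW W) (0 - a) * fh (fW W) (-0 - a) = (starRingEnd ℂ) (fh (fW W) a) ^ 2 := by
    rw [neg_zero, zero_sub, fh_neg_of_real _ (pd_real W)]
    ring
  rw [h2] at h1
  -- norm of the rest
  have h3 : ‖∑ t ∈ univ.erase (0 : ι → ZMod 3), fh (fW W) (t - a) * fh (fW W) (-t - a)‖ ≤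
      4 / 9 * √(RR T W) := by
    let e : Equiv.Perm (ι → ZMod 3) := Equiv.subRight a
    let e' : Equiv.Perm (ι → ZMod 3) := (Equiv.neg (ι → ZMod 3)).trans (Equiv.subRight a)
    have he : ∀ t, e t = t - a := fun t => rfl
    have he' : ∀ t, e' t = -t - a := fun t => rfl
    have hpt : ∀ t ∈ univ.erase (0 : ι → ZMod 3), ‖fh (fW W) (t - a) * fh (fW W) (-t - a)‖ ≤
        (if ∃ k ∈ T, e t k = 0 then ‖fh (fW W) (e t)‖ else 0) * ‖fh (fW W) (e' t)‖ +
        (if ∃ k ∈ T, e' t k = 0 then ‖fh (fW W) (e' t)‖ else 0) * ‖fh (fW W) (e t)‖ := by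
      intro t ht
      have ht0 : t ≠ 0 := (mem_erase.1 ht).1
      rw [norm_mul]
      by_cases hout : ∃ k, k ∉ T ∧ t k ≠ 0
      · obtain ⟨k, hk, htk⟩ := hout
        have h4 : fh (fW W) (t - a) = 0 := by
          apply fh_eq_zero_of_inv (k := k)
          · intro x u
            unfold fW ind
            have h5 : Function.update x k u ∈ W ↔ x ∈ W := by
              apply hI.iff
              intro j hj
              rw [Function.update_of_ne]
              rintro rfl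
              exact hk hj
            simp only [h5]
          · rw [Pi.sub_apply, ha.2 k hk, sub_zero]
            exact htk
        rw [h4, norm_zero, zero_mul]
        positivity
      · push Not at hout
        obtain ⟨k, hk⟩ : ∃ k, t k ≠ 0 := by
          by_contra hcon
          push Not at hcon
          exact ht0 (funext hcon)
        have hkT : k ∈ T := by
          by_contra hc
          exact hk (hout k hc)
        have h6 : ∀ b c : ZMod 3, b ≠ 0 → c ≠ 0 → b - c = 0 ∨ -b - c = 0 := by decide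
        rcases h6 (t k) (a k) hk (ha.1 k hkT) with h7 | h7
        · have h8 : ∃ k ∈ T, e t k = 0 := ⟨k, hkT, h7⟩
          rw [if_pos h8, ← he t, ← he' t]
          have : 0 ≤ (if ∃ k ∈ T, e' t k = 0 then ‖fh (fW W) (e' t)‖ else 0) * ‖fh (fW W) (e t)‖ := by
            positivity
          linarith
        · have h8 : ∃ k ∈ T, e' t k = 0 := ⟨k, hkT, h7⟩
          rw [if_pos h8, ← he t, ← he' t]
          have : 0 ≤ (if ∃ k ∈ T, e t k = 0 then ‖fh (fW W) (e t)‖ else 0) * ‖fh (fW W) (e' t)‖ := by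
            positivity
          rw [mul_comm ‖fh (fW W) (e t)‖ ‖fh (fW W) (e' t)‖]
          linarith
    refine (norm_sum_le _ _).trans ((sum_le_sum hpt).trans ?_)
    refine (sum_le_sum_of_subset_of_nonneg (subset_univ _) (fun _ _ _ => by positivity)).trans ?_
    rw [sum_add_distrib]
    have h9 := pd_cs h e e'
    have h10 := pd_cs h e' e
    linarith
  have h4 : fh (fW W) a / 3 - (starRingEnd ℂ) (fh (fW W) a) ^ 2 =
      ∑ t ∈ univ.erase (0 : ι → ZMod 3), fh (fW W) (t - a) * fh (fW W) (-t - a) := by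
    rw [h1]
    ring
  have h5 := abs_norm_sub_norm_le (fh (fW W) a / 3) ((starRingEnd ℂ) (fh (fW W) a) ^ 2)
  rw [h4] at h5
  have h6 : ‖fh (fW W) a / 3‖ = ‖fh (fW W) a‖ / 3 := by
    rw [norm_div]
    norm_num
  have h7 : ‖(starRingEnd ℂ) (fh (fW W) a) ^ 2‖ = ‖fh (fW W) a‖ ^ 2 := by
    rw [norm_pow, RCLike.norm_conj]
  rw [h6, h7] at h5
  exact h5.trans h3

end HT13
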