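import Pool.Agent.HT13.PDich

/-! # HT13-PExists: existence of a large full coefficient (paper: section 2) -/

set_option linter.unusedSectionVars false

namespace HT13

open Finset

/-- Real-number part of the dichotomy: `|α/3 - α²| ≤ η` (`η = 4/9 √R` small) gives `α ≤ 6 η` or `1/3 - 6 η ≤ α`. -/
theorem dich_real {al η : ℝ} (h0 : 0 ≤ al) (hη : η ≤ 1 / 72) (h : |al / 3 - al ^ 2| ≤ η) :
    al ≤ 6 * η ∨ 1 / 3 - 6 * η ≤ al := by
  have hη0 : 0 ≤ η := (abs_nonneg _).trans h
  obtain ⟨h1, h2⟩ := abs_le.mp h
  rcases le_total al (1 / 6) with h3 | h3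
  · left
    nlinarith
  · right
    rcases le_total al (1 / 3) with h4 | h4
    · nlinarith
    · linarith

variable {ι : Type} [Fintype ι] [DecidableEq ι]

private theorem pe_mixp_single (k : ι) (b : ZMod 3) (x : ι → ZMod 3) :
    mixp {k} x (fun _ => b) = Function.update x k b := by
  ext j
  by_cases hj : j = k
  · subst hj
    simp [mixp]
  · simp [mixp, hj]

private theorem pe_fW_ovw (W : Finset (ι → ZMod 3)) (k : ι) (b : ZMod 3) (x : ι → ZMod 3) :
    fW (ovw {k} (fun _ => b) W) x = fW W (Function.update x k b) := by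
  unfold fW ind
  simp only [mem_ovw, pe_mixp_single]

private theorem pe_chi_update_left (a x : ι → ZMod 3) (k : ι) (u : ZMod 3) (ha : a k = 0) :
    chi (Function.update a k u) x = chi a x * ee (x k * u) := by
  rw [chi_comm, chi_update, chi_comm x a, ha, sub_zero]

private theorem pe_sum_line (b v : ZMod 3) :
    ∑ u : ZMod 3, (starRingEnd ℂ) (ee (v * u)) * ee (u * b) = if v = b then 3 else 0 := by
  have h1 : ∀ u : ZMod 3, (starRingEnd ℂ) (ee (v * u)) * ee (u * b) = ee ((b - v) * u) := by
    intro u
    rw [conj_ee, ← ee_add]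
    congr 1
    ring
  simp only [h1]
  rw [sum_ee_mul]
  simp only [sub_eq_zero, eq_comm]

/-- One step: `k ∈ T`, `W_b = ovw {k} (fun _ => b) W`.  For a frequency `a'` with `a' k = 0`:
`fh (fW W_b) a' = ∑_{u} fh (fW W) (update a' k u) * ee (u * b)`. -/
theorem fh_slice (W : Finset (ι → ZMod 3)) (k : ι) (b : ZMod 3) (a' : ι → ZMod 3) (ha : a' k = 0) :
    fh (fW (ovw {k} (fun _ => b) W)) a' = ∑ u : ZMod 3, fh (fW W) (Function.update a' k u) * ee (u * b) := by
  have hR : ∑ u : ZMod 3, fh (fW W) (Function.update a' k u) * ee (u * b)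
      = avC (fun x => ∑ u : ZMod 3, ee (u * b) * (fW W x * (starRingEnd ℂ) (chi (Function.update a' k u) x))) := by
    rw [avC_sum univ (fun (u : ZMod 3) x =>
      ee (u * b) * (fW W x * (starRingEnd ℂ) (chi (Function.update a' k u) x)))]
    refine sum_congr rfl fun u _ => ?_
    rw [avC_const_mul]
    unfold fh
    ring
  have hG : (fun x : ι → ZMod 3 =>
      ∑ u : ZMod 3, ee (u * b) * (fW W x * (starRingEnd ℂ) (chi (Function.update a' k u) x)))
      = fun x => fW W x * (starRingEnd ℂ) (chi a' x) * (if x k = b then 3 else 0) := by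
    funext x
    rw [← pe_sum_line b (x k), mul_sum]
    refine sum_congr rfl fun u _ => ?_
    rw [pe_chi_update_left a' x k u ha, map_mul]
    ring
  rw [hR, hG, ← avC_line _ k]
  unfold fh
  congr 1
  funext x
  rw [pe_fW_ovw]
  simp only [Function.update_self]
  rw [Finset.sum_eq_single b]
  · rw [if_pos rfl, chi_update, ha, zero_mul, ee_zero, mul_one]
    ring
  · intro u _ hu
    rw [if_neg hu, mul_zero]
  · intro h
    exact absurd (mem_univ b) h

/-- base case: one direction -/
private theorem pe_base (k : ι) (W : Finset (ι → ZMod 3)) (hI : Inv {k} W) (hR : rho W k < 1) :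
    ∃ a, Full {k} a ∧ ‖fh (fW W) a‖ = 1 / 3 := by
  -- some line is single
  obtain ⟨x0, hx0⟩ : ∃ x0 : ι → ZMod 3, lc W k x0 = 1 := by
    by_contra hcon
    push Not at hcon
    have : rho W k = 1 := by
      unfold rho
      rw [Finset.filter_true_of_mem (fun x _ => hcon x), dens_univ]
    linarith
  unfold lc at hx0
  obtain ⟨b, hb⟩ := card_eq_one.mp hx0
  have hmem : ∀ x : ι → ZMod 3, x ∈ W ↔ x k = b := by
    intro x
    have h1 : x ∈ W ↔ Function.update x0 k (x k) ∈ W := by
      refine hI.iff (fun j hj => ?_)
      rw [mem_singleton] at hj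
      subst hj
      rw [Function.update_self]
    rw [h1]
    have h2 : Function.update x0 k (x k) ∈ W ↔
        x k ∈ (univ.filter fun a : ZMod 3 => Function.update x0 k a ∈ W) := by
      simp
    rw [h2, hb, mem_singleton]
  refine ⟨Function.update 0 k 1, ⟨?_, ?_⟩, ?_⟩
  · intro j hj
    rw [mem_singleton] at hj
    subst hj
    rw [Function.update_self]
    decide
  · intro j hj
    rw [mem_singleton] at hj
    rw [Function.update_of_ne hj]
    rfl
  · have hchi : ∀ x : ι → ZMod 3, chi (Function.update 0 k 1) x = ee (x k) := by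
      intro x
      rw [pe_chi_update_left 0 x k 1 rfl, chi_zero, one_mul, mul_one]
    have hfh : fh (fW W) (Function.update 0 k 1) = (1 / 3) * (starRingEnd ℂ) (ee b) := by
      unfold fh
      rw [← avC_line _ k]
      have hc : (fun x : ι → ZMod 3 => (∑ u : ZMod 3, fW W (Function.update x k u)
          * (starRingEnd ℂ) (chi (Function.update 0 k 1) (Function.update x k u))) / 3)
          = fun _ => (1 / 3) * (starRingEnd ℂ) (ee b) * (((1 : ℝ)) : ℂ) := by
        funext x
        have h1 : ∀ u : ZMod 3, fW W (Function.update x k u)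
            * (starRingEnd ℂ) (chi (Function.update 0 k 1) (Function.update x k u))
            = (if u = b then (starRingEnd ℂ) (ee b) else 0) - 1 / 3 * (starRingEnd ℂ) (ee (1 * u)) := by
          intro u
          rw [hchi]
          unfold fW ind
          simp only [hmem, Function.update_self]
          rw [one_mul]
          by_cases hu : u = b
          · rw [if_pos hu, if_pos hu, hu]
            ring
          · rw [if_neg hu, if_neg hu]
            ring
        simp only [h1]
        rw [sum_sub_distrib, ← mul_sum, ← map_sum, sum_ee_mul, if_neg (by decide : (1 : ZMod 3) ≠ 0),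
          map_zero, mul_zero, sub_zero, Finset.sum_ite_eq' univ b]
        simp only [mem_univ, if_true]
        push_cast
        ring
      rw [hc, avC_const_mul, avC_ofReal, avR_const]
      simp
    rw [hfh, norm_mul, RCLike.norm_conj, norm_ee]
    simp

/-- Induction on `T.card`, for all `W`; `lam0` small (e.g. `10 ^ (-6)`), `η = 4/9 √(RR T W)`.
`T = {k}`: `RR ≤ lam0 < 1` forces `rho W k = 0` (`W` depends only on `x k`), so all `lc = 1` and `|fh (fW W) a| = 1/3` for
`a = update 0 k 1`.  Step: `k ∈ T`, `T \ {k}` nonempty; for some `b`, `RR (T \ {k}) W_b ≤ RR T W` (`avR_RR_ovw` with `J = {k}`),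
by induction `W_b` has a full `a'` with `‖fh (fW W_b) a'‖ ≥ 1/3 - 6 η`; by `fh_slice` and `‖fh (fW W) a'‖ ≤ √R/3`
(`mass_zero_le`, as `a' k = 0`) some `u ≠ 0` has
`‖fh (fW W) (update a' k u)‖ ≥ (1/3 - 6 η - √R/3)/2 > 6 η`, hence `≥ 1/3 - 6 η` by `P_dich` and `dich_real`. -/
theorem P_exists : ∃ lam0 : ℝ, 0 < lam0 ∧ lam0 ≤ 1 / 1000000 ∧
    ∀ {ι : Type} [Fintype ι] [DecidableEq ι] (T : Finset ι) (W : Finset (ι → ZMod 3)), T.Nonempty → Inv T W →
    (∀ k ∈ T, ∀ x, lc W k x ≤ 2) → RR T W ≤ lam0 →
    ∃ a, Full T a ∧ 1 / 3 - 6 * (4 / 9 * √(RR T W)) ≤ ‖fh (fW W) a‖ := by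
  refine ⟨1 / 1000000, by norm_num, le_refl _, ?_⟩
  intro ι _ _ T
  induction hn : T.card using Nat.strong_induction_on generalizing T with
  | _ n ih =>
    intro W hT hI hlc hR
    obtain ⟨k, hk⟩ := hT
    by_cases hT1 : T = {k}
    · subst hT1
      have hrho : RR {k} W = rho W k := by
        unfold RR
        rw [sum_singleton]
      obtain ⟨a, ha, hna⟩ := pe_base k W hI (by rw [← hrho]; linarith)
      refine ⟨a, ha, ?_⟩
      rw [hna]
      have := Real.sqrt_nonneg (RR {k} W)
      linarith
    · have hT' : (T \ {k}).Nonempty := by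
        rw [Finset.sdiff_nonempty]
        intro hsub
        apply hT1
        refine Finset.Subset.antisymm hsub ?_
        intro j hj
        rw [mem_singleton] at hj
        rw [hj]
        exact hk
      have hcard : (T \ {k}).card < n := by
        rw [← hn]
        apply Finset.card_lt_card
        rw [Finset.ssubset_iff_of_subset Finset.sdiff_subset]
        exact ⟨k, hk, by simp⟩
      have hdisj : Disjoint (T \ {k}) ({k} : Finset ι) := Finset.sdiff_disjoint
      -- a good slice
      obtain ⟨y, hy⟩ : ∃ y : ι → ZMod 3, RR (T \ {k}) (ovw {k} y W) ≤ RR (T \ {k}) W := by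
        have hav := avR_RR_ovw hdisj W
        have hav2 := avR_const (ι := ι) (RR (T \ {k}) W)
        by_contra hcon
        push Not at hcon
        have hlt : ∑ y : ι → ZMod 3, RR (T \ {k}) W < ∑ y : ι → ZMod 3, RR (T \ {k}) (ovw {k} y W) :=
          Finset.sum_lt_sum_of_nonempty univ_nonempty (fun y _ => hcon y)
        have hpos := cube_pos (ι := ι)
        have hlt2 : avR (fun _ : ι → ZMod 3 => RR (T \ {k}) W) < avR (fun y => RR (T \ {k}) (ovw {k} y W)) := by
          unfold avR
          exact div_lt_div_of_pos_right hlt hpos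
        rw [hav, hav2] at hlt2
        exact lt_irrefl _ hlt2
      have hWb : ovw {k} y W = ovw {k} (fun _ => y k) W := by
        apply ovw_congr
        intro j hj
        rw [mem_singleton] at hj
        rw [hj]
      rw [hWb] at hy
      set b := y k with hb
      have hRle : RR (T \ {k}) W ≤ RR T W := by
        unfold RR
        exact Finset.sum_le_sum_of_subset_of_nonneg Finset.sdiff_subset (fun _ _ _ => rho_nonneg _ _)
      have hRb : RR (T \ {k}) (ovw {k} (fun _ => b) W) ≤ RR T W := hy.trans hRle
      obtain ⟨a', ha', hna'⟩ := ih _ hcard (T \ {k}) rfl (ovw {k} (fun _ => b) W) hT'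
        (ovw_inv' hI _) (fun j hj x => by
          rw [mem_sdiff] at hj
          rw [lc_ovw hj.2]
          exact hlc j hj.1 _) (hRb.trans hR)
      have hak : a' k = 0 := ha'.2 k (by simp)
      set R := RR T W with hRdef
      have hR0 : 0 ≤ R := RR_nonneg _ _
      have hsq : √R ≤ 1 / 1000 := by
        rw [show (1 / 1000 : ℝ) = √(1 / 1000000) by
          rw [show (1 / 1000000 : ℝ) = (1 / 1000) ^ 2 by norm_num]
          rw [Real.sqrt_sq (by norm_num)]]
        exact Real.sqrt_le_sqrt hR
      have hsq0 : 0 ≤ √R := Real.sqrt_nonneg _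
      have hsqb : √(RR (T \ {k}) (ovw {k} (fun _ => b) W)) ≤ √R := Real.sqrt_le_sqrt hRb
      -- the zero coefficient
      have hzero : ‖fh (fW W) a'‖ ≤ √R / 3 := by
        have h1 := mass_zero_le hlc
        have h2 : ‖fh (fW W) a'‖ ^ 2 ≤ R / 9 := by
          refine le_trans ?_ h1
          exact Finset.single_le_sum (f := fun a => ‖fh (fW W) a‖ ^ 2) (fun _ _ => by positivity)
            (by rw [mem_filter]; exact ⟨mem_univ _, k, hk, hak⟩)
        have h3 : (√R / 3) ^ 2 = R / 9 := by
          rw [div_pow, Real.sq_sqrt hR0]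
          norm_num
        rw [← h3] at h2
        exact le_of_sq_le_sq h2 (by positivity)
      -- the other coefficients
      have hsum : ‖fh (fW (ovw {k} (fun _ => b) W)) a'‖ ≤ ‖fh (fW W) a'‖
          + ‖fh (fW W) (Function.update a' k 1)‖ + ‖fh (fW W) (Function.update a' k 2)‖ := by
        rw [fh_slice W k b a' hak]
        refine (norm_sum_le _ _).trans ?_
        have h1 : ∀ u : ZMod 3, ‖fh (fW W) (Function.update a' k u) * ee (u * b)‖
            = ‖fh (fW W) (Function.update a' k u)‖ := by
          intro u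
          rw [norm_mul, norm_ee, mul_one]
        simp only [h1]
        have h2 : ∑ u : ZMod 3, ‖fh (fW W) (Function.update a' k u)‖
            = ‖fh (fW W) (Function.update a' k 0)‖ + ‖fh (fW W) (Function.update a' k 1)‖
              + ‖fh (fW W) (Function.update a' k 2)‖ :=
          Fin.sum_univ_three (fun u : ZMod 3 => ‖fh (fW W) (Function.update a' k u)‖)
        rw [h2]
        have h3 : Function.update a' k 0 = a' := by
          rw [← hak]
          exact Function.update_eq_self k a'
        rw [h3]
      obtain ⟨u, hu0, hu⟩ : ∃ u : ZMod 3, u ≠ 0 ∧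
          (1 / 3 - 6 * (4 / 9 * √R) - √R / 3) / 2 ≤ ‖fh (fW W) (Function.update a' k u)‖ := by
        by_contra hcon
        push Not at hcon
        have h1 := hcon 1 (by decide)
        have h2 := hcon 2 (by decide)
        linarith
      have hfull : Full T (Function.update a' k u) := by
        refine ⟨fun j hj => ?_, fun j hj => ?_⟩
        · by_cases hjk : j = k
          · rw [hjk, Function.update_self]
            exact hu0
          · rw [Function.update_of_ne hjk]
            exact ha'.1 j (by rw [mem_sdiff, mem_singleton]; exact ⟨hj, hjk⟩)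
        · have hjk : j ≠ k := fun h => hj (h ▸ hk)
          rw [Function.update_of_ne hjk]
          exact ha'.2 j (by rw [mem_sdiff]; exact fun h => hj h.1)
      refine ⟨Function.update a' k u, hfull, ?_⟩
      have hdich := P_dich ⟨k, hk⟩ hI hlc hfull
      rcases dich_real (norm_nonneg _) (by linarith) hdich with h1 | h1
      · exfalso
        linarith
      · exact h1

end HT13
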