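import Pool.Agent.HT13.FourLine
import Pool.Agent.HT13.HypDefect

/-! # HT13-QT: the function `q` in Lemma T (paper: section 1) -/

set_option linter.unusedSectionVars false

namespace HT13

open Finset

variable {ι : Type} [Fintype ι] [DecidableEq ι]

/-- `q = (1_W - 1_H) * ω ^ (c - s·x)` with `H = {s·x = c}` -/
noncomputable def qT (T : Finset ι) (s : ι → ZMod 3) (c : ZMod 3) (W : Finset (ι → ZMod 3)) (x : ι → ZMod 3) : ℂ :=
  (ind W x - ind (hyp T s c) x) * ee (c - ∑ k ∈ T, s k * x k)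

theorem qT_norm (T : Finset ι) (s : ι → ZMod 3) (c : ZMod 3) (W : Finset (ι → ZMod 3)) (x : ι → ZMod 3) :
    ‖qT T s c W x‖ ≤ 1 := by
  unfold qT ind
  rw [norm_mul, norm_ee, mul_one]
  by_cases h1 : x ∈ W <;> by_cases h2 : x ∈ hyp T s c <;> simp [h1, h2]

theorem qT_zero (T : Finset ι) (s : ι → ZMod 3) (c : ZMod 3) (W : Finset (ι → ZMod 3)) (x : ι → ZMod 3)
    (hx : x ∉ symmDiff W (hyp T s c)) : qT T s c W x = 0 := by
  rw [mem_symmDiff] at hx
  unfold qT ind
  by_cases h1 : x ∈ W <;> by_cases h2 : x ∈ hyp T s c <;> simp_all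

/-- `q` only depends on the coordinates in `T` (`fh_eq_zero_of_inv`). -/
theorem qT_supp {T : Finset ι} {W : Finset (ι → ZMod 3)} (hI : Inv T W) (s : ι → ZMod 3) (c : ZMod 3)
    (a : ι → ZMod 3) (ha : fh (qT T s c W) a ≠ 0) : spt a ⊆ T := by
  intro k hk
  by_contra hkT
  apply ha
  have hak : a k ≠ 0 := by simpa [spt] using hk
  refine fh_eq_zero_of_inv (k := k) (fun x u => ?_) hak
  have hxy : ∀ j ∈ T, Function.update x k u j = x j := by
    intro j hj
    rw [Function.update_of_ne]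
    rintro rfl
    exact hkT hj
  have h1 : Function.update x k u ∈ W ↔ x ∈ W := hI.iff hxy
  have h2 : Function.update x k u ∈ hyp T s c ↔ x ∈ hyp T s c := (hyp_inv T s c).iff hxy
  have h3 : ∑ j ∈ T, s j * Function.update x k u j = ∑ j ∈ T, s j * x j :=
    sum_congr rfl fun j hj => by rw [hxy j hj]
  unfold qT ind
  simp only [h1, h2, h3]

theorem avC_re (f : (ι → ZMod 3) → ℂ) : (avC f).re = avR fun x => (f x).re := by
  unfold avC avR
  have h : ((3 : ℂ) ^ Fintype.card ι) = (((3 : ℝ) ^ Fintype.card ι : ℝ) : ℂ) := by push_cast; rfl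
  rw [h, Complex.div_ofReal_re, Complex.re_sum]

theorem two_mul_ne_zero' (a : ZMod 3) (ha : a ≠ 0) : a + a ≠ 0 := by
  revert a
  decide

/-- On `H \ W` one has `q² = 1`; on `W \ H` it is `ω` or `ω²`, with real part `-1/2`. -/
theorem qT_re (T : Finset ι) (s : ι → ZMod 3) (c : ZMod 3) (W : Finset (ι → ZMod 3)) :
    (avC fun x => qT T s c W x ^ 2).re = dens (hyp T s c \ W) - dens (W \ hyp T s c) / 2 := by
  rw [avC_re]
  have h : (fun x => (qT T s c W x ^ 2).re) = fun x =>
      (if x ∈ hyp T s c \ W then (1 : ℝ) else 0) - (1 / 2) * (if x ∈ W \ hyp T s c then (1 : ℝ) else 0) := by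
    ext x
    unfold qT ind
    rw [mul_pow, pow_two (ee _), ← ee_add]
    by_cases h1 : x ∈ W <;> by_cases h2 : x ∈ hyp T s c
    · simp [h1, h2]
    · have h3 : c - ∑ k ∈ T, s k * x k ≠ 0 := by
        intro h0
        exact h2 (mem_hyp.mpr (sub_eq_zero.mp h0).symm)
      have h4 := two_mul_ne_zero' _ h3
      simp [h1, h2, ee_re, h4]
      norm_num
    · have h3 : c - ∑ k ∈ T, s k * x k = 0 := by rw [mem_hyp.mp h2, sub_self]
      simp [h1, h2, h3, ee_zero]
    · simp [h1, h2]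
  rw [h, avR_sub, avR_const_mul, ← dens_eq_avR, ← dens_eq_avR]
  ring

/-- `fh q a = ee c * fh (1_W - 1_H) (a + s')`, `s' = s` on `T` and `0` elsewhere (`fh_mul_chi`); so the sum is
`energy T (1_W - 1_H)` (`energy_delta`). -/
theorem qT_energy {T : Finset ι} {W : Finset (ι → ZMod 3)} (h : ∀ k ∈ T, ∀ x, lc W k x ≤ 2)
    {s : ι → ZMod 3} (hs : Sgn s) (c : ZMod 3) :
    ∑ a, ‖fh (qT T s c W) a‖ ^ 2 * ((T.filter fun k => a k = - s k).card : ℝ) = RR T W / 9 := by
  rw [← energy_delta h hs c]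
  unfold energy
  set s' : ι → ZMod 3 := fun k => if k ∈ T then s k else 0 with hs'
  have hsum : ∀ x : ι → ZMod 3, ∑ k, (-s') k * x k = - ∑ k ∈ T, s k * x k := by
    intro x
    rw [← sum_neg_distrib, ← sum_filter_add_sum_filter_not univ (fun k => k ∈ T)]
    have e1 : ∑ k ∈ univ.filter (fun k => ¬ k ∈ T), (-s') k * x k = 0 := by
      refine sum_eq_zero fun k hk => ?_
      rw [mem_filter] at hk
      simp [hs', hk.2]
    have e2 : univ.filter (fun k => k ∈ T) = T := by ext k; simp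
    rw [e1, add_zero, e2]
    refine sum_congr rfl fun k hk => ?_
    simp [hs', hk]
  have hq : qT T s c W = fun x => ee c * ((ind W x - ind (hyp T s c) x) * chi (-s') x) := by
    ext x
    unfold qT chi
    rw [hsum, sub_eq_add_neg, sub_eq_add_neg c, ee_add]
    ring
  have hfh : ∀ a, ‖fh (qT T s c W) a‖ = ‖fh (fun x => ind W x - ind (hyp T s c) x) (a + s')‖ := by
    intro a
    rw [hq, fh_const_mul, fh_mul_chi, norm_mul, norm_ee, one_mul, sub_neg_eq_add]
  rw [← Equiv.sum_comp (Equiv.addRight s') (fun a => ‖fh (fun x => ind W x - ind (hyp T s c) x) a‖ ^ 2 *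
    ((T.filter fun k => a k = 0).card : ℝ))]
  refine sum_congr rfl fun a _ => ?_
  rw [hfh]
  have hf : (T.filter fun k => a k = - s k) = T.filter fun k => (Equiv.addRight s') a k = 0 := by
    refine filter_congr fun k hk => ?_
    simp only [Equiv.coe_addRight, Pi.add_apply, hs', hk, if_true]
    rw [add_eq_zero_iff_eq_neg]
  rw [hf]
  rfl

end HT13
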