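import Pool.Agent.HT13.SqDefs
import Pool.Agent.HT13.Hyp

/-! # HT13-SqBase: basic facts on cylinders (paper: section 5) -/

set_option linter.unusedSectionVars false

namespace HT13

open Finset

/-- a map to a finite type is constant for most `m` -/
theorem UU_const {α : Type} [Finite α] (f : ℕ → α) : ∃ c, ∀ᶠ m in (UU : Filter ℕ), f m = c := by
  obtain ⟨c, hc⟩ := Ultrafilter.eq_pure_of_finite (Ultrafilter.map f UU)
  refine ⟨c, ?_⟩
  have h : {c} ∈ Ultrafilter.map f UU := by
    rw [hc]; exact Ultrafilter.mem_pure.mpr rfl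
  rw [Ultrafilter.mem_map] at h
  exact h

/-- everything which holds for all large `m` holds for most `m` -/
theorem UU_of_large {p : ℕ → Prop} (N : ℕ) (h : ∀ m, N ≤ m → p m) : ∀ᶠ m in (UU : Filter ℕ), p m := by
  have h1 : ∀ᶠ m in Filter.atTop, p m := Filter.eventually_atTop.mpr ⟨N, h⟩
  exact Nat.hyperfilter_le_atTop h1

variable (S : Sq)

/-- `m ≤ exc univ (U m) ≤ 3 ^ (n m)`. -/
theorem n_large (N : ℕ) : ∀ᶠ m in (UU : Filter ℕ), N < S.n m := by
  refine UU_of_large (3 ^ N + 1) fun m hm => ?_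
  have h1 := S.large m
  have h2 : exc univ (S.U m) ≤ 3 ^ S.n m := by
    unfold exc
    rw [card_univ, Fintype.card_fin]
    have h3 := dens_le_one (S.U m)
    have h4 : (0 : ℝ) < 3 ^ S.n m := by positivity
    nlinarith
  have h5 : (m : ℝ) ≤ ((3 ^ S.n m : ℕ) : ℝ) := by
    push_cast
    exact h1.trans h2
  have h6 : m ≤ 3 ^ S.n m := by exact_mod_cast h5
  by_contra hcon
  push Not at hcon
  have h7 : 3 ^ S.n m ≤ 3 ^ N := Nat.pow_le_pow_right (by norm_num) hcon
  omega

theorem card_JJ (J : Finset ℕ) : ∀ᶠ m in (UU : Filter ℕ), (JJ S J m).card = J.card := by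
  filter_upwards [n_large S (J.sup id)] with m hm
  have h1 : (JJ S J m).image (fun k : Fin (S.n m) => (k : ℕ)) = J := by
    ext a
    rw [mem_image]
    constructor
    · rintro ⟨k, hk, rfl⟩
      unfold JJ at hk
      exact (mem_filter.mp hk).2
    · intro ha
      have h2 : a ≤ J.sup id := Finset.le_sup (f := id) ha
      refine ⟨⟨a, lt_of_le_of_lt h2 hm⟩, ?_, rfl⟩
      unfold JJ
      rw [mem_filter]
      exact ⟨mem_univ _, ha⟩
  rw [← h1, Finset.card_image_of_injective _ Fin.val_injective, h1]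

theorem card_TT (J : Finset ℕ) : ∀ᶠ m in (UU : Filter ℕ), (TT S J m).card + J.card = S.n m := by
  filter_upwards [card_JJ S J] with m hm
  rw [← hm]
  unfold TT
  have h1 := Finset.card_sdiff_add_card_inter (univ : Finset (Fin (S.n m))) (JJ S J m)
  rw [univ_inter, card_univ, Fintype.card_fin] at h1
  exact h1

theorem card_TT_insert {l : ℕ} {J : Finset ℕ} (hl : l ∉ J) :
    ∀ᶠ m in (UU : Filter ℕ), (TT S J m).card = (TT S (insert l J) m).card + 1 := by
  filter_upwards [card_TT S J, card_TT S (insert l J)] with m h1 h2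
  rw [card_insert_of_notMem hl] at h2
  omega

theorem TT_nonempty (J : Finset ℕ) : ∀ᶠ m in (UU : Filter ℕ), (TT S J m).Nonempty := by
  filter_upwards [card_TT S J, n_large S J.card] with m h1 h2
  exact Finset.card_pos.mp (by omega)

theorem WW_inv (J : Finset ℕ) (v : ℕ → ZMod 3) (m : ℕ) : Inv (TT S J m) (WW S J v m) := by
  exact ovw_inv _ _ _

theorem WW_valid (J : Finset ℕ) (v : ℕ → ZMod 3) (m : ℕ) : Valid (TT S J m) (WW S J v m) := by
  exact ovw_valid (S.val m) _

theorem WW_congr {J : Finset ℕ} {v v' : ℕ → ZMod 3} (h : ∀ k ∈ J, v k = v' k) (m : ℕ) :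
    WW S J v m = WW S J v' m := by
  refine ovw_congr (fun k hk => ?_) _
  unfold JJ at hk
  exact h _ (mem_filter.mp hk).2

theorem WW_ext {J J' : Finset ℕ} (h : J ⊆ J') (v : ℕ → ZMod 3) (m : ℕ) :
    WW S J' v m = ovw (JJ S (J' \ J) m) (pt S v m) (WW S J v m) := by
  ext x
  unfold WW
  rw [mem_ovw, mem_ovw, mem_ovw]
  have h1 : mixp (JJ S J m) (mixp (JJ S (J' \ J) m) x (pt S v m)) (pt S v m)
      = mixp (JJ S J' m) x (pt S v m) := by
    funext k
    have e1 : k ∈ JJ S J m ↔ (k : ℕ) ∈ J := by unfold JJ; simp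
    have e2 : k ∈ JJ S J' m ↔ (k : ℕ) ∈ J' := by unfold JJ; simp
    have e3 : k ∈ JJ S (J' \ J) m ↔ (k : ℕ) ∈ J' ∧ (k : ℕ) ∉ J := by unfold JJ; simp
    unfold mixp
    by_cases hk : (k : ℕ) ∈ J
    · rw [if_pos (e1.mpr hk), if_pos (e2.mpr (h hk))]
    · rw [if_neg (fun h0 => hk (e1.mp h0))]
      by_cases hk' : (k : ℕ) ∈ J'
      · rw [if_pos (e2.mpr hk'), if_pos (e3.mpr ⟨hk', hk⟩)]
      · rw [if_neg (fun h0 => hk' (e2.mp h0)), if_neg (fun h0 => hk' (e3.mp h0).1)]
  rw [h1]

theorem HH_ext {J J' : Finset ℕ} (h : J ⊆ J') (v : ℕ → ZMod 3) (s : (m : ℕ) → Fin (S.n m) → ZMod 3)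
    (c : ℕ → ZMod 3) (m : ℕ) :
    HH S J' s (fun m => c m - ∑ k ∈ J' \ J, cf S s k m * v k) m
      = ovw (JJ S (J' \ J) m) (pt S v m) (HH S J s c m) := by
  unfold HH
  rw [ovw_hyp]
  have h1 : TT S J m \ JJ S (J' \ J) m = TT S J' m := by
    ext k
    unfold TT JJ
    simp only [mem_sdiff, mem_univ, mem_filter, true_and]
    constructor
    · rintro ⟨h1, h2⟩ h3
      exact h2 ⟨h3, h1⟩
    · intro h1
      exact ⟨fun h2 => h1 (h h2), fun h2 => h1 h2.1⟩
  rw [h1]
  congr 2
  have h2 : TT S J m ∩ JJ S (J' \ J) m = JJ S (J' \ J) m := by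
    ext k
    unfold TT JJ
    simp only [mem_inter, mem_sdiff, mem_univ, mem_filter, true_and]
    tauto
  rw [h2]
  have h3 : ∑ k ∈ J' \ J, cf S s k m * v k
      = ∑ k ∈ (J' \ J).filter (fun k => k < S.n m), cf S s k m * v k := by
    rw [Finset.sum_filter]
    refine sum_congr rfl fun k _ => ?_
    by_cases hk : k < S.n m
    · rw [if_pos hk]
    · rw [if_neg hk]
      unfold cf
      rw [dif_neg hk, zero_mul]
  beta_reduce
  rw [h3]
  congr 1
  symm
  refine Finset.sum_bij (fun (k : Fin (S.n m)) _ => (k : ℕ)) ?_ ?_ ?_ ?_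
  · intro k hk
    unfold JJ at hk
    rw [mem_filter] at hk ⊢
    exact ⟨hk.2, k.2⟩
  · intro a _ b _ hab
    exact Fin.ext hab
  · intro k hk
    rw [mem_filter] at hk
    refine ⟨⟨k, hk.2⟩, ?_, rfl⟩
    unfold JJ
    rw [mem_filter]
    exact ⟨mem_univ _, hk.1⟩
  · intro k _
    unfold cf pt
    rw [dif_pos k.2]

theorem WW_insert {l : ℕ} {J : Finset ℕ} (hl : l ∉ J) (v : ℕ → ZMod 3) (m : ℕ) :
    WW S (insert l J) v m = ovw (JJ S {l} m) (pt S v m) (WW S J v m) := by
  rw [WW_ext S (subset_insert l J) v m]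
  have h1 : insert l J \ J = {l} := by
    ext k
    simp only [mem_sdiff, mem_insert, mem_singleton]
    constructor
    · rintro ⟨h1 | h1, h2⟩
      · exact h1
      · exact absurd h1 h2
    · rintro rfl
      exact ⟨Or.inl rfl, hl⟩
  rw [h1]

theorem HH_insert {l : ℕ} {J : Finset ℕ} (hl : l ∉ J) (v : ℕ → ZMod 3) (s : (m : ℕ) → Fin (S.n m) → ZMod 3)
    (c : ℕ → ZMod 3) (m : ℕ) :
    HH S (insert l J) s (fun m => c m - cf S s l m * v l) m = ovw (JJ S {l} m) (pt S v m) (HH S J s c m) := by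
  have h1 : insert l J \ J = {l} := by
    ext k
    simp only [mem_sdiff, mem_insert, mem_singleton]
    constructor
    · rintro ⟨h1 | h1, h2⟩
      · exact h1
      · exact absurd h1 h2
    · rintro rfl
      exact ⟨Or.inl rfl, hl⟩
  have h2 := HH_ext S (subset_insert l J) v s c m
  rw [h1] at h2
  simp only [Finset.sum_singleton] at h2
  exact h2

theorem HH_congr {J : Finset ℕ} (s : (m : ℕ) → Fin (S.n m) → ZMod 3) {c c' : ℕ → ZMod 3} {m : ℕ} (h : c m = c' m) :
    HH S J s c m = HH S J s c' m := by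
  unfold HH
  rw [h]

theorem cf_ne_zero {s : (m : ℕ) → Fin (S.n m) → ZMod 3} (hs : SSg S s) (l : ℕ) :
    ∀ᶠ m in (UU : Filter ℕ), cf S s l m ≠ 0 := by
  filter_upwards [n_large S l] with m hm
  unfold cf
  rw [dif_pos hm]
  exact hs m _

/-- density of a set as the average over its three slices in direction `l` -/
theorem dens_eq_three {l : ℕ} {m : ℕ} (hl : l < S.n m) (v : ℕ → ZMod 3) (A : Finset (Fin (S.n m) → ZMod 3)) :
    dens A = (∑ b : ZMod 3, dens (ovw (JJ S {l} m) (pt S (Function.update v l b) m) A)) / 3 := by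
  have hJ : JJ S {l} m = {⟨l, hl⟩} := by
    ext k
    unfold JJ
    simp only [mem_filter, mem_univ, true_and, mem_singleton]
    constructor
    · intro h; exact Fin.ext h
    · intro h; rw [h]
  rw [← avR_dens_ovw (JJ S {l} m) A, ← avR_line _ (⟨l, hl⟩ : Fin (S.n m))]
  have h1 : (fun x : Fin (S.n m) → ZMod 3 => (∑ u : ZMod 3,
      dens (ovw (JJ S {l} m) (Function.update x ⟨l, hl⟩ u) A)) / 3)
      = fun _ => (∑ b : ZMod 3, dens (ovw (JJ S {l} m) (pt S (Function.update v l b) m) A)) / 3 := by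
    funext x
    congr 1
    refine sum_congr rfl fun u _ => ?_
    rw [ovw_congr (y' := pt S (Function.update v l u) m)]
    intro k hk
    rw [hJ, mem_singleton] at hk
    subst hk
    unfold pt
    rw [Function.update_self]
    simp
  rw [h1, avR_const]

/-- the excess is the sum of the excesses over the three children -/
theorem exc_children {l : ℕ} {J : Finset ℕ} (hl : l ∉ J) (v : ℕ → ZMod 3) : ∀ᶠ m in (UU : Filter ℕ),
    exc (TT S J m) (WW S J v m)
      = ∑ b : ZMod 3, exc (TT S (insert l J) m) (WW S (insert l J) (Function.update v l b) m) := by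
  filter_upwards [card_TT_insert S hl, n_large S l] with m h1 h2
  have h3 : ∀ b : ZMod 3, WW S (insert l J) (Function.update v l b) m
      = ovw (JJ S {l} m) (pt S (Function.update v l b) m) (WW S J v m) := by
    intro b
    rw [WW_insert S hl]
    congr 1
    refine WW_congr S (fun k hk => ?_) m
    rw [Function.update_of_ne]
    rintro rfl
    exact hl hk
  unfold exc
  simp only [h3]
  rw [dens_eq_three S h2 v (WW S J v m), h1]
  have h4 : ∀ f : ZMod 3 → ℝ, ∑ b : ZMod 3, f b = f 0 + f 1 + f 2 := fun f => Fin.sum_univ_three f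
  rw [h4, h4, pow_succ]
  ring

end HT13
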