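import Pool.Agent.HT13.Basic

/-! # HT13-SqDefs: sequences of counterexamples and cylinders (paper: section 5)

For most `m` means `∀ᶠ m in (UU : Filter ℕ)` where `UU` is a nonprincipal ultrafilter on `ℕ`.
A cylinder is a pair `(J, v)`, `J : Finset ℕ`, `v : ℕ → ZMod 3`; only the values of `v` on `J` matter.  `v` itself is a point of
`Z_3^ℕ`, the cylinders in `v` are the `(J, v)`. -/

namespace HT13

open Finset

/-- a nonprincipal ultrafilter on `ℕ` -/
noncomputable def UU : Ultrafilter ℕ := Filter.hyperfilter ℕ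

/-- a sequence of valid sets with excess tending to infinity and uniformly small tails of defects -/
structure Sq where
  n : ℕ → ℕ
  U : (m : ℕ) → Finset (Fin (n m) → ZMod 3)
  val : ∀ m, Valid univ (U m)
  pos : ∀ m, 1 / 3 ≤ dens (U m)
  large : ∀ m : ℕ, (m : ℝ) ≤ exc univ (U m)
  tail : ∀ eps : ℝ, 0 < eps → ∃ K : ℕ, ∀ m,
    ∑ k ∈ univ.filter (fun k : Fin (n m) => K ≤ (k : ℕ)), rho (U m) k ≤ eps

variable (S : Sq)

/-- the coordinates of the `m`-th cube lying in `J` -/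
def JJ (J : Finset ℕ) (m : ℕ) : Finset (Fin (S.n m)) := univ.filter fun k => (k : ℕ) ∈ J

/-- the free coordinates -/
def TT (J : Finset ℕ) (m : ℕ) : Finset (Fin (S.n m)) := univ \ JJ S J m

/-- restriction of a point of `Z_3^ℕ` to the `m`-th cube -/
def pt (v : ℕ → ZMod 3) (m : ℕ) : Fin (S.n m) → ZMod 3 := fun k => v k

/-- the slice of `U m` at the cylinder `(J, v)` -/
def WW (J : Finset ℕ) (v : ℕ → ZMod 3) (m : ℕ) : Finset (Fin (S.n m) → ZMod 3) :=
  ovw (JJ S J m) (pt S v m) (S.U m)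

/-- hyperplanes of the free coordinates -/
def HH (J : Finset ℕ) (s : (m : ℕ) → Fin (S.n m) → ZMod 3) (c : ℕ → ZMod 3) (m : ℕ) :
    Finset (Fin (S.n m) → ZMod 3) := hyp (TT S J m) (s m) (c m)

/-- null sequences of sets -/
def Null (A : (m : ℕ) → Finset (Fin (S.n m) → ZMod 3)) : Prop :=
  Filter.Tendsto (fun m => dens (A m)) (UU : Filter ℕ) (nhds 0)

/-- all coefficients are nonzero -/
def SSg (s : (m : ℕ) → Fin (S.n m) → ZMod 3) : Prop := ∀ m, Sgn (s m)

/-- `(J, v)` is clean with the hyperplanes `(s, c)` -/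
def CleanW (J : Finset ℕ) (v : ℕ → ZMod 3) (s : (m : ℕ) → Fin (S.n m) → ZMod 3) (c : ℕ → ZMod 3) : Prop :=
  Null S fun m => symmDiff (WW S J v m) (HH S J s c m)

/-- `(J, v)` is good with the hyperplanes `(s, c)` -/
def GoodW (J : Finset ℕ) (v : ℕ → ZMod 3) (s : (m : ℕ) → Fin (S.n m) → ZMod 3) (c : ℕ → ZMod 3) : Prop :=
  Null S fun m => WW S J v m ∩ HH S J s c m

def Clean (J : Finset ℕ) (v : ℕ → ZMod 3) : Prop :=
  ∃ s : (m : ℕ) → Fin (S.n m) → ZMod 3, SSg S s ∧ ∃ c : ℕ → ZMod 3, CleanW S J v s c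

def Good (J : Finset ℕ) (v : ℕ → ZMod 3) : Prop :=
  ∃ s : (m : ℕ) → Fin (S.n m) → ZMod 3, SSg S s ∧ ∃ c : ℕ → ZMod 3, GoodW S J v s c

/-- the coefficient at the coordinate `l` (zero if the `m`-th cube has no such coordinate) -/
def cf (s : (m : ℕ) → Fin (S.n m) → ZMod 3) (l m : ℕ) : ZMod 3 := if h : l < S.n m then s m ⟨l, h⟩ else 0

end HT13
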