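import Pool.Agent.HT13.SqGG
import Pool.Agent.HT13.HypInter

/-! # HT13-SqDich: levels on clean subcylinders (paper: section 7, (C1), (C2)) -/

set_option linter.unusedSectionVars false

namespace HT13

open Finset

variable {S : Sq}

/-- restriction of the overwriting to all of `range K` -/
private theorem bp_glue (J : Finset ℕ) (K : ℕ) (v : ℕ → ZMod 3) (m : ℕ) (x : Fin (S.n m) → ZMod 3)
    (z : ↥(range K \ J) → ZMod 3) (z' : ↥(range K \ range K) → ZMod 3) :
    bp S (range K) K (glue J K v z) m x z' = bp S J K v m x z := by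
  have h : glue (range K) K (glue J K v z) z' = glue J K v z := by
    funext k
    have hk : ¬ k ∈ range K \ range K := by simp
    conv_lhs => unfold glue
    rw [dif_neg hk]
    rfl
  unfold bp
  rw [h]

/-- the first coordinates of the base point -/
private theorem bp_low (J : Finset ℕ) (K : ℕ) (v : ℕ → ZMod 3) (m : ℕ) (x : Fin (S.n m) → ZMod 3)
    (z : ↥(range K \ J) → ZMod 3) {k : Fin (S.n m)} (hk : (k : ℕ) < K) :
    bp S J K v m x z k = glue J K v z k := by
  have h : k ∈ JJ S (range K) m := by
    unfold JJ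
    simp [hk]
  unfold bp mixp
  rw [if_pos h]
  rfl

/-- the other coordinates of the base point -/
private theorem bp_high (J : Finset ℕ) (K : ℕ) (v : ℕ → ZMod 3) (m : ℕ) (x : Fin (S.n m) → ZMod 3)
    (z : ↥(range K \ J) → ZMod 3) {k : Fin (S.n m)} (hk : K ≤ (k : ℕ)) :
    bp S J K v m x z k = x k := by
  have h : k ∉ JJ S (range K) m := by
    unfold JJ
    simp [hk]
  unfold bp mixp
  rw [if_neg h]

private theorem mem_TT_range {K m : ℕ} {k : Fin (S.n m)} : k ∈ TT S (range K) m ↔ K ≤ (k : ℕ) := by
  unfold TT JJ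
  simp

/-- the level in terms of the hyperplanes of `range K` -/
private theorem gg_eq_iff {J : Finset ℕ} {K m : ℕ} (hK : K < S.n m) (hJ : J ⊆ range K)
    (s : (m : ℕ) → Fin (S.n m) → ZMod 3) (c : ℕ → ZMod 3) (v : ℕ → ZMod 3)
    (z : ↥(range K \ J) → ZMod 3) (x : Fin (S.n m) → ZMod 3) (γ : ZMod 3) :
    gg S J K v s c m x z = γ ↔ pp S m (bp S J K v m x z) ∈
      HH S (range K) s (fun m => (c m + γ) - ∑ k ∈ range K \ J, cf S s k m * glue J K v z k) m := by
  have h1 := HH_ext S hJ (glue J K v z) s (fun m => c m + γ) m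
  rw [h1, mem_ovw]
  have h2 : mixp (JJ S (range K \ J) m) (pp S m (bp S J K v m x z)) (pt S (glue J K v z) m) =
      pp S m (bp S J K v m x z) := by
    funext k
    unfold mixp
    split_ifs with hk
    · have hk' : (k : ℕ) ∈ range K \ J := by
        unfold JJ at hk
        exact (mem_filter.1 hk).2
      have hkK : (k : ℕ) < K := mem_range.1 (mem_sdiff.1 hk').1
      rw [pp_apply _ k (by omega), bp_low J K v m x z hkK]
      rfl
    · rfl
  rw [h2]
  unfold HH
  rw [mem_hyp]
  unfold gg
  rw [sub_eq_iff_eq_add, add_comm γ]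

/-- the level is zero iff the point is in the hyperplane, for the cylinder `range K` -/
private theorem gg_range_iff {J : Finset ℕ} {K m : ℕ}
    (t : (m : ℕ) → Fin (S.n m) → ZMod 3) (d : ℕ → ZMod 3) (v : ℕ → ZMod 3)
    (z : ↥(range K \ J) → ZMod 3) (z' : ↥(range K \ range K) → ZMod 3) (x : Fin (S.n m) → ZMod 3) :
    gg S (range K) K (glue J K v z) t d m x z' = 0 ↔
      pp S m (bp S J K v m x z) ∈ HH S (range K) t d m := by
  unfold gg HH
  rw [mem_hyp, bp_glue, sub_eq_zero]

open Classical in
/-- the lines which meet a set with at most one point on each line -/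
private theorem dens_lines {ι : Type} [Fintype ι] [DecidableEq ι] {A : Finset (ι → ZMod 3)} {k : ι}
    (h : ∀ x : ι → ZMod 3, ∀ u u' : ZMod 3, Function.update x k u ∈ A →
      Function.update x k u' ∈ A → u = u') :
    3 * dens A ≤ dens (univ.filter fun x => ∃ u, Function.update x k u ∈ A) := by
  have h1 : dens A = avR (fun x => (∑ u : ZMod 3,
      if Function.update x k u ∈ A then (1 : ℝ) else 0) / 3) := by
    rw [avR_line (fun x => if x ∈ A then (1 : ℝ) else 0) k, dens_eq_avR]
  have h2 : dens (univ.filter fun x => ∃ u, Function.update x k u ∈ A) =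
      avR (fun x => if ∃ u, Function.update x k u ∈ A then (1 : ℝ) else 0) :=
    dens_filter_eq_avR _
  rw [h1, h2, ← avR_const_mul]
  refine avR_mono fun x => ?_
  by_cases hx : ∃ u, Function.update x k u ∈ A
  · rw [if_pos hx]
    obtain ⟨u, hu⟩ := hx
    rw [Finset.sum_eq_single u]
    · rw [if_pos hu]
      norm_num
    · intro u' _ hne
      rw [if_neg]
      intro hu'
      exact hne (h x u' u hu' hu)
    · intro hu'
      exact absurd (mem_univ _) hu'
  · rw [if_neg hx, Finset.sum_eq_zero]
    · norm_num
    · intro u _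
      rw [if_neg]
      intro hu
      exact hx ⟨u, hu⟩

open Classical in
/-- Let `(range K, w)`, `w = glue J K v z`, be clean with the hyperplanes `G = HH S (range K) t d`, and let
`H' = HH S (range K) s c'`, `c' = c - ∑_{k ∈ range K \ J} s_k w_k`, be the restriction of `H = HH S J s c`.
For typical `x`, `p = pp (bp x z)` lies in `G` outside a null set (`gg_clean` for `(range K, w)`), and `gg x z = 0` iff
`p ∈ H'`.  Either `G ∩ H' = ∅` for most `m`: then the zeros are null, and `H' ∥ G` (`hyp_parallel`).  Or for most `m` they meet,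
`dens (G ∩ H') ≥ 1/9` (`dens_hyp_inter`); `G` meets every last line in one point, so the set of `x` whose last line meets
`G ∩ H'` has density `3 dens (G ∩ H') ≥ 1/3`, and for typical `x` outside a null set `p` is the point of `G` on the last line
of `bp x z`. -/
theorem gg_dich {J : Finset ℕ} {K : ℕ} (hJ : J ⊆ range K) {s : (m : ℕ) → Fin (S.n m) → ZMod 3} (hs : SSg S s)
    {c : ℕ → ZMod 3} {v : ℕ → ZMod 3} (z : ↥(range K \ J) → ZMod 3) (h : Clean S (range K) (glue J K v z)) :
    (∃ γ : ZMod 3, γ ≠ 0 ∧ Null S (fun m => (Typ S K m).filter fun x => gg S J K v s c m x z ≠ γ)) ∨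
    (∀ᶠ m in (UU : Filter ℕ), 333 / 1000 ≤ dens ((Typ S K m).filter fun x => gg S J K v s c m x z = 0)) := by
  obtain ⟨t, ht, d, hclean⟩ := h
  have hE := gg_clean (S := S) (J := range K) (K := K) (Finset.Subset.refl _) hclean
  obtain ⟨z', hz'⟩ : ∃ z' : ↥(range K \ range K) → ZMod 3, z' = fun _ => 0 := ⟨_, rfl⟩
  -- the hyperplanes
  obtain ⟨c', hc'⟩ : ∃ c' : ℕ → ZMod 3, c' = fun m => c m - ∑ k ∈ range K \ J,
    cf S s k m * glue J K v z k := ⟨_, rfl⟩
  have hG : ∀ m x, x ∈ Typ S K m → (x ∉ (Typ S K m).filter fun x => ∃ z'',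
      gg S (range K) K (glue J K v z) t d m x z'' ≠ 0) →
      pp S m (bp S J K v m x z) ∈ HH S (range K) t d m := by
    intro m x hx hxE
    rw [mem_filter, not_and] at hxE
    have h1 := hxE hx
    push Not at h1
    exact (gg_range_iff t d v z z' x).1 (h1 z')
  have hgg : ∀ m x (γ : ZMod 3), K < S.n m → (gg S J K v s c m x z = γ ↔
      pp S m (bp S J K v m x z) ∈ HH S (range K) s (fun m => c' m + γ) m) := by
    intro m x γ hm
    rw [gg_eq_iff hm hJ]
    have e : (fun m => (c m + γ) - ∑ k ∈ range K \ J, cf S s k m * glue J K v z k) =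
        fun m => c' m + γ := by
      funext m
      rw [hc']
      ring
    rw [e]
  rcases Ultrafilter.em UU (fun m => HH S (range K) s c' m ∩ HH S (range K) t d m = ∅) with hdis | hmeet
  · left
    -- the constant
    have hex : ∀ᶠ m in (UU : Filter ℕ), ∃ g : ZMod 3, g ≠ 0 ∧
        HH S (range K) t d m = HH S (range K) s (fun m => c' m + g) m := by
      filter_upwards [hdis, TT_nonempty S (range K)] with m h1 h2
      exact hyp_parallel h2 (hs m) (ht m) h1
    obtain ⟨f, hf⟩ : ∃ f : ℕ → ZMod 3, ∀ m, (∃ g : ZMod 3, g ≠ 0 ∧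
        HH S (range K) t d m = HH S (range K) s (fun m => c' m + g) m) → (f m ≠ 0 ∧
        HH S (range K) t d m = HH S (range K) s (fun m' => c' m' + f m) m) := by
      refine ⟨fun m => if h : ∃ g : ZMod 3, g ≠ 0 ∧
        HH S (range K) t d m = HH S (range K) s (fun m => c' m + g) m then h.choose else 0,
        fun m h => ?_⟩
      beta_reduce
      rw [dif_pos h]
      exact h.choose_spec
    have : Finite (ZMod 3) := inferInstance
    obtain ⟨γ, hγ⟩ := UU_const f
    have hγ' : ∀ᶠ m in (UU : Filter ℕ), γ ≠ 0 ∧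
        HH S (range K) t d m = HH S (range K) s (fun m => c' m + γ) m := by
      filter_upwards [hex, hγ] with m h1 h2
      have h3 := hf m h1
      rw [h2] at h3
      exact h3
    obtain ⟨m₀, hm₀⟩ := hγ'.exists
    refine ⟨γ, hm₀.1, hE.mono S ?_⟩
    filter_upwards [hγ', n_large S K] with m h1 h2
    intro x hx
    rw [mem_filter] at hx
    by_contra hxE
    refine hx.2 ((hgg m x γ h2).2 ?_)
    rw [← h1.2]
    exact hG m x hx.1 hxE
  · right
    have hNT := null_not_typ S K
    filter_upwards [hmeet, n_large S K, (null_iff S).1 hE (1 / 10000) (by norm_num),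
      (null_iff S).1 hNT (1 / 10000) (by norm_num)] with m h1 h2 h3 h4
    obtain ⟨A, hA⟩ : ∃ A, A = HH S (range K) s c' m ∩ HH S (range K) t d m := ⟨_, rfl⟩
    have hn : 0 < S.n m := by omega
    have hlast : lst S m hn ∈ TT S (range K) m := by
      rw [mem_TT_range]
      unfold lst
      dsimp only
      omega
    have hA9 : 1 / 9 ≤ dens A := by
      rw [hA]
      exact dens_hyp_inter (hs m) (ht m) (Finset.nonempty_iff_ne_empty.2 h1)
    have hline : ∀ x : Fin (S.n m) → ZMod 3, ∀ u u' : ZMod 3, Function.update x (lst S m hn) u ∈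
        HH S (range K) t d m → Function.update x (lst S m hn) u' ∈ HH S (range K) t d m → u = u' := by
      intro x u u' hu hu'
      obtain ⟨w, -, hw⟩ := hyp_line (ht m) (d m) hlast x
      exact (hw u hu).trans (hw u' hu').symm
    have hL := dens_lines (A := A) (k := lst S m hn) fun x u u' hu hu' => by
      rw [hA, mem_inter] at hu hu'
      exact hline x u u' hu.2 hu'.2
    have hsub : (univ.filter fun x => ∃ u, Function.update x (lst S m hn) u ∈ A) ⊆
        ((Typ S K m).filter fun x => gg S J K v s c m x z = 0) ∪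
        ((Typ S K m).filter fun x => ∃ z'', gg S (range K) K (glue J K v z) t d m x z'' ≠ 0) ∪
        (univ \ Typ S K m) := by
      intro x hx
      rw [mem_filter] at hx
      obtain ⟨-, u, hu⟩ := hx
      by_cases hxT : x ∈ Typ S K m
      swap
      · exact mem_union_right _ (mem_sdiff.2 ⟨mem_univ _, hxT⟩)
      refine mem_union_left _ ?_
      by_cases hxE : x ∈ (Typ S K m).filter fun x => ∃ z'',
          gg S (range K) K (glue J K v z) t d m x z'' ≠ 0
      · exact mem_union_right _ hxE
      refine mem_union_left _ (mem_filter.2 ⟨hxT, ?_⟩)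
      have hp := hG m x hxT hxE
      -- the point `pp` is on the last line of `bp`
      obtain ⟨y, hy⟩ : ∃ y, y = bp S J K v m x z := ⟨_, rfl⟩
      have hpu : pp S m y = Function.update y (lst S m hn) (pp S m y (lst S m hn)) := by
        funext k
        by_cases hk : k = lst S m hn
        · rw [hk, Function.update_self]
        · rw [Function.update_of_ne hk, pp_apply]
          have h5 : (k : ℕ) ≠ S.n m - 1 := fun h5 => hk (Fin.ext h5)
          have h6 := k.2
          omega
      have hyu : Function.update y (lst S m hn) u ∈ A := by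
        have hinv : Inv (TT S (range K) m) A := by
          rw [hA]
          intro a b hab ha
          rw [mem_inter] at ha ⊢
          exact ⟨hyp_inv _ _ _ a b hab ha.1, hyp_inv _ _ _ a b hab ha.2⟩
        refine hinv _ _ (fun k hk => ?_) hu
        by_cases hkl : k = lst S m hn
        · rw [hkl, Function.update_self, Function.update_self]
        · rw [Function.update_of_ne hkl, Function.update_of_ne hkl, hy,
            bp_high J K v m x z (mem_TT_range.1 hk)]
      rw [← hy, hpu] at hp
      have hyu' := hyu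
      rw [hA, mem_inter] at hyu'
      have hueq := hline y _ _ hp hyu'.2
      rw [hueq] at hpu
      rw [hgg m x 0 h2, ← hy, hpu]
      have e : (fun m => c' m + 0) = c' := by
        funext m
        rw [add_zero]
      rw [e]
      exact hyu'.1
    have h5 := dens_mono hsub
    have h6 := (dens_union_le _ _).trans (add_le_add_left (dens_union_le
      ((Typ S K m).filter fun x => gg S J K v s c m x z = 0)
      ((Typ S K m).filter fun x => ∃ z'', gg S (range K) K (glue J K v z) t d m x z'' ≠ 0)) 
      (dens (univ \ Typ S K m)))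
    linarith

open Classical in
/-- For a good cylinder only the first alternative of `gg_dich` is possible (`gg_good`). -/
theorem gg_const {J : Finset ℕ} {K : ℕ} (hJ : J ⊆ range K) {s : (m : ℕ) → Fin (S.n m) → ZMod 3} (hs : SSg S s)
    {c : ℕ → ZMod 3} {v : ℕ → ZMod 3} (hg : GoodW S J v s c) (z : ↥(range K \ J) → ZMod 3)
    (h : Clean S (range K) (glue J K v z)) :
    ∃ γ : ZMod 3, γ ≠ 0 ∧ Null S (fun m => (Typ S K m).filter fun x => gg S J K v s c m x z ≠ γ) := by
  rcases gg_dich hJ hs z h with h1 | h1
  · exact h1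
  · exfalso
    have h2 := (null_iff S).1 (gg_good (K := K) hJ hg) (1 / 10) (by norm_num)
    obtain ⟨m, h3, h4⟩ := (h1.and h2).exists
    have h5 : ((Typ S K m).filter fun x => gg S J K v s c m x z = 0) ⊆
        (Typ S K m).filter fun x => ∃ z, gg S J K v s c m x z = 0 := by
      intro x hx
      rw [mem_filter] at hx ⊢
      exact ⟨hx.1, z, hx.2⟩
    have h6 := dens_mono h5
    linarith

end HT13
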