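import Pool.Agent.HT13.SqFrac

/-! # HT13-SqExact: exact slices (paper: section 5, (5.3))

For most `m` the last direction `lst` has small defect `rho (U m) lst`.  A point `x` is *typical* for `K` if every line in the
last direction over a point agreeing with `x` on the coordinates `≥ K` is single.  `pp S m x` is the point of `U m` on the line
through `x` in the last direction (if this line is single).
For `J ⊆ range K` and `z : ↥(range K \ J) → ZMod 3` the level function is
`gg J K v s c m x z = ∑_{k ∈ TT S J m} s m k * (pp S m (x overwritten by glue J K v z on [K]))_k - c m`. -/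

set_option linter.unusedSectionVars false

namespace HT13

open Finset

variable (S : Sq)

/-- the last coordinate -/
def lst (m : ℕ) (h : 0 < S.n m) : Fin (S.n m) := ⟨S.n m - 1, Nat.sub_lt h one_pos⟩

open Classical in
/-- the point of `U m` on the line through `x` in the last direction (`x` itself if there is none) -/
noncomputable def pp (m : ℕ) (x : Fin (S.n m) → ZMod 3) : Fin (S.n m) → ZMod 3 :=
  if h : 0 < S.n m then
    (if h' : ∃ u, Function.update x (lst S m h) u ∈ S.U m then Function.update x (lst S m h) h'.choose else x)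
  else x

open Classical in
/-- typical points -/
noncomputable def Typ (K m : ℕ) : Finset (Fin (S.n m) → ZMod 3) :=
  univ.filter fun x => ∃ h : 0 < S.n m, ∀ y : Fin (S.n m) → ZMod 3, (∀ k : Fin (S.n m), K ≤ (k : ℕ) → y k = x k) →
    lc (S.U m) (lst S m h) y = 1

/-- `x` overwritten on the coordinates `< K` by `glue J K v z` -/
def bp (J : Finset ℕ) (K : ℕ) (v : ℕ → ZMod 3) (m : ℕ) (x : Fin (S.n m) → ZMod 3) (z : ↥(range K \ J) → ZMod 3) :
    Fin (S.n m) → ZMod 3 := mixp (JJ S (range K) m) x (pt S (glue J K v z) m)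

/-- the level function -/
noncomputable def gg (J : Finset ℕ) (K : ℕ) (v : ℕ → ZMod 3) (s : (m : ℕ) → Fin (S.n m) → ZMod 3) (c : ℕ → ZMod 3)
    (m : ℕ) (x : Fin (S.n m) → ZMod 3) (z : ↥(range K \ J) → ZMod 3) : ZMod 3 :=
  ∑ k ∈ TT S J m, s m k * pp S m (bp S J K v m x z) k - c m

/-- restriction of a point of the `m`-th cube to the coordinates in `range K \ J` -/
def rs (J : Finset ℕ) (K : ℕ) (m : ℕ) (x : Fin (S.n m) → ZMod 3) : ↥(range K \ J) → ZMod 3 :=
  fun k => if h : (k : ℕ) < S.n m then x ⟨k, h⟩ else 0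

/-- preimages under a map which only changes the coordinates in `J` -/
private theorem dens_pull_of_eqOn {ι : Type} [Fintype ι] [DecidableEq ι] (J : Finset ι)
    (f : (ι → ZMod 3) → ι → ZMod 3) (hf : ∀ x, ∀ k ∉ J, f x k = x k) (A : Finset (ι → ZMod 3)) :
    dens (univ.filter fun x => f x ∈ A) ≤ 3 ^ J.card * dens A := by
  have h1 : (univ.filter fun x => f x ∈ A).card ≤ 3 ^ J.card * A.card := by
    refine card_le_mul_card_image_of_maps_to (f := f) (fun x hx => (mem_filter.1 hx).2) _ fun b _ => ?_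
    have h2 : ((univ.filter fun x => f x ∈ A).filter fun x => f x = b)
        ⊆ Fintype.piFinset (fun k => if k ∈ J then (univ : Finset (ZMod 3)) else {b k}) := by
      intro x hx
      rw [mem_filter] at hx
      rw [Fintype.mem_piFinset]
      intro k
      by_cases hk : k ∈ J
      · simp [hk]
      · rw [if_neg hk, mem_singleton, ← hx.2, hf x k hk]
    refine (card_le_card h2).trans (le_of_eq ?_)
    rw [Fintype.card_piFinset]
    have h3 : ∀ k : ι, (if k ∈ J then (univ : Finset (ZMod 3)) else {b k}).card = if k ∈ J then 3 else 1 := by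
      intro k
      by_cases hk : k ∈ J
      · rw [if_pos hk, if_pos hk, card_univ, ZMod.card]
      · rw [if_neg hk, if_neg hk, card_singleton]
    simp only [h3]
    rw [Finset.prod_ite_mem, univ_inter, prod_const]
  have hpos := cube_pos (ι := ι)
  unfold dens
  rw [← mul_div_assoc]
  have h4 : ((univ.filter fun x => f x ∈ A).card : ℝ) ≤ 3 ^ J.card * (A.card : ℝ) := by exact_mod_cast h1
  gcongr

private theorem card_JJ_range_le (K m : ℕ) : (JJ S (range K) m).card ≤ K := by
  have h1 : ((JJ S (range K) m).image fun k : Fin (S.n m) => (k : ℕ)) ⊆ range K := by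
    intro k hk
    obtain ⟨j, hj, rfl⟩ := mem_image.1 hk
    exact (mem_filter.1 hj).2
  have h2 := card_le_card h1
  rw [card_range, card_image_of_injective _ Fin.val_injective] at h2
  exact h2

private theorem mem_JJ_range {K m : ℕ} {k : Fin (S.n m)} : k ∈ JJ S (range K) m ↔ (k : ℕ) < K := by
  unfold JJ
  rw [mem_filter, mem_range]
  simp

/-- The defect of the last direction tends to zero along `UU` (`S.tail` and `n_large`), and a non-typical point has a
modification on the first `K` coordinates with a non-single last line: density `≤ 3 ^ K * rho`. -/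
theorem null_not_typ (K : ℕ) : Null S (fun m => univ \ Typ S K m) := by
  classical
  rw [null_iff]
  intro eps heps
  have h3K : (0 : ℝ) < 3 ^ K := by positivity
  obtain ⟨K', hK'⟩ := S.tail (eps / 3 ^ K) (by positivity)
  filter_upwards [n_large S (K' + 1)] with m hm
  have hn : 0 < S.n m := by omega
  -- the defect of the last direction
  have h1 : rho (S.U m) (lst S m hn) ≤ eps / 3 ^ K := by
    refine le_trans ?_ (hK' m)
    refine Finset.single_le_sum (f := fun k => rho (S.U m) k) (fun k _ => rho_nonneg _ _) ?_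
    rw [mem_filter]
    refine ⟨mem_univ _, ?_⟩
    show K' ≤ S.n m - 1
    omega
  -- the modification
  have h2 : ∀ x : Fin (S.n m) → ZMod 3, ∃ y : Fin (S.n m) → ZMod 3,
      (∀ k ∉ JJ S (range K) m, y k = x k) ∧ (x ∉ Typ S K m → lc (S.U m) (lst S m hn) y ≠ 1) := by
    intro x
    by_cases hx : x ∈ Typ S K m
    · exact ⟨x, fun _ _ => rfl, fun h => absurd hx h⟩
    · have h3 : ¬ ∃ h : 0 < S.n m, ∀ y : Fin (S.n m) → ZMod 3,
          (∀ k : Fin (S.n m), K ≤ (k : ℕ) → y k = x k) → lc (S.U m) (lst S m h) y = 1 := by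
        intro h
        exact hx (mem_filter.2 ⟨mem_univ _, h⟩)
      push Not at h3
      obtain ⟨y, hy, hy'⟩ := h3 hn
      refine ⟨y, fun k hk => hy k ?_, fun _ => hy'⟩
      rw [mem_JJ_range] at hk
      omega
  choose f hf hf' using h2
  have h3 := dens_pull_of_eqOn (JJ S (range K) m) f hf (univ.filter fun x => lc (S.U m) (lst S m hn) x ≠ 1)
  have h4 : univ \ Typ S K m ⊆ univ.filter fun x => f x ∈ univ.filter fun x => lc (S.U m) (lst S m hn) x ≠ 1 := by
    intro x hx
    rw [mem_sdiff] at hx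
    exact mem_filter.2 ⟨mem_univ _, mem_filter.2 ⟨mem_univ _, hf' x hx.2⟩⟩
  have h5 : (3 : ℝ) ^ (JJ S (range K) m).card ≤ 3 ^ K :=
    pow_le_pow_right₀ (by norm_num) (card_JJ_range_le S K m)
  calc dens (univ \ Typ S K m) ≤ 3 ^ (JJ S (range K) m).card * rho (S.U m) (lst S m hn) :=
        (dens_mono h4).trans h3
    _ ≤ 3 ^ K * (eps / 3 ^ K) := by
        refine mul_le_mul h5 h1 (rho_nonneg _ _) (by positivity)
    _ = eps := by field_simp

variable {S}

private theorem pp_pos {m : ℕ} {y : Fin (S.n m) → ZMod 3} (h : 0 < S.n m)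
    (h' : ∃ u, Function.update y (lst S m h) u ∈ S.U m) : ∃ u, pp S m y = Function.update y (lst S m h) u ∧
      Function.update y (lst S m h) u ∈ S.U m := by
  refine ⟨h'.choose, ?_, h'.choose_spec⟩
  unfold pp
  rw [dif_pos h, dif_pos h']

private theorem typ_lc {K m : ℕ} {x y : Fin (S.n m) → ZMod 3} (hx : x ∈ Typ S K m)
    (hy : ∀ k : Fin (S.n m), K ≤ (k : ℕ) → y k = x k) : ∃ h : 0 < S.n m, lc (S.U m) (lst S m h) y = 1 := by
  classical
  unfold Typ at hx
  rw [mem_filter] at hx
  obtain ⟨-, h, h1⟩ := hx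
  exact ⟨h, h1 y hy⟩

private theorem typ_ex {K m : ℕ} {x y : Fin (S.n m) → ZMod 3} (hx : x ∈ Typ S K m)
    (hy : ∀ k : Fin (S.n m), K ≤ (k : ℕ) → y k = x k) : ∃ h : 0 < S.n m,
      (∃ u, Function.update y (lst S m h) u ∈ S.U m) ∧ ∀ u u', Function.update y (lst S m h) u ∈ S.U m →
        Function.update y (lst S m h) u' ∈ S.U m → u = u' := by
  obtain ⟨h, h1⟩ := typ_lc hx hy
  unfold lc at h1
  obtain ⟨a, ha⟩ := card_eq_one.1 h1
  have h2 : ∀ u, Function.update y (lst S m h) u ∈ S.U m ↔ u = a := by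
    intro u
    rw [← mem_singleton, ← ha, mem_filter]
    simp
  exact ⟨h, ⟨a, (h2 a).2 rfl⟩, fun u u' hu hu' => ((h2 u).1 hu).trans ((h2 u').1 hu').symm⟩

theorem pp_mem {K m : ℕ} {x y : Fin (S.n m) → ZMod 3} (hx : x ∈ Typ S K m) (hy : ∀ k : Fin (S.n m), K ≤ (k : ℕ) → y k = x k) :
    pp S m y ∈ S.U m := by
  obtain ⟨h, h1, -⟩ := typ_ex hx hy
  obtain ⟨u, hu, hu'⟩ := pp_pos h h1
  rw [hu]
  exact hu'

/-- `pp` only changes the last coordinate -/
theorem pp_apply {m : ℕ} (y : Fin (S.n m) → ZMod 3) (k : Fin (S.n m)) (hk : (k : ℕ) + 1 < S.n m) :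
    pp S m y k = y k := by
  unfold pp
  by_cases h : 0 < S.n m
  · rw [dif_pos h]
    by_cases h' : ∃ u, Function.update y (lst S m h) u ∈ S.U m
    · rw [dif_pos h', Function.update_of_ne]
      intro h2
      have h3 : (k : ℕ) = S.n m - 1 := congrArg Fin.val h2
      omega
    · rw [dif_neg h']
  · rw [dif_neg h]

/-- two points of `U m` on the same single last line agree -/
theorem pp_unique {K m : ℕ} {x y p : Fin (S.n m) → ZMod 3} (hx : x ∈ Typ S K m)
    (hy : ∀ k : Fin (S.n m), K ≤ (k : ℕ) → y k = x k) (hp : p ∈ S.U m) (hpy : ∀ k : Fin (S.n m), (k : ℕ) + 1 < S.n m → p k = y k) :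
    p = pp S m y := by
  obtain ⟨h, h1, h2⟩ := typ_ex hx hy
  obtain ⟨u, hu, hu'⟩ := pp_pos h h1
  have h3 : p = Function.update y (lst S m h) (p (lst S m h)) := by
    funext k
    by_cases hk : k = lst S m h
    · rw [hk, Function.update_self]
    · rw [Function.update_of_ne hk]
      refine hpy k ?_
      have h4 : (k : ℕ) ≠ S.n m - 1 := fun h5 => hk (Fin.ext h5)
      have h5 := k.2
      omega
  rw [hu]
  rw [h3] at hp
  rw [h3, h2 _ _ hp hu']

/-- the fibres of `x ↦ pp (bp x z)` have at most `3 ^ (K + 1)` points -/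
theorem dens_pull_le {K m : ℕ} (J : Finset ℕ) (v : ℕ → ZMod 3) (z : ↥(range K \ J) → ZMod 3)
    (A : Finset (Fin (S.n m) → ZMod 3)) :
    dens (univ.filter fun x => pp S m (bp S J K v m x z) ∈ A) ≤ 3 ^ (K + 1) * dens A := by
  have h0 : (univ.filter fun k : Fin (S.n m) => ¬ ((k : ℕ) + 1 < S.n m)).card ≤ 1 := by
    rw [card_le_one]
    intro a ha b hb
    have h1 := (mem_filter.1 ha).2
    have h2 := (mem_filter.1 hb).2
    have h3 := a.2
    have h4 := b.2
    exact Fin.ext (by omega)
  have h1 := dens_pull_of_eqOn (JJ S (range K) m ∪ univ.filter fun k : Fin (S.n m) => ¬ ((k : ℕ) + 1 < S.n m))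
    (fun x => pp S m (bp S J K v m x z)) (fun x k hk => by
      rw [mem_union, not_or] at hk
      have h2 : (k : ℕ) + 1 < S.n m := by
        by_contra h3
        exact hk.2 (mem_filter.2 ⟨mem_univ _, h3⟩)
      rw [pp_apply _ k h2]
      unfold bp mixp
      rw [if_neg hk.1]) A
  refine h1.trans ?_
  have h2 : (JJ S (range K) m ∪ univ.filter fun k : Fin (S.n m) => ¬ ((k : ℕ) + 1 < S.n m)).card ≤ K + 1 :=
    (card_union_le _ _).trans (Nat.add_le_add (card_JJ_range_le S K m) h0)
  have h3 := dens_nonneg A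
  have h4 : (3 : ℝ) ^ (JJ S (range K) m ∪ univ.filter fun k : Fin (S.n m) => ¬ ((k : ℕ) + 1 < S.n m)).card
      ≤ 3 ^ (K + 1) := pow_le_pow_right₀ (by norm_num) h2
  exact mul_le_mul_of_nonneg_right h4 h3

end HT13
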