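import Pool.Agent.HT13.SqNear

/-! # HT13-SqFrac: few cylinders are not clean (paper: section 5, (5.2)) -/

set_option linter.unusedSectionVars false

namespace HT13

open Finset

/-- extend a point of `Z_3^K` by zero -/
def ofFin (K : ℕ) (z : Fin K → ZMod 3) : ℕ → ZMod 3 := fun k => if h : k < K then z ⟨k, h⟩ else 0

/-- overwrite `v` by `z` on the coordinates in `range K \ J` -/
def glue (J : Finset ℕ) (K : ℕ) (v : ℕ → ZMod 3) (z : ↥(range K \ J) → ZMod 3) : ℕ → ZMod 3 :=
  fun k => if h : k ∈ range K \ J then z ⟨k, h⟩ else v k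

/-- a function of the first `K` coordinates has the same average over the big cube and over `Z_3^K` -/
theorem avR_first {n K : ℕ} (hK : K ≤ n) (F : (ℕ → ZMod 3) → ℝ)
    (hF : ∀ v v' : ℕ → ZMod 3, (∀ k < K, v k = v' k) → F v = F v') :
    avR (fun y : Fin n → ZMod 3 => F (ofFin n y)) = (∑ z : Fin K → ZMod 3, F (ofFin K z)) / 3 ^ K := by
  obtain ⟨d, rfl⟩ := Nat.exists_eq_add_of_le hK
  have h1 : ∑ y : Fin (K + d) → ZMod 3, F (ofFin (K + d) y)
      = ∑ z : Fin K → ZMod 3, ∑ _w : Fin d → ZMod 3, F (ofFin K z) := by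
    rw [← Equiv.sum_comp (Fin.appendEquiv K d), ← Finset.univ_product_univ, sum_product]
    refine sum_congr rfl fun z _ => sum_congr rfl fun w _ => ?_
    refine hF _ _ (fun k hk => ?_)
    unfold ofFin
    have hk' : k < K + d := by omega
    simp only [hk, hk', dite_true]
    exact Fin.append_left z w ⟨k, hk⟩
  unfold avR
  rw [h1]
  simp only [sum_const, card_univ, card_cube, Fintype.card_fin, nsmul_eq_mul]
  rw [← mul_sum]
  push_cast
  rw [pow_add]
  field_simp

variable (S : Sq)

theorem nonclean_small (δ : ℝ) (hδ : 0 < δ) : ∃ K0 : ℕ, ∀ K : ℕ, K0 ≤ K →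
    ∃ B : Finset (Fin K → ZMod 3), (B.card : ℝ) ≤ δ * 3 ^ K ∧ ∀ z, z ∉ B → Clean S (range K) (ofFin K z) := by
  classical
  obtain ⟨CP, hCP, hP⟩ := lemmaP
  obtain ⟨eps1, heps1, hnear⟩ := near_clean
  set lam : ℝ := (eps1 / CP) ^ 2 with hlam
  have hlam0 : 0 < lam := by positivity
  have hCl : CP * √lam = eps1 := by
    rw [hlam, Real.sqrt_sq (by positivity)]
    field_simp
  obtain ⟨K0, hK0⟩ := S.tail (δ * lam) (by positivity)
  refine ⟨K0, fun K hK => ?_⟩
  set G : ℕ → (ℕ → ZMod 3) → ℝ := fun m v => RR (TT S (range K) m) (WW S (range K) v m) with hG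
  obtain ⟨B, hB⟩ := UU_const (fun m => univ.filter fun z : Fin K → ZMod 3 => lam < G m (ofFin K z))
  refine ⟨B, ?_, ?_⟩
  · obtain ⟨m, hm1, hm2⟩ := (hB.and (n_large S K)).exists
    rw [← hm1]
    have h0 : ∀ v v' : ℕ → ZMod 3, (∀ k < K, v k = v' k) → G m v = G m v' := by
      intro v v' hv
      simp only [hG]
      rw [WW_congr S (fun k hk => hv k (mem_range.mp hk)) m]
    have h1 := avR_first (n := S.n m) (K := K) hm2.le (G m) h0
    have h2 : avR (fun y : Fin (S.n m) → ZMod 3 => G m (ofFin (S.n m) y)) = RR (TT S (range K) m) (S.U m) := by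
      rw [← avR_RR_ovw (T := TT S (range K) m) (J := JJ S (range K) m) sdiff_disjoint (S.U m)]
      have h6 : ∀ y : Fin (S.n m) → ZMod 3, G m (ofFin (S.n m) y)
          = RR (TT S (range K) m) (ovw (JJ S (range K) m) y (S.U m)) := by
        intro y
        have h7 : pt S (ofFin (S.n m) y) m = y := by
          funext k
          simp only [pt, ofFin, k.isLt, dite_true]
        simp only [hG, WW, h7]
      simp only [h6]
    have h3 : RR (TT S (range K) m) (S.U m) ≤ δ * lam := by
      refine le_trans ?_ (hK0 m)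
      unfold RR
      refine sum_le_sum_of_subset_of_nonneg ?_ (fun k _ _ => rho_nonneg _ _)
      intro k hk
      simp only [TT, JJ, mem_sdiff, mem_filter, mem_univ, true_and, mem_range, not_lt] at hk ⊢
      omega
    have h4 : ((univ.filter fun z : Fin K → ZMod 3 => lam < G m (ofFin K z)).card : ℝ) * lam
        ≤ ∑ z : Fin K → ZMod 3, G m (ofFin K z) := by
      rw [← nsmul_eq_mul, ← sum_const]
      refine le_trans (sum_le_sum fun z hz => (mem_filter.mp hz).2.le) ?_
      exact sum_le_sum_of_subset_of_nonneg (filter_subset _ _) (fun z _ _ => RR_nonneg _ _)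
    rw [h2] at h1
    rw [h1, div_le_iff₀ (by positivity)] at h3
    have h5 : ((univ.filter fun z : Fin K → ZMod 3 => lam < G m (ofFin K z)).card : ℝ) * lam
        ≤ (δ * 3 ^ K) * lam := by
      refine h4.trans (h3.trans (le_of_eq ?_))
      ring
    exact le_of_mul_le_mul_right h5 hlam0
  · intro z hz
    have h1 : ∀ᶠ m in (UU : Filter ℕ), G m (ofFin K z) ≤ lam := by
      filter_upwards [hB] with m hm
      by_contra hcon
      apply hz
      rw [← hm]
      exact mem_filter.mpr ⟨mem_univ _, not_le.mp hcon⟩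
    have h2 : ∀ m, ∃ sc : (Fin (S.n m) → ZMod 3) × ZMod 3, Sgn sc.1 ∧
        dens (symmDiff (WW S (range K) (ofFin K z) m) (hyp (TT S (range K) m) sc.1 sc.2))
          ≤ CP * √(G m (ofFin K z)) := by
      intro m
      obtain ⟨s, hs, c, hc⟩ := hP (TT S (range K) m) (WW S (range K) (ofFin K z) m) (WW_inv S _ _ m)
        (fun k hk x => lc_le_two (WW_valid S _ _ m) hk x)
      exact ⟨(s, c), hs, hc⟩
    choose sc hs hc using h2
    refine ⟨fun m => (sc m).1, fun m => hs m, fun m => (sc m).2, ?_⟩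
    refine hnear S (range K) (ofFin K z) (fun m => (sc m).1) (fun m => (sc m).2) (fun m => hs m) ?_
    filter_upwards [h1] with m hm
    refine (hc m).trans ?_
    rw [← hCl]
    gcongr

/-- From `nonclean_small` with `δ * 3 ^ (-|J|)`; `z ↦ glue J K v z` restricted to `Fin K` is injective. -/
theorem nonclean_rel (J : Finset ℕ) (δ : ℝ) (hδ : 0 < δ) : ∃ K0 : ℕ, ∀ K : ℕ, K0 ≤ K → J ⊆ range K →
    ∀ v : ℕ → ZMod 3, ∃ B : Finset (↥(range K \ J) → ZMod 3),
      (B.card : ℝ) ≤ δ * 3 ^ Fintype.card ↥(range K \ J) ∧ ∀ z, z ∉ B → Clean S (range K) (glue J K v z) := by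
  classical
  obtain ⟨K0, hK0⟩ := nonclean_small S (δ / 3 ^ J.card) (by positivity)
  refine ⟨K0, fun K hK hJ v => ?_⟩
  obtain ⟨B, hB, hB2⟩ := hK0 K hK
  set r : (↥(range K \ J) → ZMod 3) → (Fin K → ZMod 3) := fun z k => glue J K v z k with hr
  refine ⟨univ.filter fun z => r z ∈ B, ?_, ?_⟩
  · have h1 : (univ.filter fun z => r z ∈ B).card ≤ B.card := by
      refine card_le_card_of_injOn r (fun z hz => (mem_filter.mp hz).2) ?_
      intro z _ z' _ hzz
      ext ⟨k, hk⟩
      have hk' : k < K := by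
        rw [mem_sdiff, mem_range] at hk; exact hk.1
      have h2 := congrFun hzz ⟨k, hk'⟩
      simp only [hr, glue, hk, dite_true] at h2
      rw [h2]
    have h2 : Fintype.card ↥(range K \ J) + J.card = K := by
      rw [Fintype.card_coe, card_sdiff_of_subset hJ, card_range]
      have := card_le_card hJ
      rw [card_range] at this
      omega
    have h3 : (3 : ℝ) ^ K = 3 ^ Fintype.card ↥(range K \ J) * 3 ^ J.card := by
      rw [← pow_add, h2]
    calc ((univ.filter fun z => r z ∈ B).card : ℝ) ≤ B.card := by exact_mod_cast h1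
      _ ≤ δ / 3 ^ J.card * 3 ^ K := hB
      _ = δ * 3 ^ Fintype.card ↥(range K \ J) := by rw [h3]; field_simp
  · intro z hz
    have h1 : r z ∉ B := fun h => hz (mem_filter.mpr ⟨mem_univ _, h⟩)
    refine (hB2 _ h1).congr (fun k hk => ?_)
    have hk' := mem_range.mp hk
    simp only [ofFin, hk', dite_true, hr]

end HT13
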