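import Pool.Agent.HT13.SqExact

/-! # HT13-SqGG: properties of the level function (paper: section 5, (5.3)) -/

set_option linter.unusedSectionVars false

namespace HT13

open Finset

variable {S : Sq}

theorem bp_ge_ht13 {J : Finset ℕ} {K m : ℕ} (v : ℕ → ZMod 3) (x : Fin (S.n m) → ZMod 3)
    (z : ↥(range K \ J) → ZMod 3) (k : Fin (S.n m)) (hk : K ≤ (k : ℕ)) : bp S J K v m x z k = x k := by
  unfold bp mixp
  rw [if_neg]
  unfold JJ
  rw [mem_filter, mem_range]
  rintro ⟨-, h⟩
  omega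

theorem bp_lt_ht13 {J : Finset ℕ} {K m : ℕ} (v : ℕ → ZMod 3) (x : Fin (S.n m) → ZMod 3)
    (z : ↥(range K \ J) → ZMod 3) (k : Fin (S.n m)) (hk : (k : ℕ) < K) :
    bp S J K v m x z k = glue J K v z k := by
  unfold bp mixp
  rw [if_pos]
  · rfl
  · unfold JJ
    rw [mem_filter, mem_range]
    exact ⟨mem_univ _, hk⟩

theorem pp_update_ht13 {m : ℕ} {y : Fin (S.n m) → ZMod 3} {k0 : Fin (S.n m)} (hk0 : (k0 : ℕ) + 1 < S.n m)
    {a : ZMod 3} (h0 : 0 < S.n m)
    (hl : pp S m (Function.update y k0 a) (lst S m h0) = pp S m y (lst S m h0)) :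
    pp S m (Function.update y k0 a) = Function.update (pp S m y) k0 a := by
  funext k
  by_cases hk : k = k0
  · subst hk
    rw [pp_apply _ k hk0, Function.update_self, Function.update_self]
  · rw [Function.update_of_ne hk]
    by_cases hkn : (k : ℕ) + 1 < S.n m
    · rw [pp_apply _ k hkn, pp_apply _ k hkn, Function.update_of_ne hk]
    · have : k = lst S m h0 := by
        apply Fin.ext
        unfold lst
        have := k.2
        dsimp only
        omega
      rw [this]
      exact hl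

theorem lst_mem_TT_ht13 {J : Finset ℕ} {K m : ℕ} (hK : K < S.n m) (hJ : J ⊆ range K) (h0 : 0 < S.n m) :
    lst S m h0 ∈ TT S J m := by
  unfold TT JJ lst
  rw [mem_sdiff, mem_filter]
  refine ⟨mem_univ _, ?_⟩
  rintro ⟨-, h⟩
  have := mem_range.mp (hJ h)
  dsimp only at this
  omega

theorem sum_pp_ht13 {J : Finset ℕ} {K m : ℕ} (hK : K < S.n m) (hJ : J ⊆ range K) (h0 : 0 < S.n m)
    (s : Fin (S.n m) → ZMod 3) (y : Fin (S.n m) → ZMod 3) :
    ∑ k ∈ TT S J m, s k * pp S m y k
      = ∑ k ∈ (TT S J m).erase (lst S m h0), s k * y k + s (lst S m h0) * pp S m y (lst S m h0) := by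
  rw [← Finset.sum_erase_add _ _ (lst_mem_TT_ht13 hK hJ h0)]
  congr 1
  refine sum_congr rfl fun k hk => ?_
  rw [pp_apply]
  rw [mem_erase] at hk
  have h1 : (k : ℕ) ≠ S.n m - 1 := fun h => hk.1 (Fin.ext h)
  have := k.2
  omega

theorem sum_y_ht13 {J : Finset ℕ} {K m : ℕ} (hK : K < S.n m) (hJ : J ⊆ range K) (h0 : 0 < S.n m)
    (s : Fin (S.n m) → ZMod 3) (y : Fin (S.n m) → ZMod 3) :
    ∑ k ∈ TT S J m, s k * y k
      = ∑ k ∈ (TT S J m).erase (lst S m h0), s k * y k + s (lst S m h0) * y (lst S m h0) := by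
  rw [← Finset.sum_erase_add _ _ (lst_mem_TT_ht13 hK hJ h0)]

theorem bp_upd_z_ht13 {J : Finset ℕ} {K m : ℕ} (hK : K < S.n m) (v : ℕ → ZMod 3) (x : Fin (S.n m) → ZMod 3)
    (z : ↥(range K \ J) → ZMod 3) (j : ↥(range K \ J)) (a : ZMod 3) (hj : (j : ℕ) < S.n m) :
    bp S J K v m x (Function.update z j a) = Function.update (bp S J K v m x z) ⟨(j : ℕ), hj⟩ a := by
  have hjK : (j : ℕ) < K := mem_range.mp (mem_sdiff.mp j.2).1
  funext k
  by_cases hk : k = ⟨(j : ℕ), hj⟩
  · subst hk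
    rw [Function.update_self, bp_lt_ht13 v x _ _ hjK]
    unfold glue
    rw [dif_pos j.2]
    exact Function.update_self _ _ _
  · rw [Function.update_of_ne hk]
    by_cases hkK : (k : ℕ) < K
    · rw [bp_lt_ht13 v x _ _ hkK, bp_lt_ht13 v x _ _ hkK]
      unfold glue
      by_cases h : (k : ℕ) ∈ range K \ J
      · rw [dif_pos h, dif_pos h, Function.update_of_ne]
        intro h1
        apply hk
        apply Fin.ext
        exact congrArg Subtype.val h1
      · rw [dif_neg h, dif_neg h]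
    · rw [bp_ge_ht13 v x _ _ (not_lt.mp hkK), bp_ge_ht13 v x _ _ (not_lt.mp hkK)]

theorem bp_upd_v_ht13 {J : Finset ℕ} {K m : ℕ} (hJ : J ⊆ range K) (v : ℕ → ZMod 3) (x : Fin (S.n m) → ZMod 3)
    (z : ↥(range K \ J) → ZMod 3) {l : ℕ} (hl : l ∈ J) (hln : l < S.n m) (b : ZMod 3) :
    bp S J K (Function.update v l b) m x z = Function.update (bp S J K v m x z) ⟨l, hln⟩ b := by
  have hlK : l < K := mem_range.mp (hJ hl)
  funext k
  by_cases hk : k = ⟨l, hln⟩
  · subst hk
    rw [Function.update_self, bp_lt_ht13 _ x _ _ hlK]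
    unfold glue
    rw [dif_neg]
    · exact Function.update_self _ _ _
    · rw [mem_sdiff]
      rintro ⟨-, h⟩
      exact h hl
  · rw [Function.update_of_ne hk]
    by_cases hkK : (k : ℕ) < K
    · rw [bp_lt_ht13 _ x _ _ hkK, bp_lt_ht13 _ x _ _ hkK]
      unfold glue
      by_cases h : (k : ℕ) ∈ range K \ J
      · rw [dif_pos h, dif_pos h]
      · rw [dif_neg h, dif_neg h, Function.update_of_ne]
        intro h1
        apply hk
        apply Fin.ext
        exact h1
    · rw [bp_ge_ht13 _ x _ _ (not_lt.mp hkK), bp_ge_ht13 _ x _ _ (not_lt.mp hkK)]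

/-- one step: if the level changes by `s_j t` then the points of `U m` are neighbours in direction `j` -/
theorem gg_step_ht13 {J : Finset ℕ} {K m : ℕ} (hK : K < S.n m) (hJ : J ⊆ range K)
    {s : (m : ℕ) → Fin (S.n m) → ZMod 3}
    (hs : SSg S s) (c : ℕ → ZMod 3) (v : ℕ → ZMod 3) {x : Fin (S.n m) → ZMod 3} (hx : x ∈ Typ S K m)
    (z : ↥(range K \ J) → ZMod 3) (j : ↥(range K \ J)) (t : ZMod 3) (hj : (j : ℕ) < S.n m)
    (h : gg S J K v s c m x (Function.update z j (z j + t)) - gg S J K v s c m x z = cf S s j m * t) :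
    Function.update (pp S m (bp S J K v m x z)) ⟨(j : ℕ), hj⟩ (z j + t) ∈ S.U m := by
  have h0 : 0 < S.n m := by omega
  have hjK : (j : ℕ) < K := mem_range.mp (mem_sdiff.mp j.2).1
  have hjJ : (j : ℕ) ∉ J := (mem_sdiff.mp j.2).2
  have hjT : (⟨(j : ℕ), hj⟩ : Fin (S.n m)) ∈ (TT S J m).erase (lst S m h0) := by
    rw [mem_erase]
    constructor
    · intro h1
      have := congrArg Fin.val h1
      unfold lst at this
      dsimp only at this
      omega
    · unfold TT JJ
      rw [mem_sdiff, mem_filter]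
      exact ⟨mem_univ _, fun h1 => hjJ h1.2⟩
  have hyj : bp S J K v m x z ⟨(j : ℕ), hj⟩ = z j := by
    rw [bp_lt_ht13 v x _ _ hjK]
    unfold glue
    rw [dif_pos j.2]
  have hcf : cf S s j m = s m ⟨(j : ℕ), hj⟩ := by
    unfold cf
    rw [dif_pos hj]
  unfold gg at h
  rw [sum_pp_ht13 hK hJ h0, sum_pp_ht13 hK hJ h0, hcf, bp_upd_z_ht13 hK v x z j _ hj,
    ← Finset.add_sum_erase _ _ hjT, ← Finset.add_sum_erase _ (fun k => s m k * bp S J K v m x z k) hjT] at h
  have h1 : ∀ k ∈ ((TT S J m).erase (lst S m h0)).erase ⟨(j : ℕ), hj⟩,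
      s m k * Function.update (bp S J K v m x z) ⟨(j : ℕ), hj⟩ (z j + t) k = s m k * bp S J K v m x z k := by
    intro k hk
    rw [Function.update_of_ne (mem_erase.mp hk).1]
  rw [sum_congr rfl h1, Function.update_self, hyj] at h
  have hlast : pp S m (Function.update (bp S J K v m x z) ⟨(j : ℕ), hj⟩ (z j + t)) (lst S m h0)
      = pp S m (bp S J K v m x z) (lst S m h0) := by
    have : Fact (Nat.Prime 3) := ⟨Nat.prime_three⟩
    apply mul_left_cancel₀ (hs m (lst S m h0))
    linear_combination h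
  rw [← pp_update_ht13 (by dsimp only; omega) h0 hlast, ← bp_upd_z_ht13 hK v x z j _ hj]
  exact pp_mem hx (fun k hk => bp_ge_ht13 v x _ k hk)

/-- The degree condition.  If `gg (z + t e_j) - gg z = s_j t` then the two points `pp (bp x z)` and `pp (bp x (z + t e_j))` of
`U m` have the same last coordinate (as `s` at the last coordinate is nonzero), so they are neighbours in direction `j`;
`pp (bp x z)` has at most one neighbour (`S.val`). -/
theorem gg_DC {J : Finset ℕ} {K m : ℕ} (hK : K < S.n m) (hJ : J ⊆ range K) {s : (m : ℕ) → Fin (S.n m) → ZMod 3}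
    (hs : SSg S s) (c : ℕ → ZMod 3) (v : ℕ → ZMod 3) {x : Fin (S.n m) → ZMod 3} (hx : x ∈ Typ S K m) :
    DC (fun k : ↥(range K \ J) => cf S s k m) (gg S J K v s c m x) := by
  intro z j t j' t' ht ht' h1 h2
  have hjK : ∀ j : ↥(range K \ J), (j : ℕ) < K := fun j => mem_range.mp (mem_sdiff.mp j.2).1
  have hj : ∀ j : ↥(range K \ J), (j : ℕ) < S.n m := fun j => lt_trans (hjK j) hK
  have hyj : ∀ j : ↥(range K \ J), pp S m (bp S J K v m x z) ⟨(j : ℕ), hj j⟩ = z j := by
    intro j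
    rw [pp_apply _ _ (by dsimp only; have := hjK j; omega), bp_lt_ht13 v x _ _ (hjK j)]
    unfold glue
    rw [dif_pos j.2]
  have e1 := gg_step_ht13 hK hJ hs c v hx z j t (hj j) h1
  have e2 := gg_step_ht13 hK hJ hs c v hx z j' t' (hj j') h2
  have hP : pp S m (bp S J K v m x z) ∈ S.U m := pp_mem hx (fun k hk => bp_ge_ht13 v x _ k hk)
  have hne : ∀ (j : ↥(range K \ J)) (t : ZMod 3), t ≠ 0 →
      z j + t ≠ pp S m (bp S J K v m x z) ⟨(j : ℕ), hj j⟩ := by
    intro j t ht h
    rw [hyj j] at h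
    exact ht (by simpa using h)
  have h3 := S.val m _ hP ⟨(j : ℕ), hj j⟩ (mem_univ _) (z j + t) (hne j t ht) ⟨(j' : ℕ), hj j'⟩ (mem_univ _)
    (z j' + t') (hne j' t' ht') e1 e2
  obtain ⟨h4, h5⟩ := h3
  have h6 : j = j' := by
    apply Subtype.ext
    exact congrArg Fin.val h4
  subst h6
  exact ⟨rfl, add_left_cancel h5⟩

theorem cf_ne_zero' {J : Finset ℕ} {K m : ℕ} (hK : K < S.n m) {s : (m : ℕ) → Fin (S.n m) → ZMod 3}
    (hs : SSg S s) (k : ↥(range K \ J)) : cf S s k m ≠ 0 := by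
  have hjK : (k : ℕ) < K := mem_range.mp (mem_sdiff.mp k.2).1
  unfold cf
  rw [dif_pos (lt_trans hjK hK)]
  exact hs m _

/-- For a typical point `y` membership in `WW S J v m` is decided by the level function: `X := y` overwritten by `v` on `J` is
`bp y (rs y)`; if `X ∈ U m` then `pp X = X`, so `∑_{TT} s y = c + gg`; conversely `pp X` has level `gg`, so if `y` (hence `X`)
has `∑_{TT} s y = c + gg` then `X` and `pp X` are on the same last line with the same value of `∑ s`, so `X = pp X ∈ U m`. -/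
theorem mem_WW_iff_gg {J : Finset ℕ} {K m : ℕ} (hK : K < S.n m) (hJ : J ⊆ range K)
    {s : (m : ℕ) → Fin (S.n m) → ZMod 3} (hs : SSg S s) (c : ℕ → ZMod 3) (v : ℕ → ZMod 3)
    {y : Fin (S.n m) → ZMod 3} (hy : y ∈ Typ S K m) :
    y ∈ WW S J v m ↔ ∑ k ∈ TT S J m, s m k * y k = c m + gg S J K v s c m y (rs S J K m y) := by
  have h0 : 0 < S.n m := by omega
  have hbp : bp S J K v m y (rs S J K m y) = mixp (JJ S J m) y (pt S v m) := by
    funext k
    by_cases hkK : (k : ℕ) < K
    · rw [bp_lt_ht13 v y _ _ hkK]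
      unfold glue mixp JJ
      by_cases hkJ : (k : ℕ) ∈ J
      · rw [dif_neg (by rw [mem_sdiff]; rintro ⟨-, h⟩; exact h hkJ),
          if_pos (by rw [mem_filter]; exact ⟨mem_univ _, hkJ⟩)]
        rfl
      · rw [dif_pos (by rw [mem_sdiff, mem_range]; exact ⟨hkK, hkJ⟩),
          if_neg (by rw [mem_filter]; rintro ⟨-, h⟩; exact hkJ h)]
        unfold rs
        rw [dif_pos k.2]
    · rw [bp_ge_ht13 v y _ _ (not_lt.mp hkK)]
      unfold mixp JJ
      rw [if_neg]
      rw [mem_filter]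
      rintro ⟨-, h⟩
      exact hkK (mem_range.mp (hJ h))
  obtain ⟨X, hX⟩ : ∃ X, X = mixp (JJ S J m) y (pt S v m) := ⟨_, rfl⟩
  have hXge : ∀ k : Fin (S.n m), K ≤ (k : ℕ) → X k = y k := by
    intro k hk
    rw [hX, ← hbp]
    exact bp_ge_ht13 v y _ k hk
  have hXT : ∑ k ∈ TT S J m, s m k * X k = ∑ k ∈ TT S J m, s m k * y k := by
    refine sum_congr rfl fun k hk => ?_
    rw [hX]
    unfold mixp
    unfold TT at hk
    rw [if_neg (mem_sdiff.mp hk).2]
  unfold WW gg
  rw [mem_ovw, hbp, ← hX, add_sub_cancel]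
  constructor
  · intro h
    have h1 : X = pp S m X := pp_unique hy hXge h (fun k _ => rfl)
    rw [← h1, hXT]
  · intro h
    rw [← hXT, sum_y_ht13 hK hJ h0, sum_pp_ht13 hK hJ h0] at h
    have h1 : X (lst S m h0) = pp S m X (lst S m h0) := by
      have : Fact (Nat.Prime 3) := ⟨Nat.prime_three⟩
      exact mul_left_cancel₀ (hs m (lst S m h0)) (add_left_cancel h)
    have h2 : X = pp S m X := by
      funext k
      by_cases hkn : (k : ℕ) + 1 < S.n m
      · rw [pp_apply _ k hkn]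
      · have : k = lst S m h0 := by
          apply Fin.ext
          unfold lst
          have := k.2
          dsimp only
          omega
        rw [this]
        exact h1
    rw [h2]
    exact pp_mem hy hXge

/-- `pp (bp x z) ∈ WW S J v m` for typical `x` -/
theorem pp_mem_WW {J : Finset ℕ} {K m : ℕ} (hK : K < S.n m) (hJ : J ⊆ range K) (v : ℕ → ZMod 3)
    {x : Fin (S.n m) → ZMod 3} (hx : x ∈ Typ S K m) (z : ↥(range K \ J) → ZMod 3) :
    pp S m (bp S J K v m x z) ∈ WW S J v m := by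
  unfold WW
  rw [mem_ovw]
  have h1 : mixp (JJ S J m) (pp S m (bp S J K v m x z)) (pt S v m) = pp S m (bp S J K v m x z) := by
    funext k
    unfold mixp
    by_cases hk : k ∈ JJ S J m
    · rw [if_pos hk]
      have hkJ : (k : ℕ) ∈ J := by
        unfold JJ at hk
        exact (mem_filter.mp hk).2
      have hkK : (k : ℕ) < K := mem_range.mp (hJ hkJ)
      rw [pp_apply _ k (by omega), bp_lt_ht13 v x _ _ hkK]
      unfold glue
      rw [dif_neg (by rw [mem_sdiff]; rintro ⟨-, h⟩; exact h hkJ)]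
      rfl
    · rw [if_neg hk]
  rw [h1]
  exact pp_mem hx (fun k hk => bp_ge_ht13 v x _ k hk)

theorem null_pull_ht13 (J : Finset ℕ) (K : ℕ) (v : ℕ → ZMod 3)
    {A : (m : ℕ) → Finset (Fin (S.n m) → ZMod 3)} (h : Null S A) :
    Null S (fun m => (univ : Finset (↥(range K \ J) → ZMod 3)).biUnion
      fun z => univ.filter fun x => pp S m (bp S J K v m x z) ∈ A m) := by
  refine null_biUnion S _ _ (fun z _ => ?_)
  rw [null_iff]
  intro eps heps
  have h1 := (null_iff S).mp h (eps / 3 ^ (K + 1)) (by positivity)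
  filter_upwards [h1] with m hm
  refine (dens_pull_le J v z (A m)).trans ?_
  have h2 : (0 : ℝ) < 3 ^ (K + 1) := by positivity
  calc (3 : ℝ) ^ (K + 1) * dens (A m) ≤ 3 ^ (K + 1) * (eps / 3 ^ (K + 1)) := by gcongr
    _ = eps := by field_simp

open Classical in
/-- If `W ∩ H` is null then the level function never vanishes, outside a null set of `x` (`dens_pull_le`, `pp_mem_WW`). -/
theorem gg_good {J : Finset ℕ} {K : ℕ} (hJ : J ⊆ range K) {s : (m : ℕ) → Fin (S.n m) → ZMod 3}
    {c : ℕ → ZMod 3} {v : ℕ → ZMod 3} (h : GoodW S J v s c) :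
    Null S (fun m => (Typ S K m).filter fun x => ∃ z, gg S J K v s c m x z = 0) := by
  refine Null.mono S (null_pull_ht13 J K v h) ?_
  filter_upwards [n_large S K] with m hK
  intro x hx
  rw [mem_filter] at hx
  obtain ⟨hx, z, hz⟩ := hx
  rw [mem_biUnion]
  refine ⟨z, mem_univ _, ?_⟩
  rw [mem_filter, mem_inter]
  refine ⟨mem_univ _, pp_mem_WW hK hJ v hx z, ?_⟩
  unfold HH
  rw [mem_hyp]
  unfold gg at hz
  exact sub_eq_zero.mp hz

open Classical in
/-- If `W` and `H` agree up to a null set then the level function is zero, outside a null set of `x`. -/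
theorem gg_clean {J : Finset ℕ} {K : ℕ} (hJ : J ⊆ range K) {s : (m : ℕ) → Fin (S.n m) → ZMod 3}
    {c : ℕ → ZMod 3} {v : ℕ → ZMod 3} (h : CleanW S J v s c) :
    Null S (fun m => (Typ S K m).filter fun x => ∃ z, gg S J K v s c m x z ≠ 0) := by
  refine Null.mono S (null_pull_ht13 J K v h) ?_
  filter_upwards [n_large S K] with m hK
  intro x hx
  rw [mem_filter] at hx
  obtain ⟨hx, z, hz⟩ := hx
  rw [mem_biUnion]
  refine ⟨z, mem_univ _, ?_⟩
  rw [mem_filter, mem_symmDiff]
  refine ⟨mem_univ _, Or.inl ⟨pp_mem_WW hK hJ v hx z, ?_⟩⟩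
  unfold HH
  rw [mem_hyp]
  intro h1
  apply hz
  unfold gg
  rw [h1, sub_self]

/-- If `(l, b)` gives a sibling of `(J, v)` and both level functions (with respect to the same `s, c`) vanish at `z`, then the
point `pp (bp x z)` of `WW S J v` has the neighbour `update _ l b` in `U m` (same last coordinate). -/
theorem gg_neighbour {J : Finset ℕ} {K m : ℕ} (hK : K < S.n m) (hJ : J ⊆ range K)
    {s : (m : ℕ) → Fin (S.n m) → ZMod 3} (hs : SSg S s) (c : ℕ → ZMod 3) (v : ℕ → ZMod 3) {l : ℕ} (hl : l ∈ J)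
    (hln : l < S.n m) {b : ZMod 3} {x : Fin (S.n m) → ZMod 3} (hx : x ∈ Typ S K m) {z : ↥(range K \ J) → ZMod 3}
    (h1 : gg S J K v s c m x z = 0) (h2 : gg S J K (Function.update v l b) s c m x z = 0) :
    Function.update (pp S m (bp S J K v m x z)) ⟨l, hln⟩ b ∈ S.U m := by
  have h0 : 0 < S.n m := by omega
  have hlK : l < K := mem_range.mp (hJ hl)
  have hlT : (⟨l, hln⟩ : Fin (S.n m)) ∉ (TT S J m).erase (lst S m h0) := by
    intro h
    have h1 := (mem_erase.mp h).2
    unfold TT JJ at h1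
    rw [mem_sdiff, mem_filter] at h1
    exact h1.2 ⟨mem_univ _, hl⟩
  unfold gg at h1 h2
  rw [sum_pp_ht13 hK hJ h0] at h1 h2
  rw [bp_upd_v_ht13 hJ v x z hl hln b] at h2
  have h3 : ∀ k ∈ (TT S J m).erase (lst S m h0),
      s m k * Function.update (bp S J K v m x z) ⟨l, hln⟩ b k = s m k * bp S J K v m x z k := by
    intro k hk
    rw [Function.update_of_ne]
    rintro rfl
    exact hlT hk
  rw [sum_congr rfl h3] at h2
  have hlast : pp S m (Function.update (bp S J K v m x z) ⟨l, hln⟩ b) (lst S m h0)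
      = pp S m (bp S J K v m x z) (lst S m h0) := by
    have : Fact (Nat.Prime 3) := ⟨Nat.prime_three⟩
    apply mul_left_cancel₀ (hs m (lst S m h0))
    linear_combination h2 - h1
  rw [← pp_update_ht13 (by dsimp only; omega) h0 hlast, ← bp_upd_v_ht13 hJ v x z hl hln b]
  exact pp_mem hx (fun k hk => bp_ge_ht13 _ x _ k hk)

end HT13
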