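import Pool.Agent.HT13.SqNull
import Pool.Agent.HT13.Growth

/-! # HT13-SqNear: near a hyperplane implies clean, and the linear cost (paper: section 5, (5.1)) -/

set_option linter.unusedSectionVars false

namespace HT13

open Finset

/-- a value of a nonnegative function depending only on the coordinates in `J` is at most `3 ^ |J|` times the average -/
private theorem le_mul_avR {ι : Type} [Fintype ι] [DecidableEq ι] (J : Finset ι) (f : (ι → ZMod 3) → ℝ)
    (hf : ∀ x, 0 ≤ f x) (y : ι → ZMod 3) (hfy : ∀ y', (∀ k ∈ J, y' k = y k) → f y' = f y) :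
    f y ≤ 3 ^ J.card * avR f := by
  classical
  have h := cube_pos (ι := ι)
  have hcard : ((univ.filter fun y' : ι → ZMod 3 => ∀ k ∈ J, y' k = y k).card : ℝ) * 3 ^ J.card
      = 3 ^ Fintype.card ι := by
    have e : (univ.filter fun y' : ι → ZMod 3 => ∀ k ∈ J, y' k = y k)
        = Fintype.piFinset (fun k => if k ∈ J then ({y k} : Finset (ZMod 3)) else univ) := by
      ext y'
      simp only [mem_filter, mem_univ, true_and, Fintype.mem_piFinset]
      constructor
      · intro hy k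
        by_cases hk : k ∈ J
        · simp [hk, hy k hk]
        · simp [hk]
      · intro hy k hk
        have := hy k
        simpa [hk] using this
    rw [e, Fintype.card_piFinset]
    push_cast
    have e2 : ∀ k : ι, (((if k ∈ J then ({y k} : Finset (ZMod 3)) else univ).card : ℕ) : ℝ)
        * (if k ∈ J then 3 else 1) = 3 := by
      intro k
      by_cases hk : k ∈ J
      · simp [hk]
      · simp only [hk, if_false, card_univ, ZMod.card]; norm_num
    have e3 : (3 : ℝ) ^ J.card = ∏ k : ι, (if k ∈ J then (3 : ℝ) else 1) := by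
      rw [Finset.prod_ite_mem, univ_inter, prod_const]
    rw [e3, ← prod_mul_distrib]
    simp only [e2]
    rw [prod_const, card_univ]
  have hge : ((univ.filter fun y' : ι → ZMod 3 => ∀ k ∈ J, y' k = y k).card : ℝ) * f y
      ≤ ∑ y', f y' := by
    calc ((univ.filter fun y' : ι → ZMod 3 => ∀ k ∈ J, y' k = y k).card : ℝ) * f y
        = ∑ y' ∈ univ.filter (fun y' : ι → ZMod 3 => ∀ k ∈ J, y' k = y k), f y' := by
          rw [← nsmul_eq_mul, ← sum_const]
          refine sum_congr rfl fun y' hy' => ?_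
          rw [mem_filter] at hy'
          rw [hfy y' hy'.2]
      _ ≤ ∑ y', f y' := sum_le_sum_of_subset_of_nonneg (filter_subset _ _) (fun x _ _ => hf x)
  have hav' : ∑ y', f y' = 3 ^ Fintype.card ι * avR f := by
    unfold avR; field_simp
  rw [hav'] at hge
  have hJ : (0 : ℝ) < 3 ^ J.card := by positivity
  have : ((univ.filter fun y' : ι → ZMod 3 => ∀ k ∈ J, y' k = y k).card : ℝ) * (3 ^ J.card * avR f)
      = 3 ^ Fintype.card ι * avR f := by rw [← mul_assoc, hcard]
  rw [← this] at hge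
  have hc : (0 : ℝ) < ((univ.filter fun y' : ι → ZMod 3 => ∀ k ∈ J, y' k = y k).card : ℝ) := by
    have : (0 : ℝ) < ((univ.filter fun y' : ι → ZMod 3 => ∀ k ∈ J, y' k = y k).card : ℝ) * 3 ^ J.card := by
      rw [hcard]; exact h
    exact (pos_iff_pos_of_mul_pos this).mpr hJ
  exact le_of_mul_le_mul_left hge hc

private theorem card_JJ_le (S : Sq) (J : Finset ℕ) (m : ℕ) : (JJ S J m).card ≤ J.card := by
  refine card_le_card_of_injOn (fun k => (k : ℕ)) ?_ (fun a _ b _ h => Fin.ext h)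
  intro k hk
  have := (mem_filter.1 (mem_coe.1 hk)).2
  exact this

/-- `dens (U m) ≥ 1/3` is the average of the densities of the slices at all the values on `JJ S J m` (`avR_dens_ovw`), each
`≤ 1/3 + A θ^N` (`growth`, `N = (TT S J m).card`), and a fraction `3 ^ (-|J|)` of the values agree with `v` on `J`
(compare `dens_ovw_le` in `Basic.lean` for this counting). -/
theorem slice_dens_ge : ∃ A : ℝ, 0 < A ∧ ∃ θ : ℝ, 0 < θ ∧ θ < 1 ∧ ∀ (S : Sq) (J : Finset ℕ) (v : ℕ → ZMod 3) (m : ℕ),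
    1 / 3 - 3 ^ J.card * (A * θ ^ (TT S J m).card) ≤ dens (WW S J v m) := by
  obtain ⟨A, hA, θ, hθ0, hθ1, hg⟩ := growth
  refine ⟨A, hA, θ, hθ0, hθ1, fun S J v m => ?_⟩
  set g : ℝ := A * θ ^ (TT S J m).card with hgdef
  have hg0 : 0 ≤ g := by positivity
  have h1 : ∀ y : Fin (S.n m) → ZMod 3, dens (ovw (JJ S J m) y (S.U m)) - 1 / 3 ≤ g := fun y =>
    hg (TT S J m) (ovw (JJ S J m) y (S.U m)) (ovw_inv _ _ _) (ovw_valid (S.val m) y)
  have h2 := le_mul_avR (JJ S J m) (fun y => (1 / 3 + g) - dens (ovw (JJ S J m) y (S.U m)))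
    (fun y => by have := h1 y; linarith) (pt S v m) (fun y' hy' => by
      show (1 / 3 + g) - dens (ovw (JJ S J m) y' (S.U m)) = _
      rw [ovw_congr hy'])
  rw [avR_sub, avR_const, avR_dens_ovw] at h2
  have h3 := S.pos m
  have h4 : (3 : ℝ) ^ (JJ S J m).card ≤ 3 ^ J.card :=
    pow_le_pow_right₀ (by norm_num) (card_JJ_le S J m)
  have h5 : (3 : ℝ) ^ (JJ S J m).card * (1 / 3 + g - dens (S.U m)) ≤ 3 ^ J.card * g := by
    calc (3 : ℝ) ^ (JJ S J m).card * (1 / 3 + g - dens (S.U m))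
        ≤ (3 : ℝ) ^ (JJ S J m).card * g := by
          apply mul_le_mul_of_nonneg_left _ (by positivity)
          linarith
      _ ≤ 3 ^ J.card * g := by gcongr
  have h6 : dens (WW S J v m) = dens (ovw (JJ S J m) (pt S v m) (S.U m)) := rfl
  rw [h6]
  linarith

private theorem near_core : ∃ eps1 : ℝ, 0 < eps1 ∧ ∃ c0 : ℝ, 0 < c0 ∧ ∃ A : ℝ, 0 < A ∧ ∃ θ : ℝ, 0 < θ ∧ θ < 1 ∧
    ∀ (S : Sq) (J : Finset ℕ) (v : ℕ → ZMod 3) (s : (m : ℕ) → Fin (S.n m) → ZMod 3) (c : ℕ → ZMod 3) (m : ℕ),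
    SSg S s → (TT S J m).Nonempty → dens (symmDiff (WW S J v m) (HH S J s c m)) ≤ eps1 →
    ∃ X D : ℝ, X = dens (HH S J s c m \ WW S J v m) ∧ dens (symmDiff (WW S J v m) (HH S J s c m)) = D + X ∧
      0 ≤ X ∧ D ≤ X ∧ c0 * (X * Real.log (1 / X)) ≤ (TT S J m).card * (X - D) ∧
      X ≤ (3 ^ J.card * A / c0) * ((TT S J m).card * θ ^ (TT S J m).card) ∧
      exc (TT S J m) (WW S J v m) = - ((X - D) * 3 ^ (TT S J m).card) := by
  obtain ⟨A, hA, θ, hθ0, hθ1, hsl⟩ := slice_dens_ge
  obtain ⟨eps0, he0, c0, hc0, hT⟩ := lemmaT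
  refine ⟨min eps0 (Real.exp (-1)), lt_min he0 (Real.exp_pos _), c0, hc0, A, hA, θ, hθ0, hθ1, ?_⟩
  intro S J v s c m hs hne hd
  have h1 : dens (symmDiff (WW S J v m) (HH S J s c m)) =
      dens (WW S J v m \ HH S J s c m) + dens (HH S J s c m \ WW S J v m) := dens_symmDiff _ _
  obtain ⟨h2, h3⟩ := hT (TT S J m) (WW S J v m) (WW_inv S J v m) (WW_valid S J v m) (s m) (hs m) (c m)
    (by
      have := hd.trans (min_le_left _ _)
      rw [h1] at this
      exact this)
  have h4 := dens_sdiff_add_inter (WW S J v m) (HH S J s c m)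
  have h5 := dens_sdiff_add_inter (HH S J s c m) (WW S J v m)
  rw [inter_comm] at h5
  have h6 : dens (HH S J s c m) = 1 / 3 := dens_hyp hne (hs m) (c m)
  have h7 := hsl S J v m
  have hX0 : 0 ≤ dens (HH S J s c m \ WW S J v m) := dens_nonneg _
  have hD0 : 0 ≤ dens (WW S J v m \ HH S J s c m) := dens_nonneg _
  refine ⟨dens (HH S J s c m \ WW S J v m), dens (WW S J v m \ HH S J s c m), rfl, h1, hX0, h2, h3, ?_, ?_⟩
  · set X := dens (HH S J s c m \ WW S J v m) with hX
    set D := dens (WW S J v m \ HH S J s c m) with hD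
    have h8 : X ≤ X * Real.log (1 / X) := by
      rcases hX0.eq_or_lt with h9 | h9
      · rw [← h9]; simp
      · have h10 : X ≤ Real.exp (-1) := by
          have := hd.trans (min_le_right _ _)
          rw [h1] at this
          linarith
        have h11 : 1 ≤ Real.log (1 / X) := by
          rw [one_div, Real.log_inv]
          have h12 := Real.log_le_log h9 h10
          rw [Real.log_exp] at h12
          linarith
        nlinarith
    have h9 : X - D ≤ 3 ^ J.card * (A * θ ^ (TT S J m).card) := by linarith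
    have hN0 : (0 : ℝ) ≤ (TT S J m).card := Nat.cast_nonneg _
    have h10 : c0 * X ≤ (TT S J m).card * (3 ^ J.card * (A * θ ^ (TT S J m).card)) :=
      (mul_le_mul_of_nonneg_left h8 hc0.le).trans (h3.trans (mul_le_mul_of_nonneg_left h9 hN0))
    have h11 : (3 ^ J.card * A / c0) * ((TT S J m).card * θ ^ (TT S J m).card) =
        ((TT S J m).card * (3 ^ J.card * (A * θ ^ (TT S J m).card))) / c0 := by ring
    rw [h11, le_div_iff₀ hc0]
    linarith
  · unfold exc
    have h8 : dens (WW S J v m) - 1 / 3 =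
        - (dens (HH S J s c m \ WW S J v m) - dens (WW S J v m \ HH S J s c m)) := by linarith
    rw [h8]
    ring

private theorem card_TT_large (S : Sq) (J : Finset ℕ) (N : ℕ) :
    ∀ᶠ m in (UU : Filter ℕ), N ≤ (TT S J m).card := by
  filter_upwards [card_TT S J, n_large S (N + J.card)] with m h1 h2
  omega

private theorem small_tail {C θ : ℝ} (hθ0 : 0 < θ) (hθ1 : θ < 1) {eps : ℝ} (heps : 0 < eps) :
    ∃ N0 : ℕ, ∀ N : ℕ, N0 ≤ N → C * (N * θ ^ N) ≤ eps := by
  have h1 := (tendsto_self_mul_const_pow_of_lt_one hθ0.le hθ1).const_mul C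
  rw [mul_zero] at h1
  have h2 := h1.eventually (ge_mem_nhds heps)
  rw [Filter.eventually_atTop] at h2
  exact h2

/-- Let `X = dens (H \ W)`, `D = dens (W \ H)`, `N = (TT S J m).card`; `X - D = 1/3 - dens W ≤ 3^|J| A θ^N` (for most `m`:
`TT` nonempty).  Lemma T: `D ≤ X` and `c0 X log (1/X) ≤ N (X - D) ≤ N 3^|J| A θ^N → 0`; as `X ≤ eps1 ≤ exp (-1)`,
`X ≤ X log (1/X)`, so `X → 0` and `dens (symmDiff W H) = D + X ≤ 2 X → 0`. -/
theorem near_clean : ∃ eps1 : ℝ, 0 < eps1 ∧ ∀ (S : Sq) (J : Finset ℕ) (v : ℕ → ZMod 3)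
    (s : (m : ℕ) → Fin (S.n m) → ZMod 3) (c : ℕ → ZMod 3), SSg S s →
    (∀ᶠ m in (UU : Filter ℕ), dens (symmDiff (WW S J v m) (HH S J s c m)) ≤ eps1) → CleanW S J v s c := by
  obtain ⟨eps1, he1, c0, hc0, A, hA, θ, hθ0, hθ1, hcore⟩ := near_core
  refine ⟨eps1, he1, fun S J v s c hs hev => ?_⟩
  refine (null_iff S).2 fun eps heps => ?_
  obtain ⟨N0, hN0⟩ := small_tail (C := 3 ^ J.card * A / c0) hθ0 hθ1 (half_pos heps)
  filter_upwards [hev, TT_nonempty S J, card_TT_large S J N0] with m h1 h2 h3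
  obtain ⟨X, D, -, h4, -, h5, -, h6, -⟩ := hcore S J v s c m hs h2 h1
  have h7 := hN0 _ h3
  rw [h4]
  linarith

/-- As above `X ≤ (1/c0) N 3^|J| A θ^N`, so `log (1/X) ≥ (1/2) |log θ| N` for most `m` (if `X ≠ 0`), so
`N (X - D) ≥ c0 X log (1/X) ≥ (c0/2) |log θ| N X`, `X - D ≥ c' X`, and `exc = - (X - D) 3^N`. -/
theorem clean_cost : ∃ c' : ℝ, 0 < c' ∧ ∀ (S : Sq) (J : Finset ℕ) (v : ℕ → ZMod 3)
    (s : (m : ℕ) → Fin (S.n m) → ZMod 3) (c : ℕ → ZMod 3), SSg S s → CleanW S J v s c →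
    ∀ᶠ m in (UU : Filter ℕ), exc (TT S J m) (WW S J v m)
      ≤ - (c' * (dens (HH S J s c m \ WW S J v m) * 3 ^ (TT S J m).card)) := by
  obtain ⟨eps1, he1, c0, hc0, A, hA, θ, hθ0, hθ1, hcore⟩ := near_core
  have hρ0 : 0 < √θ := Real.sqrt_pos.2 hθ0
  have hρ1 : √θ < 1 := by
    rw [Real.sqrt_lt' one_pos]
    simpa using hθ1
  have hρρ : √θ * √θ = θ := Real.mul_self_sqrt hθ0.le
  have hlog : 0 < - Real.log (√θ) := by
    have := Real.log_neg hρ0 hρ1
    linarith
  refine ⟨c0 * (- Real.log (√θ)), mul_pos hc0 hlog, fun S J v s c hs hcl => ?_⟩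
  obtain ⟨N0, hN0⟩ := small_tail (C := 3 ^ J.card * A / c0) hρ0 hρ1 one_pos
  filter_upwards [(null_iff S).1 hcl eps1 he1, TT_nonempty S J, card_TT_large S J N0] with m h1 h2 h3
  obtain ⟨X, D, hX, -, hX0, h5, h6, h7, h8⟩ := hcore S J v s c m hs h2 h1
  rw [← hX, h8]
  have hN : (0 : ℝ) < (TT S J m).card := by exact_mod_cast card_pos.2 h2
  have h3N : (0 : ℝ) < 3 ^ (TT S J m).card := by positivity
  have key : c0 * (- Real.log (√θ)) * X ≤ X - D := by
    rcases hX0.eq_or_lt with h9 | h9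
    · rw [← h9] at h5 ⊢
      linarith
    · have h10 : X ≤ √θ ^ (TT S J m).card := by
        have h11 := hN0 _ h3
        have h12 : (3 ^ J.card * A / c0) * ((TT S J m).card * θ ^ (TT S J m).card) =
            ((3 ^ J.card * A / c0) * ((TT S J m).card * √θ ^ (TT S J m).card)) *
              √θ ^ (TT S J m).card := by
          have h13 : θ ^ (TT S J m).card = √θ ^ (TT S J m).card * √θ ^ (TT S J m).card := by
            rw [← mul_pow, hρρ]
          rw [h13]
          ring
        rw [h12] at h7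
        refine h7.trans ?_
        have h14 : 0 ≤ √θ ^ (TT S J m).card := by positivity
        nlinarith
      have h11 : (TT S J m).card * (- Real.log (√θ)) ≤ Real.log (1 / X) := by
        rw [one_div, Real.log_inv]
        have h12 := Real.log_le_log h9 h10
        rw [Real.log_pow] at h12
        linarith
      have h12 : c0 * (X * ((TT S J m).card * (- Real.log (√θ)))) ≤ (TT S J m).card * (X - D) := by
        refine le_trans ?_ h6
        apply mul_le_mul_of_nonneg_left _ hc0.le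
        exact mul_le_mul_of_nonneg_left h11 hX0
      have h13 : (TT S J m).card * (c0 * (- Real.log (√θ)) * X) ≤ (TT S J m).card * (X - D) := by
        calc (TT S J m).card * (c0 * (- Real.log (√θ)) * X)
            = c0 * (X * ((TT S J m).card * (- Real.log (√θ)))) := by ring
          _ ≤ _ := h12
      exact le_of_mul_le_mul_left h13 hN
  have h9 : c0 * (- Real.log (√θ)) * (X * 3 ^ (TT S J m).card) ≤ (X - D) * 3 ^ (TT S J m).card := by
    calc c0 * (- Real.log (√θ)) * (X * 3 ^ (TT S J m).card)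
        = (c0 * (- Real.log (√θ)) * X) * 3 ^ (TT S J m).card := by ring
      _ ≤ _ := mul_le_mul_of_nonneg_right key h3N.le
  linarith

end HT13
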