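import Pool.Agent.HT13.SqBase

/-! # HT13-SqNull: null sequences, clean and good cylinders (paper: section 5) -/

set_option linter.unusedSectionVars false

namespace HT13

open Finset

variable (S : Sq)

theorem null_iff {A : (m : ℕ) → Finset (Fin (S.n m) → ZMod 3)} :
    Null S A ↔ ∀ eps : ℝ, 0 < eps → ∀ᶠ m in (UU : Filter ℕ), dens (A m) ≤ eps := by
  constructor
  · intro h eps heps
    exact h.eventually_le_const heps
  · intro h
    unfold Null
    rw [Metric.tendsto_nhds]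
    intro eps heps
    filter_upwards [h (eps / 2) (half_pos heps)] with m hm
    rw [Real.dist_eq, sub_zero, abs_of_nonneg (dens_nonneg _)]
    linarith

/-- ultrafilter dichotomy -/
theorem not_null {A : (m : ℕ) → Finset (Fin (S.n m) → ZMod 3)} (h : ¬ Null S A) :
    ∃ eps : ℝ, 0 < eps ∧ ∀ᶠ m in (UU : Filter ℕ), eps ≤ dens (A m) := by
  rw [null_iff] at h
  push Not at h
  obtain ⟨eps, heps, h⟩ := h
  refine ⟨eps, heps, ?_⟩
  exact h.mono fun m hm => hm.le

theorem null_empty : Null S (fun _ => ∅) := by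
  unfold Null
  simp only [dens_empty]
  exact tendsto_const_nhds

theorem Null.mono {A B : (m : ℕ) → Finset (Fin (S.n m) → ZMod 3)} (h : Null S B)
    (hAB : ∀ᶠ m in (UU : Filter ℕ), A m ⊆ B m) : Null S A := by
  rw [null_iff] at h ⊢
  intro eps heps
  filter_upwards [h eps heps, hAB] with m h1 h2
  exact (dens_mono h2).trans h1

theorem Null.union {A B : (m : ℕ) → Finset (Fin (S.n m) → ZMod 3)} (hA : Null S A) (hB : Null S B) :
    Null S (fun m => A m ∪ B m) := by
  rw [null_iff] at hA hB ⊢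
  intro eps heps
  filter_upwards [hA (eps / 2) (half_pos heps), hB (eps / 2) (half_pos heps)] with m h1 h2
  have h3 := dens_union_le (A m) (B m)
  linarith

theorem null_biUnion {α : Type} [DecidableEq α] (s : Finset α) (A : α → (m : ℕ) → Finset (Fin (S.n m) → ZMod 3))
    (h : ∀ a ∈ s, Null S (A a)) : Null S (fun m => s.biUnion fun a => A a m) := by
  induction s using Finset.induction_on with
  | empty =>
    simp only [Finset.biUnion_empty]
    exact null_empty S
  | insert a s _ ih =>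
    simp only [Finset.biUnion_insert]
    exact Null.union S (h a (mem_insert_self a s)) (ih fun b hb => h b (mem_insert_of_mem hb))

theorem Null.ovw {A : (m : ℕ) → Finset (Fin (S.n m) → ZMod 3)} (h : Null S A) (J : Finset ℕ) (v : ℕ → ZMod 3) :
    Null S (fun m => ovw (JJ S J m) (pt S v m) (A m)) := by
  rw [null_iff] at h ⊢
  intro eps heps
  have h3 : (0 : ℝ) < 3 ^ J.card := by positivity
  filter_upwards [h (eps / 3 ^ J.card) (div_pos heps h3), card_JJ S J] with m h1 h2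
  have h4 := dens_ovw_le (JJ S J m) (pt S v m) (A m)
  rw [h2] at h4
  refine h4.trans ?_
  rw [le_div_iff₀ h3] at h1
  linarith

theorem null_nonempty {A : (m : ℕ) → Finset (Fin (S.n m) → ZMod 3)} (h : Null S A) :
    ∀ᶠ m in (UU : Filter ℕ), (univ \ A m).Nonempty := by
  rw [null_iff] at h
  filter_upwards [h (1 / 2) (by norm_num)] with m hm
  rw [Finset.nonempty_iff_ne_empty]
  intro h1
  rw [Finset.sdiff_eq_empty_iff_subset] at h1
  have h2 := dens_mono h1
  rw [dens_univ] at h2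
  linarith

variable {S}

theorem CleanW.congr {J : Finset ℕ} {v v' : ℕ → ZMod 3} {s : (m : ℕ) → Fin (S.n m) → ZMod 3} {c : ℕ → ZMod 3}
    (h : CleanW S J v s c) (hv : ∀ k ∈ J, v k = v' k) : CleanW S J v' s c := by
  unfold CleanW at h ⊢
  have h1 : (fun m => symmDiff (WW S J v' m) (HH S J s c m)) = fun m => symmDiff (WW S J v m) (HH S J s c m) := by
    funext m
    rw [WW_congr S hv m]
  rw [h1]
  exact h

theorem GoodW.congr {J : Finset ℕ} {v v' : ℕ → ZMod 3} {s : (m : ℕ) → Fin (S.n m) → ZMod 3} {c : ℕ → ZMod 3}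
    (h : GoodW S J v s c) (hv : ∀ k ∈ J, v k = v' k) : GoodW S J v' s c := by
  unfold GoodW at h ⊢
  have h1 : (fun m => WW S J v' m ∩ HH S J s c m) = fun m => WW S J v m ∩ HH S J s c m := by
    funext m
    rw [WW_congr S hv m]
  rw [h1]
  exact h

theorem Clean.congr {J : Finset ℕ} {v v' : ℕ → ZMod 3} (h : Clean S J v) (hv : ∀ k ∈ J, v k = v' k) :
    Clean S J v' := by
  obtain ⟨s, hs, c, hc⟩ := h
  exact ⟨s, hs, c, hc.congr hv⟩

theorem Good.congr {J : Finset ℕ} {v v' : ℕ → ZMod 3} (h : Good S J v) (hv : ∀ k ∈ J, v k = v' k) :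
    Good S J v' := by
  obtain ⟨s, hs, c, hc⟩ := h
  exact ⟨s, hs, c, hc.congr hv⟩

theorem CleanW.ext {J J' : Finset ℕ} {v : ℕ → ZMod 3} {s : (m : ℕ) → Fin (S.n m) → ZMod 3} {c : ℕ → ZMod 3}
    (h : CleanW S J v s c) (hJ : J ⊆ J') : CleanW S J' v s (fun m => c m - ∑ k ∈ J' \ J, cf S s k m * v k) := by
  unfold CleanW at h ⊢
  have h1 := Null.ovw S h (J' \ J) v
  refine Null.mono S h1 (Filter.Eventually.of_forall fun m => ?_)
  rw [WW_ext S hJ v m, HH_ext S hJ v s c m]
  intro x hx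
  rw [mem_symmDiff, mem_ovw, mem_ovw] at hx
  rw [mem_ovw, mem_symmDiff]
  exact hx

theorem GoodW.ext {J J' : Finset ℕ} {v : ℕ → ZMod 3} {s : (m : ℕ) → Fin (S.n m) → ZMod 3} {c : ℕ → ZMod 3}
    (h : GoodW S J v s c) (hJ : J ⊆ J') : GoodW S J' v s (fun m => c m - ∑ k ∈ J' \ J, cf S s k m * v k) := by
  unfold GoodW at h ⊢
  have h1 := Null.ovw S h (J' \ J) v
  refine Null.mono S h1 (Filter.Eventually.of_forall fun m => ?_)
  rw [WW_ext S hJ v m, HH_ext S hJ v s c m]
  intro x hx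
  rw [mem_inter, mem_ovw, mem_ovw] at hx
  rw [mem_ovw, mem_inter]
  exact hx

theorem Clean.ext {J J' : Finset ℕ} {v : ℕ → ZMod 3} (h : Clean S J v) (hJ : J ⊆ J') : Clean S J' v := by
  obtain ⟨s, hs, c, hc⟩ := h
  exact ⟨s, hs, _, hc.ext hJ⟩

theorem Good.ext {J J' : Finset ℕ} {v : ℕ → ZMod 3} (h : Good S J v) (hJ : J ⊆ J') : Good S J' v := by
  obtain ⟨s, hs, c, hc⟩ := h
  exact ⟨s, hs, _, hc.ext hJ⟩

/-- `W ∩ (H + γ) ⊆ W \ H` for `γ ≠ 0`. -/
theorem CleanW.goodW {J : Finset ℕ} {v : ℕ → ZMod 3} {s : (m : ℕ) → Fin (S.n m) → ZMod 3} {c : ℕ → ZMod 3}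
    (h : CleanW S J v s c) {γ : ZMod 3} (hγ : γ ≠ 0) : GoodW S J v s (fun m => c m + γ) := by
  unfold CleanW at h
  unfold GoodW
  refine Null.mono S h (Filter.Eventually.of_forall fun m => ?_)
  intro x hx
  rw [mem_inter] at hx
  rw [mem_symmDiff]
  refine Or.inl ⟨hx.1, fun h1 => ?_⟩
  have h2 : c m ≠ c m + γ := by
    intro h3
    exact hγ (left_eq_add.mp h3)
  exact Finset.disjoint_left.mp (hyp_disjoint h2) h1 hx.2

theorem Clean.good {J : Finset ℕ} {v : ℕ → ZMod 3} (h : Clean S J v) : Good S J v := by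
  obtain ⟨s, hs, c, hc⟩ := h
  exact ⟨s, hs, _, hc.goodW (one_ne_zero : (1 : ZMod 3) ≠ 0)⟩

end HT13
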